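import Pool.Agent.MP_e1dc65_gt.Spec0
import Pool.Agent.MP_e1dc65_gt.t1.Base
import Mathlib.Analysis.SpecialFunctions.Complex.Circle

/-! PROJECT HC, part T2: generic embeddings along a two-dimensional spine, normal frames.
Statements. -/

open scoped ContDiff Manifold Topology Real
open Set Filter Function Module Metric

noncomputable section

namespace Pool.Agent.MP_e1dc65_gt.T2

/-- row GEN: a small perturbation with compact support is an injective immersion along a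
two-dimensional compact set -/
def GenStmt : Prop :=
  ∀ (E : Type) [NormedAddCommGroup E] [NormedSpace ℝ E] [FiniteDimensional ℝ E] (X : Mf E)
    (g₀ : X → Rn 5) (K S W : Set X) (δ : ℝ), finrank ℝ E = 3 → Sm X (vs (Rn 5)) g₀ univ →
    IsCompact K → T1.Rect (Rn 2) E K → IsOpen S → IsOpen W → K ⊆ S ∪ W → InjOn g₀ S →
    (∀ x ∈ S, Injective (Df X (vs (Rn 5)) g₀ x)) → 0 < δ →
    ∃ (g : X → Rn 5) (C : Set X), Sm X (vs (Rn 5)) g univ ∧ IsCompact C ∧ C ⊆ W ∧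
      (∀ x ∉ C, g x = g₀ x) ∧ (∀ x, ‖g x - g₀ x‖ ≤ δ) ∧ InjOn g K ∧
      ∀ x ∈ K, Injective (Df X (vs (Rn 5)) g x)

/-- row GEN: a vector field along a one-dimensional set that is nowhere tangent -/
def Gen1Stmt : Prop :=
  ∀ (E : Type) [NormedAddCommGroup E] [NormedSpace ℝ E] [FiniteDimensional ℝ E] (X : Mf E)
    (g : X → Rn 5) (χ : X → ℝ) (e : Rn 5) (K : Set X), finrank ℝ E = 3 →
    Sm X (vs (Rn 5)) g univ → Sm X (vs ℝ) χ univ → T1.Rect ℝ E K →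
    ∃ v : Rn 5, ∀ x ∈ K, χ x ≠ 0 → e + χ x • v ∉ range (Df X (vs (Rn 5)) g x)

/-- `N` completes the monomorphism `a` to an isomorphism -/
def Fr (a : Rn 3 →L[ℝ] Rn 5) (N : ℂ →L[ℝ] Rn 5) : Prop := Injective (a.coprod N)

/-- the map `μ` from the unit circle to `ℂ ∖ 0` has winding number `k` -/
def Wind (μ : ℂ → ℂ) (k : ℤ) : Prop :=
  ∃ l : ℝ → ℂ, Continuous l ∧ (∀ t : ℝ, Complex.exp (l t) = μ (Complex.exp (t * Complex.I))) ∧
    ∀ t, l (t + 2 * π) = l t + k * (2 * π * Complex.I)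

/-- multiplication by a complex number as a real linear map -/
abbrev mulC (w : ℂ) : ℂ →L[ℝ] ℂ := ContinuousLinearMap.mul ℝ ℂ w

/-- row CROSS: a vector outside the image gives a frame, continuously -/
def CrossStmt : Prop :=
  ∃ N : (Rn 3 →L[ℝ] Rn 5) × Rn 5 → ℂ →L[ℝ] Rn 5, Continuous N ∧
    (∀ (a : Rn 3 →L[ℝ] Rn 5) (v : Rn 5), Injective a → v ∉ range a → Fr a (N (a, v))) ∧
    ∀ (a : Rn 3 →L[ℝ] Rn 5) (A : Rn 3 →L[ℝ] Rn 3), (∀ u, a u = ![A u 0, A u 1, A u 2, 0, 0]) →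
      ∀ z : ℂ, N (a, Pi.single 3 1) z = ![0, 0, 0, z.re, A.det * z.im]

/-- row DISC: a frame on the boundary circle extends to the disc after turning it by a map of
the right winding number -/
def DiscStmt : Prop :=
  ∀ (a : ℂ → Rn 3 →L[ℝ] Rn 5) (N : ℂ → ℂ →L[ℝ] Rn 5), ContinuousOn a (closedBall 0 1) →
    (∀ y ∈ closedBall (0 : ℂ) 1, Injective (a y)) → ContinuousOn N (sphere 0 1) →
    (∀ y ∈ sphere (0 : ℂ) 1, Fr (a y) (N y)) →
    ∃ k : ℤ, ∀ μ : ℂ → ℂ, ContinuousOn μ (sphere 0 1) → Wind μ k →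
      ∃ N' : ℂ → ℂ →L[ℝ] Rn 5, ContinuousOn N' (closedBall 0 1) ∧
        (∀ y ∈ closedBall (0 : ℂ) 1, Fr (a y) (N' y)) ∧
        ∀ y ∈ sphere (0 : ℂ) 1, N' y = (N y).comp (mulC (μ y))

/-- row SMFR: smoothing of a continuous frame on a closed set `Z`, keeping a given constant value
on a closed set `B` near which it is (on `Z`) the constant frame up to a positive factor -/
def SmFrStmt : Prop :=
  ∀ (E : Type) [NormedAddCommGroup E] [NormedSpace ℝ E] [FiniteDimensional ℝ E] (X : Mf E)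
    (a : X → Rn 3 →L[ℝ] Rn 5) (N : X → ℂ →L[ℝ] Rn 5) (N₀ : ℂ →L[ℝ] Rn 5) (Z B O : Set X),
    IsClosed Z → IsClosed B → IsOpen O → B ⊆ O → ContinuousOn a Z → ContinuousOn N Z →
    (∀ x ∈ Z, Fr (a x) (N x)) →
    (∀ x ∈ Z ∩ O, ∃ c : ℝ, 0 < c ∧ N x 1 = N₀ 1 ∧ N x Complex.I = c • N₀ Complex.I) →
    ∃ N' : X → ℂ →L[ℝ] Rn 5, Sm X (vs (ℂ →L[ℝ] Rn 5)) N' univ ∧ (∀ x ∈ Z, Fr (a x) (N' x)) ∧
      ∀ x ∈ B, N' x = N₀

end Pool.Agent.MP_e1dc65_gt.T2
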