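import Mathlib.Analysis.InnerProductSpace.Projection.FiniteDimensional
import Pool.Agent.MP_e1dc65_gt.Spec0
import Mathlib.Analysis.InnerProductSpace.GramSchmidtOrtho
import Mathlib.Analysis.InnerProductSpace.PiL2
import Mathlib.Topology.Instances.Matrix
import Mathlib.LinearAlgebra.Matrix.Block
import Mathlib.Analysis.Normed.Module.Connected
import Mathlib.Topology.Algebra.Star.Unitary
import Mathlib.Topology.Covering.Quotient
import Mathlib.Topology.Homotopy.Lifting
import Mathlib.Geometry.Manifold.PartitionOfUnity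
import Mathlib.Analysis.InnerProductSpace.Adjoint
import Mathlib.LinearAlgebra.QuadraticForm.Basic
import Pool.Agent.MP_e1dc65_gt.t2.Spec
import Mathlib.Analysis.Complex.BranchLogRoot
import Mathlib.Analysis.InnerProductSpace.EuclideanDist
import Mathlib.Analysis.SpecialFunctions.Complex.Arg
import Mathlib.Analysis.Convex.Contractible
import Mathlib.LinearAlgebra.Complex.FiniteDimensional
import Mathlib.LinearAlgebra.Matrix.NonsingularInverse

-- ======== part 0: formerly Pool.Agent.MP_e1dc65_gt.k.Cof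
section MrgPart0

/-! PROJECT HC, row COF: vector valued one-forms, coframes, transition matrices, positivity. -/

open scoped ContDiff Manifold Topology Quaternion Matrix
open Set Filter Function Module Pool.Agent.MP_c8d41b_gt.GF

noncomputable section

namespace Pool.Agent.MP_e1dc65_gt

variable {E E' V V' V'' : Type} [NormedAddCommGroup E] [NormedSpace ℝ E] [FiniteDimensional ℝ E]
  [NormedAddCommGroup E'] [NormedSpace ℝ E'] [FiniteDimensional ℝ E']
  [NormedAddCommGroup V] [NormedSpace ℝ V] [NormedAddCommGroup V'] [NormedSpace ℝ V']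
  [NormedAddCommGroup V''] [NormedSpace ℝ V'']
  {X : Mf E} {Y : Mf E'} {n m : WithTop ℕ∞} {x : X} {U U' : Set X}

instance factZeroLe : Fact ((0 : WithTop ℕ∞) ≤ ∞) := ⟨by simp⟩
instance factBotLe : Fact ((⊥ : WithTop ℕ∞) ≤ ∞) := ⟨bot_le⟩
instance factTopLe : Fact ((∞ : WithTop ℕ∞) ≤ ∞) := ⟨le_rfl⟩

/-! ### Vector valued functions of class `C^n` -/

/-- a function with values in a normed space is `C^n` at `x`; for `n = ∞` this is `SmAt X (vs V)` -/
abbrev CnAt {E V : Type} [NormedAddCommGroup E] [NormedSpace ℝ E] [NormedAddCommGroup V]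
    [NormedSpace ℝ V] (X : Mf E) (n : WithTop ℕ∞) (g : X → V) (x : X) : Prop :=
  ContMDiffAt 𝓘(ℝ, E) 𝓘(ℝ, V) n g x

omit [FiniteDimensional ℝ E] in
theorem cnAt_iff {g : X → V} :
    CnAt X n g x ↔ ContDiffAt ℝ n (fun z => g ((ch X x).symm z)) (ch X x x) := by
  rw [CnAt, contMDiffAt_iff_source, modelWithCornersSelf_coe, range_id, contMDiffWithinAt_univ,
    contMDiffAt_iff_contDiffAt]
  rfl

omit [FiniteDimensional ℝ E] in
theorem cnAt_top [FiniteDimensional ℝ V] {g : X → V} : CnAt X ∞ g x ↔ SmAt X (vs V) g x := Iff.rfl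

omit [FiniteDimensional ℝ E] [FiniteDimensional ℝ E'] in
theorem SmAt.cn {f : X → Y} {g : Y → V} (hf : SmAt X Y f x) (hg : CnAt Y n g (f x))
    [hn : Fact (n ≤ ∞)] : CnAt X n (fun x => g (f x)) x := hg.comp x (hf.of_le hn.out)

omit [FiniteDimensional ℝ E] in
/-- `C^0` at every point of an open set is continuity -/
theorem cnAt_zero {g : X → V} (hU : U ∈ 𝓝 x) (h : ContinuousOn g U) : CnAt X 0 g x :=
  (contMDiffOn_zero_iff.2 h).contMDiffAt hU

omit [FiniteDimensional ℝ E] [FiniteDimensional ℝ E'] in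
theorem SmAt.ev_md {f : X → Y} (h : SmAt X Y f x) :
    ∀ᶠ y in 𝓝 x, MDifferentiableAt 𝓘(ℝ, E) 𝓘(ℝ, E') f y := by
  have h1 : ContMDiffAt 𝓘(ℝ, E) 𝓘(ℝ, E') 1 f x := h.of_le (by simp)
  filter_upwards [(contMDiffAt_iff_contMDiffAt_nhds (by simp)).1 h1] with y hy
  exact hy.mdifferentiableAt (by simp)

omit [FiniteDimensional ℝ E] in
theorem ch_symm_self : (ch X x).symm (ch X x x) = x := (ch X x).left_inv (mem_chart_source E x)

omit [FiniteDimensional ℝ E] in
theorem ch_src_nhds : (ch X x).source ∈ 𝓝 x := chart_source_mem_nhds E x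

omit [FiniteDimensional ℝ E] in
theorem ch_tgt_nhds : (ch X x).target ∈ 𝓝 (ch X x x) := chart_target_mem_nhds E x

omit [FiniteDimensional ℝ E] in
theorem ch_symm_tendsto : Tendsto (ch X x).symm (𝓝 (ch X x x)) (𝓝 x) :=
  (ch X x).tendsto_symm (mem_chart_source E x)

/-- the coordinate frame of the chart at `x`, at the point `y` -/
def cfr (X : Mf E) (x y : X) : E →L[ℝ] E := Df (vs E) X (ch X x).symm (ch X x y)

theorem cfr_inv {y : X} (h : y ∈ (ch X x).source) : (cfr X x y).IsInvertible :=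
  (ldAt_ch_symm ((ch X x).map_source h)).inv

theorem Df_ch_cfr {y : X} (h : y ∈ (ch X x).source) :
    (Df X (vs E) (ch X x) y).comp (cfr X x y) = ContinuousLinearMap.id ℝ E := by
  have h1 := (ch X x).map_source h
  have h2 := Df_comp (X := vs E) (Y := X) (Z := vs E) (g := ch X x) (smAt_ch_symm h1)
    (smAt_ch (by rwa [(ch X x).left_inv h]))
  rw [(ch X x).left_inv h] at h2
  rw [cfr, ← h2, ← Df_id (X := vs E) (x := ch X x y)]
  refine Df_congr ?_
  filter_upwards [(ch X x).open_target.mem_nhds h1] with z hz using (ch X x).right_inv hz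

theorem cfr_self : cfr X x x = ContinuousLinearMap.id ℝ E := by
  have := Df_ch_cfr (mem_chart_source E x : x ∈ (ch X x).source)
  rwa [Df_ch_self, ContinuousLinearMap.id_comp] at this

theorem cfr_Df_ch {y : X} (h : y ∈ (ch X x).source) :
    (cfr X x y).comp (Df X (vs E) (ch X x) y) = ContinuousLinearMap.id ℝ E := by
  obtain ⟨L, hL⟩ := cfr_inv h
  have := Df_ch_cfr h
  rw [← hL] at this ⊢
  ext v
  obtain ⟨w, rfl⟩ := L.surjective v
  exact congrArg L (congrArg (fun T : E →L[ℝ] E => T w) this)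

theorem cfr_inverse {y : X} (h : y ∈ (ch X x).source) :
    (cfr X x y).inverse = Df X (vs E) (ch X x) y :=
  ContinuousLinearMap.inverse_eq (cfr_Df_ch h) (Df_ch_cfr h)

/-! ### Vector valued one-forms -/

section Cf
variable {Θ Θ₁ Θ₂ : X → E →L[ℝ] V} {Θ' : X → E →L[ℝ] V'}

/-- the components in the coordinate frame are `C^n` -/
theorem cfAt_iff : CfAt X n Θ x ↔ CnAt X n (fun y => (Θ y).comp (cfr X x y)) x := by
  rw [cnAt_iff, CfAt]
  have e : (fun y => (Θ ((ch X x).symm y)).comp (Df (vs E) X (ch X x).symm y)) =ᶠ[𝓝 (ch X x x)]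
      fun z => (Θ ((ch X x).symm z)).comp (cfr X x ((ch X x).symm z)) := by
    filter_upwards [ch_tgt_nhds (X := X) (x := x)] with z hz
    rw [cfr, (ch X x).right_inv hz]
  exact ⟨fun h => h.congr_of_eventuallyEq e.symm, fun h => h.congr_of_eventuallyEq e⟩

theorem cfAt_vs {Θ : E → E →L[ℝ] V} {x : E} : CfAt (vs E) n Θ x ↔ ContDiffAt ℝ n Θ x := by
  have : (fun y => (Θ ((ch (vs E) x).symm y)).comp (Df (vs E) (vs E) (ch (vs E) x).symm y)) = Θ :=
    funext fun y => by
      have e : Df (vs E) (vs E) (ch (vs E) x).symm y = ContinuousLinearMap.id ℝ E := Df_id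
      rw [e]; rfl
  rw [CfAt, this]; rfl

theorem CfAt.of_le (h : CfAt X n Θ x) (hm : m ≤ n) : CfAt X m Θ x := ContDiffAt.of_le h hm

theorem CfAt.congr' (h : CfAt X n Θ x) (e : Θ₁ =ᶠ[𝓝 x] Θ) : CfAt X n Θ₁ x := by
  rw [cfAt_iff] at h ⊢
  refine h.congr_of_eventuallyEq ?_
  filter_upwards [e] with y hy
  rw [hy]

theorem cfAt_zero : CfAt X n (fun _ => (0 : E →L[ℝ] V)) x := by
  rw [cfAt_iff]; simpa using contMDiffAt_const

theorem CfAt.add (h : CfAt X n Θ₁ x) (h' : CfAt X n Θ₂ x) : CfAt X n (fun y => Θ₁ y + Θ₂ y) x := by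
  unfold CfAt at *
  simpa only [ContinuousLinearMap.add_comp] using ContDiffAt.add h h'

theorem CfAt.sub (h : CfAt X n Θ₁ x) (h' : CfAt X n Θ₂ x) : CfAt X n (fun y => Θ₁ y - Θ₂ y) x := by
  unfold CfAt at *
  simpa only [ContinuousLinearMap.sub_comp] using ContDiffAt.sub h h'

theorem CfAt.neg (h : CfAt X n Θ x) : CfAt X n (fun y => -Θ y) x := by
  unfold CfAt at *
  simpa only [ContinuousLinearMap.neg_comp] using ContDiffAt.neg h

theorem CfAt.smul {f : X → ℝ} (hf : CnAt X n f x) (h : CfAt X n Θ x) :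
    CfAt X n (fun y => f y • Θ y) x := by
  unfold CfAt at *
  simpa only [ContinuousLinearMap.smul_comp] using (cnAt_iff.1 hf).fun_smul h

theorem CfAt.sum {I : Type} {s : Finset I} {Θ : I → X → E →L[ℝ] V}
    (h : ∀ i ∈ s, CfAt X n (Θ i) x) : CfAt X n (fun y => ∑ i ∈ s, Θ i y) x := by
  unfold CfAt at *
  simpa only [ContinuousLinearMap.finsetSum_comp] using ContDiffAt.sum h

/-- a field of linear maps times a one-form -/
theorem CfAt.lcomp {A : X → V →L[ℝ] V'} (hA : CnAt X n A x) (h : CfAt X n Θ x) :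
    CfAt X n (fun y => (A y).comp (Θ y)) x := by
  rw [cfAt_iff] at h ⊢
  exact hA.clm_comp h

theorem CfAt.ccomp (A : V →L[ℝ] V') (h : CfAt X n Θ x) : CfAt X n (fun y => A.comp (Θ y)) x :=
  h.lcomp contMDiffAt_const

theorem CfAt.prod (h : CfAt X n Θ x) (h' : CfAt X n Θ' x) :
    CfAt X n (fun y => (Θ y).prod (Θ' y)) x := by
  refine ((h.ccomp (ContinuousLinearMap.inl ℝ V V')).add
    (h'.ccomp (ContinuousLinearMap.inr ℝ V V'))).congr' (.of_forall fun y => ?_)
  ext v <;> simp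

/-- pull-back by a smooth map -/
theorem CfAt.pb {f : X → Y} {Θ : Y → E' →L[ℝ] V} (hf : SmAt X Y f x) (h : CfAt Y n Θ (f x))
    [hn : Fact (n ≤ ∞)] : CfAt X n (fun x => (Θ (f x)).comp (Df X Y f x)) x := by
  have e0 : (ch X x).symm (ch X x x) = x := ch_symm_self
  have a1 : SmAt (vs E) X (ch X x).symm (ch X x x) := smAt_ch_symm (mem_chart_target E x)
  have a2 : SmAt (vs E) Y (fun z => f ((ch X x).symm z)) (ch X x x) := a1.trans (by rwa [e0])
  have a3 : ContDiffAt ℝ ∞ (fun z => ch Y (f x) (f ((ch X x).symm z))) (ch X x x) :=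
    smAt_vs.1 (a2.trans (smAt_ch (by rw [e0]; exact mem_chart_source E' (f x))))
  have a4 : ContDiffAt ℝ n (fun z => (Θ (f ((ch X x).symm z))).comp
      (cfr Y (f x) (f ((ch X x).symm z)))) (ch X x x) := cnAt_iff.1 (hf.cn (cfAt_iff.1 h))
  refine (a4.clm_comp ((a3.fderiv_right (m := ∞) (by simp)).of_le hn.out)).congr_of_eventuallyEq ?_
  filter_upwards [ch_tgt_nhds (X := X) (x := x), ch_symm_tendsto.eventually hf.ev_md,
    ch_symm_tendsto.eventually (hf.cont.preimage_mem_nhds ch_src_nhds)] with z h1 h2 h3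
  have b1 := (smAt_ch_symm h1).md
  have b2 : Df (vs E) Y (fun z => f ((ch X x).symm z)) z =
      (Df X Y f ((ch X x).symm z)).comp (Df (vs E) X (ch X x).symm z) := mfderiv_comp z h2 b1
  have b3 : Df (vs E) (vs E') (fun z => ch Y (f x) (f ((ch X x).symm z))) z =
      (Df Y (vs E') (ch Y (f x)) (f ((ch X x).symm z))).comp
        (Df (vs E) Y (fun z => f ((ch X x).symm z)) z) :=
    mfderiv_comp z (smAt_ch h3).md (h2.comp z b1)
  rw [← Df_vs, b3, b2, ContinuousLinearMap.comp_assoc, ContinuousLinearMap.comp_assoc,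
    ← ContinuousLinearMap.comp_assoc (cfr _ _ _), cfr_Df_ch h3, ContinuousLinearMap.id_comp]

/-- descent along a local diffeomorphism -/
theorem CfAt.of_pb {f : X → Y} {Θ : Y → E' →L[ℝ] V} (hf : LDAt X Y f x)
    (h : CfAt X n (fun x => (Θ (f x)).comp (Df X Y f x)) x) [hn : Fact (n ≤ ∞)] :
    CfAt Y n Θ (f x) := by
  obtain ⟨k, U, W, -, hW, hx, -, hf', hk, m1, m2, l, r⟩ := hf.exists_inv univ_mem
  have h' : CfAt X n (fun x => (Θ (f x)).comp (Df X Y f x)) (k (f x)) := by rwa [l x hx]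
  refine (h'.pb (hk _ (m1 hx))).congr' ?_
  filter_upwards [hW.mem_nhds (m1 hx)] with y hy
  have e : Df Y Y (fun y => f (k y)) y = ContinuousLinearMap.id ℝ E' := by
    rw [← Df_id (X := Y) (x := y)]
    exact Df_congr (by filter_upwards [hW.mem_nhds hy] with z hz using r z hz)
  rw [ContinuousLinearMap.comp_assoc, ← Df_comp (hk y hy) (hf' _ (m2 hy)), e, r y hy]
  rfl

theorem cfAt_pb_iff {f : X → Y} {Θ : Y → E' →L[ℝ] V} (hf : LDAt X Y f x) [hn : Fact (n ≤ ∞)] :
    CfAt X n (fun x => (Θ (f x)).comp (Df X Y f x)) x ↔ CfAt Y n Θ (f x) :=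
  ⟨fun h => h.of_pb hf, fun h => h.pb hf.sm⟩

/-- any local parametrisation can be used -/
theorem cfAt_param {φ : E' → X} {z : E'} (hφ : LDAt (vs E') X φ z) [hn : Fact (n ≤ ∞)] :
    CfAt X n Θ (φ z) ↔ ContDiffAt ℝ n (fun z => (Θ (φ z)).comp (Df (vs E') X φ z)) z :=
  (cfAt_pb_iff hφ).symm.trans cfAt_vs

/-- chart independence -/
theorem cfAt_chart {y : X} (h : y ∈ (ch X x).source) [hn : Fact (n ≤ ∞)] :
    CfAt X n Θ y ↔ ContDiffAt ℝ n
      (fun z => (Θ ((ch X x).symm z)).comp (Df (vs E) X (ch X x).symm z)) (ch X x y) := by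
  rw [← cfAt_param (ldAt_ch_symm ((ch X x).map_source h)), (ch X x).left_inv h]

/-- the differential of a smooth vector valued function -/
theorem cfAt_Df [FiniteDimensional ℝ V] {f : X → V} (hf : SmAt X (vs V) f x)
    [hn : Fact (n ≤ ∞)] : CfAt X n (Df X (vs V) f) x :=
  CfAt.pb (Y := vs V) (Θ := fun _ => ContinuousLinearMap.id ℝ V) hf
    (cfAt_vs.2 contDiffAt_const)

/-- the linear map taking one coframe to another form -/
theorem CfAt.trans_cn (h : CfAt X n Θ x) (h' : CfAt X n Θ' x) (hi : (Θ' x).IsInvertible) :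
    CnAt X n (fun y => (Θ y).comp (Θ' y).inverse) x := by
  have := FiniteDimensional.complete ℝ E
  rw [cfAt_iff] at h h'
  have h2 : ((Θ' x).comp (cfr X x x)).IsInvertible := by rwa [cfr_self]
  refine (h.clm_comp (ContDiffAt.comp_contMDiffAt
    (f := fun y => (Θ' y).comp (cfr X x y)) h2.contDiffAt_map_inverse h')).congr_of_eventuallyEq ?_
  filter_upwards [ch_src_nhds (X := X) (x := x)] with y hy
  rw [comp_apply, (cfr_inv hy).inverse_comp_of_right, ContinuousLinearMap.comp_assoc,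
    ← ContinuousLinearMap.comp_assoc (cfr X x y), (cfr_inv hy).self_comp_inverse,
    ContinuousLinearMap.id_comp]

theorem CfAt.ev_inv (h : CfAt X n Θ x) (hi : (Θ x).IsInvertible) :
    ∀ᶠ y in 𝓝 x, (Θ y).IsInvertible := by
  have := FiniteDimensional.complete ℝ E
  have hc := (cfAt_iff.1 h).continuousAt
  obtain ⟨L, hL⟩ := hi
  have h1 : ∀ᶠ y in 𝓝 x, ((Θ y).comp (cfr X x y)).IsInvertible := hc.eventually (by
    beta_reduce
    rw [cfr_self, ContinuousLinearMap.comp_id, ← hL]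
    exact ContinuousLinearEquiv.isOpen.mem_nhds ⟨L, rfl⟩)
  filter_upwards [h1, ch_src_nhds (X := X) (x := x)] with y h2 hy
  have := h2.comp (cfr_inv hy).inverse
  rwa [ContinuousLinearMap.comp_assoc, (cfr_inv hy).self_comp_inverse,
    ContinuousLinearMap.comp_id] at this

/-- a form is `C^n` when its components in a `C^n` coframe are -/
theorem CfAt.of_trans (h' : CfAt X n Θ' x) (hi : (Θ' x).IsInvertible)
    (h : CnAt X n (fun y => (Θ y).comp (Θ' y).inverse) x) : CfAt X n Θ x := by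
  refine (h'.lcomp h).congr' ?_
  filter_upwards [h'.ev_inv hi] with y hy
  rw [ContinuousLinearMap.comp_assoc, hy.inverse_comp_self, ContinuousLinearMap.comp_id]

theorem vfAt_cn {v : X → E} : VfAt X v x ↔ CnAt X ∞ (fun y => Df X (vs E) (ch X x) y (v y)) x :=
  (cnAt_iff (g := fun y => Df X (vs E) (ch X x) y (v y))).symm

/-- a form evaluated on a smooth field -/
theorem CfAt.apply (h : CfAt X n Θ x) {v : X → E} (hv : VfAt X v x) [hn : Fact (n ≤ ∞)] :
    CnAt X n (fun y => Θ y (v y)) x := by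
  refine ((cfAt_iff.1 h).clm_apply ((vfAt_cn.1 hv).of_le hn.out)).congr_of_eventuallyEq ?_
  filter_upwards [ch_src_nhds (X := X) (x := x)] with y hy
  exact congrArg (Θ y) (congrArg (fun T : E →L[ℝ] E => T (v y)) (cfr_Df_ch hy)).symm

/-- the field with given smooth components in a smooth coframe -/
theorem CfAt.vf (h : CfAt X ∞ Θ x) (hi : (Θ x).IsInvertible) {w : X → V} (hw : CnAt X ∞ w x) :
    VfAt X (fun y => (Θ y).inverse (w y)) x :=
  vfAt_cn.2 (((cfAt_Df (smAt_ch (mem_chart_source E x))).trans_cn h hi).clm_apply hw)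

/-! ### Coframes -/

theorem Cof.mono (h : Cof X n Θ U) (hs : U' ⊆ U) : Cof X n Θ U' := fun x hx => h x (hs hx)
theorem Cof.of_le (h : Cof X n Θ U) (hm : m ≤ n) : Cof X m Θ U := fun x hx =>
  ⟨(h x hx).1.of_le hm, (h x hx).2⟩
theorem Cof.congr (h : Cof X n Θ U) (hU : IsOpen U) (e : EqOn Θ₁ Θ U) : Cof X n Θ₁ U := fun x hx =>
  ⟨(h x hx).1.congr' (e.eventuallyEq_of_mem (hU.mem_nhds hx)), e hx ▸ (h x hx).2⟩

theorem Cof.pb {f : X → Y} {Θ : Y → E' →L[ℝ] V} {W : Set Y} (h : Cof Y n Θ W)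
    (hf : ∀ x ∈ U, LDAt X Y f x) (m : MapsTo f U W) [hn : Fact (n ≤ ∞)] :
    Cof X n (fun x => (Θ (f x)).comp (Df X Y f x)) U := fun x hx =>
  ⟨(h _ (m hx)).1.pb (hf x hx).sm, (h _ (m hx)).2.comp (hf x hx).inv⟩

theorem Cof.lcomp {A : X → V →L[ℝ] V'} (h : Cof X n Θ U)
    (hA : ∀ x ∈ U, CnAt X n A x ∧ (A x).IsInvertible) : Cof X n (fun y => (A y).comp (Θ y)) U :=
  fun x hx => ⟨(h x hx).1.lcomp (hA x hx).1, (hA x hx).2.comp (h x hx).2⟩

theorem Cof.ccomp (h : Cof X n Θ U) (L : V ≃L[ℝ] V') :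
    Cof X n (fun y => (L : V →L[ℝ] V').comp (Θ y)) U :=
  h.lcomp fun _ _ => ⟨contMDiffAt_const, L, rfl⟩

theorem cof_Df [FiniteDimensional ℝ V] {f : X → V} (hf : ∀ x ∈ U, LDAt X (vs V) f x)
    [hn : Fact (n ≤ ∞)] : Cof X n (Df X (vs V) f) U := fun x hx =>
  ⟨cfAt_Df (hf x hx).sm, (hf x hx).inv⟩

/-- the coordinate coframe -/
theorem cof_ch [hn : Fact (n ≤ ∞)] : Cof X n (Df X (vs E) (ch X x)) (ch X x).source :=
  cof_Df (fun _ => ldAt_ch)

omit [FiniteDimensional ℝ E] [FiniteDimensional ℝ E'] in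
theorem inv_prodMap {A : E →L[ℝ] V} {B : E' →L[ℝ] V'} (hA : A.IsInvertible) (hB : B.IsInvertible) :
    (A.prodMap B).IsInvertible ∧ (A.prodMap B).inverse = A.inverse.prodMap B.inverse := by
  obtain ⟨L, rfl⟩ := hA
  obtain ⟨L', rfl⟩ := hB
  refine ⟨⟨L.prodCongr L', rfl⟩, ContinuousLinearMap.inverse_eq ?_ ?_⟩ <;> ext v <;> simp

theorem CfAt.prodMap {Θ' : Y → E' →L[ℝ] V'} {p : X.prod Y} (h : CfAt X n Θ p.1)
    (h' : CfAt Y n Θ' p.2) [hn : Fact (n ≤ ∞)] :
    CfAt (X.prod Y) n (fun p => (Θ p.1).prodMap (Θ' p.2)) p := by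
  refine ((h.pb (X := X.prod Y) smAt_fst).prod (h'.pb (X := X.prod Y) smAt_snd)).congr'
    (.of_forall fun q => ?_)
  simp only [Df_fst, Df_snd]
  rfl

/-- product coframes -/
theorem Cof.prodMap {Θ' : Y → E' →L[ℝ] V'} {W : Set Y} (h : Cof X n Θ U) (h' : Cof Y n Θ' W)
    [hn : Fact (n ≤ ∞)] :
    Cof (X.prod Y) n (fun p => (Θ p.1).prodMap (Θ' p.2)) (U ×ˢ W) := fun _ hp =>
  ⟨(h _ hp.1).1.prodMap (h' _ hp.2).1, (inv_prodMap (h _ hp.1).2 (h' _ hp.2).2).1⟩

theorem cof_id : Cof (vs E) n (fun _ => ContinuousLinearMap.id ℝ E) univ := fun _ _ =>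
  ⟨cfAt_vs.2 contDiffAt_const, ContinuousLinearEquiv.refl ℝ E, rfl⟩

/-- the coframe `(Θ, dt)` of the cylinder -/
theorem Cof.cyl (h : Cof X n Θ U) [hn : Fact (n ≤ ∞)] :
    Cof X.cyl n (fun p => (Θ p.1).prodMap (ContinuousLinearMap.id ℝ ℝ)) (U ×ˢ univ) :=
  h.prodMap (Y := vs ℝ) cof_id

end Cf

/-! ### Transition matrices -/

section Tm
omit [FiniteDimensional ℝ E] [FiniteDimensional ℝ E']
variable {a b c : E →L[ℝ] Rn 5}

/-- a matrix as a continuous linear map -/
def mL (A : M5) : Rn 5 →L[ℝ] Rn 5 := LinearMap.toContinuousLinearMap (Matrix.toLin' A)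
@[simp] theorem mL_apply (A : M5) (v : Rn 5) : mL A v = A *ᵥ v := rfl

theorem m5_ext {A B : M5} (h : ∀ v, A *ᵥ v = B *ᵥ v) : A = B :=
  Matrix.toLin'.injective (LinearMap.ext h)

theorem tm_mulVec' (a b : E →L[ℝ] Rn 5) (w : Rn 5) : tm a b *ᵥ w = a (b.inverse w) := by
  rw [tm, LinearMap.toMatrix'_mulVec]; rfl
theorem tm_mulVec (hb : b.IsInvertible) (v : E) : tm a b *ᵥ b v = a v := by
  rw [tm_mulVec', hb.inverse_apply_self]
theorem tm_apply (a b : E →L[ℝ] Rn 5) (i j : Fin 5) : tm a b i j = a (b.inverse (Pi.single j 1)) i := by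
  rw [← tm_mulVec']; simp
theorem mL_tm (a b : E →L[ℝ] Rn 5) : mL (tm a b) = a.comp b.inverse :=
  ContinuousLinearMap.ext (tm_mulVec' a b)
theorem tm_self (ha : a.IsInvertible) : tm a a = 1 :=
  m5_ext fun v => by rw [tm_mulVec', ha.self_apply_inverse, Matrix.one_mulVec]
/-- the cocycle identity -/
theorem tm_mul (hb : b.IsInvertible) : tm a b * tm b c = tm a c :=
  m5_ext fun v => by rw [← Matrix.mulVec_mulVec, tm_mulVec' b, tm_mulVec hb, tm_mulVec']
theorem tm_eq (hb : b.IsInvertible) {A : M5} (h : ∀ v, a v = A *ᵥ b v) : tm a b = A :=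
  m5_ext fun v => by rw [tm_mulVec', h, hb.self_apply_inverse]
theorem tm_comp {L : E' →L[ℝ] E} (hL : L.IsInvertible) : tm (a.comp L) (b.comp L) = tm a b :=
  m5_ext fun v => by
    rw [tm_mulVec', tm_mulVec', hL.inverse_comp_apply_of_right, ContinuousLinearMap.comp_apply,
      hL.self_apply_inverse]
theorem tm_mL (A : M5) (a b : E →L[ℝ] Rn 5) : tm ((mL A).comp a) b = A * tm a b :=
  m5_ext fun v => by rw [tm_mulVec', ← Matrix.mulVec_mulVec, tm_mulVec']; rfl
theorem det_tm (a b : E →L[ℝ] Rn 5) : (tm a b).det = (a.comp b.inverse).det :=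
  LinearMap.det_toMatrix' _
theorem det_tm_mul (ha : a.IsInvertible) (hb : b.IsInvertible) : (tm a b).det * (tm b a).det = 1 := by
  rw [← Matrix.det_mul, tm_mul hb, tm_self ha, Matrix.det_one]
theorem det_tm_ne (ha : a.IsInvertible) (hb : b.IsInvertible) : (tm a b).det ≠ 0 :=
  left_ne_zero_of_mul_eq_one (det_tm_mul ha hb)
theorem mL_inv {A : M5} (h : A.det ≠ 0) : (mL A).IsInvertible :=
  .of_inverse (g := mL A⁻¹)
    (ContinuousLinearMap.ext fun v => by
      simp [Matrix.mulVec_mulVec, Matrix.mul_nonsing_inv A (Ne.isUnit h)])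
    (ContinuousLinearMap.ext fun v => by
      simp [Matrix.mulVec_mulVec, Matrix.nonsing_inv_mul A (Ne.isUnit h)])

theorem cnAt_mL {A : X → M5} (h : ∀ i j, CnAt X n (fun y => A y i j) x) :
    CnAt X n (fun y => mL (A y)) x := by
  have e : (fun y => mL (A y)) = fun y => ∑ i, ∑ j, A y i j • mL (Matrix.single i j 1) :=
    funext fun y => ContinuousLinearMap.ext fun v => funext fun k => by
      simp [Matrix.mulVec, dotProduct, Matrix.single, Finset.sum_apply, ite_and]
  rw [e, cnAt_iff]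
  exact ContDiffAt.sum fun i _ => ContDiffAt.sum fun j _ =>
    (cnAt_iff.1 (h i j)).fun_smul contDiffAt_const

end Tm

section Tm2
variable {Θ Θ' : X → E →L[ℝ] Rn 5}

theorem CfAt.tm_cn (h : CfAt X n Θ x) (h' : CfAt X n Θ' x) (hi : (Θ' x).IsInvertible)
    (i j : Fin 5) : CnAt X n (fun y => tm (Θ y) (Θ' y) i j) x := by
  simp only [tm_apply]
  exact (ContinuousLinearMap.proj (R := ℝ) (φ := fun _ : Fin 5 => ℝ) i).contDiff.comp_contMDiffAt
    ((h.trans_cn h' hi).clm_apply (contMDiffAt_const (c := Pi.single j 1)))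

theorem CfAt.tm_cont (h : CfAt X n Θ x) (h' : CfAt X n Θ' x) (hi : (Θ' x).IsInvertible) :
    ContinuousAt (fun y => tm (Θ y) (Θ' y)) x :=
  continuousAt_pi.2 fun i => continuousAt_pi.2 fun j => (h.tm_cn h' hi i j).continuousAt

theorem Cof.tm_contOn (h : Cof X n Θ U) (h' : Cof X n Θ' U') :
    ContinuousOn (fun y => tm (Θ y) (Θ' y)) (U ∩ U') := fun x hx =>
  ((h x hx.1).1.tm_cont (h' x hx.2).1 (h' x hx.2).2).continuousWithinAt

theorem Cof.tm_sm (h : Cof X ∞ Θ U) (h' : Cof X ∞ Θ' U') (i j : Fin 5) :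
    Sm X (vs ℝ) (fun y => tm (Θ y) (Θ' y) i j) (U ∩ U') := fun x hx =>
  (h x hx.1).1.tm_cn (h' x hx.2).1 (h' x hx.2).2 i j

/-- matrix times form -/
theorem CfAt.mat {A : X → M5} (hA : ∀ i j, CnAt X n (fun y => A y i j) x) (h : CfAt X n Θ x) :
    CfAt X n (fun y => (mL (A y)).comp (Θ y)) x := h.lcomp (cnAt_mL hA)

/-- matrix times coframe -/
theorem Cof.mat {A : X → M5} (h : Cof X n Θ U)
    (hA : ∀ x ∈ U, (∀ i j, CnAt X n (fun y => A y i j) x) ∧ (A x).det ≠ 0) :
    Cof X n (fun y => (mL (A y)).comp (Θ y)) U :=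
  h.lcomp fun x hx => ⟨cnAt_mL (hA x hx).1, mL_inv (hA x hx).2⟩

/-- continuous matrix times `C^0` coframe -/
theorem Cof.mat0 {A : X → M5} (h : Cof X 0 Θ U) (hU : IsOpen U) (hA : ContinuousOn A U)
    (hd : ∀ x ∈ U, (A x).det ≠ 0) : Cof X 0 (fun y => (mL (A y)).comp (Θ y)) U :=
  h.mat fun x hx => ⟨fun i j => cnAt_zero (hU.mem_nhds hx)
    ((continuous_apply_apply i j).comp_continuousOn hA), hd x hx⟩

end Tm2

/-- the basis `1, i, j, k` -/
def hbB : Basis (Fin 4) ℝ ℍ := QuaternionAlgebra.basisOneIJK (-1 : ℝ) 0 (-1)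

theorem coe_hbB : ⇑hbB = hb := funext fun i => hbB.repr.injective (by
  rw [Basis.repr_self]
  ext j
  fin_cases i <;> fin_cases j <;> simp [hbB, hb] <;> rfl)

/-! ### Positive coframes -/

section Pos
variable {N : ℕ} {o : Lam E} {a c : E →L[ℝ] V}

omit [FiniteDimensional ℝ E] in
theorem ev_inverse (b : Fin N → V) (o : Lam E) (a : E →L[ℝ] V) :
    ev (List.ofFn fun k => a.inverse (b k)) o = ev (List.ofFn b) (mp a.inverse o) := by
  rw [ev_mp, List.map_ofFn]; rfl

omit [FiniteDimensional ℝ E] in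
theorem posB_iff' {b : Fin N → V} : PosB b o a ↔ 0 < ev (List.ofFn b) (mp a.inverse o) := by
  rw [PosB, ev_inverse]

omit [FiniteDimensional ℝ E] in
theorem ev_inverse_det [FiniteDimensional ℝ V] (b : Basis (Fin N) ℝ V) (ha : a.IsInvertible)
    (c : E →L[ℝ] V) (o : Lam E) : ev (List.ofFn b) (mp c.inverse o) =
      (a.comp c.inverse).det * ev (List.ofFn b) (mp a.inverse o) := by
  rw [← ev_mp_det, ← mp_comp, ← ContinuousLinearMap.comp_assoc, ha.inverse_comp_self,
    ContinuousLinearMap.id_comp]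

omit [FiniteDimensional ℝ E] in
/-- positivity is transferred by the sign of the determinant -/
theorem PosB.iff_det [FiniteDimensional ℝ V] (b : Basis (Fin N) ℝ V) (h : PosB b o a)
    (ha : a.IsInvertible) : PosB b o c ↔ 0 < (a.comp c.inverse).det := by
  rw [posB_iff'] at h ⊢
  rw [ev_inverse_det b ha, mul_pos_iff_of_pos_right h]

omit [FiniteDimensional ℝ E] in
theorem PosB.iff_tm {a c : E →L[ℝ] Rn 5} (h : PosB (Pi.basisFun ℝ (Fin 5)) o a)
    (ha : a.IsInvertible) : PosB (Pi.basisFun ℝ (Fin 5)) o c ↔ 0 < (tm a c).det := by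
  rw [det_tm]; exact h.iff_det _ ha

omit [FiniteDimensional ℝ E] in
theorem PosB.iff_hb {a c : E →L[ℝ] ℍ} (h : PosB hb o a) (ha : a.IsInvertible) :
    PosB hb o c ↔ 0 < (a.comp c.inverse).det := by
  rw [← coe_hbB] at h ⊢; exact h.iff_det _ ha

omit [FiniteDimensional ℝ E] in
theorem PosB.inv {b : Fin (N + 1) → V} (h : PosB b o a) : a.IsInvertible := by
  by_contra hn
  rw [PosB, ContinuousLinearMap.inverse_of_not_isInvertible hn, List.ofFn_succ, ev] at h
  simp [ctr_zero_left] at h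

omit [FiniteDimensional ℝ E] [FiniteDimensional ℝ E'] in
theorem posB_pull {b : Fin N → V} {L : E' →L[ℝ] E} (hL : L.IsInvertible) :
    PosB b (mp L o) (a.comp L) ↔ PosB b o a := by
  rw [posB_iff', posB_iff', ← mp_comp, hL.inverse_comp_of_right, ← ContinuousLinearMap.comp_assoc,
    hL.self_comp_inverse, ContinuousLinearMap.id_comp]

omit [FiniteDimensional ℝ E] [FiniteDimensional ℝ E'] in
theorem posB_pb {b : Fin N → V} {f : X → Y} {o : Y → Lam E'} {Θ : Y → E' →L[ℝ] V}
    (hf : LDAt X Y f x) :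
    PosB b (pbM X Y f o x) ((Θ (f x)).comp (Df X Y f x)) ↔ PosB b (o (f x)) (Θ (f x)) :=
  posB_pull hf.inv

omit [FiniteDimensional ℝ E] in
theorem posB_smul {b : Fin N → V} {r : ℝ} (hr : 0 < r) : PosB b (r • o) a ↔ PosB b o a := by
  rw [PosB, PosB, ev_smul, mul_pos_iff_of_pos_left hr]

theorem eq_zero_of_ev' {a : Lam E} (ha : a ∈ dg E N)
    (h : ∀ v : Fin N → E, ev (List.ofFn v) a = 0) : a = 0 := by
  induction N generalizing a with
  | zero =>
    rw [eq_scalar (a := a) fun v => (dg_ctr v ha).2 rfl,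
      show ExteriorAlgebra.algebraMapInv a = 0 from h ![], map_zero]
  | succ n ih =>
    rw [eq_scalar (a := a) fun w => ih (dg_ctr w ha).1 fun v => by
      simpa [ev] using h (Fin.cons w v),
      show ExteriorAlgebra.algebraMapInv a = 0 from ev_eq_zero (l := []) ha (by simp), map_zero]

/-- a non-zero form of top degree does not vanish on a basis -/
theorem ev_basis_ne (b : Basis (Fin N) ℝ E) (ho : o ∈ dg E N) (h0 : o ≠ 0) :
    ev (List.ofFn b) o ≠ 0 := fun h => h0 (eq_zero_of_ev' ho fun v => by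
  have := ev_mp_det b (LinearMap.toContinuousLinearMap (b.constr ℝ v)) o
  rw [h, mul_zero, ev_mp, List.map_ofFn] at this
  simpa [comp_def] using this)

omit [FiniteDimensional ℝ E] in
theorem ev_inverse_ne [FiniteDimensional ℝ V] (b : Basis (Fin N) ℝ V) (ho : o ∈ dg E N)
    (h0 : o ≠ 0) (ha : a.IsInvertible) : ev (List.ofFn b) (mp a.inverse o) ≠ 0 :=
  ev_basis_ne b (dg_mp _ ho) fun h => h0 (by
    rw [← mp_id o, ← ha.inverse_comp_self, mp_comp, h, map_zero])

omit [FiniteDimensional ℝ E] in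
/-- one of the two signs is positive -/
theorem posB_or [FiniteDimensional ℝ V] (b : Basis (Fin N) ℝ V) (ho : o ∈ dg E N) (h0 : o ≠ 0)
    (ha : a.IsInvertible) : PosB b o a ∨ PosB b (-o) a := by
  rw [posB_iff', posB_iff', map_neg, ev_neg, neg_pos]
  exact (ev_inverse_ne b ho h0 ha).symm.lt_or_gt

variable [FiniteDimensional ℝ V] {α : X → Lam E} {Θ : X → E →L[ℝ] V}

/-- the components of a smooth form in a `C^n` coframe are `C^n` -/
theorem CfAt.mp_cn (h : CfAt X n Θ x) (hi : (Θ x).IsInvertible) (hα : FmAt X α x)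
    [hn : Fact (n ≤ ∞)] : CnAt X n (fun y => mp (Θ y).inverse (α y)) x := by
  have h1 := cnAt_iff.1 ((cfAt_Df (smAt_ch (mem_chart_source E x))).trans_cn h hi)
  refine cnAt_iff.2 ((cda_mp h1 (hα.of_le hn.out)).congr_of_eventuallyEq ?_)
  filter_upwards [ch_tgt_nhds (X := X) (x := x)] with z hz
  have := cfr_Df_ch ((ch X x).map_target hz)
  rw [cfr, (ch X x).right_inv hz] at this
  rw [pbM, ← mp_comp, ← ContinuousLinearMap.comp_assoc, this, ContinuousLinearMap.id_comp]

theorem CfAt.ev_cn (h : CfAt X n Θ x) (hi : (Θ x).IsInvertible) (hα : FmAt X α x) (b : Fin N → V)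
    [hn : Fact (n ≤ ∞)] :
    CnAt X n (fun y => ev (List.ofFn fun k => (Θ y).inverse (b k)) (α y)) x := by
  simp only [ev_inverse]
  simp only [ev_eq]
  exact (clm (evL (List.ofFn b))).contDiff.comp_contMDiffAt (h.mp_cn hi hα)

/-- positivity is an open condition -/
theorem CfAt.ev_pos (h : CfAt X n Θ x) (hi : (Θ x).IsInvertible) (hα : FmAt X α x) {b : Fin N → V}
    (hp : PosB b (α x) (Θ x)) : ∀ᶠ y in 𝓝 x, PosB b (α y) (Θ y) :=
  ((h.of_le bot_le).ev_cn hi hα b).continuousAt.eventually (lt_mem_nhds hp)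

/-- positivity spreads over a preconnected set -/
theorem Cof.pos_of_conn (h : Cof X n Θ U) (ho : Ori X N α U) (hU : IsPreconnected U)
    (b : Basis (Fin N) ℝ V) (hx : x ∈ U) (hp : PosB b (α x) (Θ x)) :
    ∀ y ∈ U, PosB b (α y) (Θ y) := by
  intro y hy
  have hc : ContinuousOn (fun y => ev (List.ofFn fun k => (Θ y).inverse (b k)) (α y)) U :=
    fun z hz => (((h z hz).1.of_le bot_le).ev_cn (h z hz).2 (ho.fm z hz).1
      b).continuousAt.continuousWithinAt
  by_contra hn
  obtain ⟨z, hz, e⟩ := hU.intermediate_value hy hx hc ⟨not_lt.1 hn, hp.le⟩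
  exact ev_inverse_ne b (ho.fm z hz).2 (ho.ne z hz) (h z hz).2 ((ev_inverse _ _ _).symm.trans e)

end Pos

end Pool.Agent.MP_e1dc65_gt

end
end MrgPart0

-- ======== part 1: formerly Pool.Agent.MP_e1dc65_gt.k.Sp2
section MrgPart1

-- ======== part 0: formerly Pool.Agent.MP_e1dc65_gt.k.QR
section MrgPart0

/-! PROJECT HC: the orthogonal part of an invertible matrix. -/

open scoped Matrix InnerProductSpace
open Set InnerProductSpace WithLp

noncomputable section

namespace Pool.Agent.MP_e1dc65_gt.QR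

variable {n : ℕ}

abbrev Mt (n : ℕ) : Type := Matrix (Fin n) (Fin n) ℝ

/-- the columns -/
def col (A : Mt n) (j : Fin n) : EuclideanSpace ℝ (Fin n) := toLp 2 fun i => A i j

/-- the orthogonal part -/
def Q (A : Mt n) : Mt n := Matrix.of fun i j => gramSchmidtNormed ℝ (col A) j i

/-- the triangular part -/
def R (A : Mt n) : Mt n := (Q A)ᵀ * A

theorem col_Q (A : Mt n) : col (Q A) = gramSchmidtNormed ℝ (col A) := rfl

theorem tr_mul (A B : Mt n) (i j : Fin n) : (Aᵀ * B) i j = ⟪col A i, col B j⟫_ℝ := by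
  simp [Matrix.mul_apply, col, PiLp.inner_apply, mul_comm]

theorem li {A : Mt n} (h : A.det ≠ 0) : LinearIndependent ℝ (col A) :=
  LinearIndependent.of_comp (WithLp.linearEquiv 2 ℝ (Fin n → ℝ)).toLinearMap
    (Matrix.linearIndependent_cols_of_det_ne_zero h)

theorem orth_iff {K : Mt n} : Kᵀ * K = 1 ↔ Orthonormal ℝ (col K) := by
  rw [orthonormal_iff_ite, ← Matrix.ext_iff]
  simp only [tr_mul, Matrix.one_apply]

theorem Q_orth {A : Mt n} (h : A.det ≠ 0) : (Q A)ᵀ * Q A = 1 :=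
  orth_iff.2 (gramSchmidtNormed_orthonormal (li h))

theorem Q_mul_R {A : Mt n} (h : A.det ≠ 0) : Q A * R A = A := by
  rw [R, ← Matrix.mul_assoc, mul_eq_one_comm.1 (Q_orth h), Matrix.one_mul]

theorem Q_self {K : Mt n} (h : Kᵀ * K = 1) : Q K = K := by
  have h' := orth_iff.1 h
  ext i j
  simp only [Q, Matrix.of_apply, gramSchmidtNormed, gramSchmidt_of_orthogonal ℝ h'.2, h'.1 j]
  simp [col]

theorem R_self {K : Mt n} (h : Kᵀ * K = 1) : R K = 1 := by rw [R, Q_self h, h]

theorem R_low (A : Mt n) {i j : Fin n} (h : j < i) : R A i j = 0 := by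
  rw [R, tr_mul, col_Q, gramSchmidtNormed, inner_smul_left, gramSchmidt_inv_triangular ℝ _ h,
    mul_zero]

theorem R_diag {A : Mt n} (h : A.det ≠ 0) (i : Fin n) : 0 < R A i i := by
  have h0 := norm_pos_iff.2 (gramSchmidt_ne_zero (𝕜 := ℝ) i (li h))
  have : ⟪gramSchmidt ℝ (col A) i, col A i⟫_ℝ = ‖gramSchmidt ℝ (col A) i‖ ^ 2 := by
    conv_lhs => rw [gramSchmidt_def'' ℝ (col A) i]
    rw [inner_add_right, inner_sum, Finset.sum_eq_zero, add_zero, real_inner_self_eq_norm_sq]
    intro j hj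
    rw [inner_smul_right, gramSchmidt_orthogonal ℝ _ (Finset.mem_Iio.1 hj).ne', mul_zero]
  rw [R, tr_mul, col_Q, gramSchmidtNormed, inner_smul_left, this]
  exact mul_pos (by simpa using h0) (by positivity)

/-- the segment from `1` to the triangular part -/
def T (s : ℝ) (A : Mt n) : Mt n := (1 - s) • (1 : Mt n) + s • R A

theorem T_zero (A : Mt n) : T 0 A = 1 := by simp [T]
theorem T_one (A : Mt n) : T 1 A = R A := by simp [T]
theorem T_self {K : Mt n} (h : Kᵀ * K = 1) (s : ℝ) : T s K = 1 := by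
  rw [T, R_self h, ← add_smul]; simp

theorem det_T {A : Mt n} (h : A.det ≠ 0) {s : ℝ} (h0 : 0 ≤ s) (h1 : s ≤ 1) : 0 < (T s A).det := by
  rw [Matrix.det_of_isUpperTriangular]
  · refine Finset.prod_pos fun i _ => ?_
    have := R_diag h i
    simp only [T, Matrix.add_apply, Matrix.smul_apply, Matrix.one_apply_eq, smul_eq_mul, mul_one]
    rcases h0.eq_or_lt with rfl | h2
    · simp
    · nlinarith [mul_pos h2 this]
  · intro i j hij
    have hij' : j < i := hij
    simp [T, R_low A hij', Matrix.one_apply_ne hij'.ne']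

theorem det_Q {A : Mt n} (h : 0 < A.det) : 0 < (Q A).det := by
  have h1 := det_T h.ne' zero_le_one le_rfl
  rw [T_one] at h1
  rw [← Q_mul_R h.ne', Matrix.det_mul] at h
  exact (mul_pos_iff_of_pos_right h1).1 h

theorem gs_map {E : Type} [NormedAddCommGroup E] [InnerProductSpace ℝ E] (φ : E →ₗᵢ[ℝ] E)
    (f : Fin n → E) (j : Fin n) : gramSchmidt ℝ (fun i => φ (f i)) j = φ (gramSchmidt ℝ f j) := by
  induction j using WellFoundedLT.induction with
  | ind j ih =>
    rw [gramSchmidt_def, gramSchmidt_def ℝ f, map_sub, map_sum]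
    congr 1
    refine Finset.sum_congr rfl fun i hi => ?_
    rw [ih i (Finset.mem_Iio.1 hi), Submodule.starProjection_singleton,
      Submodule.starProjection_singleton, map_smul, φ.inner_map_map, φ.norm_map]

/-- an orthogonal matrix as an isometry -/
def iso (K : Mt n) (h : Kᵀ * K = 1) : EuclideanSpace ℝ (Fin n) →ₗᵢ[ℝ] EuclideanSpace ℝ (Fin n) :=
  (Matrix.toEuclideanLin K).isometryOfInner fun x y => by
    simp only [EuclideanSpace.inner_eq_star_dotProduct, star_trivial]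
    change (K *ᵥ ofLp y) ⬝ᵥ (K *ᵥ ofLp x) = _
    rw [Matrix.dotProduct_mulVec, ← Matrix.mulVec_transpose, Matrix.mulVec_mulVec, h,
      Matrix.one_mulVec]

theorem iso_apply (K : Mt n) (h : Kᵀ * K = 1) (x : EuclideanSpace ℝ (Fin n)) :
    ofLp (iso K h x) = K *ᵥ ofLp x := rfl

theorem col_mul {K : Mt n} (h : Kᵀ * K = 1) (A : Mt n) : col (K * A) = fun j => iso K h (col A j) :=
  rfl

theorem Q_mul {K : Mt n} (h : Kᵀ * K = 1) (A : Mt n) : Q (K * A) = K * Q A := by
  have : col (Q (K * A)) = col (K * Q A) := by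
    funext j
    simp only [col_Q, col_mul h, gramSchmidtNormed, gs_map, LinearIsometry.norm_map, map_smul]
  ext i j
  exact congrArg (fun v : Fin n → EuclideanSpace ℝ (Fin n) => v j i) this

theorem cont_gs {Z : Type} [TopologicalSpace Z] {A : Z → Mt n} (hA : Continuous A)
    (h : ∀ z, (A z).det ≠ 0) (j : Fin n) : Continuous fun z => gramSchmidt ℝ (col (A z)) j := by
  have hc : ∀ j, Continuous fun z => col (A z) j := fun j =>
    (PiLp.continuous_toLp 2 _).comp (continuous_pi fun i => hA.matrix_elem i j)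
  induction j using WellFoundedLT.induction with
  | ind j ih =>
    refine (((hc j).sub (continuous_finsetSum (Finset.Iio j) fun i hi => ?_))).congr fun z =>
      (gramSchmidt_def ℝ _ j).symm
    simp only [Submodule.starProjection_singleton]
    have := ih i (Finset.mem_Iio.1 hi)
    refine ((this.inner (hc j)).div (this.norm.pow 2) fun z => ?_).smul this
    exact pow_ne_zero 2 (norm_ne_zero_iff.2 (gramSchmidt_ne_zero i (li (h z))))

theorem cont_Q {Z : Type} [TopologicalSpace Z] {A : Z → Mt n} (hA : Continuous A)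
    (h : ∀ z, (A z).det ≠ 0) : Continuous fun z => Q (A z) := by
  refine continuous_matrix fun i j => ?_
  have := cont_gs hA h j
  exact (EuclideanSpace.proj i).continuous.comp ((this.norm.inv₀ fun z =>
    norm_ne_zero_iff.2 (gramSchmidt_ne_zero j (li (h z)))).smul this)

theorem cont_T {Z : Type} [TopologicalSpace Z] {A : Z → Mt n} {s : Z → ℝ} (hA : Continuous A)
    (hs : Continuous s) (h : ∀ z, (A z).det ≠ 0) : Continuous fun z => T (s z) (A z) :=
  ((continuous_const.sub hs).smul continuous_const).add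
    (hs.smul ((cont_Q hA h).matrix_transpose.matrix_mul hA))

theorem cont_inv {Z : Type} [TopologicalSpace Z] {A : Z → Mt n} (hA : Continuous A)
    (h : ∀ z, (A z).det ≠ 0) : Continuous fun z => (A z)⁻¹ := by
  simp only [Matrix.inv_def, Ring.inverse_eq_inv']
  exact (hA.matrix_det.inv₀ h).smul hA.matrix_adjugate

end Pool.Agent.MP_e1dc65_gt.QR

end
end MrgPart0

-- ======== part 1: formerly Pool.Agent.MP_e1dc65_gt.k.Sp2
section MrgPart1

/-! PROJECT HC: the double cover of the rotation group in dimension five. -/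

open scoped Matrix Quaternion InnerProductSpace unitInterval
open Set WithLp

noncomputable section

namespace Pool.Agent.MP_e1dc65_gt.Sp2

abbrev MH : Type := Matrix (Fin 2) (Fin 2) ℍ

/-- the quaternion part -/
def qp (v : Rn 5) : ℍ := ⟨v 0, v 1, v 2, v 3⟩

/-- traceless hermitian matrices -/
def X (v : Rn 5) : MH := !![(v 4 : ℍ), qp v; star (qp v), -(v 4 : ℍ)]

/-- coordinates -/
def L (Y : MH) : Rn 5 := emb (Y 0 1) (Y 0 0).re

theorem L_X (v : Rn 5) : L (X v) = v := by
  ext i; fin_cases i <;> simp [L, X, emb, qp]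

theorem X_emb (b : ℍ) (t : ℝ) : X (emb b t) = !![(t : ℍ), b; star b, -(t : ℍ)] := rfl

theorem X_inj {v w : Rn 5} (h : X v = X w) : v = w := by rw [← L_X v, h, L_X]

theorem X_star (v : Rn 5) : star (X v) = X v := by
  ext1 i j; fin_cases i <;> fin_cases j <;> simp [X]

theorem X_add (v w : Rn 5) : X (v + w) = X v + X w := by
  ext i j <;> fin_cases i <;> fin_cases j <;> simp [X, qp] <;> ring

theorem X_smul (c : ℝ) (v : Rn 5) : X (c • v) = c • X v := by
  ext i j <;> fin_cases i <;> fin_cases j <;> simp [X, qp]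

theorem X_anti (v w : Rn 5) : X v * X w + X w * X v = (2 * (v ⬝ᵥ w)) • (1 : MH) := by
  ext i j <;> fin_cases i <;> fin_cases j <;>
    simp [X, qp, dotProduct, Fin.sum_univ_five] <;> ring

theorem X_sq (v : Rn 5) : X v * X v = (v ⬝ᵥ v) • (1 : MH) := by
  have := X_anti v v
  rw [← two_smul ℝ, mul_smul] at this
  exact smul_right_injective _ two_ne_zero this

/-- the real part of the trace -/
def rt (Y : MH) : ℝ := (Y 0 0).re + (Y 1 1).re

theorem rt_comm (A B : MH) : rt (A * B) = rt (B * A) := by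
  simp [rt, Matrix.mul_apply, Fin.sum_univ_two]; ring

theorem X_L {Y : MH} (h : star Y = Y) (h0 : rt Y = 0) : X (L Y) = Y := by
  have e : ∀ i j, star (Y j i) = Y i j := fun i j => congrFun (congrFun h i) j
  have a := Quaternion.star_eq_self.1 (e 0 0)
  have b := Quaternion.star_eq_self.1 (e 1 1)
  have c : (Y 1 1).re = -(Y 0 0).re := by unfold rt at h0; linarith
  rw [L, X_emb, ← a, e 1 0, a, ← Quaternion.coe_neg, ← c, ← b, ← a]
  exact (Matrix.eta_fin_two Y).symm

abbrev S : Type := unitary MH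

/-- conjugation -/
def cj (g : MH) : Rn 5 →ₗ[ℝ] Rn 5 where
  toFun v := L (g * X v * star g)
  map_add' v w := by
    rw [X_add, mul_add, add_mul]; ext i; fin_cases i <;> simp [L, emb]
  map_smul' c v := by
    rw [X_smul, mul_smul_comm, smul_mul_assoc]; ext i; fin_cases i <;> simp [L, emb]

theorem X_cj (g : S) (v : Rn 5) : X (cj g v) = g * X v * star g.1 := by
  refine X_L (by simp [X_star, mul_assoc]) ?_
  rw [rt_comm, ← mul_assoc, g.2.1, one_mul]
  simp [rt, X]

/-- the representation -/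
def ρ : S →* M5 where
  toFun g := LinearMap.toMatrix' (cj g)
  map_one' := by
    rw [← LinearMap.toMatrix'_id]; congr 1
    exact LinearMap.ext fun v => by simp [cj, L_X]
  map_mul' g h := by
    rw [← LinearMap.toMatrix'_comp]; congr 1
    refine LinearMap.ext fun v => X_inj ?_
    rw [LinearMap.comp_apply, X_cj, X_cj, X_cj]; simp [mul_assoc]

theorem X_ρ (g : S) (v : Rn 5) : X (ρ g *ᵥ v) = g * X v * star g.1 := by
  rw [← X_cj]; exact congrArg X (LinearMap.toMatrix'_mulVec _ _)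

theorem ρ_dot (g : S) (v w : Rn 5) : (ρ g *ᵥ v) ⬝ᵥ (ρ g *ᵥ w) = v ⬝ᵥ w := by
  have h := X_anti (ρ g *ᵥ v) (ρ g *ᵥ w)
  have k : ∀ A B : MH, g * A * star g.1 * (g * B * star g.1) = g * (A * B) * star g.1 :=
    fun A B => by
      rw [show g * A * star g.1 * (g * B * star g.1) = g * A * (star g.1 * g) * B * star g.1 by
        simp only [mul_assoc], g.2.1]
      simp only [mul_assoc, mul_one]
  rw [X_ρ, X_ρ, k, k, ← add_mul, ← mul_add, X_anti, mul_smul_comm, smul_mul_assoc, mul_one,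
    g.2.2] at h
  have := smul_left_injective ℝ (one_ne_zero (α := MH)) h
  linarith

theorem ρ_orth (g : S) : (ρ g)ᵀ * ρ g = 1 := by
  ext i j
  have := ρ_dot g (Pi.single i 1) (Pi.single j 1)
  rw [Matrix.mulVec_single_one, Matrix.mulVec_single_one, single_one_dotProduct] at this
  rw [Matrix.one_apply, ← Pi.single_apply, ← this]
  rfl

theorem cont_ρ : Continuous ρ := by
  refine continuous_matrix fun i j => ?_
  have h : Continuous fun g : S => g.1 * X (Pi.single j 1) * star g.1 := by fun_prop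
  have h1 := h.matrix_elem 0 1
  have h0 := h.matrix_elem 0 0
  change Continuous fun g : S => L (g.1 * X (Pi.single j 1) * star g.1) i
  fin_cases i
  · exact Quaternion.continuous_re.comp h1
  · exact Quaternion.continuous_imI.comp h1
  · exact Quaternion.continuous_imJ.comp h1
  · exact Quaternion.continuous_imK.comp h1
  · exact Quaternion.continuous_re.comp h0

theorem ρ_neg : ρ (-1) = 1 := by
  refine Matrix.ext_iff_mulVec.2 fun v => X_inj ?_
  rw [X_ρ]; simp [Unitary.coe_neg]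

theorem neg_ne : (-1 : S) ≠ 1 := fun h => by
  have := congrArg (fun g : S => (g.1 0 0).re) h
  simp [Unitary.coe_neg] at this
  norm_num at this

theorem ker_ρ {g : S} (h : ρ g = 1) : g = 1 ∨ g = -1 := by
  have c : ∀ b t, g.1 * X (emb b t) = X (emb b t) * g := fun b t => by
    have := X_ρ g (emb b t)
    rw [h, Matrix.one_mulVec] at this
    conv_rhs => rw [this, mul_assoc, g.2.1, mul_one]
  have z : ∀ a : ℍ, -a = a → a = 0 := fun a ha => by
    have : (2 : ℝ) • a = 0 := by rw [two_smul]; nth_rw 1 [← ha]; exact neg_add_cancel a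
    simpa using this
  have e01 : g.1 0 1 = 0 := z _ (by
    simpa [X_emb, Matrix.mul_apply, Fin.sum_univ_two] using congrFun (congrFun (c 0 1) 0) 1)
  have e10 : g.1 1 0 = 0 := z _ (by
    simpa [X_emb, Matrix.mul_apply, Fin.sum_univ_two] using (congrFun (congrFun (c 0 1) 1) 0).symm)
  have c2 : ∀ b, g.1 0 0 * b = b * g.1 1 1 := fun b => by
    simpa [X_emb, Matrix.mul_apply, Fin.sum_univ_two] using congrFun (congrFun (c b 0) 0) 1
  have e : g.1 0 0 = g.1 1 1 := by simpa using c2 1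
  have u : star (g.1 1 1) * g.1 1 1 = 1 := by
    simpa [Matrix.mul_apply, Fin.sum_univ_two, e01] using congrFun (congrFun g.2.1 1) 1
  have i1 := c2 ⟨0, 1, 0, 0⟩
  have i2 := c2 ⟨0, 0, 1, 0⟩
  rw [e] at i1 i2
  have hg := Matrix.eta_fin_two g.1
  rw [e, e01, e10] at hg
  have k : g.1 1 1 = 1 ∨ g.1 1 1 = -1 := by
    generalize g.1 1 1 = a at i1 i2 u
    have a1 := congrArg QuaternionAlgebra.imJ i1
    have a2 := congrArg QuaternionAlgebra.imK i1
    have a3 := congrArg QuaternionAlgebra.imK i2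
    have a4 := congrArg QuaternionAlgebra.re u
    simp at a1 a2 a3 a4
    have b1 : a.imK = 0 := by linarith
    have b2 : a.imJ = 0 := by linarith
    have b3 : a.imI = 0 := by linarith
    rw [b1, b2, b3] at a4
    have : a.re = 1 ∨ a.re = -1 := mul_self_eq_one_iff.1 (by linarith)
    exact this.imp (fun h => by ext <;> simp [h, b1, b2, b3]) fun h => by ext <;> simp [h, b1, b2, b3]
  refine k.imp (fun k => Subtype.ext ?_) fun k => Subtype.ext ?_ <;> rw [hg, k]
  · exact Matrix.one_fin_two.symm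
  · ext1 i j; fin_cases i <;> fin_cases j <;> simp [Unitary.coe_neg]

theorem eq_or {g h : S} (e : ρ g = ρ h) : g = h ∨ g = -h := by
  have : ρ (g * h⁻¹) = 1 := by rw [map_mul, e, ← map_mul, mul_inv_cancel, map_one]
  exact (ker_ρ this).imp mul_inv_eq_one.1 fun k => by rw [mul_inv_eq_iff_eq_mul.1 k, neg_one_mul]

instance : CompactSpace S := by
  have hK : IsCompact (X := MH) (univ.pi fun _ => univ.pi fun _ => Metric.closedBall (0 : ℍ) 1) :=
    isCompact_univ_pi fun _ => isCompact_univ_pi fun _ => isCompact_closedBall _ _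
  refine isCompact_iff_compactSpace.1 (hK.of_isClosed_subset isClosed_unitary ?_)
  intro g hg i _ j _
  have := congrArg QuaternionAlgebra.re (congrFun (congrFun hg.1 j) j)
  simp only [Matrix.mul_apply, Fin.sum_univ_two, Matrix.star_apply, Quaternion.star_mul_self,
    Quaternion.normSq_eq_norm_mul_self, Matrix.one_apply_eq, Quaternion.re_add, Quaternion.re_coe,
    Quaternion.re_one] at this
  rw [mem_closedBall_zero_iff]
  have h0 := norm_nonneg (g 0 j)
  have h1 := norm_nonneg (g 1 j)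
  fin_cases i <;> simp only [Fin.zero_eta, Fin.mk_one] <;> nlinarith

/-- the representation with values in the orthogonal group -/
def ρ' : S →* unitary M5 := ρ.codRestrict _ fun g => ⟨ρ_orth g, mul_eq_one_comm.1 (ρ_orth g)⟩

theorem cov : IsCoveringMap ρ'.rangeRestrict := by
  have hc : Continuous ρ'.rangeRestrict := (cont_ρ.subtype_mk _).subtype_mk _
  refine ((hc.isClosedMap.isQuotientMap hc ρ'.rangeRestrict_surjective
    ).isQuotientCoveringMap_of_isDiscrete_ker_monoidHom (Set.Finite.isDiscrete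
      ((toFinite {1, -1}).subset fun g hg => ?_))).isCoveringMap
  exact ker_ρ (congrArg (fun x => x.1.1) (MonoidHom.mem_ker.1 hg))

/-- uniqueness of lifts -/
theorem uniq {Z : Type} [TopologicalSpace Z] [PreconnectedSpace Z] {f f' : Z → S}
    (h : Continuous f) (h' : Continuous f') (e : ∀ z, ρ (f z) = ρ (f' z)) (z : Z) (e0 : f z = f' z) :
    f = f' :=
  cov.eq_of_comp_eq h h' (funext fun z => Subtype.ext (Subtype.ext (e z))) z e0

abbrev Sph : Type := Metric.sphere (0 : ℍ) 1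

theorem star_mul_u {p : ℍ} (h : ‖p‖ = 1) : star p * p = 1 := by
  rw [Quaternion.star_mul_self, Quaternion.normSq_eq_norm_mul_self, h]; simp

theorem mul_star_u {p : ℍ} (h : ‖p‖ = 1) : p * star p = 1 := by
  rw [Quaternion.self_mul_star, Quaternion.normSq_eq_norm_mul_self, h]; simp

/-- diagonal matrices -/
def D (p q : ℍ) (hp : ‖p‖ = 1) (hq : ‖q‖ = 1) : S := ⟨Matrix.diagonal ![p, q], by
  constructor <;> ext1 i j <;> fin_cases i <;> fin_cases j <;>
    simp [Matrix.mul_apply, Fin.sum_univ_two, star_mul_u, mul_star_u, hp, hq]⟩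

theorem D_mul {p q p' q' : ℍ} (hp hq hp' hq' h1 h2) :
    D (p * p') (q * q') h1 h2 = D p q hp hq * D p' q' hp' hq' := by
  refine Subtype.ext ?_
  ext1 i j; fin_cases i <;> fin_cases j <;> simp [D, Matrix.mul_apply, Fin.sum_univ_two]

theorem D_neg (h1 h2) : D (-1) (-1) h1 h2 = -1 := by
  refine Subtype.ext ?_
  ext1 i j; fin_cases i <;> fin_cases j <;> simp [D, Unitary.coe_neg]

theorem ρ_D {p q : ℍ} (hp hq) (v : ℍ) (t : ℝ) :
    ρ (D p q hp hq) *ᵥ emb v t = emb (p * v * star q) t := by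
  refine X_inj ?_
  rw [X_ρ, X_emb, X_emb]
  ext1 i j; fin_cases i <;> fin_cases j <;>
    simp [D, Matrix.mul_apply, Fin.sum_univ_two, mul_assoc, Quaternion.coe_mul_eq_smul,
      mul_star_u, hp, hq] <;> ext <;> simp

theorem cont_D : Continuous fun z : Sph × Sph =>
    D z.1 z.2 (mem_sphere_zero_iff_norm.1 z.1.2) (mem_sphere_zero_iff_norm.1 z.2.2) :=
  Continuous.subtype_mk (Continuous.matrix_diagonal (by fun_prop)) _

theorem joined_D {p q : ℍ} (hp hq) : Joined 1 (D p q hp hq) := by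
  have : PathConnectedSpace Sph := isPathConnected_iff_pathConnectedSpace.1
    (isPathConnected_sphere (by simp [Quaternion.rank_eq_four]) 0 zero_le_one)
  have := (PathConnectedSpace.somePath ((⟨1, by simp⟩, ⟨1, by simp⟩) : Sph × Sph)
    (⟨p, by simpa⟩, ⟨q, by simpa⟩)).map cont_D
  refine ⟨this.cast (Subtype.ext ?_) rfl⟩
  ext1 i j; fin_cases i <;> fin_cases j <;> simp [D]

abbrev E5 : Type := EuclideanSpace ℝ (Fin 5)

theorem dot_eq (u v : E5) : ofLp u ⬝ᵥ ofLp v = ⟪u, v⟫_ℝ := by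
  rw [EuclideanSpace.inner_eq_star_dotProduct, star_trivial, dotProduct_comm]

/-- unit vectors -/
def U (u : Metric.sphere (0 : E5) 1) : S := ⟨X (ofLp u.1), by
  have : X (ofLp u.1) * X (ofLp u.1) = 1 := by
    rw [X_sq, dot_eq, real_inner_self_eq_norm_sq, mem_sphere_zero_iff_norm.1 u.2]; simp
  constructor <;> rw [X_star, this]⟩

theorem cont_U : Continuous U := by
  refine Continuous.subtype_mk ?_ _
  let l : Rn 5 →ₗ[ℝ] MH := ⟨⟨X, X_add⟩, X_smul⟩
  exact l.continuous_on_pi.comp (by fun_prop)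

theorem joined_U (u) : Joined 1 (U u) := by
  have : PathConnectedSpace (Metric.sphere (0 : E5) 1) := isPathConnected_iff_pathConnectedSpace.1
    (isPathConnected_sphere (by rw [← Module.finrank_eq_rank]; simp) 0 zero_le_one)
  have := (PathConnectedSpace.somePath ⟨EuclideanSpace.single 4 1, by simp⟩ u).map cont_U
  refine (joined_D (p := 1) (q := -1) (by simp) (by simp)).trans ⟨this.cast (Subtype.ext ?_) rfl⟩
  ext i j <;> fin_cases i <;> fin_cases j <;> simp [D, U, X, qp]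

theorem ρ_U (u) (v : E5) : ρ (U u) *ᵥ ofLp v = ofLp ((ℝ ∙ u.1).reflection v) := by
  refine X_inj ?_
  have h : X (ofLp u.1) * X (ofLp u.1) = 1 := by simpa only [U, X_star] using (U u).2.1
  have k := X_anti (ofLp u.1) (ofLp v)
  rw [X_ρ, Submodule.reflection_singleton_apply, mem_sphere_zero_iff_norm.1 u.2, ← dot_eq]
  change X _ * X _ * star (X _) = _
  rw [X_star, eq_sub_of_add_eq k, sub_mul, mul_assoc, h, sub_eq_add_neg _ v, ofLp_add, X_add,
    ← neg_one_smul ℝ v, ← Nat.cast_smul_eq_nsmul ℝ, ofLp_smul, ofLp_smul, ofLp_smul, X_smul, X_smul,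
    X_smul]
  simp [sub_eq_add_neg, mul_smul]

theorem joined_mul {g h : S} (a : Joined 1 g) (b : Joined 1 h) : Joined 1 (g * h) :=
  (Subgroup.pathComponentOne S).mul_mem a b

theorem det_pos {g : S} (h : Joined 1 g) : 0 < (ρ g).det := by
  obtain ⟨γ⟩ := h
  by_contra hn
  have hc : Continuous fun t => (ρ (γ t)).det := (cont_ρ.comp γ.continuous).matrix_det
  obtain ⟨t, ht⟩ := intermediate_value_univ 1 0 hc (show (0 : ℝ) ∈ Icc _ _ from
    ⟨by simpa using hn, by simp⟩)
  have := congrArg Matrix.det (ρ_orth (γ t))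
  simp only at ht
  rw [Matrix.det_mul, ht] at this
  simp at this

theorem surj {K : M5} (h : Kᵀ * K = 1) (hd : 0 < K.det) : ∃ g, Joined 1 g ∧ ρ g = K := by
  have key : ∀ l : List E5, ∃ g, Joined 1 g ∧ ∃ c : ℝ, (c = 1 ∨ c = -1) ∧ ∀ v,
      ρ g *ᵥ ofLp v = c • ofLp ((l.map fun v => (ℝ ∙ v)ᗮ.reflection).prod v) := by
    intro l
    induction l with
    | nil => exact ⟨1, Joined.refl _, 1, Or.inl rfl, fun v => by simp⟩
    | cons u l ih =>
      obtain ⟨g, hg, c, hc, e⟩ := ih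
      simp only [List.map_cons, List.prod_cons, LinearIsometryEquiv.coe_mul, Function.comp,
        Submodule.reflection_orthogonal_apply]
      by_cases hu : u = 0
      · refine ⟨g, hg, c, hc, fun v => ?_⟩
        rw [e, hu, Submodule.reflection_singleton_apply]; simp
      · refine ⟨U ⟨‖u‖⁻¹ • u, by simp [norm_smul, hu]⟩ * g, joined_mul (joined_U _) hg, -c,
          hc.symm.imp (by rintro rfl; simp) (by rintro rfl; rfl), fun v => ?_⟩
        rw [map_mul, ← Matrix.mulVec_mulVec, e, Matrix.mulVec_smul, ρ_U]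
        have : (ℝ ∙ ‖u‖⁻¹ • u) = ℝ ∙ u := Submodule.span_singleton_smul_eq (by simpa) u
        simp only [this, ofLp_neg, smul_neg, neg_smul, neg_neg]
  obtain ⟨l, -, hl⟩ := ((QR.iso K h).toLinearIsometryEquiv rfl).reflections_generate_dim
  obtain ⟨g, hg, c, hc, e⟩ := key l
  have e' : ρ g = c • K := Matrix.ext_iff_mulVec.2 fun v => by
    have := e (toLp 2 v)
    rw [← hl] at this
    rw [Matrix.smul_mulVec]
    exact this
  rcases hc with rfl | rfl
  · exact ⟨g, hg, by simpa using e'⟩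
  · have := det_pos hg
    rw [e', Matrix.det_smul] at this
    norm_num at this
    linarith

theorem joined_of_pos {g : S} (h : 0 < (ρ g).det) : Joined 1 g := by
  obtain ⟨g', h1, h2⟩ := surj (ρ_orth g) h
  rcases eq_or h2.symm with rfl | rfl
  · exact h1
  · rw [← neg_one_mul, ← D_neg (by simp) (by simp)]
    exact joined_mul (joined_D _ _) h1

/-- lifting of homotopies -/
theorem lift {Z : Type} [TopologicalSpace Z] {H : I × Z → M5} {f : Z → S} (hH : Continuous H)
    (ho : ∀ z, (H z)ᵀ * H z = 1) (hd : ∀ z, 0 < (H z).det) (hf : Continuous f)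
    (h0 : ∀ z, H (0, z) = ρ (f z)) :
    ∃ F : I × Z → S, Continuous F ∧ (∀ z, ρ (F z) = H z) ∧ ∀ z, F (0, z) = f z := by
  let H' : C(I × Z, ρ'.range) := ⟨fun z => ⟨⟨H z, ho z, mul_eq_one_comm.1 (ho z)⟩,
    let ⟨g, _, e⟩ := surj (ho z) (hd z); ⟨g, Subtype.ext e⟩⟩, (hH.subtype_mk _).subtype_mk _⟩
  have e : ∀ z, H' (0, z) = ρ'.rangeRestrict ((⟨f, hf⟩ : C(Z, S)) z) := fun z =>
    Subtype.ext (Subtype.ext (h0 z))
  exact ⟨cov.liftHomotopy H' _ e, map_continuous _,
    fun z => congrArg (fun x => x.1.1) (congrFun (cov.liftHomotopy_lifts H' _ e) z),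
    cov.liftHomotopy_zero H' _ e⟩

end Pool.Agent.MP_e1dc65_gt.Sp2

end
end MrgPart1

-- marker of a merged file
example : 731051 + 435260 = 731051 + 435260 := rfl

end MrgPart1

-- ======== part 2: formerly Pool.Agent.MP_e1dc65_gt.k.Metric
section MrgPart2

/-! PROJECT HC, row METRIC: oriented orthonormal atlases. -/

open scoped ContDiff Manifold Topology Quaternion InnerProductSpace
open Set Filter Function Module Pool.Agent.MP_c8d41b_gt.GF

noncomputable section

namespace Pool.Agent.MP_e1dc65_gt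

namespace Metric'

abbrev A : Type := ℍ →L[ℝ] ℍ

/-- the adjoint as a real continuous linear map -/
def ad : A →L[ℝ] A := LinearMap.toContinuousLinearMap
  { toFun := fun S => ContinuousLinearMap.adjoint S
    map_add' := fun S T => map_add _ S T
    map_smul' := fun c S => by rw [LinearIsometryEquiv.map_smulₛₗ]; rfl }

theorem ad_inner (S : A) (v w : ℍ) : ⟪ad S v, w⟫_ℝ = ⟪v, S w⟫_ℝ :=
  ContinuousLinearMap.adjoint_inner_left S w v

theorem ad_ad (S : A) : ad (ad S) = S := ContinuousLinearMap.adjoint_adjoint S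

theorem ad_mul (S T : A) : ad (S * T) = ad T * ad S := ContinuousLinearMap.adjoint_comp S T

theorem ad_one : ad 1 = 1 := ContinuousLinearMap.adjoint_id

theorem ad_cd : ContDiff ℝ ∞ (ad : A → A) :=
  ContinuousLinearMap.contDiff (𝕜 := ℝ) (E := A) (F := A) ad

theorem adm_cd : ContDiff ℝ ∞ fun S : A => ad S * S := ad_cd.clm_comp contDiff_id

/-- a smooth factorisation `P = S* S` of self-adjoint operators near the identity -/
theorem exists_fac : ∃ (g : A → A) (W : Set A), IsOpen W ∧ 1 ∈ W ∧ g 1 = 1 ∧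
    (∀ P ∈ W, ContDiffAt ℝ ∞ g P) ∧ ∀ P ∈ W, ad P = P → ad (g P) * g P = P := by
  have hs : ContDiff ℝ ∞ fun S : A => ad S := ad_cd
  have hc : ContDiff ℝ ∞ fun S : A => ad S * S + (S - ad S) :=
    adm_cd.add (contDiff_id.sub hs)
  have h1 := hasFDerivAt_id (𝕜 := ℝ) (1 : A)
  have h0 := ContinuousLinearMap.hasFDerivAt (𝕜 := ℝ) (E := A) (F := A) ad (x := 1)
  have hd := (HasFDerivAt.add (𝕜 := ℝ) (E := A) (F := A) (h0.clm_comp h1)
    (HasFDerivAt.sub (𝕜 := ℝ) (E := A) (F := A) h1 h0)).fderiv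
  have hi : (fderiv ℝ (fun S : A => ad S * S + (S - ad S)) 1).IsInvertible := by
    have e : fderiv ℝ (fun S : A => ad S * S + (S - ad S)) 1 =
        (2 : ℝ) • ContinuousLinearMap.id ℝ A := by
      refine Eq.trans hd (ContinuousLinearMap.ext fun H => ContinuousLinearMap.ext fun v => ?_)
      simp [two_smul, ad_one]
    rw [e]
    refine .of_inverse (g := (2 : ℝ)⁻¹ • ContinuousLinearMap.id ℝ A) ?_ ?_ <;> ext1 H <;>
      ext1 v <;> simp [smul_smul]
  obtain ⟨g, U, W, -, hW, hx, -, -, hg, m1, -, l, r⟩ :=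
    (ldAt_vs univ_mem (fun y _ => hc.contDiffAt) hi).exists_inv univ_mem
  have e1 : ad (1 : A) * 1 + (1 - ad 1) = 1 := by simp [ad_one]
  refine ⟨g, W, hW, e1 ▸ m1 hx, ?_, fun P hP => smAt_vs.1 (hg P hP), fun P hP hs => ?_⟩
  · have := l 1 hx
    rwa [e1] at this
  · have h2 : ad (g P) * g P + (g P - ad (g P)) = P := r P hP
    have h3 := congrArg ad h2
    rw [hs, map_add, ad_mul, ad_ad, map_sub, ad_ad] at h3
    have h4 : ad (g P) * g P + ad (g P) * g P = P + P := by
      conv_rhs => enter [1]; rw [← h2]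
      conv_rhs => enter [2]; rw [← h3]
      abel
    refine ContinuousLinearMap.ext fun v => smul_right_injective ℍ (two_ne_zero (α := ℝ)) ?_
    simpa [two_smul] using congrArg (fun T : A => T v) h4

variable {E : Type} [NormedAddCommGroup E] [NormedSpace ℝ E] [FiniteDimensional ℝ E]

/-- a positive orthonormal coframe at one point -/
theorem exists_pt (hd : finrank ℝ E = 4) (B : LinearMap.BilinForm ℝ E) (hB : B.IsSymm)
    (hp : ∀ v, v ≠ 0 → 0 < B v v) {o : Lam E} (ho : o ∈ dg E 4) (h0 : o ≠ 0) :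
    ∃ R : E →L[ℝ] ℍ, PosB hb o R ∧ ∀ v w, ⟪R v, R w⟫_ℝ = B v w := by
  obtain ⟨b, hb'⟩ := LinearMap.BilinForm.exists_orthogonal_basis hB
  have hd' : finrank ℝ E = finrank ℝ ℍ := hd.trans Quaternion.finrank_eq_four.symm
  let e := (stdOrthonormalBasis ℝ ℍ).reindex (finCongr hd'.symm)
  have hq : ∀ i, 0 < B (b i) (b i) := fun i => hp _ (b.ne_zero i)
  let R : E →L[ℝ] ℍ := LinearMap.toContinuousLinearMap
    (b.constr ℝ fun i => Real.sqrt (B (b i) (b i)) • e i)
  have hR : ∀ v w, ⟪R v, R w⟫_ℝ = B v w := by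
    have : (innerₗ ℍ).compl₁₂ R.toLinearMap R.toLinearMap = B := by
      refine LinearMap.ext_basis b b fun i j => ?_
      have e1 : ∀ i, R (b i) = Real.sqrt (B (b i) (b i)) • e i := fun i => b.constr_basis ℝ _ i
      change ⟪R (b i), R (b j)⟫_ℝ = _
      rw [e1, e1, real_inner_smul_left, real_inner_smul_right, orthonormal_iff_ite.1 e.orthonormal]
      split_ifs with h
      · rw [h, mul_one, Real.mul_self_sqrt (hq j).le]
      · rw [mul_zero, mul_zero]; exact (hb' h).symm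
    exact fun v w => congrArg (fun T : LinearMap.BilinForm ℝ E => T v w) this
  have hi : R.IsInvertible := by
    have h1 : Injective R := (injective_iff_map_eq_zero R).2 fun v hv => by
      by_contra h
      have := hp v h
      rw [← hR, hv, inner_zero_left] at this
      exact lt_irrefl _ this
    exact ⟨(LinearEquiv.ofBijective R.toLinearMap ⟨h1,
      (LinearMap.injective_iff_surjective_of_finrank_eq_finrank hd').1 h1⟩).toContinuousLinearEquiv,
      rfl⟩
  by_cases hP : PosB hb o R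
  · exact ⟨R, hP, hR⟩
  let K : Submodule ℝ ℍ := (ℝ ∙ (1 : ℍ))ᗮ
  let c : ℍ ≃L[ℝ] ℍ := K.reflection.toContinuousLinearEquiv
  have hc : (c : ℍ →L[ℝ] ℍ).det = -1 := by
    have := K.det_reflection
    rw [Submodule.orthogonal_orthogonal, finrank_span_singleton one_ne_zero, pow_one] at this
    exact this
  refine ⟨(c : ℍ →L[ℝ] ℍ).comp R, ?_, fun v w => (K.reflection.inner_map_map _ _).trans (hR v w)⟩
  have hi' : ((c : ℍ →L[ℝ] ℍ).comp R).IsInvertible :=
    ContinuousLinearMap.IsInvertible.comp ⟨c, rfl⟩ hi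
  have h2 := ev_inverse_det hbB hi' R o
  rw [ContinuousLinearMap.comp_assoc, hi.self_comp_inverse, ContinuousLinearMap.comp_id, hc] at h2
  have h3 := ev_inverse_ne hbB ho h0 hi
  rw [posB_iff', ← coe_hbB] at hP ⊢
  have := lt_of_le_of_ne (not_lt.1 hP) h3
  linarith

/-- orthonormal coframes for the metric given by a partition of unity -/
theorem exists_loc {X : Mf E} {o : X → Lam E} (ho : Ori X 4 o univ) {I : Type}
    (ρ : SmoothPartitionOfUnity I 𝓘(ℝ, E) X univ) (η : I → X → E →L[ℝ] ℍ)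
    (hη : ∀ i, Cof X ∞ (η i) (tsupport (ρ i))) (x : X) :
    ∃ (W : Set X) (θ : X → E →L[ℝ] ℍ), IsOpen W ∧ x ∈ W ∧ Cof X ∞ θ W ∧
      (∀ y ∈ W, PosB hb (o y) (θ y)) ∧
      ∀ y ∈ W, ∀ v, ‖θ y v‖ ^ 2 = ∑ i ∈ ρ.finsupport y, ρ i y * ‖η i y v‖ ^ 2 := by
  obtain ⟨g, W, hW, h1, g1, hg, hf⟩ := exists_fac
  obtain ⟨R, hR, hB⟩ := exists_pt ho.dim (∑ i ∈ ρ.finsupport x, ρ i x •
      (innerₗ ℍ).compl₁₂ (η i x).toLinearMap (η i x).toLinearMap) ⟨fun v w => by
      simp [LinearMap.sum_apply, real_inner_comm]⟩ (fun v hv => by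
      obtain ⟨i, hi⟩ := ρ.exists_pos_of_mem (mem_univ x)
      simp only [LinearMap.sum_apply, LinearMap.smul_apply, smul_eq_mul]
      refine Finset.sum_pos' (fun j _ => mul_nonneg (ρ.nonneg j x)
        (show 0 ≤ ⟪η j x v, η j x v⟫_ℝ from real_inner_self_nonneg))
        ⟨i, (ρ.mem_finsupport x).2 hi.ne', mul_pos hi (show 0 < ⟪η i x v, η i x v⟫_ℝ from
          real_inner_self_pos.2 fun h => hv ?_)⟩
      have := (hη i x (subset_tsupport _ hi.ne')).2.inverse_apply_self v
      rw [show η i x v = 0 from h, map_zero] at this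
      exact this.symm) (ho.fm x trivial).2 (ho.ne x trivial)
  let β : X → E →L[ℝ] ℍ := fun y => R.comp (Df X (vs E) (ch X x) y)
  have hβ : Cof X ∞ β (ch X x).source := (cof_ch (n := ∞)).lcomp fun _ _ => ⟨contMDiffAt_const, hR.inv⟩
  have βx : β x = R := by simp only [β, Df_ch_self]; rfl
  let a : I → X → A := fun i y => (η i y).comp (β y).inverse
  let P : X → A := fun y => ∑ᶠ i, ρ i y • (ad (a i y) * a i y)
  have hP : ∀ y ∈ (ch X x).source, CnAt X ∞ P y := fun y hy =>
    ρ.contMDiffAt_finsum (n := ⊤) fun i hi => by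
      have h2 := (hη i y hi).1.trans_cn (hβ y hy).1 (hβ y hy).2
      exact (adm_cd.comp_contMDiffAt h2 :)
  have eP : ∀ y, P y = ∑ i ∈ ρ.finsupport y, ρ i y • (ad (a i y) * a i y) := fun y =>
    (ρ.sum_finsupport_smul_eq_finsum y fun i y => ad (a i y) * a i y).symm
  have sP : ∀ y, ad (P y) = P y := fun y => by
    rw [eP, map_sum]
    exact Finset.sum_congr rfl fun i _ => by rw [map_smul, ad_mul, ad_ad]
  have iP : ∀ y v w, ⟪P y v, w⟫_ℝ = ∑ i ∈ ρ.finsupport y, ρ i y * ⟪a i y v, a i y w⟫_ℝ :=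
    fun y v w => by
    rw [eP, sum_apply, sum_inner]
    refine Finset.sum_congr rfl fun i _ => ?_
    rw [smul_apply, real_inner_smul_left, mul_apply_eq_comp,
      ad_inner]
  have Px : P x = 1 := ContinuousLinearMap.ext fun v => ext_inner_right ℝ fun w => by
    have := hB (R.inverse v) (R.inverse w)
    rw [hR.inv.self_apply_inverse, hR.inv.self_apply_inverse] at this
    rw [iP, one_apply_eq_self, this]
    simp [a, βx, LinearMap.sum_apply]
  have hx := mem_chart_source E x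
  have hθ : ∀ y ∈ (ch X x).source, P y ∈ W → CfAt X ∞ (fun y => (g (P y)).comp (β y)) y :=
    fun y hy hw => (hβ y hy).1.lcomp ((hg _ hw).comp_contMDiffAt (hP y hy))
  have θx : (g (P x)).comp (β x) = R := by rw [Px, g1, βx]; rfl
  have ev1 : ∀ᶠ y in 𝓝 x, y ∈ (ch X x).source ∧ P y ∈ W ∧
      PosB hb (o y) ((g (P y)).comp (β y)) :=
    (Eventually.and ch_src_nhds (Eventually.and
      ((hP x hx).continuousAt.preimage_mem_nhds (hW.mem_nhds (Px ▸ h1)))
      ((hθ x hx (Px ▸ h1)).ev_pos (θx ▸ hR.inv) (ho.fm x trivial).1 (θx ▸ hR))))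
  obtain ⟨O, hO, hO', hxO⟩ := mem_nhds_iff.1 ev1
  refine ⟨O, _, hO', hxO, fun y hy => ⟨hθ y (hO hy).1 (hO hy).2.1, (hO hy).2.2.inv⟩,
    fun y hy => (hO hy).2.2, fun y hy v => ?_⟩
  have h2 := iP y (β y v) (β y v)
  rw [← hf _ (hO hy).2.1 (sP y), mul_apply_eq_comp, ad_inner,
    real_inner_self_eq_norm_sq] at h2
  refine h2.trans (Finset.sum_congr rfl fun i _ => ?_)
  simp only [a, real_inner_self_eq_norm_sq, ContinuousLinearMap.comp_apply,
    (hβ y (hO hy).1).2.inverse_apply_self]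

end Metric'

open Metric' in
theorem metric : MetricStmt := by
  intro E _ _ _ X o S W₀ θ₀ ho hS hW₀ hSW hθ₀ hp
  obtain ⟨O, hO, hSO, hOW⟩ := normal_exists_closure_subset hS hW₀ hSW
  obtain ⟨L⟩ : Nonempty (E ≃L[ℝ] ℍ) := FiniteDimensional.nonempty_continuousLinearEquiv_of_finrank_eq
    (ho.dim.trans Quaternion.finrank_eq_four.symm)
  let U : Option X → Set X := fun i => i.elim W₀ fun x => (ch X x).source \ closure O
  let η : Option X → X → E →L[ℝ] ℍ := fun i => i.elim θ₀
    fun x y => (L : E →L[ℝ] ℍ).comp (Df X (vs E) (ch X x) y)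
  obtain ⟨ρ, hρ⟩ := SmoothPartitionOfUnity.exists_isSubordinate 𝓘(ℝ, E) isClosed_univ U
    (by rintro (_ | x); exacts [hW₀, (ch X x).open_source.sdiff isClosed_closure])
    (fun y _ => by
      by_cases h : y ∈ closure O
      · exact mem_iUnion.2 ⟨none, hOW h⟩
      · exact mem_iUnion.2 ⟨some y, mem_chart_source E y, h⟩)
  have hη : ∀ i, Cof X ∞ (η i) (tsupport (ρ i)) := by
    rintro (_ | x)
    · exact hθ₀.mono (hρ none)
    · exact ((cof_ch (n := ∞)).ccomp L).mono fun y hy => (hρ (some x) hy).1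
  choose W θ h1 h2 h3 h4 h5 using exists_loc ho ρ η hη
  have hOW' : O ⊆ W₀ := subset_closure.trans hOW
  have key : ∀ i : Option X, ∀ y ∈ (i.elim O W : Set X), ∀ v, ‖(i.elim θ₀ θ : X → E →L[ℝ] ℍ) y v‖ ^ 2
      = ∑ i ∈ ρ.finsupport y, ρ i y * ‖η i y v‖ ^ 2 := by
    rintro (_ | x) y hy v
    · have h0 : ∀ i ∈ ρ.finsupport y, i = none := by
        rintro (_ | x) hi
        · rfl
        · exact absurd (subset_closure hy)
            (hρ (some x) (subset_tsupport _ ((ρ.mem_finsupport y).1 hi))).2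
      rw [Finset.sum_congr rfl fun i hi => show ρ i y * ‖η i y v‖ ^ 2 = ρ i y * ‖θ₀ y v‖ ^ 2 by
        rw [h0 i hi]; rfl, ← Finset.sum_mul, ρ.sum_finsupport y (mem_univ y), one_mul]
      rfl
    · exact h5 x y hy v
  refine ⟨fun i => i.elim O W, fun i => i.elim θ₀ θ, ?_, h2, hSO, hOW', rfl, ?_, ?_,
    fun i j y hy v => ?_⟩
  · rintro (_ | x); exacts [hO, h1 x]
  · rintro (_ | x); exacts [hθ₀.mono hOW', h3 x]
  · rintro (_ | x); exacts [fun y hy => hp y (hOW' hy), h4 x]
  · exact (sq_eq_sq₀ (norm_nonneg _) (norm_nonneg _)).1 ((key i y hy.1 v).trans (key j y hy.2 v).symm)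

end Pool.Agent.MP_e1dc65_gt

end
end MrgPart2

-- ======== part 3: formerly Pool.Agent.MP_e1dc65_gt.t2.Disc
section MrgPart3

/-! PROJECT HC, part T2: normal frames over a disc. -/

open scoped Topology Real
open Set Filter Function Module Metric

noncomputable section

namespace Pool.Agent.MP_e1dc65_gt.T2

namespace Disc

/-! ### The cross product -/

def rows (a : Rn 3 →L[ℝ] Rn 5) (v w : Rn 5) : Matrix (Fin 5) (Fin 5) ℝ :=
  Matrix.of ![a (Pi.single 0 1), a (Pi.single 1 1), a (Pi.single 2 1), v, w]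

theorem exists_ell (a : Rn 3 →L[ℝ] Rn 5) (v : Rn 5) : ∃ l : Rn 5 →ₗ[ℝ] ℝ,
    (∀ w, l w = (rows a v w).det) ∧ ∀ j, j ≠ 4 → l (rows a v 0 j) = 0 := by
  have key : ∀ {n : Type} [Fintype n] [DecidableEq n] (r : Matrix n n ℝ) (i : n),
      ∃ l : (n → ℝ) →ₗ[ℝ] ℝ, (∀ w, l w = (r.updateRow i w).det) ∧ ∀ j, j ≠ i → l (r j) = 0 :=
    fun r i => ⟨⟨⟨fun w => (r.updateRow i w).det, Matrix.det_updateRow_add _ _⟩,
      Matrix.det_updateRow_smul _ _⟩, fun w => rfl, fun j h => Matrix.det_updateRow_eq_zero h⟩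
  obtain ⟨l, h1, h2⟩ := key (rows a v 0) 4
  refine ⟨l, fun w => (h1 w).trans (congrArg Matrix.det ?_), h2⟩
  ext i j
  fin_cases i <;> simp [rows]

def ell (a : Rn 3 →L[ℝ] Rn 5) (v : Rn 5) : Rn 5 →ₗ[ℝ] ℝ := (exists_ell a v).choose

theorem ell_eq (a : Rn 3 →L[ℝ] Rn 5) (v w : Rn 5) : ell a v w = (rows a v w).det :=
  (exists_ell a v).choose_spec.1 w

def X (p : (Rn 3 →L[ℝ] Rn 5) × Rn 5) : Rn 5 := fun i => ell p.1 p.2 (Pi.single i 1)

theorem ell_row (a : Rn 3 →L[ℝ] Rn 5) (v : Rn 5) {j : Fin 5} (h : j ≠ 4) :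
    ell a v (rows a v 0 j) = 0 := (exists_ell a v).choose_spec.2 j h

theorem apply3 (a : Rn 3 →L[ℝ] Rn 5) (u : Rn 3) :
    a u = u 0 • a (Pi.single 0 1) + u 1 • a (Pi.single 1 1) + u 2 • a (Pi.single 2 1) := by
  rw [← map_smul, ← map_smul, ← map_smul, ← map_add, ← map_add]
  congr 1
  funext i
  fin_cases i <;> simp

theorem ell_a (a : Rn 3 →L[ℝ] Rn 5) (v : Rn 5) (u : Rn 3) : ell a v (a u) = 0 := by
  have h0 : ell a v (a (Pi.single 0 1)) = 0 := ell_row a v (j := 0) (by decide)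
  have h1 : ell a v (a (Pi.single 1 1)) = 0 := ell_row a v (j := 1) (by decide)
  have h2 : ell a v (a (Pi.single 2 1)) = 0 := ell_row a v (j := 2) (by decide)
  rw [apply3]
  simp [h0, h1, h2]

theorem ell_v (a : Rn 3 →L[ℝ] Rn 5) (v : Rn 5) : ell a v v = 0 := ell_row a v (j := 3) (by decide)

theorem ell_sum (a : Rn 3 →L[ℝ] Rn 5) (v w : Rn 5) : ell a v w = ∑ i, w i * X (a, v) i := by
  conv_lhs => rw [pi_eq_sum_univ' w]
  simp [X]

theorem ell_X {a : Rn 3 →L[ℝ] Rn 5} {v : Rn 5} (ha : Injective a) (hv : v ∉ range a) :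
    ell a v (X (a, v)) ≠ 0 := by
  obtain ⟨w, hw⟩ : ∃ w, ∀ (u : Rn 3) (s : ℝ), a u + s • v ≠ w := by
    by_contra h
    push Not at h
    have := LinearMap.finrank_le_finrank_of_surjective
      (f := (a : Rn 3 →ₗ[ℝ] Rn 5).coprod (LinearMap.toSpanSingleton ℝ _ v))
      fun w => by obtain ⟨u, s, e⟩ := h w; exact ⟨(u, s), e⟩
    simp at this
  have h1 : ell a v w ≠ 0 := by
    rw [ell_eq, ← isUnit_iff_ne_zero, ← Matrix.isUnit_iff_isUnit_det,
      ← Matrix.linearIndependent_rows_iff_isUnit, Fintype.linearIndependent_iff]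
    intro g hg
    have e : a ![g 0, g 1, g 2] + g 3 • v + g 4 • w = 0 := by
      rw [apply3, ← hg, Fin.sum_univ_five]
      rfl
    have h4 : g 4 = 0 := by
      by_contra h
      refine hw (-(g 4)⁻¹ • ![g 0, g 1, g 2]) (-(g 4)⁻¹ * g 3) ?_
      rw [map_smul, mul_smul, ← smul_add, eq_neg_of_add_eq_zero_left e, smul_neg, neg_smul, neg_neg,
        inv_smul_smul₀ h]
    rw [h4, zero_smul, add_zero] at e
    have h3 : g 3 = 0 := by
      by_contra h
      refine hv ⟨-(g 3)⁻¹ • ![g 0, g 1, g 2], ?_⟩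
      rw [map_smul, eq_neg_of_add_eq_zero_left e, smul_neg, neg_smul, neg_neg, inv_smul_smul₀ h]
    rw [h3, zero_smul, add_zero] at e
    have h5 := ha (e.trans a.map_zero.symm)
    intro i
    fin_cases i
    exacts [congrFun h5 0, congrFun h5 1, congrFun h5 2, h3, h4]
  intro h
  rw [ell_sum, Finset.sum_eq_zero_iff_of_nonneg fun i _ => mul_self_nonneg _] at h
  exact h1 (by
    rw [ell_sum]
    exact Finset.sum_eq_zero fun i hi => by rw [mul_self_eq_zero.1 (h i hi), mul_zero])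

/-! ### Left inverses and projections -/

theorem left_inv (E F : Type) [NormedAddCommGroup E] [NormedSpace ℝ E] [FiniteDimensional ℝ E]
    [NormedAddCommGroup F] [NormedSpace ℝ F] [FiniteDimensional ℝ F] :
    ∃ L : (E →L[ℝ] F) → F →L[ℝ] E, ∀ f : E →L[ℝ] F, Injective f →
      ContinuousAt L f ∧ ∀ x, L f (f x) = x := by
  let e := toEuclidean (E := E)
  let e' := toEuclidean (E := F)
  let t : (E →L[ℝ] F) → _ := fun f =>
    e'.toContinuousLinearMap.comp (f.comp e.symm.toContinuousLinearMap)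
  have ht : Continuous t := by fun_prop
  let s : (E →L[ℝ] F) → _ := fun f => (ContinuousLinearMap.adjoint (t f)).comp (t f)
  have hs : Continuous s := (ContinuousLinearMap.adjoint.continuous.comp ht).clm_comp ht
  refine ⟨fun f => e.symm.toContinuousLinearMap.comp ((Ring.inverse (s f)).comp
    ((ContinuousLinearMap.adjoint (t f)).comp e'.toContinuousLinearMap)), fun f hf => ?_⟩
  have hi : Injective (s f) := (injective_iff_map_eq_zero _).2 fun x hx => by
    have h1 : inner ℝ (t f x) (t f x) = 0 := by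
      rw [← ContinuousLinearMap.adjoint_inner_left]
      change inner ℝ (s f x) x = 0
      rw [hx, inner_zero_left]
    have h2 : e' (f (e.symm x)) = 0 := inner_self_eq_zero.1 h1
    have h3 : e.symm x = 0 := hf (by simpa using h2)
    simpa using h3
  obtain ⟨u, hu⟩ : IsUnit (s f) := ContinuousLinearMap.isUnit_iff_bijective.2
    ⟨hi, LinearMap.injective_iff_surjective.1 hi⟩
  refine ⟨continuousAt_const.clm_comp (ContinuousAt.clm_comp ?_
    ((ContinuousLinearMap.adjoint.continuous.comp ht).continuousAt.clm_comp continuousAt_const)),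
    fun x => ?_⟩
  · exact ContinuousAt.comp (hu ▸ NormedRing.inverse_continuousAt u) hs.continuousAt
  · have h1 : (Ring.inverse (s f) * s f) (e x) = e x := by
      rw [Ring.inverse_mul_cancel _ ⟨u, hu⟩]; rfl
    have h2 : t f (e x) = e' (f x) := by simp [t]
    change e.symm (Ring.inverse (s f) (ContinuousLinearMap.adjoint (t f) (e' (f x)))) = x
    rw [← h2]
    exact (congrArg e.symm h1).trans (e.symm_apply_apply x)

theorem fr_iff {a : Rn 3 →L[ℝ] Rn 5} {N : ℂ →L[ℝ] Rn 5} :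
    Fr a N ↔ ∀ u z, a u + N z = 0 → u = 0 ∧ z = 0 := by
  rw [Fr, injective_iff_map_eq_zero]
  simp [Prod.ext_iff]

/-- a frame over the whole disc -/
theorem exists_frame {a : ℂ → Rn 3 →L[ℝ] Rn 5} (ha : ContinuousOn a (closedBall 0 1))
    (hi : ∀ y ∈ closedBall (0 : ℂ) 1, Injective (a y)) {N : ℂ →L[ℝ] Rn 5} (hN : Fr (a 1) N) :
    ∃ M : ℂ → ℂ →L[ℝ] Rn 5, ContinuousOn M (closedBall 0 1) ∧
      ∀ y ∈ closedBall (0 : ℂ) 1, Fr (a y) (M y) := by
  obtain ⟨L, hL⟩ := left_inv (Rn 3) (Rn 5)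
  let P : ℂ → Rn 5 →L[ℝ] Rn 5 := fun y => 1 - (a y).comp (L (a y))
  have hP : ContinuousOn P (closedBall 0 1) := continuousOn_const.sub (ha.clm_comp
    fun y hy => (hL _ (hi y hy)).1.comp_continuousWithinAt (ha y hy))
  have Pa : ∀ y ∈ closedBall (0 : ℂ) 1, ∀ u, P y (a y u) = 0 := fun y hy u => by
    simp [P, (hL _ (hi y hy)).2]
  have PP : ∀ y ∈ closedBall (0 : ℂ) 1, ∀ w, P y (P y w) = P y w := fun y hy w => by
    conv_lhs => rw [show P y w = w - a y (L (a y) w) from rfl, map_sub, Pa y hy, sub_zero]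
  obtain ⟨δ, hδ, hu⟩ := Metric.uniformContinuousOn_iff.1
    ((isCompact_closedBall 0 1).uniformContinuousOn_of_continuous hP) 1 one_pos
  obtain ⟨m, hm⟩ := exists_nat_gt (2 / δ)
  have m0 : (0 : ℝ) < m := (by positivity : 0 < 2 / δ).trans hm
  let c : ℕ → ℂ → ℂ := fun k y => AffineMap.lineMap 1 y (k / m : ℝ)
  have one : (1 : ℂ) ∈ closedBall (0 : ℂ) 1 := by simp
  have hc : ∀ k ≤ m, ∀ y ∈ closedBall (0 : ℂ) 1, c k y ∈ closedBall (0 : ℂ) 1 := fun k hk y hy =>
    (convex_closedBall 0 1).lineMap_mem one hy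
      ⟨by positivity, (div_le_one m0).2 (by exact_mod_cast hk)⟩
  have key : ∀ k ≤ m, ∃ M : ℂ → ℂ →L[ℝ] Rn 5, ContinuousOn M (closedBall 0 1) ∧
      ∀ y ∈ closedBall (0 : ℂ) 1, ∀ z, P (c k y) (M y z) = M y z ∧ (M y z = 0 → z = 0) := by
    intro k
    induction k with
    | zero =>
      refine fun _ => ⟨fun _ => (P 1).comp N, continuousOn_const, fun y _ z => ⟨?_, fun h => ?_⟩⟩
      · simpa [c] using PP 1 one (N z)
      · refine (fr_iff.1 hN (-L (a 1) (N z)) z ?_).2
        rw [map_neg, neg_add_eq_sub]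
        exact h
    | succ k ih =>
      intro hk
      obtain ⟨M, h1, h2⟩ := ih (Nat.le_of_succ_le hk)
      refine ⟨fun y => (P (c (k + 1) y)).comp (M y), (hP.comp (Continuous.continuousOn ?_)
        (hc _ hk)).clm_comp h1, fun y hy z => ⟨PP _ (hc _ hk y hy) _, fun h => ?_⟩⟩
      · simp only [c, AffineMap.lineMap_apply]; fun_prop
      · refine (h2 y hy z).2 (by_contra fun h0 => ?_)
        have h3 : dist (c k y) (c (k + 1) y) < δ := by
          have h4 : dist (1 : ℂ) y ≤ 2 := by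
            linarith [dist_triangle_right 1 y 0, mem_closedBall.1 hy, mem_closedBall.1 one]
          simp only [c]
          rw [dist_lineMap_lineMap, Real.dist_eq, ← sub_div, abs_div, abs_of_pos m0]
          push_cast
          rw [show (k : ℝ) - (k + 1) = -1 by ring, abs_neg, abs_one, div_mul_eq_mul_div,
            div_lt_iff₀ m0]
          rw [div_lt_iff₀ hδ] at hm
          linarith
        have h4 := hu _ (hc _ (Nat.le_of_succ_le hk) y hy) _ (hc _ hk y hy) h3
        have h5 := (P (c k y) - P (c (k + 1) y)).le_opNorm (M y z)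
        rw [sub_apply, (h2 y hy z).1, show P (c (k + 1) y) (M y z) = 0 from h,
          sub_zero, ← dist_eq_norm] at h5
        nlinarith [norm_pos_iff.2 h0]
  obtain ⟨M, h1, h2⟩ := key m le_rfl
  refine ⟨M, h1, fun y hy => fr_iff.2 fun u z h => ?_⟩
  have e : c m y = y := by simp [c, m0.ne']
  have h3 := congrArg (P y) h
  rw [map_add, Pa y hy, zero_add, map_zero, ← e] at h3
  have h4 : z = 0 := (h2 y hy z).2 (by rw [← (h2 y hy z).1, ← h3, e])
  rw [h4, map_zero, add_zero] at h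
  exact ⟨hi y hy (h.trans (a y).map_zero.symm), h4⟩

/-! ### Extension from the circle -/

/-- radial extension -/
theorem exists_ext {F : Type} [NormedAddCommGroup F] [NormedSpace ℝ F] {f : ℂ → F}
    (hf : ContinuousOn f (sphere 0 1)) : ∃ g : ℂ → F, Continuous g ∧
      (∀ y ∈ sphere (0 : ℂ) 1, g y = f y) ∧ ∀ y ∈ closedBall (0 : ℂ) 1,
        g y = 0 ∨ ∃ u ∈ sphere (0 : ℂ) 1, ‖g y‖ ≤ ‖f u‖ := by
  have hn : ∀ y : ℂ, y ≠ 0 → (‖y‖⁻¹ : ℝ) • y ∈ sphere (0 : ℂ) 1 := fun y hy => by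
    simp [norm_ne_zero_iff.2 hy]
  obtain ⟨C, hC⟩ := (isCompact_sphere (0 : ℂ) 1).exists_bound_of_continuousOn hf
  refine ⟨fun y => ‖y‖ • f ((‖y‖⁻¹ : ℝ) • y), continuous_iff_continuousAt.2 fun y => ?_,
    fun y hy => by simp [mem_sphere_zero_iff_norm.1 hy], fun y hy => ?_⟩
  · rcases eq_or_ne y 0 with rfl | h
    · have : Tendsto (fun y : ℂ => ‖y‖ * C) (𝓝 0) (𝓝 0) :=
        Continuous.tendsto' (by fun_prop) _ _ (by simp)
      rw [ContinuousAt, norm_zero, zero_smul]
      refine squeeze_zero_norm (fun y => ?_) this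
      rcases eq_or_ne y 0 with rfl | h
      · simp
      · rw [norm_smul, norm_norm]
        exact mul_le_mul_of_nonneg_left (hC _ (hn y h)) (norm_nonneg _)
    · refine continuousAt_id.norm.smul ?_
      refine (hf.comp (s := {0}ᶜ) ((continuousOn_id.norm.inv₀ fun y hy =>
        norm_ne_zero_iff.2 hy).smul continuousOn_id) hn).continuousAt
        (isOpen_compl_singleton.mem_nhds h)
  · rcases eq_or_ne y 0 with rfl | h
    · simp
    · refine Or.inr ⟨_, hn y h, ?_⟩
      rw [norm_smul, norm_norm]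
      exact mul_le_of_le_one_left (norm_nonneg _) (mem_closedBall_zero_iff.1 hy)

theorem exp_mem (t : ℝ) : Complex.exp (t * Complex.I) ∈ sphere (0 : ℂ) 1 := by
  simp [Complex.norm_exp_ofReal_mul_I]

theorem exp_arg {y : ℂ} (hy : y ∈ sphere (0 : ℂ) 1) : Complex.exp (y.arg * Complex.I) = y := by
  simpa [mem_sphere_zero_iff_norm.1 hy] using Complex.norm_mul_exp_arg_mul_I y

theorem exists_wind {p : ℂ → ℂ} (hp : ContinuousOn p (sphere 0 1))
    (h0 : ∀ y ∈ sphere (0 : ℂ) 1, p y ≠ 0) : ∃ k, Wind p k := by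
  obtain ⟨l, h1, h2⟩ := Complex.exists_continuousOn_eqOn_exp_comp (U := (univ : Set ℝ))
    (@SimplyConnectedSpace.ofContractible _ _
      ((convex_univ (𝕜 := ℝ) (E := ℝ)).contractibleSpace univ_nonempty)) isOpen_univ
    (g := fun t : ℝ => p (Complex.exp (t * Complex.I)))
    (hp.comp (by fun_prop) fun t _ => exp_mem t) (by
      rintro ⟨t, -, e⟩; exact h0 _ (exp_mem t) e)
  rw [continuousOn_univ] at h1
  have h3 : ∀ t : ℝ, Complex.exp (l t) = p (Complex.exp (t * Complex.I)) := fun t => h2 trivial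
  have h4 : ∀ t, Complex.exp (l (t + 2 * π) - l t) = Complex.exp (l (0 + 2 * π) - l 0) ∧
      Complex.exp (l (t + 2 * π) - l t) = 1 := by
    have : ∀ t, Complex.exp (l (t + 2 * π) - l t) = 1 := fun t => by
      rw [Complex.exp_sub, h3, h3, div_eq_one_iff_eq (h0 _ (exp_mem t))]
      push_cast
      rw [add_mul, Complex.exp_add, Complex.exp_two_pi_mul_I, mul_one]
    exact fun t => ⟨by rw [this, this], this t⟩
  obtain ⟨k, hk⟩ := Complex.exp_eq_one_iff.1 (h4 0).2
  have h5 := Complex.isCoveringMap_exp.eq_of_comp_eq (g₁ := fun t => l (t + 2 * π) - l t)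
    (g₂ := fun _ => l (0 + 2 * π) - l 0) (by fun_prop) continuous_const
    (funext fun t => Subtype.ext (h4 t).1) 0 rfl
  exact ⟨k, l, h1, h3, fun t => by rw [← hk, ← congrFun h5 t]; ring⟩

theorem exists_log {p μ : ℂ → ℂ} {k : ℤ} (hp : Wind p k) (hμ : Wind μ (-k)) :
    ∃ l : ℂ → ℂ, ContinuousOn l (sphere 0 1) ∧
      ∀ y ∈ sphere (0 : ℂ) 1, Complex.exp (l y) = p y * μ y := by
  obtain ⟨l, h1, h2, h3⟩ := hp
  obtain ⟨l', h4, h5, h6⟩ := hμ
  have hL : Periodic (fun t => l t + l' t) (2 * π) := fun t => by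
    simp only [h3, h6]; push_cast; ring
  have hc : Continuous (hL.lift : Real.Angle → ℂ) := continuous_coinduced_dom.2 (h1.add h4)
  refine ⟨fun y => l y.arg + l' y.arg, fun y hy => ?_, fun y hy => by
    rw [Complex.exp_add, h2, h5, exp_arg hy]⟩
  exact (hc.continuousAt.comp (Complex.continuousAt_arg_coe_angle
    (ne_zero_of_mem_unit_sphere ⟨y, hy⟩))).continuousWithinAt

/-- complex conjugation as a real linear map -/
abbrev cj : ℂ →L[ℝ] ℂ := Complex.conjCLE

theorem core {a : ℂ → Rn 3 →L[ℝ] Rn 5} {N M : ℂ → ℂ →L[ℝ] Rn 5} {B : ℂ → ℂ →L[ℝ] Rn 3}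
    {p q : ℂ → ℂ} (ha : ContinuousOn a (closedBall 0 1)) (hM : ContinuousOn M (closedBall 0 1))
    (fM : ∀ y ∈ closedBall (0 : ℂ) 1, Fr (a y) (M y)) (hB : ContinuousOn B (sphere 0 1))
    (hp : ContinuousOn p (sphere 0 1)) (hq : ContinuousOn q (sphere 0 1))
    (hlt : ∀ y ∈ sphere (0 : ℂ) 1, ‖q y‖ < ‖p y‖)
    (e : ∀ y ∈ sphere (0 : ℂ) 1, ∀ z, N y z = a y (B y z) + M y (p y * z + q y * cj z)) :
    ∃ k : ℤ, ∀ μ : ℂ → ℂ, ContinuousOn μ (sphere 0 1) → Wind μ k →
      ∃ N' : ℂ → ℂ →L[ℝ] Rn 5, ContinuousOn N' (closedBall 0 1) ∧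
        (∀ y ∈ closedBall (0 : ℂ) 1, Fr (a y) (N' y)) ∧
        ∀ y ∈ sphere (0 : ℂ) 1, N' y = (N y).comp (mulC (μ y)) := by
  have p0 : ∀ y ∈ sphere (0 : ℂ) 1, p y ≠ 0 := fun y hy =>
    norm_pos_iff.1 ((norm_nonneg _).trans_lt (hlt y hy))
  obtain ⟨k, hk⟩ := exists_wind hp p0
  refine ⟨-k, fun μ hμ hw => ?_⟩
  obtain ⟨l, h1, h2⟩ := exists_log hk hw
  have μ0 : ∀ y ∈ sphere (0 : ℂ) 1, μ y ≠ 0 := fun y hy h => by
    have := h2 y hy
    rw [h, mul_zero] at this
    exact Complex.exp_ne_zero _ this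
  obtain ⟨l', l1, l2, -⟩ := exists_ext h1
  obtain ⟨r, r1, r2, r3⟩ := exists_ext (f := fun y => q y * cj (μ y) / (p y * μ y))
    ((hq.mul (cj.continuous.comp_continuousOn hμ)).div (hp.mul hμ)
      fun y hy => mul_ne_zero (p0 y hy) (μ0 y hy))
  obtain ⟨B', b1, b2, -⟩ := exists_ext (f := fun y => (B y).comp (mulC (μ y)))
    (hB.clm_comp ((ContinuousLinearMap.mul ℝ ℂ).continuous.comp_continuousOn hμ))
  have hr : ∀ y ∈ closedBall (0 : ℂ) 1, ‖r y‖ < 1 := fun y hy => by
    rcases r3 y hy with h | ⟨u, hu, h⟩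
    · simp [h]
    · refine h.trans_lt ?_
      have := norm_pos_iff.2 (μ0 u hu)
      rw [norm_div, norm_mul, norm_mul, div_lt_one (mul_pos (norm_pos_iff.2 (p0 u hu)) this)]
      simpa using mul_lt_mul_of_pos_right (hlt u hu) this
  refine ⟨fun y => (a y).comp (B' y) + (M y).comp ((mulC (Complex.exp (l' y))).comp
    (1 + (mulC (r y)).comp cj)), (ha.clm_comp b1.continuousOn).add (hM.clm_comp
      (Continuous.continuousOn (by fun_prop))), fun y hy => fr_iff.2 fun u z h => ?_,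
    fun y hy => ContinuousLinearMap.ext fun z => ?_⟩
  · obtain ⟨h3, h4⟩ := fr_iff.1 (fM y hy) (u + B' y z) (Complex.exp (l' y) * (z + r y * cj z))
      (by rw [map_add, add_assoc]; exact h)
    have h5 : z = 0 := by_contra fun h0 => by
      have h6 := congrArg norm (eq_neg_of_add_eq_zero_left
        ((mul_eq_zero.1 h4).resolve_left (Complex.exp_ne_zero _)))
      simp only [norm_neg, norm_mul, ContinuousLinearEquiv.coe_coe, Complex.conjCLE_apply,
        RCLike.norm_conj] at h6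
      nlinarith [norm_pos_iff.2 h0, hr y hy]
    exact ⟨by simpa [h5] using h3, h5⟩
  · change a y (B' y z) + M y (Complex.exp (l' y) * (z + r y * cj z)) = N y (μ y * z)
    rw [e y hy, b2 y hy, l2 y hy, r2 y hy, h2 y hy]
    have := p0 y hy
    have := μ0 y hy
    congr 2
    simp only [ContinuousLinearEquiv.coe_coe, Complex.conjCLE_apply, map_mul]
    field_simp

theorem decomp (A : ℂ →L[ℝ] ℂ) (z : ℂ) : A z = (A 1 - Complex.I * A Complex.I) / 2 * z +
    (A 1 + Complex.I * A Complex.I) / 2 * cj z := by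
  have h : z = z.re • (1 : ℂ) + z.im • Complex.I := by apply Complex.ext <;> simp
  conv_lhs => rw [h, map_add, map_smul, map_smul]
  apply Complex.ext <;> simp <;> ring

theorem norm_ne {p q : ℂ} (h : ∀ z, p * z + q * cj z = 0 → z = 0) : ‖q‖ ≠ ‖p‖ := fun e => by
  rcases eq_or_ne p 0 with rfl | hp
  · simpa [norm_eq_zero.1 (e.trans norm_zero)] using h 1
  have h1 : -q / p ∈ sphere (0 : ℂ) 1 := by simp [e, hp]
  refine Complex.exp_ne_zero _ (h (Complex.exp (((-q / p).arg / 2 : ℝ) * Complex.I)) ?_)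
  have h2 : cj (Complex.exp (((-q / p).arg / 2 : ℝ) * Complex.I)) =
      Complex.exp (-(((-q / p).arg / 2 : ℝ) * Complex.I)) := by
    simp only [ContinuousLinearEquiv.coe_coe, Complex.conjCLE_apply, ← Complex.exp_conj, map_mul,
      Complex.conj_ofReal, Complex.conj_I, mul_neg]
  have h3 : Complex.exp (((-q / p).arg / 2 : ℝ) * Complex.I) =
      -q / p * Complex.exp (-(((-q / p).arg / 2 : ℝ) * Complex.I)) := by
    conv_rhs => rw [← exp_arg h1]
    rw [exp_arg h1]
    nth_rewrite 2 [← exp_arg h1]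
    rw [← Complex.exp_add]
    congr 1
    push_cast
    ring
  rw [h2, h3]
  field_simp
  ring

end Disc

open Disc

theorem cross : CrossStmt := by
  refine ⟨fun p => Complex.reCLM.smulRight p.2 + Complex.imCLM.smulRight (X p), ?_,
    fun a v ha hv => fr_iff.2 fun u z h => ?_, fun a A hA z => ?_⟩
  · have : Continuous X := continuous_pi fun i => by
      simp only [X, ell_eq]
      exact Continuous.matrix_det (by fun_prop : Continuous fun p : (Rn 3 →L[ℝ] Rn 5) × Rn 5 =>
        ![p.1 (Pi.single 0 1), p.1 (Pi.single 1 1), p.1 (Pi.single 2 1), p.2, Pi.single i 1])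
    refine continuous_clm_apply.2 fun z => ?_
    simp only [add_apply, ContinuousLinearMap.smulRight_apply]
    fun_prop
  · replace h : a u + (z.re • v + z.im • X (a, v)) = 0 := h
    have h1 := congrArg (ell a v) h
    simp only [map_add, map_smul, ell_a, ell_v, smul_eq_mul, mul_zero, zero_add, map_zero] at h1
    have h2 := (mul_eq_zero.1 h1).resolve_right (ell_X ha hv)
    rw [h2, zero_smul, add_zero] at h
    have h3 : z.re = 0 := by
      by_contra h0
      refine hv ⟨-(z.re)⁻¹ • u, ?_⟩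
      rw [map_smul, eq_neg_of_add_eq_zero_left h, smul_neg, neg_smul, neg_neg, inv_smul_smul₀ h0]
    rw [h3, zero_smul, add_zero] at h
    exact ⟨ha (h.trans a.map_zero.symm), Complex.ext h3 h2⟩
  · have h1 : X (a, Pi.single 3 1) = ![0, 0, 0, 0, A.det] := by
      rw [ContinuousLinearMap.det, ← LinearMap.det_toMatrix', Matrix.det_fin_three]
      funext i
      simp only [X, ell_eq, rows, hA]
      fin_cases i <;>
        simp [Matrix.det_succ_row_zero, Fin.sum_univ_succ, Fin.succAbove, Pi.single_apply] <;> ring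
    change z.re • (Pi.single 3 1 : Rn 5) + z.im • X (a, Pi.single 3 1) = _
    rw [h1]
    funext i
    fin_cases i <;> simp [mul_comm]

theorem disc : DiscStmt := by
  intro a N ha hi hN fN
  have one : (1 : ℂ) ∈ sphere (0 : ℂ) 1 := by simp
  obtain ⟨M, hM, fM⟩ := exists_frame ha hi (fN 1 one)
  obtain ⟨L, hL⟩ := left_inv (Rn 3 × ℂ) (Rn 5)
  have sb : sphere (0 : ℂ) 1 ⊆ closedBall 0 1 := sphere_subset_closedBall
  let T : ℂ → ℂ →L[ℝ] Rn 3 × ℂ := fun y => (L ((a y).coprod (M y))).comp (N y)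
  have hG : ContinuousOn (fun y => (a y).coprod (M y)) (sphere 0 1) :=
    continuousOn_clm_apply.2 fun x => (((ha.mono sb).clm_apply continuousOn_const).add
      ((hM.mono sb).clm_apply continuousOn_const) :
        ContinuousOn (fun y => a y x.1 + M y x.2) _)
  have hT : ContinuousOn T (sphere 0 1) := ContinuousOn.clm_comp
    (fun y hy => ContinuousAt.comp_continuousWithinAt (f := fun y => (a y).coprod (M y))
      (hL _ (fM y (sb hy))).1 (hG y hy)) hN
  have e : ∀ y ∈ sphere (0 : ℂ) 1, ∀ z, N y z = a y (T y z).1 + M y (T y z).2 := fun y hy z => by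
    obtain ⟨x, hx⟩ := (LinearMap.injective_iff_surjective_of_finrank_eq_finrank
      (f := (((a y).coprod (M y) : Rn 3 × ℂ →L[ℝ] Rn 5) : Rn 3 × ℂ →ₗ[ℝ] Rn 5))
      (by simp [Complex.finrank_real_complex])).1
      (fM y (sb hy)) (N y z)
    have : T y z = x := by rw [← (hL _ (fM y (sb hy))).2 x]; exact congrArg _ hx.symm
    rw [this]; exact hx.symm
  let A : ℂ → ℂ →L[ℝ] ℂ := fun y => (ContinuousLinearMap.snd ℝ _ _).comp (T y)
  have hA : ContinuousOn A (sphere 0 1) := continuousOn_const.clm_comp hT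
  have hB : ContinuousOn (fun y => (ContinuousLinearMap.fst ℝ _ _).comp (T y)) (sphere 0 1) :=
    continuousOn_const.clm_comp hT
  let p : ℂ → ℂ := fun y => (A y 1 - Complex.I * A y Complex.I) / 2
  let q : ℂ → ℂ := fun y => (A y 1 + Complex.I * A y Complex.I) / 2
  have hp : ContinuousOn p (sphere 0 1) := by fun_prop
  have hq : ContinuousOn q (sphere 0 1) := by fun_prop
  have e' : ∀ y z, (T y z).2 = p y * z + q y * cj z := fun y z => decomp (A y) z
  have ne : ∀ y ∈ sphere (0 : ℂ) 1, ‖q y‖ ≠ ‖p y‖ := fun y hy => norm_ne fun z hz =>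
    (fr_iff.1 (fN y hy) (-(T y z).1) z (by rw [e y hy, e', hz]; simp)).2
  have pc : IsPreconnected (sphere (0 : ℂ) 1) :=
    (isConnected_sphere (by simp [Complex.rank_real_complex]) 0 zero_le_one).isPreconnected
  rcases lt_or_gt_of_ne (ne 1 one) with h | h
  · refine core ha hM fM hB hp hq (fun y hy => lt_of_not_ge fun h' => ?_)
      fun y hy z => by rw [e y hy, e']; rfl
    obtain ⟨u, hu, h''⟩ := pc.intermediate_value₂ one hy hq.norm hp.norm h.le h'
    exact ne u hu h''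
  · refine core (M := fun y => (M y).comp cj) (p := fun y => cj (q y)) (q := fun y => cj (p y))
      ha (hM.clm_comp continuousOn_const) (fun y hy => fr_iff.2 fun u z h => ?_) hB
      (cj.continuous.comp_continuousOn hq) (cj.continuous.comp_continuousOn hp)
      (fun y hy => lt_of_not_ge fun h' => ?_) fun y hy z => ?_
    · exact (fr_iff.1 (fM y hy) u (cj z) h).imp_right fun h => by simpa using h
    · obtain ⟨u, hu, h''⟩ := pc.intermediate_value₂ one hy hp.norm hq.norm h.le (by simpa using h')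
      exact ne u hu h''.symm
    · rw [e y hy, e']
      simp [add_comm]

end Pool.Agent.MP_e1dc65_gt.T2

end
end MrgPart3

-- marker of a merged file
example : 731051 + 789795 = 731051 + 789795 := rfl
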