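import Mathlib.Analysis.SpecialFunctions.Complex.Circle
import Pool.Agent.MP_e1dc65_gt.Spec1
import Pool.Agent.MP_e1dc65_gt.t2.Spec

-- ======== part 0: formerly Pool.Agent.MP_e1dc65_gt.t.Spec
section MrgPart0

/-! PROJECT HC, parts T2 and T3: normal form, fibre products, replacement, statements. -/

open scoped ContDiff Manifold Topology Real
open Set Filter Function Module Topology

noncomputable section

namespace Pool.Agent.MP_e1dc65_gt.T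

abbrev E2 : Type := EuclideanSpace ℝ (Fin 2)
abbrev R3 : Type := E2 × ℝ

def rot (θ : E2) : E2 := !₂[-θ 1, θ 0]
def cir (s : ℝ) : E2 := !₂[Real.cos s, Real.sin s]
/-- the outside of the unit box -/
def Out : Set R3 := {p | 1 < ‖p.1‖ ∨ 1 < |p.2|}

/-- three-space with three one-handles and three two-handles -/
structure NF where
  F : Mf (Rn 3)
  f : F → ℝ
  w : F → E2
  ξ : F → Rn 3
  φ : ℝ → F → F
  ρ : F → ℝ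
  δ : ℝ
  c₁ : Fin 3 → ℝ × E2 → F
  c₂ : Fin 3 → E2 × ℝ → F
  v₁ : ℝ
  v₂ : ℝ

namespace NF

variable (N : NF)

def pj (m : N.F) : R3 := (N.w m, N.f m)
def K : Set N.F := N.pj ⁻¹' Outᶜ
def pinv : R3 → N.F := invFunOn N.pj (N.pj ⁻¹' Out)
def D₁ : Set (ℝ × E2) := {p | p.1 ^ 2 + ‖p.2‖ ^ 2 < N.δ ^ 2}
def D₂ : Set (E2 × ℝ) := {p | ‖p.1‖ ^ 2 + p.2 ^ 2 < N.δ ^ 2}

structure Ok : Prop where
  smf : Sm N.F (vs ℝ) N.f univ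
  smw : Sm N.F (vs E2) N.w univ
  smρ : Sm N.F (vs ℝ) N.ρ univ
  vf : ∀ m, VfAt N.F N.ξ m
  fl : IsFlow N.F N.ξ N.φ
  ρ01 : ∀ m, N.ρ m ∈ Icc (0 : ℝ) 1
  δpos : 0 < N.δ
  lo : -1 < N.v₁ - N.δ ^ 2
  hi : N.v₂ + N.δ ^ 2 < 1
  oe₁ : ∀ j, OE (vs (ℝ × E2)) N.F (N.c₁ j) N.D₁
  oe₂ : ∀ i, OE (vs (E2 × ℝ)) N.F (N.c₂ i) N.D₂
  f₁ : ∀ j, ∀ p ∈ N.D₁, N.f (N.c₁ j p) = N.v₁ - p.1 ^ 2 + ‖p.2‖ ^ 2
  f₂ : ∀ i, ∀ p ∈ N.D₂, N.f (N.c₂ i p) = N.v₂ - ‖p.1‖ ^ 2 + p.2 ^ 2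
  ξ₁ : ∀ j, ∀ p ∈ N.D₁, Df (vs (ℝ × E2)) N.F (N.c₁ j) p (-p.1, p.2) = N.ξ (N.c₁ j p)
  ξ₂ : ∀ i, ∀ p ∈ N.D₂, Df (vs (E2 × ℝ)) N.F (N.c₂ i) p (-p.1, p.2) = N.ξ (N.c₂ i p)
  ρ₁ : ∀ j, ∀ p ∈ N.D₁, N.ρ (N.c₁ j p) = 1
  ρ₂ : ∀ i, ∀ p ∈ N.D₂, N.ρ (N.c₂ i p) = 1
  dis₁ : ∀ j j', ∀ p ∈ N.D₁, ∀ p' ∈ N.D₁, N.c₁ j p = N.c₁ j' p' → j = j'
  dis₂ : ∀ i i', ∀ p ∈ N.D₂, ∀ p' ∈ N.D₂, N.c₂ i p = N.c₂ i' p' → i = i'
  pos : ∀ m, (∀ j, m ≠ N.c₁ j 0) → (∀ i, m ≠ N.c₂ i 0) → 0 < Df N.F (vs ℝ) N.f m (N.ξ m)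
  unit : ∀ m, 1 < |N.f m| → Df N.F (vs ℝ) N.f m (N.ξ m) = 1
  oe : OE N.F (vs R3) N.pj (N.pj ⁻¹' Out)
  onto : Out ⊆ range N.pj
  prop : ∀ Q, IsCompact Q → IsCompact (N.pj ⁻¹' Q)
  vert : ∀ m, N.pj m ∈ Out → Df N.F (vs E2) N.w m (N.ξ m) = 0 ∧ N.ρ m = 0
  up : ∀ m, Tendsto (fun τ => N.f (N.φ τ m)) atTop atTop ∨
    (∃ j τ a, (a, 0) ∈ N.D₁ ∧ N.φ τ m = N.c₁ j (a, 0)) ∨
    ∃ i τ a, (a, 0) ∈ N.D₂ ∧ N.φ τ m = N.c₂ i (a, 0)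
  down : ∀ m, Tendsto (fun τ => N.f (N.φ τ m)) atBot atBot ∨
    (∃ j τ b, (0, b) ∈ N.D₁ ∧ N.φ τ m = N.c₁ j (0, b)) ∨
    ∃ i τ b, (0, b) ∈ N.D₂ ∧ N.φ τ m = N.c₂ i (0, b)

/-- upside down -/
def flip : NF where
  F := N.F
  f m := -N.f m
  w := N.w
  ξ m := -N.ξ m
  φ τ := N.φ (-τ)
  ρ := N.ρ
  δ := N.δ
  c₁ j p := N.c₂ j (p.2, p.1)
  c₂ i p := N.c₁ i (p.2, p.1)
  v₁ := -N.v₂
  v₂ := -N.v₁

/-- the ascending disc of an index-one point -/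
def A (j : Fin 3) : Set N.F := {m | ∃ τ b, (0, b) ∈ N.D₁ ∧ m = N.φ τ (N.c₁ j (0, b))}
/-- a point of the descending disc of an index-two point -/
def dn (i : Fin 3) (θ : E2) : N.F := N.c₂ i ((N.δ / 2) • θ, 0)

/-- intersection data at the level `t` -/
structure Int (t : ℝ) (b : Fin 3 → N.F → ℝ) (d : Fin 3 → E2 → ℝ) (s₀ : Fin 3 → E2)
    (μ : Fin 3 → E2 → E2) : Prop where
  lo : N.v₁ + N.δ ^ 2 < t
  hi : t < N.v₂ - N.δ ^ 2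
  bsm : ∀ j, ∀ m ∈ N.A j, N.f m ≤ t →
    SmAt N.F (vs ℝ) (b j) m ∧ b j m = 0 ∧ Df N.F (vs ℝ) (b j) m ≠ 0
  der : ∀ i j θ T, ‖θ‖ = 1 → N.dn i θ ∈ N.A j → N.f (N.φ T (N.dn i θ)) = t → d i θ ≠ 0 ∧
    HasDerivAt (fun s : ℝ => b j (N.φ T (N.dn i (θ + s • rot θ)))) (d i θ) 0
  base : ∀ i, ‖s₀ i‖ = 1 ∧ N.dn i (s₀ i) ∈ N.A i
  pair : ∀ i j θ, ‖θ‖ = 1 → N.dn i θ ∈ N.A j → θ ≠ s₀ i → ‖μ i θ‖ = 1 ∧ μ i θ ≠ s₀ i ∧
    N.dn i (μ i θ) ∈ N.A j ∧ μ i (μ i θ) = θ ∧ d i θ * d i (μ i θ) < 0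

/-- circle-valued functions below the level `t` with prescribed winding numbers -/
def Wind (t : ℝ) : Prop :=
  N.v₁ + N.δ ^ 2 < t ∧ t < N.v₂ - N.δ ^ 2 ∧ ∀ n : Fin 3 → ℤ, ∃ g : N.F → Circle,
    ContinuousOn g {m | N.f m ≤ t} ∧ (∀ m, N.f m ≤ -1 → g m = 1) ∧ ∀ i, ∃ L : ℝ → ℝ,
      Continuous L ∧ (∀ s, L (s + 2 * π) = L s + 2 * π * n i) ∧
      ∀ s T, N.f (N.φ T (N.dn i (cir s))) = t → g (N.φ T (N.dn i (cir s))) = Circle.exp (L s)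

/-- all properties of the normal form -/
structure Good : Prop where
  ok : N.Ok
  int : ∃ t b d s₀ μ, N.Int t b d s₀ μ
  int' : ∃ t b d s₀ μ, N.flip.Int t b d s₀ μ
  wind : ∃ t, N.Wind t
  cof : ∃ Θ : N.F → Rn 3 →L[ℝ] Rn 3, Cof N.F ∞ Θ univ

/-- the normal form sits in `F` minus the base point -/
structure End (F : Mf (Rn 3)) (e₀ : Rn 3 → F) (em : N.F → F) (th : OpenPartialHomeomorph F (Rn 3))
    (th' : R3 → Rn 3) : Prop where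
  oe : OE N.F F em univ
  ne : ∀ m, em m ≠ e₀ q0
  emb : IsOpenEmbedding th'
  src : th.source = ({e₀ q0} ∪ em '' N.K)ᶜ
  tgt : th.target = (th' '' Outᶜ)ᶜ
  rel : ∀ m ∉ N.K, th (em m) = th' (N.pj m)
  inv : ∃ r > 0, ∀ v, 0 < nsq v → nsq v < r →
    e₀ (q0 + eps • v) ∈ th.source ∧ th (e₀ (q0 + eps • v)) = (nsq v)⁻¹ • v

/-! ### Fibre products and replacement -/

section
variable {B : Type}

def Hyp (Γ : B → ℝ) : Set (N.F × B) := {p | N.f p.1 = Γ p.2}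
def pr (p : N.F × B) : E2 × B := (N.w p.1, p.2)
/-- the part of the fibre product over `D` -/
def Pt (Γ : B → ℝ) (D : Set (E2 × B)) : Set (N.F × B) := N.Hyp Γ ∩ N.pr ⁻¹' D
/-- matching points -/
def Mt (p p' : N.F × B) : Prop :=
  p.2 = p'.2 ∧ (p.1 = p'.1 ∨ (p.1 ∉ N.K ∧ p'.1 ∉ N.K ∧ N.w p.1 = N.w p'.1))

end

end NF

/-- equal, or both far from the unit interval -/
def Far (a a' : ℝ) : Prop := a = a' ∨ (3 / 2 < |a| ∧ 3 / 2 < |a'|)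

/-- `Γ` and `Γ'` differ essentially only over the compact set `Q` -/
structure Adm {B : Type} [TopologicalSpace B] (Γ Γ' : B → ℝ) (D Q : Set (E2 × B)) : Prop where
  op : IsOpen D
  cp : IsCompact Q
  sub : Q ⊆ D
  c : Continuous Γ
  c' : Continuous Γ'
  far : ∀ q ∈ D \ Q, ‖q.1‖ ≤ 1 → Far (Γ q.2) (Γ' q.2)

/-- `X'` arises from `X` by replacing the fibre product for `Γ` by the one for `Γ'` -/
structure Rp (N : NF) {B X X' : Type} [TopologicalSpace B] [TopologicalSpace X]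
    [TopologicalSpace X'] (Γ Γ' : B → ℝ) (D Q : Set (E2 × B)) (i : N.F × B → X)
    (i' : N.F × B → X') (h : OpenPartialHomeomorph X X') : Prop where
  adm : Adm Γ Γ' D Q
  oe : IsOpenEmbedding ((N.Pt Γ D).restrict i)
  oe' : IsOpenEmbedding ((N.Pt Γ' D).restrict i')
  src : h.source = (i '' N.Pt Γ Q)ᶜ
  tgt : h.target = (i' '' N.Pt Γ' Q)ᶜ
  rel : ∀ p ∈ N.Pt Γ (D \ Q), ∀ p' ∈ N.Hyp Γ', N.Mt p p' → h (i p) = i' p'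

section
variable {E EB : Type} [NormedAddCommGroup E] [NormedSpace ℝ E] [NormedAddCommGroup EB]
  [NormedSpace ℝ EB]

/-- smooth, and regular where it matters -/
def Reg (N : NF) (B : Mf EB) (Γ : B → ℝ) (D : Set (E2 × B)) : Prop :=
  Sm B (vs ℝ) Γ univ ∧ ∀ q ∈ D, Γ q.2 = N.v₁ ∨ Γ q.2 = N.v₂ → Df B (vs ℝ) Γ q.2 ≠ 0

/-- `i` is a smooth open embedding of the part of the fibre product over `D` -/
def LOE (N : NF) (B : Mf EB) (Γ : B → ℝ) (D : Set (E2 × B)) (X : Mf E) (i : N.F × B → X) : Prop :=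
  ∀ (Z : Mf (Rn 5)) (j : Z → N.F.prod B),
    Level (N.F.prod B) (fun p => N.f p.1 - Γ p.2) (N.Pt Γ D) Z j → OE Z X (fun z => i (j z)) univ

end

/-! ### The model -/

def bet (y : ℝ) : ℝ := Real.smoothTransition ((9 - y ^ 2) / 5)
def gam (t y : ℝ) : ℝ := y ^ 2 + 2 - (2 - t) * bet y
/-- two sheets for `t = -2`, a tube for `t = 2` -/
def Gm (t : ℝ) (b : R3) : ℝ := gam t b.2 - ‖b.1‖ ^ 2
def D0 : Set (E2 × R3) := {q | ‖q.1‖ < 5 ∧ ‖q.2.1‖ < 5 ∧ |q.2.2| < 5}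
def Q0 : Set (E2 × R3) := {q | ‖q.1‖ ≤ 1 ∧ ‖q.2.1‖ ≤ 4 ∧ |q.2.2| ≤ 3}

/-- a copy of the core of `N.F` on one sheet (`σ = ±1`) -/
def NF.Sheet (N : NF) (σ : ℝ) : Set (N.F × R3) :=
  {p | ‖N.w p.1‖ ≤ 6 / 5 ∧ |N.f p.1| ≤ 6 / 5 ∧
    p.2 = (√(57 / 4 - N.f p.1) • cir 0, σ * (7 / 2))}

/-- row FLIP -/
def FlipStmt : Prop := ∀ N : NF, N.Ok → N.flip.Ok

/-- block NF -/
def NFStmt : Prop :=
  ∀ (F : Mf (Rn 3)) (e₀ : Rn 3 → F) (e : Fin 3 → Rn 3 → F), IsF F e₀ e →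
    ∃ (N : NF) (em : N.F → F) (th : OpenPartialHomeomorph F (Rn 3)) (th' : R3 → Rn 3),
      N.Good ∧ N.End F e₀ em th th'

/-- block KEY, one patch -/
def KeyStmt : Prop :=
  ∀ (N : NF) (E : Type) [NormedAddCommGroup E] [NormedSpace ℝ E] [FiniteDimensional ℝ E]
    (X : Mf E) (X' : Type) [TopologicalSpace X'] [TopologicalSpace.MetrizableSpace X']
    [LocallyCompactSpace X'] (D : Set (E2 × R3)) (i : N.F × R3 → X) (i' : N.F × R3 → X')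
    (h : OpenPartialHomeomorph X X') (O : Set X), N.Ok → (∃ t b d s₀ μ, N.Int t b d s₀ μ) →
    finrank ℝ E = 5 → LOE N (vs R3) (Gm (-2)) D X i → Rp N (Gm (-2)) (Gm 2) D Q0 i i' h →
    IsOpen O → i '' N.Pt (Gm (-2)) Q0 ⊆ O → Thin (i '' N.Pt (Gm (-2)) Q0) O →
    ∃ (H : X ≃ₜ X') (K : Set X), IsCompact K ∧ K ⊆ O ∧ i '' N.Pt (Gm (-2)) Q0 ⊆ K ∧
      ∀ x ∉ K, H x = h x

/-- copies of a set -/
def cps (ι : Type) (D : Set (E2 × R3)) : Set (E2 × Σ _ : ι, R3) := {q | (q.1, q.2.2) ∈ D}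

/-- block KEY, finitely many patches at once -/
def KeyFStmt : Prop :=
  ∀ (N : NF) (E : Type) [NormedAddCommGroup E] [NormedSpace ℝ E] [FiniteDimensional ℝ E]
    (X : Mf E) (X' : Type) [TopologicalSpace X'] [TopologicalSpace.MetrizableSpace X']
    [LocallyCompactSpace X'] (ι : Type) [Finite ι] (D : Set (E2 × R3))
    (i : N.F × (Σ _ : ι, R3) → X) (i' : N.F × (Σ _ : ι, R3) → X')
    (h : OpenPartialHomeomorph X X') (O : Set X), N.Ok → (∃ t b d s₀ μ, N.Int t b d s₀ μ) →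
    finrank ℝ E = 5 → (∀ k, LOE N (vs R3) (Gm (-2)) D X fun p => i (p.1, ⟨k, p.2⟩)) →
    Rp N (fun b => Gm (-2) b.2) (fun b => Gm 2 b.2) (cps ι D) (cps ι Q0) i i' h → IsOpen O →
    (∀ k, (fun p => i (p.1, ⟨k, p.2⟩)) '' N.Pt (Gm (-2)) Q0 ⊆ O) →
    (∀ k, Thin ((fun p => i (p.1, ⟨k, p.2⟩)) '' N.Pt (Gm (-2)) Q0) O) →
    ∃ (H : X ≃ₜ X') (K : Set X), IsCompact K ∧ K ⊆ O ∧
      (∀ k, (fun p => i (p.1, ⟨k, p.2⟩)) '' N.Pt (Gm (-2)) Q0 ⊆ K) ∧ ∀ x ∉ K, H x = h x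

/-- row CORE: the core of the model is thin when both sheets are -/
def CoreStmt : Prop :=
  ∀ (N : NF) (X : Type) [TopologicalSpace X] (i : N.F × R3 → X) (O : Set X), N.Ok →
    IsEmbedding ((N.Pt (Gm (-2)) D0).restrict i) → i '' N.Pt (Gm (-2)) D0 ⊆ O →
    Thin (i '' N.Sheet 1) O → Thin (i '' N.Sheet (-1)) O → Thin (i '' N.Pt (Gm (-2)) Q0) O

/-- row EXIST: the replacement exists as a smooth manifold -/
def ExistStmt : Prop :=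
  ∀ (N : NF) (E EB : Type) [NormedAddCommGroup E] [NormedSpace ℝ E] [FiniteDimensional ℝ E]
    [NormedAddCommGroup EB] [NormedSpace ℝ EB] [FiniteDimensional ℝ EB] (B : Mf EB) (X : Mf E)
    (Γ Γ' : B → ℝ) (D Q : Set (E2 × B)) (i : N.F × B → X), N.Ok → finrank ℝ E = 5 →
    finrank ℝ EB = 3 → Adm Γ Γ' D Q → Reg N B Γ D → Reg N B Γ' D → (∃ q ∈ D, 1 < ‖q.1‖) →
    LOE N B Γ D X i →
    ∃ (X' : Mf (Rn 5)) (i' : N.F × B → X') (h : OpenPartialHomeomorph X X'),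
      Rp N Γ Γ' D Q i i' h ∧ LOE N B Γ' D X' i' ∧ OE X X' h h.source

/-- row LOE: how to prove and use `LOE` -/
def LoeStmt : Prop :=
  ∀ (N : NF) (E EB : Type) [NormedAddCommGroup E] [NormedSpace ℝ E] [FiniteDimensional ℝ E]
    [NormedAddCommGroup EB] [NormedSpace ℝ EB] [FiniteDimensional ℝ EB] (B : Mf EB) (X : Mf E)
    (Γ : B → ℝ) (D : Set (E2 × B)) (i : N.F × B → X), N.Ok → finrank ℝ E = 5 → finrank ℝ EB = 3 →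
    IsOpen D → Reg N B Γ D →
    ((N.Pt Γ D).Nonempty → ∃ (Z : Mf (Rn 5)) (j : Z → N.F.prod B),
      Level (N.F.prod B) (fun p => N.f p.1 - Γ p.2) (N.Pt Γ D) Z j ∧
        LOE N B Γ D Z (invFun j)) ∧
    (LOE N B Γ D X i → IsOpenEmbedding ((N.Pt Γ D).restrict i)) ∧
    (InjOn i (N.Pt Γ D) → (∀ p ∈ N.Pt Γ D, ∃ a : N.F × B → X, (∀ᶠ p' in 𝓝[N.Hyp Γ] p, i p' = a p') ∧
      LDAt (N.F.prod B) X.cyl (fun p' => (a p', N.f p'.1 - Γ p'.2)) p) → LOE N B Γ D X i) ∧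
    (∀ (E' : Type) [NormedAddCommGroup E'] [NormedSpace ℝ E'] [FiniteDimensional ℝ E'] (X' : Mf E')
      (u : X → X') (U : Set X), OE X X' u U → MapsTo i (N.Pt Γ D) U → LOE N B Γ D X i →
      LOE N B Γ D X' fun p => u (i p)) ∧
    ∀ (EB' : Type) [NormedAddCommGroup EB'] [NormedSpace ℝ EB'] [FiniteDimensional ℝ EB']
      (B' : Mf EB') (β : B' → B) (V : Set B') (Γ' : B' → ℝ) (D' : Set (E2 × B')), OE B' B β V →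
      IsOpen D' → Sm B' (vs ℝ) Γ' univ → (∀ q ∈ D', q.2 ∈ V ∧ (q.1, β q.2) ∈ D ∧ Γ (β q.2) = Γ' q.2) →
      LOE N B Γ D X i → LOE N B' Γ' D' X fun p => i (p.1, β p.2)

/-- row MOVE: a homeomorphism of the models which is the obvious map off a compact set -/
def Mv (N : NF) {B : Type} [TopologicalSpace B] (Γ Γ' : B → ℝ) (D Q : Set (E2 × B)) : Prop :=
  ∃ κ : N.Pt Γ D ≃ₜ N.Pt Γ' D, ∀ p : N.Pt Γ D, N.pr p.1 ∉ Q → N.Mt p.1 (κ p).1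

/-- row LOC: a move of the models gives a homeomorphism of the replacements -/
def LocStmt : Prop :=
  ∀ (N : NF) (B X X' X'' : Type) [TopologicalSpace B] [T2Space B] [TopologicalSpace X]
    [TopologicalSpace X'] [TopologicalSpace X''] [T2Space X] [T2Space X'] [T2Space X'']
    (Γ Γ' Γ'' : B → ℝ) (D Q Q' : Set (E2 × B)) (i : N.F × B → X) (i' : N.F × B → X')
    (i'' : N.F × B → X'') (h' : OpenPartialHomeomorph X X') (h'' : OpenPartialHomeomorph X X''),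
    N.Ok → Rp N Γ Γ' D Q i i' h' → Rp N Γ Γ'' D Q i i'' h'' → IsCompact Q' → Q ⊆ Q' → Q' ⊆ D →
    Mv N Γ' Γ'' D Q' → ∃ H : X' ≃ₜ X'', ∀ x ∉ i '' N.Pt Γ Q', H (h' x) = h'' x

/-- row SUB: a patch inside a patch -/
def SubStmt : Prop :=
  ∀ (N : NF) (B B' X X' X'' : Type) [TopologicalSpace B] [T2Space B] [TopologicalSpace B']
    [TopologicalSpace X] [TopologicalSpace X'] [TopologicalSpace X''] [T2Space X] [T2Space X']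
    [T2Space X''] (Γ Γ' Γ'' : B → ℝ) (D Q : Set (E2 × B)) (i : N.F × B → X) (i' : N.F × B → X')
    (i'' : N.F × B → X'') (h' : OpenPartialHomeomorph X X') (h'' : OpenPartialHomeomorph X X'')
    (β : B' → B) (V : Set B') (G' G'' : B' → ℝ) (D' Q' : Set (E2 × B')),
    N.Ok → Rp N Γ Γ' D Q i i' h' → Rp N Γ Γ'' D Q i i'' h'' → Adm G' G'' D' Q' → IsOpen V →
    IsOpenEmbedding (V.restrict β) →
    (∀ q ∈ D', q.2 ∈ V ∧ (q.1, β q.2) ∈ D ∧ Γ' (β q.2) = G' q.2 ∧ Γ'' (β q.2) = G'' q.2) →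
    (∀ q ∈ D, ‖q.1‖ ≤ 1 → (∀ b, (q.1, b) ∈ Q' → β b ≠ q.2) → Far (Γ' q.2) (Γ'' q.2)) →
    ∃ k : OpenPartialHomeomorph X' X'',
      Rp N G' G'' D' Q' (fun p => i' (p.1, β p.2)) (fun p => i'' (p.1, β p.2)) k ∧
      (∀ x ∈ h'.source, h' x ∈ k.source → k (h' x) = h'' x) ∧
      ∀ p ∈ N.Pt Γ' D, ∀ p' ∈ N.Hyp Γ'', i' p ∈ k.source → N.Mt p p' → k (i' p) = i'' p'

/-- row SUB: the trivial replacement, the reverse replacement, and a larger core -/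
def SelfStmt : Prop :=
  ∀ (N : NF) (B X X' : Type) [TopologicalSpace B] [T2Space B] [TopologicalSpace X] [T2Space X]
    [TopologicalSpace X'] [T2Space X'] (Γ Γ' : B → ℝ) (D Q : Set (E2 × B)) (i : N.F × B → X)
    (i' : N.F × B → X') (h : OpenPartialHomeomorph X X'), N.Ok →
    (Adm Γ Γ D Q → IsOpenEmbedding ((N.Pt Γ D).restrict i) →
      ∃ k : OpenPartialHomeomorph X X, Rp N Γ Γ D Q i i k ∧ ∀ x, k x = x) ∧
    (Rp N Γ Γ' D Q i i' h → Rp N Γ' Γ D Q i' i h.symm) ∧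
    (Rp N Γ Γ' D Q i i' h → ∀ K, IsCompact K → ∀ O, IsOpen O → i '' N.Pt Γ Q ⊆ O →
      h.source ∩ h ⁻¹' K ⊆ O → ∃ K', IsCompact K' ∧ K' ⊆ O ∧ i '' N.Pt Γ Q ⊆ K' ∧
        h.source ∩ h ⁻¹' K ⊆ K')

/-- row ISO: an isotopy of functions along a field gives a move -/
def IsoStmt : Prop :=
  ∀ (N : NF) (EB : Type) [NormedAddCommGroup EB] [NormedSpace ℝ EB] [FiniteDimensional ℝ EB]
    (B : Mf EB) (Γ Γ' : B → ℝ) (V : B → EB) (S : Set B) (D : Set (E2 × B)), N.Ok → IsOpen D →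
    IsCompact S → Sm B (vs ℝ) Γ univ → Sm B (vs ℝ) Γ' univ → (∀ b, VfAt B V b) →
    (∀ x b, ‖x‖ ≤ 2 → b ∈ S → (x, b) ∈ D) →
    (∀ q ∈ D, q.2 ∉ S → Γ q.2 = Γ' q.2 ∨ (3 / 2 < Γ q.2 ∧ 3 / 2 < Γ' q.2) ∨
      (Γ q.2 < -(3 / 2) ∧ Γ' q.2 < -(3 / 2))) →
    (∀ b ∈ S, ∀ t ∈ Icc (0 : ℝ) 1, |(1 - t) * Γ b + t * Γ' b| ≤ 3 / 2 →
      0 < (1 - t) * Df B (vs ℝ) Γ b (V b) + t * Df B (vs ℝ) Γ' b (V b)) →
    Mv N Γ Γ' D (Metric.closedBall 0 2 ×ˢ S)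

/-! ### The embedding into five-space and the package -/

def NF.g (N : NF) (p : N.F × E2) : ℝ := N.f p.1 + ‖p.2‖ ^ 2
def G5 (q : R3 × E2) : ℝ := q.1.2 + ‖q.2‖ ^ 2
def NF.NR (N : NF) : Set (N.F × E2) :=
  {p | ‖N.w p.1‖ < 5 ∧ ‖p.2‖ < 5 ∧ -3 < N.g p ∧ N.g p < 27}
def NF.Core (N : NF) : Set (N.F × E2) :=
  {p | ‖N.w p.1‖ ≤ 1 ∧ ‖p.2‖ ≤ 4 ∧ -2 ≤ N.g p ∧ N.g p ≤ 11}
def TR (R : ℝ) : Set (R3 × E2) := {q | ‖q.1.1‖ < R ∧ ‖q.2‖ < R ∧ -2 < G5 q ∧ G5 q < R}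

structure Emb (N : NF) (ε : N.F × E2 → R3 × E2) (R : ℝ) : Prop where
  oe : OE (N.F.prod (vs E2)) (vs (R3 × E2)) ε N.NR
  std : ∀ p ∈ N.NR, N.g p < -(3 / 2) → ε p = (N.pj p.1, p.2)
  low : ∀ p ∈ N.NR, -(7 / 4) ≤ N.g p → -(7 / 4) ≤ G5 (ε p)
  big : 27 ≤ R
  bdd : ∀ p ∈ N.NR, ‖(ε p).1.1‖ < R ∧ ‖(ε p).2‖ < R ∧ G5 (ε p) < R
  sc : SC (TR R \ ε '' N.Core)

/-- block EMB -/
def EmbStmt : Prop := ∀ N : NF, N.Good → ∃ ε R, Emb N ε R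

/-- strictly increasing, equal to `gam (-2)` to the right of `3 / 5` -/
def gt (y : ℝ) : ℝ :=
  Real.smoothTransition ((y - 3 / 10) / (3 / 10)) * gam (-2) y +
    (1 - Real.smoothTransition ((y - 3 / 10) / (3 / 10))) * (y - 3)

/-- the reflection of the region above the paraboloid into the bottom of `N.F × E2` -/
def NF.rf (N : NF) (q : R3 × E2) : N.F × E2 :=
  (N.pinv (q.1.1, gt (-√(G5 q + 2)) - ‖q.2‖ ^ 2), q.2)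

/-- the package patch -/
def NF.io (N : NF) (ε : N.F × E2 → R3 × E2) (p : N.F × R3) : N.F × E2 :=
  if 3 / 5 ≤ p.2.2 then (p.1, p.2.1)
  else if -(3 / 5) ≤ p.2.2 then (N.pinv (N.w p.1, gt p.2.2 - ‖p.2.1‖ ^ 2), p.2.1)
  else N.rf (ε (p.1, p.2.1))

/-- block PK: the patch is a bounded smooth embedding, and the replacement kills all loops -/
def PkStmt : Prop :=
  ∀ (N : NF) (ε : N.F × E2 → R3 × E2) (R : ℝ), N.Ok → Emb N ε R →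
    LOE N (vs R3) (Gm (-2)) D0 (N.F.prod (vs E2)) (N.io ε) ∧
    (∀ p ∈ N.Pt (Gm (-2)) D0, ‖N.w (N.io ε p).1‖ < R ∧ |N.f (N.io ε p).1| < 2 * R ^ 2 ∧
      ‖(N.io ε p).2‖ < R) ∧
    ∀ (X X' : Type) [TopologicalSpace X] [TopologicalSpace X'] (u : N.F × E2 → X)
      (i' : N.F × R3 → X') (h : OpenPartialHomeomorph X X') (z : E2),
      IsEmbedding ((univ ×ˢ Metric.ball (0 : E2) (R + 1)).restrict u) →
      Rp N (Gm (-2)) (Gm 2) D0 Q0 (fun p => u (N.io ε p)) i' h → R ≤ ‖z‖ → ‖z‖ < R + 1 →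
      Thin (h '' (u '' (univ ×ˢ {z})))
        (h '' (u '' (univ ×ˢ Metric.ball 0 (R + 1)) ∩ h.source) ∪ i' '' N.Pt (Gm 2) Q0)

/-- a flat torus of period `L` -/
structure Tor (T : Mf (Rn 2)) (p : E2 → T) (L : ℝ) : Prop where
  ld : ∀ z, LDAt (vs E2) T p z
  sur : Surjective p
  cov : IsCoveringMap p
  eq : ∀ z z', p z = p z' ↔ ∀ k, ∃ n : ℤ, z k - z' k = n * L
  cpt : CompactSpace T

/-- block A. The top level `Hyp Γ` has two sheets `s = ± S (z, f m)`. With the package on both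
sheets it is the trivial space, by a map that is the projection near the end. -/
def AStmt : Prop :=
  ∀ (N : NF) (ε : N.F × E2 → R3 × E2) (R : ℝ), N.Good → Emb N ε R → ∀ C : ℝ, ∃ L₀ : ℝ,
    ∀ L, L₀ ≤ L → ∀ (T : Mf (Rn 2)) (p : E2 → T), Tor T p L →
      ∃ (Γ S : T × ℝ → ℝ) (i : N.F × (Σ _ : Bool, R3) → N.Hyp Γ)
        (i' : N.F × (Σ _ : Bool, R3) → E2 × T × ℝ)
        (h : OpenPartialHomeomorph (N.Hyp Γ) (E2 × T × ℝ)), Continuous Γ ∧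
        (∀ z, C < Γ (z, 0)) ∧ (∀ z s, Γ (z, -s) = Γ (z, s)) ∧
        (∀ z, StrictAntiOn (fun s => Γ (z, s)) (Ici 0)) ∧
        ContinuousOn S {a | a.2 ≤ Γ (a.1, 0)} ∧
        (∀ z t, t ≤ Γ (z, 0) → 0 ≤ S (z, t) ∧ Γ (z, S (z, t)) = t) ∧
        (∀ σ, ∀ q ∈ N.Pt (Gm (-2)) D0, (i (q.1, ⟨σ, q.2⟩) : N.F × T × ℝ) =
          ((N.io ε q).1, p (N.io ε q).2,
            (if σ then -1 else 1) * S (p (N.io ε q).2, N.f (N.io ε q).1))) ∧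
        Rp N (fun b => Gm (-2) b.2) (fun b => Gm 2 b.2) (cps Bool D0) (cps Bool Q0) i i' h ∧
        ∃ c, ∀ y : N.Hyp Γ, c < ‖N.w y.1.1‖ ∨ c < |y.1.2.2| → y ∈ h.source ∧ h y = N.pr y.1

end Pool.Agent.MP_e1dc65_gt.T

end
end MrgPart0

-- ======== part 1: formerly Pool.Agent.MP_e1dc65_gt.t2.Spec2
section MrgPart1

/-! PROJECT HC, blocks EMB and PK: statements of the pieces. -/

open scoped ContDiff Manifold Topology Real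
open Set Filter Function Module Metric Topology

noncomputable section

namespace Pool.Agent.MP_e1dc65_gt.T

/-- the zero of a strictly increasing family depends continuously on the parameter -/
theorem cont_zero {A : Type} [TopologicalSpace A] {F : A → ℝ → ℝ} {τ : A → ℝ} {S : Set A}
    (hc : ∀ t, ContinuousOn (fun a => F a t) S) (hm : ∀ a ∈ S, StrictMono (F a))
    (h0 : ∀ a ∈ S, F a (τ a) = 0) : ContinuousOn τ S := fun a ha =>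
  tendsto_order.2 ⟨fun t ht => by
    filter_upwards [(hc t a ha).eventually_lt_const (h0 a ha ▸ hm a ha ht), self_mem_nhdsWithin]
      with b hb hS using (hm b hS).lt_iff_lt.1 (by rwa [h0 b hS]), fun t ht => by
    filter_upwards [(hc t a ha).eventually_const_lt (h0 a ha ▸ hm a ha ht), self_mem_nhdsWithin]
      with b hb hS using (hm b hS).lt_iff_lt.1 (by rwa [h0 b hS])⟩

namespace NF

variable (N : NF)

/-- the points whose forward orbit stays below `c`; `N.Sp 1` is the spine -/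
def Sp (c : ℝ) : Set N.F := {m | ∀ τ, 0 ≤ τ → N.f (N.φ τ m) ≤ c}

/-- facts on the flow -/
structure Fa : Prop where
  mono : ∀ m, Monotone fun τ => N.f (N.φ τ m)
  smono : ∀ m, (∀ j, m ≠ N.c₁ j 0) → (∀ i, m ≠ N.c₂ i 0) → StrictMono fun τ => N.f (N.φ τ m)
  winv : ∀ τ m, max ‖N.w (N.φ τ m)‖ 1 = max ‖N.w m‖ 1
  vert : ∀ τ m, N.f m < -1 → N.f m + τ < -1 → N.pj (N.φ τ m) = (N.w m, N.f m + τ)
  top : ∀ m ∉ N.Sp 1, Tendsto (fun τ => N.f (N.φ τ m)) atTop atTop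
  inv : ∀ c τ, MapsTo (N.φ τ) (N.Sp c) (N.Sp c)
  cl : ∀ c, IsClosed (N.Sp c)
  wsp : ∀ m ∈ N.Sp 1, ‖N.w m‖ ≤ 1
  box : ∀ r a b, IsCompact {m | ‖N.w m‖ ≤ r ∧ a ≤ N.f m ∧ N.f m ≤ b}
  cpt : ∀ a, IsCompact (N.Sp 1 ∩ {m | a ≤ N.f m})
  rect : T1.Rect (Rn 2) (Rn 3) (N.Sp 1)
  rect1 : ∀ t < N.v₂, T1.Rect ℝ (Rn 3) (N.Sp t)
  s₁ : ∀ j a s, (a, 0) ∈ N.D₁ → 0 ≤ s → N.φ s (N.c₁ j (a, 0)) = N.c₁ j (Real.exp (-s) * a, 0)
  u₁ : ∀ j b s, (0, b) ∈ N.D₁ → 0 ≤ s → N.φ (-s) (N.c₁ j (0, b)) = N.c₁ j (0, Real.exp (-s) • b)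
  s₂ : ∀ i a s, (a, 0) ∈ N.D₂ → 0 ≤ s → N.φ s (N.c₂ i (a, 0)) = N.c₂ i (Real.exp (-s) • a, 0)
  u₂ : ∀ i b s, (0, b) ∈ N.D₂ → 0 ≤ s → N.φ (-s) (N.c₂ i (0, b)) = N.c₂ i (0, Real.exp (-s) * b)
  pl : ∀ m, N.pj m ∈ Out → N.pinv (N.pj m) = m
  pr : ∀ q ∈ Out, N.pj (N.pinv q) = q
  pld : ∀ q ∈ Out, LDAt (vs R3) N.F N.pinv q
  conn : ∀ c ≤ -1, IsPreconnected {m | N.f m < c}

/-- the three descending discs and the rest `Km` of the spine -/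
structure Di (t : ℝ) (d : Fin 3 → ℂ → N.F) (Km : Set N.F) : Prop where
  cont : ∀ j, ContinuousOn (d j) (closedBall 0 1)
  inj : ∀ i j, ∀ y ∈ closedBall (0 : ℂ) 1, ∀ y' ∈ closedBall (0 : ℂ) 1, d i y = d j y' →
    i = j ∧ y = y'
  map : ∀ j, MapsTo (d j) (closedBall 0 1) (N.Sp 1)
  cl : IsClosed Km
  sub : Km ⊆ N.Sp 1
  low : ∀ m ∈ Km, N.f m ≤ t
  cov : ∀ m ∈ N.Sp 1, m ∈ Km ∨ ∃ j, m ∈ d j '' closedBall 0 1
  bd : ∀ j, ∀ y ∈ closedBall (0 : ℂ) 1, d j y ∈ Km ↔ ‖y‖ = 1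
  wind : ∀ k : Fin 3 → ℤ, ∃ μ : N.F → ℂ, ContinuousOn μ {m | N.f m ≤ t} ∧
    (∀ m, N.f m ≤ t → μ m ≠ 0) ∧ (∀ m, N.f m ≤ -1 → μ m = 1) ∧
    ∀ j, T2.Wind (fun y => μ (d j y)) (k j)

/-- a thickened immersion along the spine, standard below `-L` -/
structure Th (G : N.F × E2 → R3 × E2) (L : ℝ) : Prop where
  sm : Sm (N.F.prod (vs E2)) (vs (R3 × E2)) G univ
  two : 2 ≤ L
  std : ∀ p, N.f p.1 ≤ -L → G p = (N.pj p.1, p.2)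
  ld : ∀ m ∈ N.Sp 1, LDAt (N.F.prod (vs E2)) (vs (R3 × E2)) G (m, 0)
  inj : InjOn (fun m => G (m, 0)) (N.Sp 1)
  low : ∀ m, N.f m - 1 / 10 ≤ (G (m, 0)).1.2

end NF

/-- `Emb` without the last field -/
structure Emb0 (N : NF) (ε : N.F × E2 → R3 × E2) (R : ℝ) : Prop where
  oe : OE (N.F.prod (vs E2)) (vs (R3 × E2)) ε N.NR
  std : ∀ p ∈ N.NR, N.g p < -(3 / 2) → ε p = (N.pj p.1, p.2)
  low : ∀ p ∈ N.NR, -(7 / 4) ≤ N.g p → -(7 / 4) ≤ G5 (ε p)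
  big : 27 ≤ R
  bdd : ∀ p ∈ N.NR, ‖(ε p).1.1‖ < R ∧ ‖(ε p).2‖ < R ∧ G5 (ε p) < R

/-- row FA -/
def FaStmt : Prop := ∀ N : NF, N.Ok → N.Fa

/-- row DI -/
def DiStmt : Prop := ∀ (N : NF) (t : ℝ), N.Ok → N.Fa → N.Wind t → ∃ d Km, N.Di t d Km

/-- row TH -/
def ThStmt : Prop :=
  ∀ (N : NF) (t : ℝ) (d : Fin 3 → ℂ → N.F) (Km : Set N.F) (Θ : N.F → Rn 3 →L[ℝ] Rn 3), N.Ok →
    N.Fa → t < N.v₂ → N.Di t d Km → Cof N.F ∞ Θ univ → ∃ G L, N.Th G L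

/-- row TUBE -/
def TubeStmt : Prop :=
  ∀ (N : NF) (G : N.F × E2 → R3 × E2) (L : ℝ), N.Ok → N.Fa → N.Th G L → ∃ ε R, Emb0 N ε R

/-- row GP: a two-dimensional closed set does not change the fundamental group -/
def GpStmt : Prop :=
  ∀ (E : Type) [NormedAddCommGroup E] [NormedSpace ℝ E] [FiniteDimensional ℝ E] (O K : Set E),
    finrank ℝ E = 5 → IsOpen O → Convex ℝ O → O.Nonempty → IsClosed K → T1.RectE (Rn 2) K →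
    SC (O \ K)

/-- row SC -/
def ScStmt : Prop :=
  ∀ (N : NF) (ε : N.F × E2 → R3 × E2) (R : ℝ), N.Ok → N.Fa → Emb0 N ε R →
    SC (TR R \ ε '' N.Core)

/-- facts on the patch -/
structure Io (N : NF) (ε : N.F × E2 → R3 × E2) (R : ℝ) : Prop where
  nr : ∀ p ∈ N.Pt (Gm (-2)) D0, (p.1, p.2.1) ∈ N.NR ∧ N.g (p.1, p.2.1) = gam (-2) p.2.2
  neg : ∀ p ∈ N.Pt (Gm (-2)) D0, p.2.2 ≤ 0 → N.io ε p = N.rf (ε (p.1, p.2.1)) ∧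
    -2 ≤ G5 (ε (p.1, p.2.1))
  pos : ∀ p ∈ N.Pt (Gm (-2)) D0, 0 ≤ p.2.2 → -3 ≤ N.g (N.io ε p)
  core : ∀ p ∈ N.Pt (Gm (-2)) Q0, (p.1, p.2.1) ∈ N.Core ∧ N.g (N.io ε p) ≤ 11
  rf : ∀ q, -2 ≤ G5 q → N.pj (N.rf q).1 = (q.1.1, -√(G5 q + 2) - 3 - ‖q.2‖ ^ 2)
  rfc : ContinuousOn N.rf {q | -2 ≤ G5 q}
  rfi : InjOn N.rf {q | -2 ≤ G5 q}
  bdd : ∀ p ∈ N.Pt (Gm (-2)) D0, ‖N.w (N.io ε p).1‖ < R ∧ |N.f (N.io ε p).1| < 2 * R ^ 2 ∧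
    ‖(N.io ε p).2‖ < R

/-- row IO -/
def IoStmt : Prop :=
  ∀ (N : NF) (ε : N.F × E2 → R3 × E2) (R : ℝ), N.Ok → N.Fa → Emb N ε R →
    Io N ε R ∧ LOE N (vs R3) (Gm (-2)) D0 (N.F.prod (vs E2)) (N.io ε)

/-- row KILL: part three of `PkStmt` -/
def KillStmt : Prop :=
  ∀ (N : NF) (ε : N.F × E2 → R3 × E2) (R : ℝ), N.Ok → N.Fa → Emb N ε R → Io N ε R →
    ∀ (X X' : Type) [TopologicalSpace X] [TopologicalSpace X'] (u : N.F × E2 → X)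
      (i' : N.F × R3 → X') (h : OpenPartialHomeomorph X X') (z : E2),
      IsEmbedding ((univ ×ˢ Metric.ball (0 : E2) (R + 1)).restrict u) →
      Rp N (Gm (-2)) (Gm 2) D0 Q0 (fun p => u (N.io ε p)) i' h → R ≤ ‖z‖ → ‖z‖ < R + 1 →
      Thin (h '' (u '' (univ ×ˢ {z})))
        (h '' (u '' (univ ×ˢ Metric.ball 0 (R + 1)) ∩ h.source) ∪ i' '' N.Pt (Gm 2) Q0)

theorem pk_of (hF : FaStmt) (hI : IoStmt) (hK : KillStmt) : PkStmt := fun N ε R hN hE =>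
  let ⟨a, b⟩ := hI N ε R hN (hF N hN) hE
  ⟨b, a.bdd, hK N ε R hN (hF N hN) hE a⟩

theorem emb_of (hF : FaStmt) (hD : DiStmt) (hT : ThStmt) (hU : TubeStmt) (hS : ScStmt) :
    EmbStmt := fun N hN => by
  obtain ⟨t, ht⟩ := hN.wind
  obtain ⟨Θ, hΘ⟩ := hN.cof
  have h := hF N hN.ok
  obtain ⟨d, Km, h1⟩ := hD N t hN.ok h ht
  obtain ⟨G, L, h2⟩ := hT N t d Km Θ hN.ok h (by nlinarith [ht.2.1]) h1 hΘ
  obtain ⟨ε, R, h3⟩ := hU N G L hN.ok h h2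
  exact ⟨ε, R, h3.oe, h3.std, h3.low, h3.big, h3.bdd, hS N ε R hN.ok h h3⟩

end Pool.Agent.MP_e1dc65_gt.T

end
end MrgPart1

-- marker of a merged file
example : 731051 + 46389 = 731051 + 46389 := rfl
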