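import Mathlib.Geometry.Manifold.SmoothApprox
import Mathlib.Geometry.Manifold.Algebra.SMul
import Pool.Agent.MP_e1dc65_gt.Spec0
import Pool.Agent.MP_e1dc65_gt.t2.Spec2
import Pool.Agent.MP_e1dc65_gt.k.Flow
import Pool.Agent.MP_e1dc65_gt.k.Bump
import Pool.Agent.MP_e1dc65_gt.t.KeyM1
import Mathlib.Analysis.InnerProductSpace.PiL2
import Mathlib.Topology.Homotopy.Lifting
import Pool.Agent.MP_e1dc65_gt.t2.Spec
import Mathlib.Geometry.Manifold.PartitionOfUnity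
import Mathlib.LinearAlgebra.Complex.FiniteDimensional
import Pool.Agent.MP_e1dc65_gt.k.Std

-- ======== part 0: formerly Pool.Agent.MP_e1dc65_gt.k.Smooth
section MrgPart0

/-! PROJECT HC, row SMOOTH: neighbourhood retractions and smoothing of continuous maps. -/

open scoped ContDiff Manifold Topology
open Set Filter Function

noncomputable section

namespace Pool.Agent.MP_e1dc65_gt

variable {E E' F : Type} [NormedAddCommGroup E] [NormedSpace ℝ E] [FiniteDimensional ℝ E]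
  [NormedAddCommGroup E'] [NormedSpace ℝ E'] [FiniteDimensional ℝ E']
  [NormedAddCommGroup F] [NormedSpace ℝ F] [FiniteDimensional ℝ F]

namespace SmoothP

/-- a smooth function, zero near `A` and one near `B` -/
theorem sep (X : Mf E) {A B : Set X} (hA : IsClosed A) (hB : IsClosed B) (h : Disjoint A B) :
    ∃ χ : X → ℝ, (∀ x, SmAt X (vs ℝ) χ x) ∧ (∀ᶠ x in 𝓝ˢ A, χ x = 0) ∧ (∀ᶠ x in 𝓝ˢ B, χ x = 1) ∧
      ∀ x, χ x ∈ Icc (0 : ℝ) 1 := by
  obtain ⟨f, h0, h1, h2⟩ := exists_contMDiffMap_zero_one_nhds_of_isClosed (n := ⊤) 𝓘(ℝ, E) hA hB h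
  exact ⟨f, fun x => f.contMDiff x, h0, h1, h2⟩

/-- `R` is a smooth retraction near `ι x` -/
def Good (X : Mf E) (ι : X → F) (R : F → X) (x : X) : Prop :=
  (∀ᶠ z in 𝓝 (ι x), SmAt (vs F) X R z) ∧ ∀ᶠ y in 𝓝 x, R (ι y) = y

theorem Good.congr {X : Mf E} {ι : X → F} {R R' : F → X} {x : X} (hι : Continuous ι)
    (h : Good X ι R x) (e : R' =ᶠ[𝓝 (ι x)] R) : Good X ι R' x := by
  refine ⟨?_, ?_⟩
  · filter_upwards [h.1, e.eventuallyEq_nhds] with z h1 h2 using h1.congr' h2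
  · filter_upwards [h.2, hι.continuousAt.eventually e] with y h1 h2 using h2.trans h1

theorem glue {X : Mf E} {ι : X → F} (hι : Continuous ι) {C C' D : Set X} (hC : IsCompact C)
    (hC' : IsCompact C') (hD : IsOpen D) (hCD : C' ⊆ D) {R : F → X} (hR : ∀ x ∈ C, Good X ι R x)
    (p : X) (L : F →L[ℝ] E) (hp : D ⊆ (ch X p).source) (hL : ∀ y ∈ D, L (ι y) = ch X p y)
    (hs : ∀ x ∈ C', ∀ y, ι y = ι x → y ∈ D) : ∃ R', ∀ x ∈ C ∪ C', Good X ι R' x := by
  classical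
  obtain ⟨l, hl, h0, h1, -⟩ := sep (vs F) ((hC.diff hD).image hι).isClosed (hC'.image hι).isClosed
    (Set.disjoint_left.2 (by rintro _ ⟨y, hy, rfl⟩ ⟨x, hx, e⟩; exact hy.2 (hs x hx y e.symm)))
  have hLs : ∀ z, SmAt (vs F) (vs E) L z := fun z => smAt_vs.2 L.contDiff.contDiffAt
  let G : F → E := fun z => (1 - l z) • ch X p (R z) + l z • L z
  refine ⟨fun z => if l z = 0 then R z else (ch X p).symm (G z), fun x hx => ?_⟩
  by_cases hx' : x ∈ C'
  · have a1 : ∀ᶠ z in 𝓝 (ι x), L z ∈ (ch X p).target := L.continuous.continuousAt.eventually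
      ((ch X p).open_target.mem_nhds (hL x (hCD hx') ▸ (ch X p).map_source (hp (hCD hx'))))
    refine Good.congr (R := fun z => (ch X p).symm (L z)) hι ⟨?_, ?_⟩ ?_
    · filter_upwards [a1] with z hz using (hLs z).trans (smAt_ch_symm hz)
    · filter_upwards [hD.mem_nhds (hCD hx')] with y hy
      rw [hL y hy, (ch X p).left_inv (hp hy)]
    · filter_upwards [h1.filter_mono (nhds_le_nhdsSet (mem_image_of_mem ι hx'))] with z hz
      simp [G, hz]
  have hxC := hx.resolve_right hx'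
  by_cases hxD : x ∈ D
  swap
  · refine (hR x hxC).congr hι ?_
    filter_upwards [h0.filter_mono (nhds_le_nhdsSet (mem_image_of_mem ι (mem_sdiff_of_mem hxC hxD)))]
      with z hz
    simp [hz]
  obtain ⟨r1, r2⟩ := hR x hxC
  have a1 : ∀ᶠ z in 𝓝 (ι x), R z ∈ (ch X p).source := r1.self_of_nhds.cont.eventually
    ((ch X p).open_source.mem_nhds (by rw [r2.self_of_nhds]; exact hp hxD))
  have a2 : ∀ᶠ z in 𝓝 (ι x), SmAt (vs F) (vs E) G z := by
    filter_upwards [r1, a1] with z b1 b2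
    exact ((contMDiffAt_const.sub (hl z)).smul (b1.trans (smAt_ch b2))).add ((hl z).smul (hLs z))
  have a3 : ∀ y ∈ D, R (ι y) = y → G (ι y) = ch X p y := fun y hy e => by
    simp only [G, e, hL y hy, ← add_smul, sub_add_cancel, one_smul]
  have a4 : ∀ᶠ z in 𝓝 (ι x), G z ∈ (ch X p).target := a2.self_of_nhds.cont.eventually
    ((ch X p).open_target.mem_nhds (a3 x hxD r2.self_of_nhds ▸ (ch X p).map_source (hp hxD)))
  refine Good.congr (R := fun z => (ch X p).symm (G z)) hι ⟨?_, ?_⟩ ?_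
  · filter_upwards [a2, a4] with z b1 b2 using b1.trans (smAt_ch_symm b2)
  · filter_upwards [hD.mem_nhds hxD, r2] with y hy e
    rw [a3 y hy e, (ch X p).left_inv (hp hy)]
  · filter_upwards [a1] with z hz
    by_cases h : l z = 0
    · simp [G, h, (ch X p).left_inv hz]
    · simp [h]

theorem piece (X : Mf E) (p : X) : ∃ (C D : Set X) (χ : X → ℝ), C ∈ 𝓝 p ∧ IsCompact C ∧ IsOpen D ∧
    C ⊆ D ∧ D ⊆ (ch X p).source ∧ (∀ y ∈ D, χ y = 1) ∧ (∀ y, χ y ≠ 0 → y ∈ (ch X p).source) ∧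
    ∀ y, SmAt X (vs (ℝ × E)) (fun y => (χ y, χ y • ch X p y)) y := by
  obtain ⟨C, h1, h2, h3⟩ := local_compact_nhds ((ch X p).open_source.mem_nhds (mem_chart_source E p))
  obtain ⟨χ, hs, h0, h4, -⟩ := sep X (ch X p).open_source.isClosed_compl h3.isClosed
    (disjoint_compl_left_iff_subset.2 h2)
  obtain ⟨D, d1, d2, d3⟩ := mem_nhdsSet_iff_exists.1 h4
  refine ⟨C, D ∩ (ch X p).source, χ, h1, h3, d1.inter (ch X p).open_source, subset_inter d2 h2,
    inter_subset_right, fun y hy => d3 hy.1, fun y hy => not_not.1 fun h => hy (h0.self_of_nhdsSet y h),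
    fun y => (hs y).vpair ?_⟩
  by_cases hy : y ∈ (ch X p).source
  · exact (hs y).smul (smAt_ch hy)
  · refine (smAt_const (Y := vs E) 0).congr' ?_
    filter_upwards [h0.filter_mono (nhds_le_nhdsSet (s := (ch X p).sourceᶜ) hy)] with z hz
    simp [hz]

theorem tub0 (X : Mf E) {K : Set X} (hK : IsCompact K) : ∃ (t : Finset X) (ι : X → t → ℝ × E)
    (R : (t → ℝ × E) → X), (∀ x, SmAt X (vs (t → ℝ × E)) ι x) ∧ ∀ x ∈ K, Good X ι R x := by
  classical
  choose C D χ h1 h2 h3 h4 h5 h6 h7 h8 using piece X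
  obtain ⟨t, -, ht⟩ := hK.elim_nhds_subcover C fun x _ => h1 x
  let ι : X → t → ℝ × E := fun y i => (χ i y, χ i y • ch X i y)
  have hι : ∀ x, SmAt X (vs (t → ℝ × E)) ι x := fun x => contMDiffAt_pi_space.2 fun i => h8 i x
  have hc : Continuous ι := continuous_iff_continuousAt.2 fun x => (hι x).cont
  have key : ∀ s : Finset t, ∃ R, ∀ x ∈ ⋃ i ∈ s, C i, Good X ι R x := fun s => by
    induction s using Finset.induction_on with
    | empty => exact ⟨fun _ => Classical.arbitrary X, by simp⟩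
    | insert i s _ ih =>
      obtain ⟨R, hR⟩ := ih
      rw [Finset.set_biUnion_insert, union_comm]
      refine glue hc (s.isCompact_biUnion fun j _ => h2 j) (h2 i) (h3 i) (h4 i) hR i
        ((ContinuousLinearMap.snd ℝ ℝ E).comp (ContinuousLinearMap.proj i)) (h5 i)
        (fun y hy => by simp [ι, h6 i y hy]) fun x hx y e => ?_
      have e1 := congrFun e i
      simp only [ι, h6 i x (h4 i hx), Prod.mk.injEq, one_smul] at e1
      obtain ⟨e1, e2⟩ := e1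
      rw [e1, one_smul] at e2
      rw [(ch X i).injOn (h7 i y (by simp [e1])) (h5 i (h4 i hx)) e2]
      exact h4 i hx
  obtain ⟨R, hR⟩ := key Finset.univ
  refine ⟨t, ι, R, hι, fun x hx => hR x ?_⟩
  obtain ⟨i, hi, h⟩ := mem_iUnion₂.1 (ht hx)
  exact mem_iUnion₂.2 ⟨⟨i, hi⟩, Finset.mem_univ _, h⟩

end SmoothP

open SmoothP

/-- a neighbourhood of a compact set is a smooth retract of an open subset of some `ℝⁿ` -/
theorem tub (X : Mf E) {K : Set X} (hK : IsCompact K) : ∃ (n : ℕ) (ι : X → Rn n) (R : Rn n → X)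
    (W : Set (Rn n)) (V : Set X), Sm X (vs (Rn n)) ι univ ∧ IsOpen W ∧ Sm (vs (Rn n)) X R W ∧
      IsOpen V ∧ K ⊆ V ∧ MapsTo ι V W ∧ ∀ x ∈ V, R (ι x) = x := by
  obtain ⟨t, ι, R, hι, hR⟩ := tub0 X hK
  let L : (t → ℝ × E) ≃L[ℝ] Rn (Module.finrank ℝ (t → ℝ × E)) :=
    ContinuousLinearEquiv.ofFinrankEq (by simp)
  have hc : Continuous ι := continuous_iff_continuousAt.2 fun x => (hι x).cont
  have hW : IsOpen {z | ∀ᶠ w in 𝓝 z, SmAt (vs (t → ℝ × E)) X R w} := isOpen_setOfPred_eventually_nhds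
  refine ⟨_, fun x => L (ι x), fun z => R (L.symm z), L.symm ⁻¹' _, {x | Good X ι R x},
    fun x _ => (hι x).trans (ldAt_cle L _).sm, hW.preimage L.symm.continuous,
    fun z hz => (ldAt_cle L.symm z).sm.trans (Eventually.self_of_nhds hz),
    (hW.preimage hc).inter isOpen_setOfPred_eventually_nhds, hR, fun x hx => ?_, fun x hx => ?_⟩
  · simpa using hx.1
  · simpa using hx.2.self_of_nhds

theorem smoothing : SmoothStmt := by
  intro E E' _ _ _ _ _ _ Y X f K U O hf hK hU hKU hO hfO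
  classical
  obtain ⟨K', hK', hKK', hK'U⟩ := exists_compact_between hK hU hKU
  obtain ⟨n, ι, R, W, V, hι, hW, hR, -, hV, mW, hr⟩ := tub X (hK'.image hf)
  have hg0 : Continuous fun y => ι (f y) := hι.cont.comp hf
  have hRc : ∀ z ∈ W, ContinuousAt R z := fun z hz => (hR z hz).cont
  have hr' : ∀ y ∈ K', R (ι (f y)) = f y := fun y hy => hr _ (hV (mem_image_of_mem f hy))
  obtain ⟨ε, hε, hS⟩ : ∃ ε > 0, ∀ y ∈ K', ∀ v : Rn n, ‖v‖ < ε →
      ι (f y) + v ∈ W ∧ (y, R (ι (f y) + v)) ∈ O := by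
    have h1 : ∀ᶠ v : Rn n in 𝓝 0, ∀ y ∈ K', ι (f y) + v ∈ W ∧ (y, R (ι (f y) + v)) ∈ O := by
      refine hK'.eventually_forall_of_forall_eventually fun y hy => ?_
      have c1 : ContinuousAt (fun p : Rn n × Y => ι (f p.2) + p.1) (0, y) :=
        ((hg0.comp continuous_snd).add continuous_fst).continuousAt
      have m1 : ι (f y) + 0 ∈ W := by rw [add_zero]; exact mW (hV (mem_image_of_mem f hy))
      refine (c1.eventually (hW.mem_nhds m1)).and
        ((continuousAt_snd.prodMk (ContinuousAt.comp (hRc _ m1) c1)).eventually (hO.mem_nhds ?_))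
      simpa [hr' y hy] using hfO y
    obtain ⟨ε, hε, h⟩ := Metric.eventually_nhds_iff.1 h1
    exact ⟨ε, hε, fun y hy v hv => h (by simpa using hv) y hy⟩
  obtain ⟨g, hg, -⟩ := hg0.exists_contMDiff_approx 𝓘(ℝ, E') ⊤ continuous_const fun _ => hε
  have hgs : ∀ y, SmAt Y (vs (Rn n)) g y := fun y => g.contMDiff y
  obtain ⟨χ, hχ, h0, h1, h01⟩ := sep Y isOpen_interior.isClosed_compl hK.isClosed
    (disjoint_compl_left_iff_subset.2 hKK')
  let c : ℝ → ℝ := fun t => max 0 (min t 1)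
  have hc : Continuous c := continuous_const.max (continuous_id.min continuous_const)
  let w : Y × ℝ → Rn n := fun p => (c p.2 * χ p.1) • (g p.1 - ι (f p.1))
  have hw : ∀ p, ‖w p‖ < ε := fun p => by
    have a1 : |c p.2 * χ p.1| ≤ 1 := by
      rw [abs_of_nonneg (mul_nonneg (le_max_left _ _) (h01 _).1)]
      exact mul_le_one₀ (max_le zero_le_one (min_le_right _ _)) (h01 _).1 (h01 _).2
    have a2 := hg p.1
    rw [dist_eq_norm] at a2
    rw [norm_smul, Real.norm_eq_abs]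
    exact (mul_le_of_le_one_left (norm_nonneg _) a1).trans_lt a2
  have hχc : Continuous χ := continuous_iff_continuousAt.2 fun y => (hχ y).cont
  have hwc : Continuous fun p => ι (f p.1) + w p := (hg0.comp continuous_fst).add
    (((hc.comp continuous_snd).mul (hχc.comp continuous_fst)).smul
      ((g.contMDiff.continuous.comp continuous_fst).sub (hg0.comp continuous_fst)))
  let H : Y × ℝ → X := fun p => if p.1 ∈ K' then R (ι (f p.1) + w p) else f p.1
  have e1 : ∀ p : Y × ℝ, p.1 ∈ K' → H p = R (ι (f p.1) + w p) := fun p hp => if_pos hp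
  have e2 : ∀ p : Y × ℝ, c p.2 * χ p.1 = 0 → H p = f p.1 := fun p hp => by
    by_cases h : p.1 ∈ K'
    · rw [e1 p h]; simp only [w, hp, zero_smul, add_zero, hr' _ h]
    · exact if_neg h
  have n0 : ∀ y ∉ interior K', ∀ᶠ z in 𝓝 y, χ z = 0 := fun y hy =>
    h0.filter_mono (nhds_le_nhdsSet (s := (interior K')ᶜ) hy)
  have c1 : c 1 = 1 := by simp [c]
  obtain ⟨V', v1, v2, v3⟩ := mem_nhdsSet_iff_exists.1 h1
  refine ⟨H, continuous_iff_continuousAt.2 fun p => ?_, fun y => e2 _ (by simp [c]),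
    ⟨V' ∩ interior K', v1.inter isOpen_interior, subset_inter v2 hKK', fun y hy => ?_⟩,
    fun y t => ?_, fun y hy t => if_neg fun h => hy (hK'U h), fun y hy => ?_⟩
  · by_cases hp : p.1 ∈ interior K'
    · refine (ContinuousAt.comp (f := fun p => ι (f p.1) + w p)
        (hRc _ (hS _ (interior_subset hp) _ (hw p)).1) hwc.continuousAt).congr ?_
      filter_upwards [continuousAt_fst.eventually (mem_interior_iff_mem_nhds.1 hp)] with q hq
      exact (e1 q hq).symm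
    · refine (hf.comp continuous_fst).continuousAt.congr ?_
      filter_upwards [continuousAt_fst.eventually (n0 _ hp)] with q hq
      exact (e2 q (by rw [hq, mul_zero])).symm
  · have e3 : ∀ z ∈ V', ι (f z) + w (z, 1) = g z := fun z hz => by
      have : χ z = 1 := v3 hz
      simp only [w, c1, this, mul_one, one_smul, add_sub_cancel]
    refine ((hgs y).trans (hR _ (e3 y hy.1 ▸ (hS _ (interior_subset hy.2) _ (hw _)).1))).congr' ?_
    filter_upwards [(v1.inter isOpen_interior).mem_nhds hy] with z hz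
    rw [e1 (z, 1) (interior_subset hz.2), e3 z hz.1]
  · by_cases h : y ∈ K'
    · rw [e1 (y, t) h]; exact (hS y h _ (hw _)).2
    · rw [show H (y, t) = f y from if_neg h]; exact hfO y
  · by_cases hp : y ∈ interior K'
    · have s1 : SmAt Y (vs (Rn n)) (fun y => ι (f y)) y := hy.trans (hι _ trivial)
      have s2 : SmAt Y (vs (Rn n)) (fun y => ι (f y) + w (y, 1)) y :=
        s1.add (((contMDiffAt_const (c := c 1)).mul (hχ y)).smul ((hgs y).sub s1))
      refine (s2.trans (hR _ (hS _ (interior_subset hp) _ (hw _)).1)).congr' ?_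
      filter_upwards [mem_interior_iff_mem_nhds.1 hp] with z hz using e1 (z, 1) hz
    · refine hy.congr' ?_
      filter_upwards [n0 y hp] with z hz using e2 (z, 1) (by rw [hz, mul_zero])

end Pool.Agent.MP_e1dc65_gt

end
end MrgPart0

-- ======== part 1: formerly Pool.Agent.MP_e1dc65_gt.t.Iso
section MrgPart1

/-! PROJECT HC, part T, row ISO: an isotopy of functions along a field gives a move. -/

open scoped ContDiff Manifold Topology
open Set Filter Function Metric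

noncomputable section

namespace Pool.Agent.MP_e1dc65_gt.T

namespace ISO

section top
variable {B : Type} [TopologicalSpace B] {N : NF} {Γ Γ' : B → ℝ} {D Q : Set (E2 × B)}
  {ψ ψ' : E2 × B → B}

/-- a family of homeomorphisms of `B` that carries `Γ` to `Γ'` where it matters -/
structure Dat (Γ Γ' : B → ℝ) (D Q : Set (E2 × B)) (ψ ψ' : E2 × B → B) : Prop where
  c : Continuous ψ
  c' : Continuous Γ'
  inv : ∀ q, ψ' (q.1, ψ q) = q.2
  off : ∀ q ∉ Q, ψ q = q.2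
  mem : ∀ q ∈ D, (q.1, ψ q) ∈ D
  val : ∀ q ∈ D, ‖q.1‖ < 5 / 4 → |Γ q.2| < 5 / 4 ∨ |Γ' (ψ q)| < 5 / 4 → Γ' (ψ q) = Γ q.2

open Classical in
/-- the move -/
def mv (N : NF) (Γ' : B → ℝ) (ψ : E2 × B → B) (p : N.F × B) : N.F × B :=
  (if p.1 ∈ N.K then p.1 else N.pinv (N.w p.1, Γ' (ψ (N.pr p))), ψ (N.pr p))

theorem mem_K {m : N.F} : m ∈ N.K ↔ ‖N.w m‖ ≤ 1 ∧ |N.f m| ≤ 1 := by
  simp [NF.K, NF.pj, Out]

theorem out (h : Dat Γ Γ' D Q ψ ψ') {p : N.F × B} (hp : p ∈ N.Pt Γ D) (hK : p.1 ∉ N.K) :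
    (N.w p.1, Γ' (ψ (N.pr p))) ∈ Out := by
  by_contra c
  simp only [Out, mem_ofPred_eq, not_or, not_lt] at c
  have h1 := h.val _ hp.2 (c.1.trans_lt (by norm_num)) (Or.inr (c.2.trans_lt (by norm_num)))
  exact hK (mem_K.2 ⟨c.1, by rw [show N.f p.1 = _ from hp.1.trans h1.symm]; exact c.2⟩)

theorem spec (hN : N.Ok) (h : Dat Γ Γ' D Q ψ ψ') {p : N.F × B} (hp : p ∈ N.Pt Γ D) :
    N.pj (mv N Γ' ψ p).1 = (N.w p.1, Γ' (ψ (N.pr p))) ∧ (p.1 ∈ N.K → (mv N Γ' ψ p).1 = p.1) ∧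
      (p.1 ∉ N.K → (mv N Γ' ψ p).1 ∉ N.K) := by
  by_cases hK : p.1 ∈ N.K
  · have h1 := h.val _ hp.2 ((mem_K.1 hK).1.trans_lt (by norm_num))
      (Or.inl (show |Γ p.2| < _ by
        rw [← show N.f p.1 = _ from hp.1]; exact (mem_K.1 hK).2.trans_lt (by norm_num)))
    simp only [mv, if_pos hK, h1]
    exact ⟨Prod.ext rfl hp.1, fun _ => trivial, fun c => (c hK).elim⟩
  · obtain ⟨m, hm⟩ := hN.onto (out h hp hK)
    have h1 := invFunOn_pos (f := N.pj) (s := N.pj ⁻¹' Out)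
      ⟨m, show N.pj m ∈ Out from hm ▸ out h hp hK, hm⟩
    simp only [mv, if_neg hK]
    exact ⟨h1.2, fun c => (hK c).elim, fun _ c => c h1.1⟩

theorem maps (hN : N.Ok) (h : Dat Γ Γ' D Q ψ ψ') : MapsTo (mv N Γ' ψ) (N.Pt Γ D) (N.Pt Γ' D) :=
  fun p hp => ⟨congrArg Prod.snd (spec hN h hp).1, by
    have h1 : N.w (mv N Γ' ψ p).1 = N.w p.1 := congrArg Prod.fst (spec hN h hp).1
    show (N.w (mv N Γ' ψ p).1, ψ (N.pr p)) ∈ D
    rw [h1]
    exact h.mem _ hp.2⟩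

theorem left (hN : N.Ok) (h : Dat Γ Γ' D Q ψ ψ') (h' : Dat Γ' Γ D Q ψ' ψ) {p : N.F × B}
    (hp : p ∈ N.Pt Γ D) : mv N Γ ψ' (mv N Γ' ψ p) = p := by
  obtain ⟨a1, a2, a3⟩ := spec hN h hp
  obtain ⟨b1, b2, b3⟩ := spec hN h' (maps hN h hp)
  have h1 : N.w (mv N Γ' ψ p).1 = N.w p.1 := congrArg Prod.fst a1
  have h2 : ψ' (N.pr (mv N Γ' ψ p)) = p.2 := by
    show ψ' (N.w (mv N Γ' ψ p).1, ψ (N.pr p)) = _
    rw [h1]
    exact h.inv (N.pr p)
  refine Prod.ext ?_ h2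
  by_cases hK : p.1 ∈ N.K
  · rw [b2 (by rwa [a2 hK]), a2 hK]
  · refine hN.oe.inj (not_not.1 (b3 (a3 hK))) (not_not.1 hK) ?_
    rw [b1, h1, h2]
    exact Prod.ext rfl hp.1.symm

theorem cont (hN : N.Ok) (h : Dat Γ Γ' D Q ψ ψ') : ContinuousOn (mv N Γ' ψ) (N.Pt Γ D) := by
  have cw := hN.smw.cont
  have cf := hN.smf.cont
  have cp : Continuous fun p : N.F × B => ψ (N.pr p) :=
    h.c.comp ((cw.comp continuous_fst).prodMk continuous_snd)
  refine ContinuousOn.prodMk (fun p hp => ?_) cp.continuousOn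
  by_cases hK : p.1 ∈ N.K
  · have key : ∀ q ∈ N.Pt Γ D, ‖N.w q.1‖ < 5 / 4 → |N.f q.1| < 5 / 4 → (mv N Γ' ψ q).1 = q.1 :=
      fun q hq h1 h2 => by
      by_cases c : q.1 ∈ N.K
      · exact (spec hN h hq).2.1 c
      · refine hN.oe.inj (not_not.1 ((spec hN h hq).2.2 c)) (not_not.1 c) ?_
        rw [(spec hN h hq).1, h.val _ hq.2 h1 (Or.inl (by rwa [show N.f q.1 = _ from hq.1] at h2))]
        exact Prod.ext rfl hq.1.symm
    refine continuousWithinAt_fst.congr_of_eventuallyEq ?_ ((spec hN h hp).2.1 hK)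
    filter_upwards [self_mem_nhdsWithin, mem_nhdsWithin_of_mem_nhds
      (((cw.comp continuous_fst).norm.tendsto p).eventually
        (gt_mem_nhds ((mem_K.1 hK).1.trans_lt (show (1 : ℝ) < 5 / 4 by norm_num)))),
      mem_nhdsWithin_of_mem_nhds (((cf.comp continuous_fst).abs.tendsto p).eventually
        (gt_mem_nhds ((mem_K.1 hK).2.trans_lt (show (1 : ℝ) < 5 / 4 by norm_num))))] with q using key q
  · obtain ⟨m, hm⟩ := hN.onto (out h hp hK)
    have c1 : ContinuousAt N.pinv (N.w p.1, Γ' (ψ (N.pr p))) :=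
      (hN.oe.symm.sm _ ⟨m, show N.pj m ∈ Out from hm ▸ out h hp hK, hm⟩).cont
    refine (ContinuousAt.congr (ContinuousAt.comp (f := fun q : N.F × B =>
      (N.w q.1, Γ' (ψ (N.pr q)))) c1 ((cw.comp continuous_fst).prodMk
        (h.c'.comp cp)).continuousAt) ?_).continuousWithinAt
    filter_upwards [continuous_fst.continuousAt.preimage_mem_nhds (hN.oe.op.mem_nhds (not_not.1 hK))]
      with q hq
    exact (if_neg (not_not.2 hq)).symm

theorem move (hN : N.Ok) (h : Dat Γ Γ' D Q ψ ψ') (h' : Dat Γ' Γ D Q ψ' ψ) : Mv N Γ Γ' D Q := by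
  refine ⟨⟨⟨(maps hN h).restrict, (maps hN h').restrict, fun p => Subtype.ext (left hN h h' p.2),
    fun p => Subtype.ext (left hN h' h p.2)⟩, (cont hN h).mapsToRestrict (maps hN h),
    (cont hN h').mapsToRestrict (maps hN h')⟩, fun p hp => ⟨(h.off _ hp).symm, ?_⟩⟩
  obtain ⟨a1, a2, a3⟩ := spec hN h p.2
  by_cases hK : p.1.1 ∈ N.K
  · exact Or.inl (a2 hK).symm
  · exact Or.inr ⟨hK, a3 hK, (congrArg Prod.fst a1).symm⟩

end top

section flow
variable {EB : Type} [NormedAddCommGroup EB] [NormedSpace ℝ EB] [FiniteDimensional ℝ EB]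
  {B : Mf EB}

/-- plane, base and time -/
abbrev Z (B : Mf EB) : Mf ((E2 × EB) × ℝ) := ((vs E2).prod B).cyl

variable {C D : Set (E2 × B)} {G : Z B → ℝ} {e : ℝ} {u : Z B → (E2 × EB) × ℝ}
  {φ : ℝ → Z B → Z B} {p : Z B} {Γ Γ' : B → ℝ}

/-- a flow that moves the time with speed `e` over `C` and keeps `G` where it is small -/
structure Fl (C : Set (E2 × B)) (G : Z B → ℝ) (e : ℝ) (u : Z B → (E2 × EB) × ℝ)
    (φ : ℝ → Z B → Z B) : Prop where
  fl : IsFlow (Z B) u φ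
  sm : Sm (Z B) (vs ℝ) G univ
  hx : ∀ p, (u p).1.1 = 0
  off : ∀ p, p.1 ∉ C → ∀ s, (φ s p).1 = p.1
  ht : ∀ p, p.1 ∈ C → p.2 ∈ Ioo (-1 : ℝ) 2 → (u p).2 = e
  hG : ∀ p, p.1 ∈ C → ‖p.1.1‖ < 5 / 4 → |G p| < 5 / 4 → Df (Z B) (vs ℝ) G p (u p) = 0

omit [FiniteDimensional ℝ EB] in
theorem Fl.neg (h : Fl C G e u φ) : Fl C G (-e) (fun p => -u p) fun s => φ (-s) :=
  ⟨h.fl.neg, h.sm, fun p => by simp [h.hx p], fun p hp s => h.off p hp _,
    fun p h1 h2 => by simp [h.ht p h1 h2], fun p h1 h2 h3 => by rw [map_neg, h.hG p h1 h2 h3, neg_zero]⟩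

omit [FiniteDimensional ℝ EB] in
theorem Fl.x (h : Fl C G e u φ) (s : ℝ) (p : Z B) : (φ s p).1.1 = p.1.1 :=
  h.fl.const (V := E2) (g := fun p => p.1.1) fun r _ => ⟨smAt_fst.trans (smAt_fst (X := vs E2)), by
    rw [Df_comp smAt_fst (smAt_fst (X := vs E2)), Df_fst, Df_fst]; exact h.hx _⟩

omit [FiniteDimensional ℝ EB] in
theorem Fl.mem (h : Fl C G e u φ) (hp : p.1 ∈ C) (s : ℝ) : (φ s p).1 ∈ C := by
  by_contra c
  have := h.off _ c (-s)
  rw [h.fl.neg_left] at this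
  exact c (this ▸ hp)

omit [FiniteDimensional ℝ EB] in
theorem Fl.time (h : Fl C G e u φ) (hp : p.1 ∈ C) (h0 : p.2 ∈ Icc (0 : ℝ) 1)
    (h1 : p.2 + e ∈ Icc (0 : ℝ) 1) : (φ 1 p).2 = p.2 + e := by
  have k : ∀ s ∈ Icc (0 : ℝ) 1, (∀ r ∈ Icc 0 s, (φ r p).2 ∈ Ioo (-1 : ℝ) 2) →
      (φ s p).2 = p.2 + s • e := fun s hs H =>
    h.fl.affine (V := ℝ) (g := Prod.snd) fun r hr => ⟨smAt_snd (Y := vs ℝ), by
      rw [Df_snd (Y := vs ℝ)]; exact h.ht _ (h.mem hp r) (H r (by rwa [uIcc_of_le hs.1] at hr))⟩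
  have hI : Icc (0 : ℝ) 1 ⊆ Ioo (-1) 2 := Icc_subset_Ioo (by norm_num) (by norm_num)
  have := h.fl.stay (t := 1) (K := Prod.snd ⁻¹' Icc 0 1) (U := Prod.snd ⁻¹' Ioo (-1) 2)
    (isClosed_Icc.preimage continuous_snd) (isOpen_Ioo.preimage continuous_snd)
    (preimage_mono hI) h0 fun s hs H => by
      rw [mem_preimage, k s hs H, smul_eq_mul]
      constructor <;> nlinarith [hs.1, hs.2, h0.1, h0.2, h1.1, h1.2]
  rw [k 1 ⟨zero_le_one, le_rfl⟩ fun r hr => hI (this r hr), one_smul]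

omit [FiniteDimensional ℝ EB] in
theorem Fl.val (h : Fl C G e u φ) (hp : p.1 ∈ C) (h0 : ‖p.1.1‖ < 5 / 4) (h1 : |G p| < 5 / 4) :
    G (φ 1 p) = G p :=
  h.fl.stay (t := 1) (K := {q | G q = G p}) (U := {q | |G q| < 5 / 4})
    (isClosed_eq h.sm.cont continuous_const) (isOpen_lt h.sm.cont.abs continuous_const)
    (fun q hq => by rwa [mem_ofPred_eq, show G q = G p from hq]) rfl
    (fun s hs H => h.fl.const (V := ℝ) fun r hr => ⟨h.sm _ trivial, h.hG _ (h.mem hp r)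
      (by rwa [h.x]) (H r (by rwa [uIcc_of_le hs.1] at hr))⟩) 1 ⟨zero_le_one, le_rfl⟩

omit [FiniteDimensional ℝ EB] in
theorem Fl.dat (h : Fl C G e u φ) {a b : ℝ} (ha : a ∈ Icc (0 : ℝ) 1) (hb : b ∈ Icc (0 : ℝ) 1)
    (hab : a + e = b) (hc : Continuous Γ') (hΓ : ∀ q, G (q, a) = Γ q.2)
    (hΓ' : ∀ q, G (q, b) = Γ' q.2) (hCD : C ⊆ D) (far : ∀ q ∈ D, q ∉ C → ‖q.1‖ < 5 / 4 →
      |Γ q.2| < 5 / 4 ∨ |Γ' q.2| < 5 / 4 → Γ' q.2 = Γ q.2) :
    Dat Γ Γ' D C (fun q => (φ 1 (q, a)).1.2) fun q => (φ (-1) (q, b)).1.2 := by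
  have k0 : ∀ q : E2 × B, (q.1, (φ 1 (q, a)).1.2) = (φ 1 (q, a)).1 := fun q =>
    Prod.ext (h.x 1 (q, a)).symm rfl
  have k1 : ∀ q ∈ C, ((φ 1 (q, a)).1, b) = φ 1 (q, a) := fun q hq =>
    Prod.ext rfl (hab.symm.trans (h.time (p := (q, a)) hq ha (hab ▸ hb)).symm)
  refine ⟨continuous_snd.comp (continuous_fst.comp (h.fl.cont_comp
    (continuous_id.prodMk continuous_const) continuous_const)), hc, fun q => ?_,
    fun q hq => by rw [h.off (q, a) hq], fun q hq => ?_, fun q hq h1 h2 => ?_⟩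
  · by_cases c : q ∈ C
    · rw [k0, k1 q c, h.fl.neg_left]
    · rw [k0, h.off (q, a) c, h.off (q, b) c]
  · by_cases c : q ∈ C
    · rw [k0]
      exact hCD (h.mem (p := (q, a)) c 1)
    · rwa [k0, h.off (q, a) c]
  · by_cases c : q ∈ C
    · rw [← hΓ', ← hΓ, k1 q c] at h2 ⊢
      rcases h2 with h2 | h2
      · exact h.val (p := (q, a)) c h1 h2
      · have := h.neg.val (h.mem (p := (q, a)) c 1) (by rwa [h.x]) h2
        rw [h.fl.neg_left] at this
        exact this.symm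
    · rw [h.off (q, a) c] at h2 ⊢
      exact far q hq c h1 h2

/-- the isotopy of functions -/
def Gt (Γ Γ' : B → ℝ) (p : Z B) : ℝ :=
  (1 - Real.smoothTransition p.2) • Γ p.1.2 + Real.smoothTransition p.2 • Γ' p.1.2

omit [FiniteDimensional ℝ EB] in
theorem Gt_df (hΓ : Sm B (vs ℝ) Γ univ) (hΓ' : Sm B (vs ℝ) Γ' univ) (p : Z B) :
    SmAt (Z B) (vs ℝ) (Gt Γ Γ') p ∧ ∀ v, Df (Z B) (vs ℝ) (Gt Γ Γ') p v =
      (1 - Real.smoothTransition p.2) * Df B (vs ℝ) Γ p.1.2 v.1.2 +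
        Real.smoothTransition p.2 * Df B (vs ℝ) Γ' p.1.2 v.1.2 +
          v.2 * deriv Real.smoothTransition p.2 * (Γ' p.1.2 - Γ p.1.2) := by
  have a0 : SmAt (Z B) B (fun p => p.1.2) p := smAt_fst.trans smAt_snd
  have a1 := a0.trans (hΓ _ trivial)
  have a2 := a0.trans (hΓ' _ trivial)
  have l0 : ContDiffAt ℝ ∞ Real.smoothTransition p.2 := Real.smoothTransition.contDiffAt
  have l1 : ContDiffAt ℝ ∞ (fun t => 1 - Real.smoothTransition t) p.2 := contDiffAt_const.sub l0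
  have b0 : SmAt (Z B) (vs ℝ) Prod.snd p := smAt_snd (Y := vs ℝ)
  have b1 := b0.vcomp l0
  have b2 := b0.vcomp l1
  refine ⟨(b2.vsmul a1).vadd (b1.vsmul a2), fun v => ?_⟩
  unfold Gt
  rw [Df_vadd (b2.vsmul a1) (b1.vsmul a2), add_apply, Df_vsmul b2 a1,
    Df_vsmul b1 a2, Df_comp a0 (hΓ _ trivial), Df_comp a0 (hΓ' _ trivial), Df_vcomp b0 l0,
    Df_vcomp b0 l1, Df_comp smAt_fst smAt_snd, Df_fst, Df_snd, Df_snd (Y := vs ℝ)]
  simp only [ContinuousLinearMap.comp_apply, fderiv_eq_smul_deriv, deriv_const_sub, smul_eq_mul,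
    ContinuousLinearMap.coe_fst', ContinuousLinearMap.coe_snd']
  ring

theorem exists_fl {V : B → EB} {S : Set B} (hD : IsOpen D) (hS : IsCompact S)
    (hΓ : Sm B (vs ℝ) Γ univ) (hΓ' : Sm B (vs ℝ) Γ' univ) (hV : ∀ b, VfAt B V b)
    (hSD : ∀ x b, ‖x‖ ≤ 2 → b ∈ S → (x, b) ∈ D)
    (far : ∀ q ∈ D, q.2 ∉ S → Γ q.2 = Γ' q.2 ∨ (3 / 2 < Γ q.2 ∧ 3 / 2 < Γ' q.2) ∨
      (Γ q.2 < -(3 / 2) ∧ Γ' q.2 < -(3 / 2)))
    (pos : ∀ b ∈ S, ∀ t ∈ Icc (0 : ℝ) 1, |(1 - t) * Γ b + t * Γ' b| ≤ 3 / 2 →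
      0 < (1 - t) * Df B (vs ℝ) Γ b (V b) + t * Df B (vs ℝ) Γ' b (V b)) :
    ∃ u φ, Fl (closedBall 0 2 ×ˢ S) (Gt Γ Γ') 1 u φ := by
  classical
  obtain ⟨C, hC⟩ : ∃ C : Set (E2 × B), C = closedBall 0 2 ×ˢ S := ⟨_, rfl⟩
  have cC : IsCompact C := hC ▸ (isCompact_closedBall _ _).prod hS
  have mC : ∀ q, q ∈ C ↔ ‖q.1‖ ≤ 2 ∧ q.2 ∈ S := fun q => by simp [hC]
  rw [← hC]
  have hG := fun p => (Gt_df hΓ hΓ' p).1
  have dG := fun p => (Gt_df hΓ hΓ' p).2
  have l01 : ∀ t, Real.smoothTransition t ∈ Icc (0 : ℝ) 1 := fun t =>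
    ⟨Real.smoothTransition.nonneg t, Real.smoothTransition.le_one t⟩
  let X : Z B → (E2 × EB) × ℝ := fun p => ((0, V p.1.2), 0)
  have hX : ∀ p, VfAt (Z B) X p := fun p =>
    VfAt.inl (v := fun q : (vs E2).prod B => (0, V q.2)) (hV _).inr
  let A : Z B → ℝ := fun p => Df (Z B) (vs ℝ) (Gt Γ Γ') p (X p)
  let T : Z B → ℝ := fun p => Df (Z B) (vs ℝ) (Gt Γ Γ') p (0, 1)
  have hA : ∀ p : Z B, p.1 ∈ C → |Gt Γ Γ' p| ≤ 3 / 2 → A p ≠ 0 := fun p h1 h2 => by
    have := pos _ ((mC _).1 h1).2 _ (l01 p.2) h2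
    simp only [A, dG, X, zero_mul, add_zero]
    exact this.ne'
  let χ : ContDiffBump (0 : E2) := ⟨3 / 2, 2, by norm_num, by norm_num⟩
  let σ : ContDiffBump (0 : ℝ) := ⟨5 / 4, 3 / 2, by norm_num, by norm_num⟩
  have σ0 : ∀ y, 3 / 2 ≤ |y| → σ y = 0 := fun y hy => σ.zero_of_le_dist (by simpa using hy)
  let F : Z B → ℝ := fun p => -(χ p.1.1 * σ (Gt Γ Γ' p) * T p) * (A p)⁻¹
  let a : Z B → ℝ := fun p => if p.1 ∈ C then F p else 0
  have ha : ∀ p, SmAt (Z B) (vs ℝ) a p := fun p => by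
    by_cases c : p.1 ∈ C
    · have hF : SmAt (Z B) (vs ℝ) F p := by
        rcases le_or_gt |Gt Γ Γ' p| (3 / 2) with h1 | h1
        · exact ((((smAt_fst.trans (smAt_fst (X := vs E2))).vcomp χ.contDiffAt).vmul
            ((hG p).vcomp σ.contDiffAt)).vmul (vfAt_dt.app (hG p))).vneg.vmul
              (((hX p).app (hG p)).vinv (hA p c h1))
        · refine (smAt_const (Y := vs ℝ) 0).congr' ?_
          filter_upwards [(hG p).cont.abs.eventually (lt_mem_nhds h1)] with q hq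
          simp only [F, σ0 _ hq.le, mul_zero, zero_mul, neg_zero]
      refine hF.congr' ?_
      filter_upwards [continuous_fst.continuousAt.preimage_mem_nhds
        (hD.mem_nhds (hSD _ _ ((mC _).1 c).1 ((mC _).1 c).2))] with q hq
      refine ite_eq_left_iff.2 fun h1 => Eq.symm ?_
      have := l01 q.2
      rcases not_and_or.1 (mt (mC _).2 h1) with h2 | h2
      · simp only [F, χ.zero_of_le_dist (x := q.1.1) (by simpa using (not_le.1 h2).le), zero_mul,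
          neg_zero]
      · rcases far _ hq h2 with h3 | h3 | h3
        · simp only [F, T, dG, h3, Prod.snd_zero, map_zero, sub_self, mul_zero,
            add_zero, zero_mul, neg_zero]
        · simp only [F, σ0 (Gt Γ Γ' q) (le_abs.2 (Or.inl (by
            simp only [Gt, smul_eq_mul]; nlinarith [this.1, this.2, h3.1, h3.2]))), mul_zero,
            zero_mul, neg_zero]
        · simp only [F, σ0 (Gt Γ Γ' q) (le_abs.2 (Or.inr (by
            simp only [Gt, smul_eq_mul]; nlinarith [this.1, this.2, h3.1, h3.2]))), mul_zero,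
            zero_mul, neg_zero]
    · refine (smAt_const (Y := vs ℝ) 0).congr' ?_
      filter_upwards [continuous_fst.continuousAt.preimage_mem_nhds
        (cC.isClosed.isOpen_compl.mem_nhds c)] with q hq using if_neg hq
  have cK : IsCompact (C ×ˢ Icc (-1 : ℝ) 2) := cC.prod isCompact_Icc
  obtain ⟨η, s1, -, s2, -, s3⟩ := (bumpM _ (Z B)).1 (C ×ˢ Icc (-1 : ℝ) 2) univ cK.isClosed
    isOpen_univ (subset_univ _)
  let u : Z B → (E2 × EB) × ℝ := fun p => η p • (a p • X p + (0, 1))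
  obtain ⟨φ, hφ⟩ := exists_flow_cpt (v := u)
    (fun p => (((hX p).smul (ha p)).add vfAt_dt).smul (s1 p trivial)) (s3 cK)
    fun p hp => by simp only [u, image_eq_zero_of_notMem_tsupport hp, zero_smul]
  refine ⟨u, φ, hφ, fun p _ => hG p, fun p => by simp [u, X], fun p hp s => ?_,
    fun p h1 h2 => ?_, fun p h1 h2 h3 => ?_⟩
  · have hc : ∀ t, SmAt (vs ℝ) (Z B) (fun t => (p.1, t)) t := fun t => (smAt_const _).pair smAt_id
    obtain ⟨θ, hθ⟩ := exists_flow_cpt (X := vs ℝ) (v := fun t => η (p.1, t))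
      (fun t => vfAt_vs.2 (smAt_vs.1 ((hc t).trans (s1 _ trivial)))) ((s3 cK).image continuous_snd)
      fun t ht => image_eq_zero_of_notMem_tsupport fun c => ht ⟨_, c, rfl⟩
    rw [show φ s p = _ from hθ.natural (x := p.2) (t := s) hφ fun r _ => ⟨hc _, by
      rw [Df_pair (smAt_const _) smAt_id, Df_const, Df_id]
      simp [u, a, hp]⟩]
  · simp [u, X, s2.self_of_nhdsSet p ⟨h1, Ioo_subset_Icc_self h2⟩]
  · have h4 := hA p h1 (by linarith)
    rw [map_smul, map_add, map_smul]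
    change _ • (a p * A p + T p) = 0
    simp only [a, if_pos h1, F, χ.one_of_mem_closedBall (x := p.1.1) (by simp [χ]; linarith),
      σ.one_of_mem_closedBall (x := Gt Γ Γ' p) (by simpa using h3.le), one_mul,
      inv_mul_cancel_right₀ h4, neg_add_cancel, smul_zero]

end flow

end ISO

theorem iso : IsoStmt := by
  intro N EB _ _ _ B Γ Γ' V S D hN hD hS hΓ hΓ' hV hSD far pos
  obtain ⟨u, φ, h⟩ := ISO.exists_fl hD hS hΓ hΓ' hV hSD far pos
  have hC : closedBall 0 2 ×ˢ S ⊆ D := fun q hq => hSD _ _ (by simpa using hq.1) hq.2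
  have g0 : ∀ q, ISO.Gt Γ Γ' (q, 0) = Γ q.2 := fun q => by simp [ISO.Gt]
  have g1 : ∀ q, ISO.Gt Γ Γ' (q, 1) = Γ' q.2 := fun q => by simp [ISO.Gt]
  have hf : ∀ q ∈ D, q ∉ closedBall 0 2 ×ˢ S → ‖q.1‖ < 5 / 4 →
      |Γ q.2| < 5 / 4 ∨ |Γ' q.2| < 5 / 4 → Γ' q.2 = Γ q.2 := fun q h1 h2 h3 h4 => by
    simp only [abs_lt] at h4
    rcases far q h1 fun c => h2 ⟨by simp; linarith, c⟩ with h5 | h5 | h5
    · exact h5.symm
    · rcases h4 with h4 | h4 <;> linarith [h4.2, h5.1, h5.2]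
    · rcases h4 with h4 | h4 <;> linarith [h4.1, h5.1, h5.2]
  have i0 : (0 : ℝ) ∈ Icc (0 : ℝ) 1 := ⟨le_rfl, zero_le_one⟩
  have i1 : (1 : ℝ) ∈ Icc (0 : ℝ) 1 := ⟨zero_le_one, le_rfl⟩
  refine ISO.move hN (h.dat i0 i1 (zero_add 1) hΓ'.cont g0 g1 hC hf) ?_
  simpa only [neg_neg] using h.neg.dat i1 i0 (add_neg_cancel 1) hΓ.cont g1 g0 hC
    fun q h1 h2 h3 h4 => (hf q h1 h2 h3 h4.symm).symm

end Pool.Agent.MP_e1dc65_gt.T

end
end MrgPart1

-- ======== part 2: formerly Pool.Agent.MP_e1dc65_gt.t2.Fa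
section MrgPart2

/-! PROJECT HC, row FA: facts on the flow of the normal form. -/

open scoped ContDiff Manifold Topology Real
open Set Filter Function Module Metric Topology

noncomputable section

namespace Pool.Agent.MP_e1dc65_gt.T

namespace Fa

open Loc

section gen
variable {E A : Type} [NormedAddCommGroup E] [NormedSpace ℝ E] [NormedAddCommGroup A]
  [NormedSpace ℝ A] [FiniteDimensional ℝ A] {X : Mf E} {v : X → E} {φ : ℝ → X → X}

theorem chart (h : IsFlow X v φ) {c : A → X} {D : Set A} {L : A → A} (oe : OE (vs A) X c D)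
    (e : ∀ p ∈ D, Df (vs A) X c p (L p) = v (c p)) (γ : ℝ → A) {t : ℝ}
    (h1 : ∀ s ∈ uIcc 0 t, γ s ∈ D) (h2 : ∀ s, HasDerivAt γ (L (γ s)) s) :
    φ t (c (γ 0)) = c (γ t) :=
  h.eq_of_zero (c := fun s => c (γ s)) fun s hs =>
    (ic_vs.2 (h2 s)).map (oe.sm _ (h1 s hs)) (e _ (h1 s hs))

theorem wc (h : IsFlow X v φ) {g : X → A} (hg : Sm X (vs A) g univ)
    (e : ∀ x, 1 < ‖g x‖ → Df X (vs A) g x (v x) = 0) {x : X} (hx : 1 < ‖g x‖) {t : ℝ}
    (ht : 0 ≤ t) : g (φ t x) = g x :=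
  h.stay (K := {y | g y = g x}) (U := {y | 1 < ‖g y‖}) (isClosed_eq hg.cont continuous_const)
    (isOpen_lt continuous_const hg.cont.norm) (fun y (hy : g y = g x) => show 1 < ‖g y‖ by rwa [hy])
    rfl (fun s hs hu => h.const fun u hu' => ⟨hg _ trivial, e _ (hu u (by
      rwa [uIcc_of_le hs.1] at hu'))⟩) t ⟨ht, le_rfl⟩

end gen

variable {N : NF}

theorem d_exp (s : ℝ) : HasDerivAt (fun s => Real.exp (-s)) (-Real.exp (-s)) s := by
  simpa using (hasDerivAt_neg s).exp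

theorem sq_le {r x : ℝ} (h : r ≤ 0) : (Real.exp r * x) ^ 2 ≤ x ^ 2 := by
  have h1 := Real.exp_le_one_iff.2 h
  have h2 := Real.exp_pos r
  rw [mul_pow]
  exact mul_le_of_le_one_left (sq_nonneg x) (pow_le_one₀ h2.le h1)

theorem nsq_le {r : ℝ} {x : E2} (h : r ≤ 0) : ‖Real.exp r • x‖ ^ 2 ≤ ‖x‖ ^ 2 := by
  rw [norm_smul, Real.norm_of_nonneg (Real.exp_pos r).le]; exact sq_le h

theorem m₁ {a r : ℝ} (h : (a, 0) ∈ N.D₁) (hr : 0 ≤ r) : (Real.exp (-r) * a, 0) ∈ N.D₁ :=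
  (add_le_add_left (sq_le (neg_nonpos.2 hr)) _).trans_lt h

theorem m₂ {a : E2} {r : ℝ} (h : (a, 0) ∈ N.D₂) (hr : 0 ≤ r) : (Real.exp (-r) • a, 0) ∈ N.D₂ :=
  (add_le_add_left (nsq_le (neg_nonpos.2 hr)) _).trans_lt h

theorem s₁ (h : N.Ok) (j : Fin 3) (a s : ℝ) (ha : (a, 0) ∈ N.D₁) (hs : 0 ≤ s) :
    N.φ s (N.c₁ j (a, 0)) = N.c₁ j (Real.exp (-s) * a, 0) := by
  simpa using chart h.fl (h.oe₁ j) (h.ξ₁ j) (fun s => (Real.exp (-s) * a, 0)) (t := s)
    (fun u hu => m₁ ha (by rw [uIcc_of_le hs] at hu; exact hu.1)) fun u => by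
      simpa using ((d_exp u).mul_const a).prodMk (hasDerivAt_const u (0 : E2))

theorem s₂ (h : N.Ok) (i : Fin 3) (a : E2) (s : ℝ) (ha : (a, 0) ∈ N.D₂) (hs : 0 ≤ s) :
    N.φ s (N.c₂ i (a, 0)) = N.c₂ i (Real.exp (-s) • a, 0) := by
  simpa using chart h.fl (h.oe₂ i) (h.ξ₂ i) (fun s => (Real.exp (-s) • a, 0)) (t := s)
    (fun u hu => m₂ ha (by rw [uIcc_of_le hs] at hu; exact hu.1)) fun u => by
      simpa using ((d_exp u).smul_const a).prodMk (hasDerivAt_const u (0 : ℝ))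

theorem u₁ (h : N.Ok) (j : Fin 3) (b : E2) (s : ℝ) (hb : (0, b) ∈ N.D₁) (hs : 0 ≤ s) :
    N.φ (-s) (N.c₁ j (0, b)) = N.c₁ j (0, Real.exp (-s) • b) := by
  simpa using chart h.fl (h.oe₁ j) (h.ξ₁ j) (fun s => (0, Real.exp s • b)) (t := -s)
    (fun u hu => (add_le_add_right (nsq_le (by
      rw [uIcc_of_ge (neg_nonpos.2 hs)] at hu; exact hu.2)) _).trans_lt hb) fun u => by
      simpa using (hasDerivAt_const u (0 : ℝ)).prodMk ((Real.hasDerivAt_exp u).smul_const b)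

theorem u₂ (h : N.Ok) (i : Fin 3) (b s : ℝ) (hb : (0, b) ∈ N.D₂) (hs : 0 ≤ s) :
    N.φ (-s) (N.c₂ i (0, b)) = N.c₂ i (0, Real.exp (-s) * b) := by
  simpa using chart h.fl (h.oe₂ i) (h.ξ₂ i) (fun s => (0, Real.exp s * b)) (t := -s)
    (fun u hu => (add_le_add_right (sq_le (by
      rw [uIcc_of_ge (neg_nonpos.2 hs)] at hu; exact hu.2)) _).trans_lt hb) fun u => by
      simpa using (hasDerivAt_const u (0 : E2)).prodMk ((Real.hasDerivAt_exp u).mul_const b)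

theorem crit (h : N.Ok) {m : N.F} (hm : (∃ j, m = N.c₁ j 0) ∨ ∃ i, m = N.c₂ i 0) : N.ξ m = 0 := by
  have := pow_pos h.δpos 2
  rcases hm with ⟨j, rfl⟩ | ⟨j, rfl⟩
  · rw [← h.ξ₁ j 0 (by simpa [NF.D₁] using this)]
    exact (congrArg _ (by simp)).trans (map_zero _)
  · rw [← h.ξ₂ j 0 (by simpa [NF.D₂] using this)]
    exact (congrArg _ (by simp)).trans (map_zero _)

theorem mono (h : N.Ok) (m : N.F) : Monotone fun τ => N.f (N.φ τ m) := fun a b hab =>
  h.fl.mono hab fun s _ => ⟨h.smf _ trivial, by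
    by_cases c : (∃ j, N.φ s m = N.c₁ j 0) ∨ ∃ i, N.φ s m = N.c₂ i 0
    · rw [crit h c, map_zero]
    · push Not at c
      exact (h.pos _ c.1 c.2).le⟩

theorem smono (h : N.Ok) (m : N.F) (h1 : ∀ j, m ≠ N.c₁ j 0) (h2 : ∀ i, m ≠ N.c₂ i 0) :
    StrictMono fun τ => N.f (N.φ τ m) := by
  have k : ∀ τ x, N.ξ x = 0 → m ≠ x → N.φ τ m ≠ x := fun τ x hx hm e =>
    hm (by rw [← h.fl.neg_left τ m, e, h.fl.fix hx])
  refine strictMono_of_deriv_pos fun τ => ?_
  rw [(h.fl.hasDerivAt (h.smf _ trivial)).deriv]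
  exact h.pos _ (fun j => k τ _ (crit h (Or.inl ⟨j, rfl⟩)) (h1 j))
    fun i => k τ _ (crit h (Or.inr ⟨i, rfl⟩)) (h2 i)

theorem wconst (h : N.Ok) (τ : ℝ) {m : N.F} (hm : 1 < ‖N.w m‖) : N.w (N.φ τ m) = N.w m := by
  rcases le_total 0 τ with c | c
  · exact wc h.fl h.smw (fun x hx => (h.vert x (Or.inl hx)).1) hm c
  · simpa using wc h.fl.neg h.smw (fun x hx => by
      rw [map_neg, (h.vert x (Or.inl hx)).1, neg_zero]) hm (neg_nonneg.2 c)

theorem winv (h : N.Ok) (τ : ℝ) (m : N.F) : max ‖N.w (N.φ τ m)‖ 1 = max ‖N.w m‖ 1 := by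
  by_cases c : 1 < ‖N.w m‖
  · rw [wconst h τ c]
  by_cases c' : 1 < ‖N.w (N.φ τ m)‖
  · rw [← wconst h (-τ) c', h.fl.neg_left]
  · rw [max_eq_right (not_lt.1 c), max_eq_right (not_lt.1 c')]

theorem vert0 (h : N.Ok) {τ : ℝ} {m : N.F} (k : ∀ s ∈ uIcc 0 τ, N.f (N.φ s m) < -1) :
    N.pj (N.φ τ m) = (N.w m, N.f m + τ) := by
  have k' : ∀ s ∈ uIcc 0 τ, 1 < |N.f (N.φ s m)| := fun s hs =>
    lt_abs.2 (Or.inr (by linarith [k s hs]))
  refine Prod.ext (h.fl.const fun s hs => ⟨h.smw _ trivial, (h.vert _ (Or.inr (k' s hs))).1⟩) ?_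
  simpa [NF.pj] using h.fl.affine (a := (1 : ℝ)) fun s hs => ⟨h.smf _ trivial, h.unit _ (k' s hs)⟩

theorem vert (h : N.Ok) (τ : ℝ) (m : N.F) (h1 : N.f m < -1) (h2 : N.f m + τ < -1) :
    N.pj (N.φ τ m) = (N.w m, N.f m + τ) := by
  refine vert0 h fun s hs => ?_
  rcases le_total 0 τ with c | c
  · rw [uIcc_of_le c] at hs
    refine lt_of_le_of_lt (h.fl.stay (K := {x | N.f x ≤ N.f m + τ}) (U := {x | N.f x < -1})
      (isClosed_le (cont_f h) continuous_const) (isOpen_lt (cont_f h) continuous_const)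
      (fun x hx => lt_of_le_of_lt hx h2) (le_add_of_nonneg_right c) (fun u hu k => ?_) s hs) h2
    have : N.f (N.φ u m) = N.f m + u :=
      congrArg Prod.snd (vert0 h fun r hr => k r (by rwa [uIcc_of_le hu.1] at hr))
    exact this.trans_le (add_le_add_right hu.2 _)
  · rw [uIcc_of_ge c] at hs
    have := mono h m hs.2
    simp only [h.fl.zero] at this
    exact this.trans_lt h1

theorem top (h : N.Ok) (m : N.F) (hm : m ∉ N.Sp 1) :
    Tendsto (fun τ => N.f (N.φ τ m)) atTop atTop := by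
  simp only [NF.Sp, mem_ofPred_eq, not_forall, not_le] at hm
  obtain ⟨τ, -, h1⟩ := hm
  refine tendsto_atTop_mono' _ ((eventually_ge_atTop τ).mono fun s hs => ?_)
    (tendsto_atTop_add_const_right _ (N.f (N.φ τ m) - τ) tendsto_id)
  have := h.fl.le_growth (m := 1) hs fun u hu => ⟨h.smf _ trivial,
    (h.unit _ (lt_abs.2 (Or.inl (h1.trans_le (mono h m hu.1))))).ge⟩
  simp only [id]
  linarith

theorem inv (h : N.Ok) (c τ : ℝ) : MapsTo (N.φ τ) (N.Sp c) (N.Sp c) := fun m hm s _ => by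
  rw [← h.fl.add]
  exact (mono h m (le_max_left _ 0)).trans (hm _ (le_max_right _ _))

theorem cl (h : N.Ok) (c : ℝ) : IsClosed (N.Sp c) := by
  simp only [NF.Sp, ofPred_forall]
  exact isClosed_iInter fun τ => isClosed_iInter fun _ =>
    isClosed_le ((cont_f h).comp (h.fl.cont_time τ)) continuous_const

theorem up (h : N.Ok) {c : ℝ} {m : N.F} (hm : m ∈ N.Sp c) :
    (∃ j, ∃ n : ℕ, ∃ a, (a, 0) ∈ N.D₁ ∧ N.φ n m = N.c₁ j (a, 0)) ∨
      ∃ i, ∃ n : ℕ, ∃ a, (a, 0) ∈ N.D₂ ∧ N.φ n m = N.c₂ i (a, 0) := by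
  rcases h.up m with k | ⟨j, τ, a, ha, e⟩ | ⟨j, τ, a, ha, e⟩
  · obtain ⟨τ, h1, h2⟩ := ((k.eventually_gt_atTop c).and (eventually_ge_atTop 0)).exists
    exact absurd (hm τ h2) (not_le.2 h1)
  all_goals
    obtain ⟨n, hn⟩ := exists_nat_ge τ
    have k := h.fl.add (n - τ) τ m
    rw [sub_add_cancel, e] at k
  · exact Or.inl ⟨j, n, _, m₁ ha (sub_nonneg.2 hn), k.trans (s₁ h j a _ ha (sub_nonneg.2 hn))⟩
  · exact Or.inr ⟨j, n, _, m₂ ha (sub_nonneg.2 hn), k.trans (s₂ h j a _ ha (sub_nonneg.2 hn))⟩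

theorem wsp (h : N.Ok) (m : N.F) (hm : m ∈ N.Sp 1) : ‖N.w m‖ ≤ 1 := by
  by_contra c
  have k : ∀ τ, N.ρ (N.φ τ m) = 0 := fun τ =>
    (h.vert _ (Or.inl (show 1 < ‖N.w _‖ by rw [wconst h τ (not_le.1 c)]; exact not_le.1 c))).2
  rcases up h hm with ⟨j, n, a, ha, e⟩ | ⟨j, n, a, ha, e⟩
  · exact zero_ne_one ((k n).symm.trans (e ▸ h.ρ₁ j _ ha))
  · exact zero_ne_one ((k n).symm.trans (e ▸ h.ρ₂ j _ ha))

theorem box (h : N.Ok) (r a b : ℝ) : IsCompact {m | ‖N.w m‖ ≤ r ∧ a ≤ N.f m ∧ N.f m ≤ b} := by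
  convert h.prop _ ((isCompact_closedBall (0 : E2) r).prod (isCompact_Icc (a := a) (b := b))) using 1
  ext m
  simp [NF.pj]

theorem cpt (h : N.Ok) (a : ℝ) : IsCompact (N.Sp 1 ∩ {m | a ≤ N.f m}) :=
  (box h 1 a 1).of_isClosed_subset ((cl h 1).inter (isClosed_le continuous_const (cont_f h)))
    fun m hm => ⟨wsp h m hm.1, hm.2, by simpa only [h.fl.zero] using hm.1 0 le_rfl⟩

theorem piece {P A : Type} [NormedAddCommGroup P] [NormedSpace ℝ P] [FiniteDimensional ℝ P]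
    [NormedAddCommGroup A] [NormedSpace ℝ A] [FiniteDimensional ℝ A] (h : N.Ok) {c : A → N.F}
    {D : Set A} (oe : OE (vs A) N.F c D) {g : P → A} (hg : ContDiff ℝ ∞ g) {z : P} (hz : g z ∈ D)
    {τ : ℝ} {m : N.F} (e : N.φ τ m = c (g z)) :
    ContMDiffAt 𝓘(ℝ, P) 𝓘(ℝ, Rn 3) 1 (fun z => N.φ (-τ) (c (g z))) z ∧ N.φ (-τ) (c (g z)) = m :=
  ⟨(((smAt_vs.2 hg.contDiffAt).trans (oe.sm _ hz)).trans (h.fl.smAt_time _ _)).of_le (by simp),
    by rw [← e, h.fl.neg_left]⟩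

theorem rect (h : N.Ok) : T1.Rect (Rn 2) (Rn 3) (N.Sp 1) := by
  refine ⟨range (fun p : Fin 3 × ℕ => fun z : Rn 2 => N.φ (-p.2) (N.c₁ p.1 (z 0, 0))) ∪
    range (fun p : Fin 3 × ℕ => fun z : Rn 2 => N.φ (-p.2) (N.c₂ p.1 (WithLp.toLp 2 z, 0))),
    (countable_range _).union (countable_range _), fun m hm => ?_⟩
  rcases up h hm with ⟨j, n, a, ha, e⟩ | ⟨j, n, a, ha, e⟩
  · exact ⟨_, Or.inl ⟨(j, n), rfl⟩, fun _ => a,
      piece h (h.oe₁ j) (g := fun z : Rn 2 => (z 0, 0)) (by fun_prop) ha e⟩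
  · exact ⟨_, Or.inr ⟨(j, n), rfl⟩, a.ofLp,
      piece h (h.oe₂ j) (g := fun z : Rn 2 => (WithLp.toLp 2 z, 0)) (by fun_prop) ha e⟩

theorem rect1 (h : N.Ok) (t : ℝ) (ht : t < N.v₂) : T1.Rect ℝ (Rn 3) (N.Sp t) := by
  refine ⟨range (fun p : Fin 3 × ℕ => fun z : ℝ => N.φ (-p.2) (N.c₁ p.1 (z, 0))),
    countable_range _, fun m hm => ?_⟩
  rcases up h hm with ⟨j, n, a, ha, e⟩ | ⟨j, n, a, ha, e⟩
  · exact ⟨_, ⟨(j, n), rfl⟩, a, piece h (h.oe₁ j) (g := fun z : ℝ => (z, 0)) (by fun_prop) ha e⟩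
  · have k : Tendsto (fun s : ℝ => N.v₂ - ‖Real.exp (-s) • a‖ ^ 2 + 0 ^ 2) atTop
        (𝓝 (N.v₂ - ‖(0 : ℝ) • a‖ ^ 2 + 0 ^ 2)) :=
      (((Real.tendsto_exp_neg_atTop_nhds_zero.smul_const a).norm.pow 2).const_sub _).add_const _
    have := le_of_tendsto k ((eventually_ge_atTop 0).mono fun s hs => by
      have := inv h t n hm s hs
      rwa [e, s₂ h j a s ha hs, h.f₂ j _ (m₂ ha hs)] at this)
    simp at this
    linarith

theorem conn (h : N.Ok) (c : ℝ) (hc : c ≤ -1) : IsPreconnected {m | N.f m < c} := by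
  have k : ∀ q : R3, q.2 < c → q ∈ Out := fun q hq => Or.inr (lt_abs.2 (Or.inr (by linarith)))
  have e : {m | N.f m < c} = N.pinv '' (univ ×ˢ Iio c) := by
    ext m
    refine ⟨fun hm => ⟨N.pj m, ⟨trivial, hm⟩, h.oe.left (k _ hm)⟩, ?_⟩
    rintro ⟨q, hq, rfl⟩
    exact (congrArg Prod.snd (pj_pinv h (k q hq.2))).trans_lt hq.2
  rw [e]
  exact (convex_univ.prod (convex_Iio c)).isPreconnected.image _ fun q hq =>
    (cont_pinv h (k q hq.2)).continuousWithinAt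

end Fa

open Fa in
theorem fa : FaStmt := fun _ h =>
  ⟨mono h, smono h, winv h, vert h, top h, inv h, cl h, wsp h, box h, cpt h, rect h, rect1 h, s₁ h,
    u₁ h, s₂ h, u₂ h, fun _ => h.oe.left, fun _ => Loc.pj_pinv h, fun q hq => by
      obtain ⟨m, rfl⟩ := h.onto hq
      exact h.oe.symm.ld _ ⟨m, hq, rfl⟩, conn h⟩

end Pool.Agent.MP_e1dc65_gt.T

end
end MrgPart2

-- ======== part 3: formerly Pool.Agent.MP_e1dc65_gt.t2.Di
section MrgPart3

/-! PROJECT HC, block EMB, row DI: the descending discs. -/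

open scoped ContDiff Manifold Topology Real unitInterval
open Set Filter Function Module Metric Topology

noncomputable section

namespace Pool.Agent.MP_e1dc65_gt.T

namespace DiP

/-- the complex plane as the Euclidean plane -/
def V : ℂ ≃ₗᵢ[ℝ] E2 := Complex.orthonormalBasisOneI.repr

theorem cir_eq (s : ℝ) : cir s = V (Complex.exp (s * Complex.I)) := by
  ext k
  fin_cases k <;> simp [cir, V, Complex.exp_ofReal_mul_I_re, Complex.exp_ofReal_mul_I_im]

variable {N : NF} {t : ℝ}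

theorem fc (h : N.Ok) : Continuous N.f := h.smf.cont
theorem φc (h : N.Ok) : Continuous fun p : N.F × ℝ => N.φ p.2 p.1 := h.fl.sm.cont
theorem φτ (h : N.Ok) (τ : ℝ) : Continuous (N.φ τ) :=
  (φc h).comp (continuous_id.prodMk continuous_const)
theorem neg_φ (h : N.Ok) (τ : ℝ) (m : N.F) : N.φ (-τ) (N.φ τ m) = m := by
  rw [← h.fl.add, neg_add_cancel, h.fl.zero]
theorem φ_neg (h : N.Ok) (τ : ℝ) (m : N.F) : N.φ τ (N.φ (-τ) m) = m := by
  rw [← h.fl.add, add_neg_cancel, h.fl.zero]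

theorem sq_shr {s x : ℝ} (hs : 0 ≤ s) : (Real.exp (-s) * x) ^ 2 ≤ x ^ 2 := by
  have h1 : Real.exp (-s) ≤ 1 := Real.exp_le_one_iff.2 (by linarith)
  have h0 := Real.exp_pos (-s)
  rw [mul_pow]
  exact mul_le_of_le_one_left (sq_nonneg x) (pow_le_one₀ h0.le h1)

theorem shr2 {a : E2} {s : ℝ} (ha : (a, (0 : ℝ)) ∈ N.D₂) (hs : 0 ≤ s) :
    (Real.exp (-s) • a, (0 : ℝ)) ∈ N.D₂ := by
  simp only [NF.D₂, mem_ofPred_eq, norm_smul, Real.norm_eq_abs, Real.abs_exp] at ha ⊢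
  linarith [sq_shr (x := ‖a‖) hs]

theorem mem2 (h : N.Ok) {y : ℂ} (hy : ‖y‖ ≤ 1) : ((N.δ / 2) • V y, (0 : ℝ)) ∈ N.D₂ := by
  have := h.δpos
  have h0 := norm_nonneg y
  show ‖(N.δ / 2) • V y‖ ^ 2 + 0 ^ 2 < N.δ ^ 2
  rw [norm_smul, V.norm_map, Real.norm_of_nonneg (by linarith)]
  nlinarith [mul_le_of_le_one_right (sq_nonneg N.δ) (pow_le_one₀ h0 hy (n := 2)), sq_pos_of_pos this]

theorem f_dn (h : N.Ok) (i : Fin 3) {y : ℂ} (hy : ‖y‖ ≤ 1) :
    N.f (N.dn i (V y)) = N.v₂ - N.δ ^ 2 / 4 * ‖y‖ ^ 2 := by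
  have := h.δpos
  rw [NF.dn, h.f₂ i _ (mem2 h hy), norm_smul, V.norm_map, Real.norm_of_nonneg (by linarith)]
  ring

theorem dn_cont (h : N.Ok) (i : Fin 3) : ContinuousOn (fun y => N.dn i (V y)) (closedBall 0 1) :=
  (h.oe₂ i).sm.contOn.comp (f := fun y => ((N.δ / 2) • V y, (0 : ℝ))) (by fun_prop)
    fun _ hy => mem2 h (mem_closedBall_zero_iff.1 hy)

theorem orb2 (h : N.Ok) (hF : N.Fa) (i : Fin 3) {a : E2} (ha : (a, (0 : ℝ)) ∈ N.D₂) (τ : ℝ) :
    ∃ s, N.f (N.φ τ (N.c₂ i (a, 0))) ≤ N.v₂ - ‖Real.exp s • a‖ ^ 2 := by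
  have k := le_max_right τ 0
  refine ⟨-max τ 0, (hF.mono _ (le_max_left τ 0)).trans_eq ?_⟩
  simp only [hF.s₂ i a _ ha k, h.f₂ i _ (shr2 ha k)]
  ring

theorem zero1 (h : N.Ok) : (0 : ℝ × E2) ∈ N.D₁ := by simpa [NF.D₁] using sq_pos_of_pos h.δpos
theorem zero2 (h : N.Ok) : (0 : E2 × ℝ) ∈ N.D₂ := by simpa [NF.D₂] using sq_pos_of_pos h.δpos

theorem fix2 (h : N.Ok) (hF : N.Fa) (i : Fin 3) (τ : ℝ) : N.φ τ (N.c₂ i 0) = N.c₂ i 0 := by
  have k : ∀ s, 0 ≤ s → N.φ s (N.c₂ i 0) = N.c₂ i 0 := fun s hs => by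
    have := hF.s₂ i 0 s (zero2 h) hs
    rwa [smul_zero] at this
  rcases le_total 0 τ with a | a
  · exact k τ a
  · rw [← k (-τ) (by linarith), φ_neg h, k (-τ) (by linarith)]

theorem smono (h : N.Ok) (hF : N.Fa) (hW : N.Wind t) (i : Fin 3) {y : ℂ} (hy : ‖y‖ = 1) :
    StrictMono fun τ => N.f (N.φ τ (N.dn i (V y))) := by
  have e := f_dn h i hy.le
  have := sq_pos_of_pos h.δpos
  rw [hy] at e
  refine hF.smono _ (fun j H => ?_) fun j H => ?_
  · rw [H, h.f₁ j _ (zero1 h)] at e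
    simp at e
    linarith [hW.1, hW.2.1]
  · rw [H, h.f₂ j _ (zero2 h)] at e
    simp at e
    linarith

theorem ex_low (h : N.Ok) (hF : N.Fa) (hW : N.Wind t) (i : Fin 3) {y : ℂ} (hy : ‖y‖ = 1) :
    ∃ τ, N.f (N.φ τ (N.dn i (V y))) < t := by
  rcases h.down (N.dn i (V y)) with H | ⟨j, τ, b, hb, H⟩ | ⟨j, τ, b, hb, H⟩
  · exact (H.eventually (eventually_lt_atBot t)).exists
  · refine ⟨τ, ?_⟩
    have : (0 : ℝ) ^ 2 + ‖b‖ ^ 2 < N.δ ^ 2 := hb
    rw [H, h.f₁ j _ hb]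
    simp only
    linarith [hW.1]
  · obtain ⟨s, hs⟩ := orb2 h hF i (mem2 h hy.le) τ
    have := h.δpos
    have p : 0 < ‖Real.exp s • (N.δ / 2) • V y‖ := by
      rw [norm_smul, norm_smul, V.norm_map, hy, Real.norm_of_nonneg (Real.exp_pos s).le,
        Real.norm_of_nonneg (by linarith)]
      positivity
    rw [← NF.dn, H, h.f₂ j _ hb] at hs
    simp only [norm_zero] at hs
    nlinarith [sq_nonneg b]

theorem ex_S (h : N.Ok) (hF : N.Fa) (hW : N.Wind t) :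
    ∃ S, ∀ y ∈ sphere (0 : ℂ) 1, ∀ i, N.f (N.φ (-S) (N.dn i (V y))) < t := by
  refine (isCompact_sphere (0 : ℂ) 1).induction_on
    (p := fun A => ∃ S, ∀ y ∈ A, ∀ i, N.f (N.φ (-S) (N.dn i (V y))) < t) ⟨0, by simp⟩
    (fun A B hAB ⟨S, H⟩ => ⟨S, fun y hy => H y (hAB hy)⟩)
    (fun A B ⟨S, H⟩ ⟨S', H'⟩ => ⟨max S S', fun y hy i => hy.elim
      (fun k => (hF.mono _ (neg_le_neg (le_max_left _ _))).trans_lt (H y k i))
      fun k => (hF.mono _ (neg_le_neg (le_max_right _ _))).trans_lt (H' y k i)⟩) fun y hy => ?_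
  choose τ hτ using fun i => ex_low h hF hW i (mem_sphere_zero_iff_norm.1 hy)
  obtain ⟨b, hb⟩ := (finite_range τ).bddBelow
  refine ⟨{y | ∀ i, N.f (N.φ (- -b) (N.dn i (V y))) < t}, eventually_all.2 fun i => ?_, -b,
    fun _ H => H⟩
  refine ((((fc h).comp (φτ h _)).comp_continuousOn ((dn_cont h i).mono
    sphere_subset_closedBall)) y hy).eventually_lt_const ?_
  exact (hF.mono _ ((neg_neg b).trans_le (hb ⟨i, rfl⟩))).trans_lt (hτ i)

theorem tri (h : N.Ok) (hF : N.Fa) {m : N.F} (hm : m ∈ N.Sp 1) :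
    (∀ τ, N.f (N.φ τ m) ≤ N.v₁) ∨ (∃ i, m = N.c₂ i 0) ∨
      ∃ i y u, ‖y‖ = 1 ∧ m = N.φ u (N.dn i (V y)) := by
  rcases h.up m with H | ⟨j, τ, a, ha, H⟩ | ⟨j, τ, a, ha, H⟩
  · obtain ⟨τ, h1, h2⟩ := ((H.eventually (eventually_gt_atTop 1)).and (eventually_ge_atTop 0)).exists
    exact absurd (hm τ h2) (not_le.2 h1)
  · refine .inl fun τ' => ?_
    have k := le_max_right (τ' - τ) 0
    have m' : (Real.exp (-max (τ' - τ) 0) * a, (0 : E2)) ∈ N.D₁ :=
      lt_of_le_of_lt (add_le_add_left (sq_shr k) _) ha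
    refine (hF.mono m (sub_le_iff_le_add.1 (le_max_left (τ' - τ) 0))).trans ?_
    simp only [h.fl.add, H, hF.s₁ j a _ ha k, h.f₁ j _ m', norm_zero]
    nlinarith [sq_nonneg (Real.exp (-max (τ' - τ) 0) * a)]
  · have e : m = N.φ (-τ) (N.c₂ j (a, 0)) := by rw [← H, neg_φ h]
    by_cases a0 : a = 0
    · subst a0
      exact .inr (.inl ⟨j, e.trans (fix2 h hF j _)⟩)
    have p := norm_pos_iff.2 a0
    have δ := h.δpos
    have n1 : ‖V.symm (‖a‖⁻¹ • a)‖ = 1 := by rw [V.symm.norm_map, norm_smul]; simp [p.ne']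
    refine .inr (.inr ⟨j, _, -τ + Real.log (N.δ / 2 / ‖a‖), n1, ?_⟩)
    rw [h.fl.add, e]
    congr 1
    have m' := mem2 h n1.le
    rw [NF.dn]
    rw [V.apply_symm_apply, smul_smul, ← div_eq_mul_inv] at m' ⊢
    rcases le_total 0 (Real.log (N.δ / 2 / ‖a‖)) with k | k
    · rw [hF.s₂ j _ _ m' k, smul_smul, Real.exp_neg, Real.exp_log (by positivity),
        inv_mul_cancel₀ (by positivity), one_smul]
    · have := hF.s₂ j a _ ha (neg_nonneg.2 k)
      rw [neg_neg, Real.exp_log (by positivity)] at this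
      rw [← this, φ_neg h]

theorem wind (h : N.Ok) (hF : N.Fa) (hW : N.Wind t) {S : ℝ}
    (hS : ∀ y ∈ sphere (0 : ℂ) 1, ∀ i, N.f (N.φ (-S) (N.dn i (V y))) < t) {g : N.F → Circle}
    (hg : ContinuousOn g {m | N.f m ≤ t}) (i : Fin 3) {k : ℤ} {L : ℝ → ℝ} (hL : Continuous L)
    (hp : ∀ s, L (s + 2 * π) = L s + 2 * π * k)
    (he : ∀ s T, N.f (N.φ T (N.dn i (cir s))) = t → g (N.φ T (N.dn i (cir s))) = Circle.exp (L s)) :
    T2.Wind (fun y => g (N.φ (-S) (N.dn i (V y)))) k := by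
  have n1 : ∀ s : ℝ, ‖Complex.exp (s * Complex.I)‖ = 1 := Complex.norm_exp_ofReal_mul_I
  have sm : ∀ s, StrictMono fun τ => N.f (N.φ τ (N.dn i (cir s))) := fun s =>
    cir_eq s ▸ smono h hF hW i (n1 s)
  have lo : ∀ s, N.f (N.φ (-S) (N.dn i (cir s))) < t := fun s =>
    cir_eq s ▸ hS _ (mem_sphere_zero_iff_norm.2 (n1 s)) i
  have dc : Continuous fun s => N.dn i (cir s) := by
    simp only [cir_eq]
    exact (dn_cont h i).comp_continuous (by fun_prop) fun s => mem_closedBall_zero_iff.2 (n1 s).le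
  have ex : ∀ s, ∃ T, N.f (N.φ T (N.dn i (cir s))) = t := fun s => by
    refine intermediate_value_univ (-S) 0
      ((fc h).comp ((φc h).comp (continuous_const.prodMk continuous_id))) ⟨(lo s).le, ?_⟩
    have := sq_nonneg N.δ
    show t ≤ N.f (N.φ 0 (N.dn i (cir s)))
    rw [h.fl.zero, cir_eq, f_dn h i (n1 s).le, n1]
    linarith [hW.2.1]
  choose T hT using ex
  have Tc : Continuous T := continuousOn_univ.1 (cont_zero
    (F := fun s τ => N.f (N.φ τ (N.dn i (cir s))) - t)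
    (fun τ => ((((fc h).comp (φτ h τ)).comp dc).sub continuous_const).continuousOn)
    (fun s _ _ _ H => sub_lt_sub_right (sm s H) t) fun s _ => sub_eq_zero.2 (hT s))
  have cp : ∀ s, cir (s + 2 * π) = cir s := fun s => by simp [cir]
  have Tp : ∀ s, T (s + 2 * π) = T s := fun s =>
    (sm s).injective (by simpa only [cp] using (hT (s + 2 * π)).trans (hT s).symm)
  let H : C(I × ℝ, Circle) := ⟨fun p => g (N.φ (T p.2 - p.1 * (T p.2 + S)) (N.dn i (cir p.2))),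
    hg.comp_continuous ((φc h).comp (f := fun p : I × ℝ =>
      (N.dn i (cir p.2), T p.2 - p.1 * (T p.2 + S)))
        ((dc.comp continuous_snd).prodMk (by fun_prop))) fun p => by
        have : -S < T p.2 := (sm p.2).lt_iff_lt.1 ((lo p.2).trans_eq (hT p.2).symm)
        exact ((sm p.2).monotone (by nlinarith [p.1.2.1])).trans_eq (hT p.2)⟩
  have H0 : ∀ s, H (0, s) = Circle.exp ((⟨L, hL⟩ : C(ℝ, ℝ)) s) := fun s => by
    simpa [H] using he s _ (hT s)
  let Λ := Circle.isCoveringMap_exp.liftHomotopy H ⟨L, hL⟩ H0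
  have l1 : ∀ p, Circle.exp (Λ p) = H p :=
    congrFun (Circle.isCoveringMap_exp.liftHomotopy_lifts H ⟨L, hL⟩ H0)
  have l0 : ∀ s, Λ (0, s) = L s := Circle.isCoveringMap_exp.liftHomotopy_zero H ⟨L, hL⟩ H0
  refine ⟨fun s => Λ (1, s) * Complex.I, by fun_prop, fun s => ?_, fun s => ?_⟩
  · rw [← Circle.coe_exp, l1]
    simp [H, cir_eq]
  · have := congrFun (Circle.isCoveringMap_exp.eq_of_comp_eq (A := I)
      (g₁ := fun r => Λ (r, s + 2 * π)) (g₂ := fun r => Λ (r, s) + k * (2 * π)) (by fun_prop)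
      (by fun_prop) (funext fun r => by
        simp only [comp_apply, Circle.exp_add, Circle.exp_int_mul_two_pi, mul_one, l1]
        simp only [H, ContinuousMap.coe_mk, cp, Tp]) 0 (by rw [l0, l0, hp]; ring)) 1
    simp only [this]
    push_cast
    ring

end DiP

open DiP in
theorem di : DiStmt := by
  intro N t h hF hW
  obtain ⟨S, hS⟩ := ex_S h hF hW
  have δ := sq_pos_of_pos h.δpos
  have w1 := hW.1
  have w2 := hW.2.1
  have mp : ∀ j, MapsTo (fun y => N.φ (-S) (N.dn j (V y))) (closedBall 0 1) (N.Sp 1) :=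
    fun j y hy => hF.inv 1 _ fun τ _ => by
      obtain ⟨s, hs⟩ := orb2 h hF j (mem2 h (mem_closedBall_zero_iff.1 hy)) τ
      exact hs.trans (by linarith [h.hi, sq_nonneg ‖Real.exp s • (N.δ / 2) • V y‖])
  have f1 : ∀ i {y : ℂ}, ‖y‖ = 1 → N.f (N.φ 0 (N.dn i (V y))) = N.v₂ - N.δ ^ 2 / 4 :=
    fun i y hy => by rw [h.fl.zero, f_dn h i hy.le, hy]; ring
  refine ⟨fun j y => N.φ (-S) (N.dn j (V y)), N.Sp 1 ∩ {m | N.f (N.φ S m) ≤ N.v₂ - N.δ ^ 2 / 4},
    fun j => (φτ h _).comp_continuousOn (dn_cont h j), fun i j y hy y' hy' H => ?_, mp,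
    (hF.cl 1).inter (isClosed_le ((fc h).comp (φτ h S)) continuous_const), inter_subset_left,
    fun m ⟨hm, hm'⟩ => ?_, fun m hm => ?_, fun j y hy => ?_, fun k => ?_⟩
  · have e := congrArg (N.φ S) H
    simp only [φ_neg h, NF.dn] at e
    have m1 := mem2 h (mem_closedBall_zero_iff.1 hy)
    have m2 := mem2 h (mem_closedBall_zero_iff.1 hy')
    obtain rfl := h.dis₂ i j _ m1 _ m2 e
    exact ⟨rfl, V.injective (smul_right_injective _ (half_pos h.δpos).ne'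
      (congrArg Prod.fst ((h.oe₂ i).inj m1 m2 e)))⟩
  · replace hm' : N.f (N.φ S m) ≤ N.v₂ - N.δ ^ 2 / 4 := hm'
    rcases tri h hF hm with H | ⟨i, rfl⟩ | ⟨i, y, u, hy, rfl⟩
    · have := H 0
      rw [h.fl.zero] at this
      linarith
    · rw [fix2 h hF, h.f₂ i _ (zero2 h)] at hm'
      simp at hm'
      linarith
    · rw [← h.fl.add, ← f1 i hy] at hm'
      have := (smono h hF hW i hy).le_iff_le.1 hm'
      exact (hF.mono _ (by linarith)).trans (hS y (mem_sphere_zero_iff_norm.2 hy) i).le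
  · by_cases hm' : N.f (N.φ S m) ≤ N.v₂ - N.δ ^ 2 / 4
    · exact .inl ⟨hm, hm'⟩
    refine .inr ?_
    rcases tri h hF hm with H | ⟨i, rfl⟩ | ⟨i, y, u, hy, rfl⟩
    · exact absurd (by linarith [H S]) hm'
    · exact ⟨i, 0, mem_closedBall_self zero_le_one, by
        simp only [NF.dn, map_zero, smul_zero]; exact fix2 h hF i (-S)⟩
    · rw [← h.fl.add, ← f1 i hy, not_le] at hm'
      have k := ((smono h hF hW i hy).lt_iff_lt.1 hm').le
      refine ⟨i, Real.exp (-(S + u)) • y, mem_closedBall_zero_iff.2 ?_, ?_⟩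
      · rw [norm_smul, hy, mul_one, Real.norm_of_nonneg (Real.exp_pos _).le]
        exact Real.exp_le_one_iff.2 (by linarith)
      · simp only [NF.dn]
        rw [map_smul, smul_comm, ← hF.s₂ i _ _ (mem2 h hy.le) k, ← h.fl.add, neg_add_cancel_left]
  · have hy' := mem_closedBall_zero_iff.1 hy
    have h0 := norm_nonneg y
    refine (and_iff_right (mp j hy)).trans ?_
    simp only [mem_ofPred_eq, φ_neg h, f_dn h j hy']
    refine ⟨fun H => le_antisymm hy' ?_, fun H => by rw [H]; linarith⟩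
    by_contra hn
    have : ‖y‖ ^ 2 < 1 := by nlinarith
    nlinarith
  · obtain ⟨g, g1, g2, g3⟩ := hW.2.2 k
    refine ⟨fun m => g m, continuous_subtype_val.comp_continuousOn g1,
      fun m _ => Circle.coe_ne_zero _, fun m hm => congrArg Subtype.val (g2 m hm), fun j => ?_⟩
    obtain ⟨L, a, b, c⟩ := g3 j
    exact wind h hF hW hS g1 j a b c

end Pool.Agent.MP_e1dc65_gt.T

end
end MrgPart3

-- ======== part 4: formerly Pool.Agent.MP_e1dc65_gt.t2.SmFr
section MrgPart4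

/-! PROJECT HC, part T2: smoothing of a continuous frame. -/

open scoped ContDiff Manifold Topology Real
open Set Filter Function Module Metric

noncomputable section

namespace Pool.Agent.MP_e1dc65_gt.T2

namespace SmFrP

/-- the coordinate along the frame -/
def P (a : Rn 3 →L[ℝ] Rn 5) (N : ℂ →L[ℝ] Rn 5) : Rn 5 →L[ℝ] ℂ :=
  (ContinuousLinearMap.snd ℝ (Rn 3) ℂ).comp (a.coprod N).inverse

variable {a : Rn 3 →L[ℝ] Rn 5} {N : ℂ →L[ℝ] Rn 5}

theorem inv (h : Fr a N) : (a.coprod N).IsInvertible := by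
  have e : finrank ℝ (Rn 3 × ℂ) = finrank ℝ (Rn 5) := by simp [Complex.finrank_real_complex]
  have hs : Surjective (a.coprod N) :=
    (LinearMap.injective_iff_surjective_of_finrank_eq_finrank e
      (f := (a.coprod N : Rn 3 × ℂ →ₗ[ℝ] Rn 5))).1 h
  exact ⟨(LinearEquiv.ofBijective (a.coprod N : Rn 3 × ℂ →ₗ[ℝ] Rn 5) ⟨h, hs⟩).toContinuousLinearEquiv,
    by ext <;> rfl⟩

theorem P_apply (h : Fr a N) (u : Rn 3) (z : ℂ) : P a N (a u + N z) = z := by
  have := (inv h).inverse_apply_eq (x := (u, z)) (y := a u + N z)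
  simp only [P, ContinuousLinearMap.comp_apply]
  rw [this.2 rfl]
  rfl

theorem P_N (h : Fr a N) (z : ℂ) : P a N (N z) = z := by simpa using P_apply h 0 z

theorem P_a (h : Fr a N) (u : Rn 3) : P a N (a u) = 0 := by simpa using P_apply h u 0

theorem fr_of (h : Fr a N) {M : ℂ →L[ℝ] Rn 5} (hM : ∀ z, z ≠ 0 → 0 < inner ℝ z (P a N (M z))) :
    Fr a M := by
  refine (injective_iff_map_eq_zero _).2 fun p hp => ?_
  have e : a p.1 + M p.2 = 0 := hp
  have e2 : P a N (M p.2) = 0 := by simpa [P_a h] using congrArg (P a N) e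
  have e3 : p.2 = 0 := by
    by_contra hz
    simpa [e2] using hM _ hz
  have e4 : a.coprod N (p.1, 0) = 0 := by simpa [e3] using e
  have e5 := (injective_iff_map_eq_zero _).1 h _ e4
  exact Prod.ext (Prod.ext_iff.1 e5).1 e3

theorem pos_const (h : Fr a N) {N₀ : ℂ →L[ℝ] Rn 5} {c : ℝ} (hc : 0 < c) (h1 : N 1 = N₀ 1)
    (h2 : N Complex.I = c • N₀ Complex.I) (z : ℂ) (hz : z ≠ 0) :
    0 < inner ℝ z (P a N (N₀ z)) := by
  have e : N₀ z = N (z.re • (1 : ℂ) + (z.im / c) • Complex.I) := by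
    have e0 : z = z.re • (1 : ℂ) + z.im • Complex.I := by simp
    conv_lhs => rw [e0]
    rw [map_add, map_add, map_smul, map_smul, map_smul, map_smul, h1, h2, smul_smul,
      div_mul_cancel₀ _ hc.ne']
  rw [e, P_N h]
  have e1 : inner ℝ z (z.re • (1 : ℂ) + (z.im / c) • Complex.I) = z.re ^ 2 + z.im ^ 2 / c := by
    simp [Complex.inner, -Complex.ofReal_div]
    ring
  rw [e1]
  by_cases h0 : z.re = 0
  · have : z.im ≠ 0 := fun h' => hz (Complex.ext h0 h')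
    positivity
  · positivity

theorem pos_near {Q : ℂ →L[ℝ] ℂ} (h : ‖Q - ContinuousLinearMap.id ℝ ℂ‖ < 1) (z : ℂ) (hz : z ≠ 0) :
    0 < inner ℝ z (Q z) := by
  have e : Q z = z + (Q - ContinuousLinearMap.id ℝ ℂ) z := by simp
  have h1 := (abs_le.1 (abs_real_inner_le_norm z ((Q - ContinuousLinearMap.id ℝ ℂ) z))).1
  have h2 := (Q - ContinuousLinearMap.id ℝ ℂ).le_opNorm z
  have h3 : 0 < ‖z‖ := norm_pos_iff.2 hz
  rw [e, inner_add_right, real_inner_self_eq_norm_sq]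
  nlinarith [mul_le_mul_of_nonneg_left h2 h3.le, mul_pos (mul_pos h3 h3) (sub_pos.2 h)]

theorem cont {X : Type} [TopologicalSpace X] {a : X → Rn 3 →L[ℝ] Rn 5} {N : X → ℂ →L[ℝ] Rn 5}
    {Z : Set X} {x : X} (ha : ContinuousWithinAt a Z x) (hN : ContinuousWithinAt N Z x)
    (h : Fr (a x) (N x)) : ContinuousWithinAt (fun y => P (a y) (N y)) Z x := by
  have e : ∀ y, (a y).coprod (N y) = (a y).comp (ContinuousLinearMap.fst ℝ _ _) +
      (N y).comp (ContinuousLinearMap.snd ℝ _ _) := fun y => by ext <;> simp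
  have c1 : ContinuousWithinAt (fun y => (a y).coprod (N y)) Z x := by
    simp only [e]
    exact (ha.clm_comp continuousWithinAt_const).add (hN.clm_comp continuousWithinAt_const)
  have c2 := ((inv h).contDiffAt_map_inverse (n := 0)).continuousAt
  exact continuousWithinAt_const.clm_comp
    (ContinuousAt.comp_continuousWithinAt (f := fun y => (a y).coprod (N y)) c2 c1)

end SmFrP

open SmFrP in
theorem smFr : SmFrStmt := by
  intro E _ _ _ X a N N₀ Z B O hZ hB hO hBO ha hN hF hc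
  obtain ⟨g, hg⟩ := exists_contMDiffMap_forall_mem_convex_of_local_const (n := ⊤) (M := X) 𝓘(ℝ, E)
    (t := fun x => {M : ℂ →L[ℝ] Rn 5 |
      (x ∈ Z → ∀ z, z ≠ 0 → 0 < inner ℝ z (P (a x) (N x) (M z))) ∧ (x ∈ B → M = N₀)})
    (fun x M hM M' hM' s r hs hr e => ⟨fun hx z hz => by
      have p := hM.1 hx z hz
      have q := hM'.1 hx z hz
      simp only [add_apply, smul_apply, map_add, map_smul,
        inner_add_right, inner_smul_right]
      rcases hs.eq_or_lt with rfl | hs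
      · rw [zero_add] at e; simpa [e] using q
      · positivity, fun hx => by rw [hM.2 hx, hM'.2 hx, ← add_smul, e, one_smul]⟩)
    (fun x => by
      by_cases hx : x ∈ O
      · refine ⟨N₀, ?_⟩
        filter_upwards [hO.mem_nhds hx] with y hy
        refine ⟨fun hy' => ?_, fun _ => rfl⟩
        obtain ⟨c, h0, h1, h2⟩ := hc y ⟨hy', hy⟩
        exact pos_const (hF y hy') h0 h1 h2
      have hb := hB.isOpen_compl.mem_nhds fun h => hx (hBO h)
      refine ⟨N x, ?_⟩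
      by_cases hz : x ∈ Z
      · have c1 := (cont (ha x hz) (hN x hz) (hF x hz)).clm_comp
          (continuousWithinAt_const (b := N x))
        have e : (P (a x) (N x)).comp (N x) = ContinuousLinearMap.id ℝ ℂ :=
          ContinuousLinearMap.ext (P_N (hF x hz))
        have c2 := c1.eventually (ball_mem_nhds _ one_pos)
        filter_upwards [hb, eventually_nhdsWithin_iff.1 c2] with y h1 h2
        refine ⟨fun hy => pos_near (Q := (P (a y) (N y)).comp (N x)) ?_, fun h => (h1 h).elim⟩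
        have := h2 hy
        rwa [e, dist_eq_norm] at this
      · filter_upwards [hb, hZ.isOpen_compl.mem_nhds hz] with y h1 h2
        exact ⟨fun h => (h2 h).elim, fun h => (h1 h).elim⟩)
  exact ⟨g, fun x _ => g.contMDiff x, fun x hx => fr_of (hF x hx) ((hg x).1 hx), fun x => (hg x).2⟩

end Pool.Agent.MP_e1dc65_gt.T2

end
end MrgPart4

-- ======== part 5: formerly Pool.Agent.MP_e1dc65_gt.t2.Sc
section MrgPart5

/-! PROJECT HC, row SC: the complement of the embedded core is simply connected. -/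

open scoped ContDiff Manifold Topology Real unitInterval
open Set Filter Function Module Metric Topology

noncomputable section

namespace Pool.Agent.MP_e1dc65_gt.T

namespace ScA

/-- compact parts of a simply connected set can be pushed into the subset `S`. -/
theorem sc_push {X : Type} [TopologicalSpace X] {S S2 : Set X} (hS : S ⊆ S2) (h2 : SC S2)
    (hP : ∀ C, IsCompact C → C ⊆ S2 → ∃ P : ℝ × X → X, ContinuousOn P (Icc 0 1 ×ˢ S2) ∧
      (∀ x ∈ S2, P (0, x) = x) ∧ (∀ x ∈ C, P (1, x) ∈ S) ∧ MapsTo P (Icc 0 1 ×ˢ S) S) : SC S := by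
  have one : ∀ {P : ℝ × X → X}, ContinuousOn P (Icc 0 1 ×ˢ S2) →
      ContinuousOn (fun x => P (1, x)) S2 := fun hc =>
    hc.comp (by fun_prop) fun x hx => ⟨right_mem_Icc.2 zero_le_one, hx⟩
  have side : ∀ {P : ℝ × X → X}, ContinuousOn P (Icc 0 1 ×ˢ S2) → (∀ x ∈ S2, P (0, x) = x) →
      ∀ x ∈ S2, ∃ γ : Path x (P (1, x)), ∀ t : I, γ t = P (t, x) := fun {P} hc h0 x hx =>
    ⟨⟨⟨fun t => P (t, x), hc.comp_continuous (by fun_prop) fun t => ⟨t.2, hx⟩⟩,
      by simpa using h0 x hx, by simp⟩, fun _ => rfl⟩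
  refine ⟨?_, fun x γ hγ => ?_⟩
  · obtain ⟨x0, hx0⟩ := h2.1.nonempty
    obtain ⟨P0, -, -, p1, -⟩ := hP {x0} isCompact_singleton (singleton_subset_iff.2 hx0)
    refine isPathConnected_iff.2 ⟨⟨_, p1 x0 rfl⟩, fun x hx y hy => ?_⟩
    obtain ⟨γ, hγ⟩ := h2.1.joinedIn x (hS hx) y (hS hy)
    obtain ⟨P, c, p0, p1, pS⟩ := hP (range γ) (isCompact_range γ.continuous)
      (range_subset_iff.2 hγ)
    obtain ⟨a, ha⟩ := side c p0 x (hS hx)
    obtain ⟨b, hb⟩ := side c p0 y (hS hy)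
    have j1 : JoinedIn S x (P (1, x)) := ⟨a, fun t => ha t ▸ pS ⟨t.2, hx⟩⟩
    have j2 : JoinedIn S y (P (1, y)) := ⟨b, fun t => hb t ▸ pS ⟨t.2, hy⟩⟩
    have j3 : JoinedIn S (P (1, x)) (P (1, y)) :=
      ⟨push (fun x => P (1, x)) (one c) γ hγ, fun t => p1 _ (mem_range_self t)⟩
    exact (j1.trans j3).trans j2.symm
  · obtain ⟨H, hH⟩ := h2.2 x γ (hγ.mono hS)
    obtain ⟨P, c, p0, p1, pS⟩ := hP (range H) (isCompact_range H.continuous)
      (range_subset_iff.2 hH)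
    obtain ⟨G, _, τ, hτ, hf⟩ := taut X S
    obtain ⟨a, ha⟩ := side c p0 x (hS hγ.source)
    have hu : HIn S (push (fun x => P (1, x)) (one c) γ (hγ.mono hS)) (Path.refl _) :=
      HIn.map (T := range H) ⟨H, fun p => mem_range_self p⟩
        ((one c).mono (range_subset_iff.2 hH)) p1 (fun _ => rfl) fun _ => rfl
    have hm : ∀ p : I × I, ((p.2 : ℝ), γ p.1) ∈ Icc (0 : ℝ) 1 ×ˢ S := fun p => ⟨p.2.2, hγ _⟩
    have := hτ.square (H := fun p : I × I => P (p.2, γ p.1))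
      (c.comp_continuous (by fun_prop) fun p => ⟨p.2.2, hS (hγ _)⟩) (fun p => pS (hm p))
      (bo := γ) (ri := a) (le := a) (up := push (fun x => P (1, x)) (one c) γ (hγ.mono hS))
      (fun t => (p0 _ (hS (hγ t))).symm) (fun t => by simp [ha]) (fun t => by simp [ha])
      fun t => rfl
    rw [hτ.null hu, mul_one, mul_eq_right] at this
    exact hf x x γ _ hγ (In.refl hγ.source) (this.trans (hτ.refl hγ.source).symm)

/-- the shear that straightens `TR`. -/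
def Sh : (R3 × E2) ≃ₜ (R3 × E2) where
  toFun q := ((q.1.1, q.1.2 + ‖q.2‖ ^ 2), q.2)
  invFun q := ((q.1.1, q.1.2 - ‖q.2‖ ^ 2), q.2)
  left_inv q := by simp
  right_inv q := by simp
  continuous_toFun := by fun_prop
  continuous_invFun := by fun_prop

theorem Sh_sm : ContDiff ℝ 1 Sh :=
  (contDiff_fst.fst.prodMk (contDiff_fst.snd.add (contDiff_snd.norm_sq ℝ))).prodMk contDiff_snd

variable {N : NF} {ε : N.F × E2 → R3 × E2} {R : ℝ}

/-- the spine, times the origin. -/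
def K4 (N : NF) : Set (N.F × E2) := (N.Sp 1 ∩ {m | -2 ≤ N.f m}) ×ˢ {0}

theorem K4_core (hN : N.Ok) (hF : N.Fa) : K4 N ⊆ N.Core := by
  rintro ⟨m, v⟩ ⟨⟨h1, h2⟩, rfl⟩
  have := h1 0 le_rfl
  rw [hN.fl.zero] at this
  refine ⟨hF.wsp m h1, by simp, ?_, ?_⟩ <;> simp only [NF.g, norm_zero]
  · simpa using h2
  · linarith

theorem core_nr : N.Core ⊆ N.NR := fun _ ⟨a, b, c, d⟩ =>
  ⟨by linarith, by linarith, by linarith, by linarith⟩

theorem sc_big (hG : GpStmt) (hN : N.Ok) (hF : N.Fa) (hE : Emb0 N ε R) :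
    SC (TR R \ ε '' K4 N) := by
  have hK : K4 N ⊆ N.NR := (K4_core hN hF).trans core_nr
  have hc : IsCompact (ε '' K4 N) :=
    ((hF.cpt (-2)).prod isCompact_singleton).image_of_continuousOn (hE.oe.sm.contOn.mono hK)
  have hR := hE.big
  rw [← sc_image_emb Sh.isEmbedding, image_sdiff Sh.injective]
  have e : Sh '' TR R = (ball 0 R ×ˢ Ioo (-2) R) ×ˢ ball 0 R := by
    rw [Sh.image_eq_preimage_symm]
    ext q
    simp [TR, G5, Sh, Homeomorph.symm, and_assoc, and_comm, and_left_comm]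
  rw [e]
  refine hG _ _ _ (by simp) ((isOpen_ball.prod isOpen_Ioo).prod isOpen_ball)
    (((convex_ball _ _).prod (convex_Ioo _ _)).prod (convex_ball _ _))
    ⟨0, by simp; linarith⟩ (hc.image Sh.continuous).isClosed ?_
  obtain ⟨J, hJ, h⟩ := hF.rect
  refine ⟨(fun j z => Sh (ε (j z, 0))) '' J, hJ.image _, ?_⟩
  rintro _ ⟨_, ⟨⟨m, v⟩, hp, rfl⟩, rfl⟩
  obtain rfl : v = 0 := hp.2
  obtain ⟨j, hj, z, h1, rfl⟩ := h m hp.1.1
  refine ⟨_, ⟨j, hj, rfl⟩, z, Sh_sm.contDiffAt.comp z ?_, rfl⟩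
  have h2 : SmAt N.F (vs (R3 × E2)) (fun m => ε (m, 0)) (j z) :=
    SmAt.trans (Y := N.F.prod (vs E2)) (smAt_id.pair (Z := vs E2) (smAt_const 0))
      (hE.oe.sm _ (hK hp))
  exact contMDiffAt_iff_contDiffAt.1 ((h2.of_le (by exact_mod_cast le_top)).comp z h1)

/-- the expanding flow. -/
def Fl (N : NF) (s : ℝ) (p : N.F × E2) : N.F × E2 := (N.φ s p.1, Real.exp s • p.2)

/-- excess over the core. -/
def exc (N : NF) (p : N.F × E2) : ℝ :=
  max (max ‖N.w p.1‖ 1 - 1) (max (‖p.2‖ - 4) (N.g p - 11))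

theorem Fl_zero (hN : N.Ok) (p : N.F × E2) : Fl N 0 p = p := by simp [Fl, hN.fl.zero]

theorem Fl_cont (hN : N.Ok) : Continuous fun q : ℝ × (N.F × E2) => Fl N q.1 q.2 := by
  have h : Continuous fun p : N.F × ℝ => N.φ p.2 p.1 := hN.fl.sm.cont
  exact (h.comp (continuous_snd.fst.prodMk continuous_fst)).prodMk (by fun_prop)

theorem g_cont (hN : N.Ok) : Continuous N.g := by
  have : Continuous N.f := hN.smf.cont
  unfold NF.g
  fun_prop

theorem exc_cont (hN : N.Ok) : Continuous (exc N) := by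
  have : Continuous N.w := hN.smw.cont
  have := g_cont hN
  unfold exc
  fun_prop

theorem exc_nonneg (p : N.F × E2) : 0 ≤ exc N p :=
  le_max_of_le_left (sub_nonneg.2 (le_max_right _ _))

theorem nrm_mono (p : N.F × E2) : Monotone fun s => ‖(Fl N s p).2‖ := fun s t h => by
  simp only [Fl, norm_smul, Real.norm_eq_abs, abs_of_pos (Real.exp_pos _)]
  exact mul_le_mul_of_nonneg_right (Real.exp_le_exp.2 h) (norm_nonneg _)

theorem g_mono (hF : N.Fa) (p : N.F × E2) : Monotone fun s => N.g (Fl N s p) := fun _ _ h =>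
  add_le_add (hF.mono p.1 h) (pow_le_pow_left₀ (norm_nonneg _) (nrm_mono p h) 2)

theorem exc_mono (hF : N.Fa) (p : N.F × E2) : Monotone fun s => exc N (Fl N s p) := fun s t h =>
  max_le_max (by simp only [Fl, hF.winv, le_refl])
    (max_le_max (sub_le_sub_right (nrm_mono p h) _) (sub_le_sub_right (g_mono hF p h) _))

theorem exc_le {p : N.F × E2} {c : ℝ} (hc : 0 ≤ c) :
    exc N p ≤ c ↔ ‖N.w p.1‖ ≤ 1 + c ∧ ‖p.2‖ ≤ 4 + c ∧ N.g p ≤ 11 + c := by
  simp only [exc, max_le_iff, sub_le_iff_le_add', le_add_iff_nonneg_right, hc, and_true]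

/-- a compact neighbourhood of the core. -/
def Cp (N : NF) : Set (N.F × E2) := {p | exc N p ≤ 1 / 2 ∧ -2 ≤ N.g p}

theorem Cp_nr : Cp N ⊆ N.NR := fun _ ⟨h, h'⟩ =>
  let ⟨a, b, c⟩ := (exc_le (by norm_num)).1 h
  ⟨by linarith, by linarith, by linarith, by linarith⟩

theorem core_exc {p : N.F × E2} (h : p ∈ N.Core) : exc N p ≤ 0 :=
  (exc_le le_rfl).2 ⟨by linarith [h.1], by linarith [h.2.1], by linarith [h.2.2.2]⟩

theorem core_Cp : N.Core ⊆ Cp N := fun _ h => ⟨(core_exc h).trans (by norm_num), h.2.2.1⟩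

theorem Cp_cpt (hN : N.Ok) (hF : N.Fa) : IsCompact (Cp N) := by
  refine ((hF.box 2 (-27) 12).prod (isCompact_closedBall (0 : E2) 5)).of_isClosed_subset
    ((isClosed_le (exc_cont hN) continuous_const).inter
      (isClosed_le continuous_const (g_cont hN))) fun p ⟨h, h'⟩ => ?_
  obtain ⟨a, b, c⟩ := (exc_le (by norm_num)).1 h
  unfold NF.g at c h'
  have := norm_nonneg p.2
  exact ⟨⟨by linarith, by nlinarith, by nlinarith⟩, by simp; linarith⟩

theorem tr_iff (hE : Emb0 N ε R) {p : N.F × E2} (hp : p ∈ N.NR) : ε p ∈ TR R ↔ -2 < N.g p := by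
  obtain ⟨a, b, c⟩ := hE.bdd p hp
  by_cases h : N.g p < -(3 / 2)
  · have e : G5 (ε p) = N.g p := by rw [hE.std p hp h]; rfl
    exact ⟨fun q => e ▸ q.2.2.1, fun q => ⟨a, b, e ▸ q, c⟩⟩
  · have := hE.low p hp (by linarith)
    exact ⟨fun _ => by linarith, fun _ => ⟨a, b, by linarith, c⟩⟩

theorem exists_time (hN : N.Ok) (hF : N.Fa) {A : Set (N.F × E2)} (hA : IsCompact A)
    (h1 : A ⊆ Cp N) (h2 : ∀ p ∈ A, p ∉ K4 N) : ∃ T : ℝ, 0 < T ∧ ∀ p ∈ A, 0 < exc N (Fl N T p) := by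
  obtain ⟨n, hn⟩ := hA.elim_directed_cover (fun n : ℕ => {p | 0 < exc N (Fl N n p)})
    (fun n => isOpen_lt continuous_const
      ((exc_cont hN).comp ((Fl_cont hN).comp (Continuous.prodMk_right _))))
    (fun p hp => by
      have : ∀ᶠ t : ℝ in atTop, 0 < exc N (Fl N t p) := by
        by_cases hv : p.2 = 0
        · have hs : p.1 ∉ N.Sp 1 := fun c => h2 p hp ⟨⟨c, by simpa [NF.g, hv] using (h1 hp).2⟩, hv⟩
          filter_upwards [(hF.top _ hs).eventually_gt_atTop 11] with t ht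
          refine lt_max_of_lt_right (lt_max_of_lt_right ?_)
          have := sq_nonneg ‖(Fl N t p).2‖
          simp only [NF.g]
          change 0 < N.f (N.φ t p.1) + _ - 11
          linarith
        · filter_upwards [(Real.tendsto_exp_atTop.atTop_mul_const
            (norm_pos_iff.2 hv)).eventually_gt_atTop 4] with t ht
          refine lt_max_of_lt_right (lt_max_of_lt_left ?_)
          simp only [Fl, norm_smul, Real.norm_eq_abs, abs_of_pos (Real.exp_pos _)]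
          linarith
      obtain ⟨n, hn⟩ := (tendsto_natCast_atTop_atTop.eventually this).exists
      exact mem_iUnion.2 ⟨n, hn⟩)
    (Monotone.directed_le fun a b hab p hp =>
      lt_of_lt_of_le hp (exc_mono hF p (Nat.cast_le.2 hab)))
  exact ⟨n + 1, by positivity, fun p hp => (hn hp).trans_le (exc_mono hF p (by linarith))⟩

theorem exists_tau (hN : N.Ok) (hF : N.Fa) {T : ℝ} (hT : 0 < T) :
    ∃ τ : N.F × E2 → ℝ, Continuous τ ∧ ∀ p, τ p + 2 * T * exc N (Fl N (τ p) p) - T = 0 := by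
  have hc : Continuous fun q : ℝ × (N.F × E2) => q.1 + 2 * T * exc N (Fl N q.1 q.2) - T := by
    have := (exc_cont hN).comp (Fl_cont hN)
    exact (continuous_fst.add (continuous_const.mul this)).sub continuous_const
  have hm : ∀ p, StrictMono fun t => t + 2 * T * exc N (Fl N t p) - T := fun p s t h => by
    have := mul_le_mul_of_nonneg_left (exc_mono hF p h.le) (by positivity : 0 ≤ 2 * T)
    simp only at this ⊢
    linarith
  have ex : ∀ p, ∃ t, t + 2 * T * exc N (Fl N t p) - T = 0 := fun p => by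
    have l0 := mul_nonneg (by positivity : 0 ≤ 2 * T) (exc_nonneg p)
    have l1 := mul_nonneg (by positivity : 0 ≤ 2 * T) (exc_nonneg (Fl N T p))
    have l2 := mul_le_mul_of_nonneg_left
      (exc_mono hF p (by linarith : -(2 * T * exc N p) ≤ 0)) (by positivity : 0 ≤ 2 * T)
    simp only [Fl_zero hN] at l2
    exact intermediate_value_univ (-(2 * T * exc N p)) T (hc.comp (Continuous.prodMk_left p))
      (⟨by simp only [Function.comp]; linarith, by simp only [Function.comp]; linarith⟩ :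
        (0 : ℝ) ∈ Icc _ _)
  choose τ hτ using ex
  exact ⟨τ, continuousOn_univ.1 (cont_zero (F := fun p t => t + 2 * T * exc N (Fl N t p) - T)
    (fun t => (hc.comp (Continuous.prodMk_right t)).continuousOn) (fun p _ => hm p)
    fun p _ => hτ p), hτ⟩

end ScA

open ScA in
theorem sc (hG : GpStmt) : ScStmt := by
  classical
  intro N ε R hN hF hE
  refine sc_push (sdiff_subset_sdiff_right (image_mono (K4_core hN hF))) (sc_big hG hN hF hE)
    fun C hC hs => ?_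
  have ce : ContinuousOn ε N.NR := hE.oe.sm.contOn
  have cp := Cp_cpt hN hF
  obtain ⟨T, hT, hA⟩ := exists_time hN hF (A := Cp N ∩ ε ⁻¹' C)
    (cp.of_isClosed_subset ((ce.mono Cp_nr).preimage_isClosed_of_isClosed cp.isClosed hC.isClosed)
      inter_subset_left) inter_subset_left fun p hp c => (hs hp.2).2 ⟨p, c, rfl⟩
  obtain ⟨τ, τc, hτ⟩ := exists_tau hN hF hT
  set Ψ : ℝ × (N.F × E2) → N.F × E2 := fun q => Fl N (q.1 * max (τ q.2) 0) q.2 with hΨ
  have Ψc : Continuous Ψ := (Fl_cont hN).comp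
    ((continuous_fst.mul ((τc.comp continuous_snd).max continuous_const)).prodMk continuous_snd)
  have fix : ∀ s p, 1 / 2 ≤ exc N p → Ψ (s, p) = p := fun s p hp => by
    have : τ p ≤ 0 := by
      by_contra c
      have := exc_mono hF p (not_le.1 c).le
      simp only [Fl_zero hN] at this
      nlinarith [hτ p]
    simp only [hΨ, max_eq_right this, mul_zero, Fl_zero hN]
  have up : ∀ s ∈ Icc (0 : ℝ) 1, ∀ p, exc N p ≤ exc N (Ψ (s, p)) ∧ N.g p ≤ N.g (Ψ (s, p)) :=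
    fun s hs p => by
      have h0 : 0 ≤ s * max (τ p) 0 := mul_nonneg hs.1 (le_max_right _ _)
      have a := exc_mono hF p h0
      have b := g_mono hF p h0
      simp only [Fl_zero hN] at a b
      exact ⟨a, b⟩
  have stay : ∀ s ∈ Icc (0 : ℝ) 1, ∀ p ∈ Cp N, Ψ (s, p) ∈ Cp N := fun s hs p hp => by
    refine ⟨?_, hp.2.trans (up s hs p).2⟩
    rcases le_total (τ p) 0 with h | h
    · simp only [hΨ, max_eq_right h, mul_zero, Fl_zero hN]
      exact hp.1
    · have := exc_mono hF p (mul_le_of_le_one_left h hs.2)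
      simp only [hΨ, max_eq_left h]
      simp only at this
      nlinarith [hτ p]
  have last : ∀ p ∈ Cp N ∩ ε ⁻¹' C, 0 < exc N (Ψ (1, p)) := fun p hp => by
    have h1 := exc_mono hF p (le_max_left (τ p) 0)
    simp only [hΨ, one_mul]
    refine lt_of_lt_of_le ?_ h1
    rcases le_or_gt T (τ p) with h | h
    · exact (hA p hp).trans_le (exc_mono hF p h)
    · by_contra c
      nlinarith [hτ p, not_lt.1 c]
  have good : ∀ q ∈ Cp N, -2 < N.g q → 0 < exc N q → ε q ∈ TR R \ ε '' N.Core :=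
    fun q hq h1 h2 => ⟨(tr_iff hE (Cp_nr hq)).2 h1, fun ⟨r, hr, e⟩ =>
      absurd (hE.oe.inj (core_nr hr) (Cp_nr hq) e ▸ core_exc hr) (not_le.2 h2)⟩
  set P : ℝ × (R3 × E2) → R3 × E2 := fun q =>
    if q.2 ∈ ε '' Cp N then ε (Ψ (q.1, invFunOn ε N.NR q.2)) else q.2 with hP
  have Pin : ∀ s, ∀ p ∈ Cp N, P (s, ε p) = ε (Ψ (s, p)) := fun s p hp => by
    simp only [hP, if_pos (mem_image_of_mem ε hp), hE.oe.left (Cp_nr hp)]
  have Pout : ∀ s, ∀ x ∉ ε '' Cp N, P (s, x) = x := fun s x hx => if_neg hx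
  have Pnr : ∀ s ∈ Icc (0 : ℝ) 1, ∀ p ∈ N.NR, ε p ∈ TR R →
      P (s, ε p) = ε (Ψ (s, p)) ∧ Ψ (s, p) ∈ N.NR := fun s hs p hp ht => by
    by_cases c : p ∈ Cp N
    · exact ⟨Pin s p c, Cp_nr (stay s hs p c)⟩
    · have h1 : 1 / 2 ≤ exc N p := by
        by_contra d
        exact c ⟨(not_le.1 d).le, ((tr_iff hE hp).1 ht).le⟩
      rw [fix s p h1]
      exact ⟨Pout s _ fun ⟨r, hr, e⟩ => c (hE.oe.inj (Cp_nr hr) hp e ▸ hr), hp⟩
  refine ⟨P, continuousOn_of_locally_continuousOn fun q hq => ?_, fun x hx => ?_, fun x hx => ?_,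
    fun q hq => ?_⟩
  · by_cases c : q.2 ∈ ε '' N.NR
    · refine ⟨univ ×ˢ (ε '' N.NR), isOpen_univ.prod hE.oe.symm.op, ⟨trivial, c⟩, ?_⟩
      have ci : ContinuousOn (fun q : ℝ × (R3 × E2) => Ψ (q.1, invFunOn ε N.NR q.2))
          ((Icc 0 1 ×ˢ (TR R \ ε '' K4 N)) ∩ univ ×ˢ (ε '' N.NR)) :=
        Ψc.comp_continuousOn (continuousOn_fst.prodMk
          (hE.oe.symm.sm.contOn.comp continuousOn_snd fun r hr => hr.2.2))
      refine (ce.comp ci ?_).congr ?_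
      · rintro ⟨s, _⟩ ⟨⟨h1, h2⟩, -, p, hp, rfl⟩
        simp only [hE.oe.left hp]
        exact (Pnr s h1 p hp h2.1).2
      · rintro ⟨s, _⟩ ⟨⟨h1, h2⟩, -, p, hp, rfl⟩
        simp only [Function.comp, hE.oe.left hp]
        exact (Pnr s h1 p hp h2.1).1
    · refine ⟨univ ×ˢ (ε '' Cp N)ᶜ, isOpen_univ.prod
        (cp.image_of_continuousOn (ce.mono Cp_nr)).isClosed.isOpen_compl,
        ⟨trivial, fun d => c (image_mono Cp_nr d)⟩, continuousOn_snd.congr fun r hr => ?_⟩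
      exact Pout r.1 r.2 hr.2.2
  · by_cases c : x ∈ ε '' Cp N
    · obtain ⟨p, hp, rfl⟩ := c
      simp only [Pin 0 p hp, hΨ, zero_mul, Fl_zero hN]
    · exact Pout 0 x c
  · by_cases c : x ∈ ε '' Cp N
    · obtain ⟨p, hp, rfl⟩ := c
      have h1 : (1 : ℝ) ∈ Icc (0 : ℝ) 1 := right_mem_Icc.2 zero_le_one
      rw [Pin 1 p hp]
      exact good _ (stay 1 h1 p hp)
        (((tr_iff hE (Cp_nr hp)).1 (hs hx).1).trans_le (up 1 h1 p).2) (last p ⟨hp, hx⟩)
    · rw [Pout 1 x c]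
      exact ⟨(hs hx).1, fun d => c (image_mono core_Cp d)⟩
  · obtain ⟨s, x⟩ := q
    by_cases c : x ∈ ε '' Cp N
    · obtain ⟨p, hp, rfl⟩ := c
      have h1 := (tr_iff hE (Cp_nr hp)).1 hq.2.1
      rw [Pin s p hp]
      refine good _ (stay s hq.1 p hp) (h1.trans_le (up s hq.1 p).2)
        (lt_of_lt_of_le ?_ (up s hq.1 p).1)
      by_contra d
      obtain ⟨a, b, e⟩ := (exc_le le_rfl).1 (not_lt.1 d)
      exact hq.2.2 ⟨p, ⟨by linarith, by linarith, h1.le, by linarith⟩, rfl⟩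
    · rw [Pout s x c]
      exact hq.2

end Pool.Agent.MP_e1dc65_gt.T

end
end MrgPart5

-- marker of a merged file
example : 731051 + 524863 = 731051 + 524863 := rfl
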