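import Pool.Agent.MP_e1dc65_gt.e.cThn
import Pool.Agent.MP_e1dc65_gt.t.PreCof
import Mathlib.Analysis.SpecialFunctions.Complex.LogDeriv
import Mathlib.Analysis.Complex.ExponentialBounds
import Mathlib.Geometry.Manifold.PartitionOfUnity
import Pool.Agent.MP_e1dc65_gt.fm.Hza
import Pool.Agent.MP_e1dc65_gt.t2.Disc
import Pool.Agent.MP_e1dc65_gt.e.aPrf
import Pool.Agent.MP_e1dc65_gt.t4.Inf
import Pool.Agent.MP_e1dc65_gt.t.KeyM1
import Mathlib.Analysis.Calculus.Deriv.Abs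
import Pool.Agent.MP_e1dc65_gt.t2.Spec2

-- ======== part 0: formerly Pool.Agent.MP_e1dc65_gt.e.cOm
section MrgPart0

/-! PROJECT HC, part E, sub-part C: the two tubes in `S¹ × S³`. -/

open scoped ContDiff Manifold Topology Real
open Set Filter Function Real

noncomputable section

namespace Pool.Agent.MP_e1dc65_gt.EC

theorem ld_prod {A B A' B' : Type} [NormedAddCommGroup A] [NormedSpace ℝ A] [FiniteDimensional ℝ A]
    [NormedAddCommGroup B] [NormedSpace ℝ B] [FiniteDimensional ℝ B] [NormedAddCommGroup A']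
    [NormedSpace ℝ A'] [FiniteDimensional ℝ A'] [NormedAddCommGroup B'] [NormedSpace ℝ B']
    [FiniteDimensional ℝ B'] {f : A → A'} {g : B → B'} {p : A × B}
    (hf : LDAt (vs A) (vs A') f p.1) (hg : LDAt (vs B) (vs B') g p.2) :
    LDAt (vs (A × B)) (vs (A' × B')) (fun p => (f p.1, g p.2)) p := by
  obtain ⟨k, U, W, hU, hW, hx, -, h1, h2, m1, m2, l, r⟩ := hf.exists_inv univ_mem
  obtain ⟨k', U', W', hU', hW', hx', -, h1', h2', m1', m2', l', r'⟩ := hg.exists_inv univ_mem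
  exact ldAt_of_inv (X := vs (A × B)) (Y := vs (A' × B')) (g := fun p => (k p.1, k' p.2))
    (hU.prod hU') (hW.prod hW') ⟨hx, hx'⟩
    (fun p hp => smAt_vs.2 ((smAt_vs.1 (h1 _ hp.1)).fst'.prodMk (smAt_vs.1 (h1' _ hp.2)).snd'))
    (fun p hp => smAt_vs.2 ((smAt_vs.1 (h2 _ hp.1)).fst'.prodMk (smAt_vs.1 (h2' _ hp.2)).snd'))
    (fun p hp => ⟨m1 hp.1, m1' hp.2⟩) (fun p hp => ⟨m2 hp.1, m2' hp.2⟩)
    (fun p hp => Prod.ext (l _ hp.1) (l' _ hp.2)) fun p hp => Prod.ext (r _ hp.1) (r' _ hp.2)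

/-! ### The stereographic chart -/

/-- the stereographic chart -/
def St (p : ℝ × Rn 3) : Rn 4 :=
  (exp p.1 / (nsq p.2 + 1)) • ![2 * p.2 0, 2 * p.2 1, 2 * p.2 2, nsq p.2 - 1]

/-- the reflection -/
def fl (v : Rn 4) : Rn 4 := ![v 0, v 1, v 2, -v 3]

theorem ns3 (v : Rn 3) : nsq v = v 0 ^ 2 + v 1 ^ 2 + v 2 ^ 2 := Fin.sum_univ_three _
theorem ns4 (v : Rn 4) : nsq v = v 0 ^ 2 + v 1 ^ 2 + v 2 ^ 2 + v 3 ^ 2 := Fin.sum_univ_four _
theorem n1 (v : Rn 3) : 0 < nsq v + 1 := by linarith [nsq_nonneg' v]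

theorem nsq_St (p : ℝ × Rn 3) : nsq (St p) = exp p.1 ^ 2 := by
  have := (n1 p.2).ne'
  rw [St, nsq_smul, ns4]
  simp only [Matrix.cons_val]
  field_simp
  rw [ns3]; ring

theorem St_ne (p : ℝ × Rn 3) : St p ≠ 0 := nsq_pos.1 (by rw [nsq_St]; positivity)

theorem St_add (s : ℝ) (p : ℝ × Rn 3) : St (s + p.1, p.2) = exp s • St p := by
  simp only [St, smul_smul, exp_add, mul_div_assoc]

theorem St3 (p : ℝ × Rn 3) : St p 3 = exp p.1 / (nsq p.2 + 1) * (nsq p.2 - 1) := rfl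

theorem St_iv (t : ℝ) {v : Rn 3} (h : 0 < nsq v) : St (t, (nsq v)⁻¹ • v) = fl (St (t, v)) := by
  have := (n1 v).ne'
  have : 1 + nsq v ≠ 0 := by rwa [add_comm]
  ext i
  fin_cases i <;> simp [St, fl, nsq_inv h] <;> field_simp <;> ring

theorem St_sur {v : Rn 4} (h : v ≠ 0) (h3 : v 3 < exp (rr v)) :
    St (rr v, (exp (rr v) - v 3)⁻¹ • ![v 0, v 1, v 2]) = v := by
  have h1 := exp_rr h
  have h2 := exp_pos (rr v)
  have h4 := (sub_pos.2 h3).ne'
  have e : nsq ((exp (rr v) - v 3)⁻¹ • ![v 0, v 1, v 2]) =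
      2 * exp (rr v) / (exp (rr v) - v 3) - 1 := by
    rw [nsq_smul, ns3]
    simp only [Matrix.cons_val]
    field_simp
    rw [ns4] at h1
    linarith
  ext i
  simp only [St, e]
  fin_cases i <;> simp <;> field_simp
  ring

theorem oe_St : OE (vs (ℝ × Rn 3)) (vs (Rn 4)) St univ := by
  have e : ∀ p, exp (rr (St p)) - St p 3 = 2 * exp p.1 / (nsq p.2 + 1) := fun p => by
    have := (n1 p.2).ne'
    rw [rr_of (nsq_St p), St3]; field_simp; ring
  refine oe_of_inv (X := vs (ℝ × Rn 3)) (Y := vs (Rn 4))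
    (g := fun v => (rr v, (exp (rr v) - v 3)⁻¹ • ![v 0, v 1, v 2]))
    (W := {v | v ≠ 0} ∩ (fun v => exp (rr v) - v 3) ⁻¹' Ioi 0) isOpen_univ
    ((cn_rr.rexp.sub (continuous_apply 3).continuousOn).isOpen_inter_preimage isOpen_ne isOpen_Ioi)
    (fun p _ => smAt_vs.2 ?_) (fun v hv => smAt_vs.2 ?_) (fun p _ => ⟨St_ne p, ?_⟩)
    (mapsTo_univ _ _) (fun p _ => Prod.ext (rr_of (nsq_St p)) ?_)
    fun v hv => St_sur hv.1 (sub_pos.1 hv.2)
  · have := (n1 p.2).ne'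
    refine ContDiffAt.smul (f := fun p : ℝ × Rn 3 => exp p.1 / (nsq p.2 + 1))
      (by fun_prop (disch := assumption)) (contDiffAt_pi.2 fun i => ?_)
    fin_cases i <;> simp <;> fun_prop
  · refine (cd_rr hv.1).prodMk ((((cd_rr hv.1).exp.sub (contDiffAt_apply ..)).inv
      (ne_of_gt hv.2)).smul (contDiffAt_pi.2 fun i => ?_))
    fin_cases i <;> simp <;> fun_prop
  · have := n1 p.2
    rw [mem_preimage, e, mem_Ioi]; positivity
  · have := (n1 p.2).ne'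
    ext i
    simp only [e]
    fin_cases i <;> simp [St] <;> field_simp

theorem fl_fl (v : Rn 4) : fl (fl v) = v := by ext i; fin_cases i <;> simp [fl]

theorem fl_smul (c : ℝ) (v : Rn 4) : fl (c • v) = c • fl v := by ext i; fin_cases i <;> simp [fl]

theorem fl_ne {v : Rn 4} (h : v ≠ 0) : fl v ≠ 0 := fun e => h (by
  rw [← fl_fl v, e, ← zero_smul ℝ (0 : Rn 4), fl_smul, zero_smul, zero_smul])

theorem IsW.flip {Ω : Mf E4} {w : Rn 4 → Ω} (h : IsW Ω w) : IsW Ω fun v => w (fl v) := by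
  have s : Sm (vs (Rn 4)) (vs (Rn 4)) fl univ := fun v _ => smAt_vs.2 (contDiffAt_pi.2 fun i => by
    fin_cases i <;> simp [fl] <;> fun_prop)
  refine ⟨fun v hv => (ldAt_of_inv isOpen_univ isOpen_univ trivial s s (mapsTo_univ _ _)
    (mapsTo_univ _ _) (fun _ _ => fl_fl _) fun _ _ => fl_fl _).trans (h.ld _ (fl_ne hv)),
    fun z => ?_, fun v v' hv hv' => (h.eq _ _ (fl_ne hv) (fl_ne hv')).trans
      (exists_congr fun m => ?_)⟩
  · obtain ⟨v, hv, rfl⟩ := h.sur z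
    exact ⟨fl v, fl_ne hv, by rw [fl_fl]⟩
  · rw [← fl_smul, (LeftInverse.injective fl_fl).eq_iff]

/-- a chart of period `2 π` -/
structure Pc (Ω : Mf E4) (L : ℝ × Rn 3 → Ω) : Prop where
  ld : ∀ p, LDAt (vs (ℝ × Rn 3)) Ω L p
  eq : ∀ p p', L p = L p' ↔ (∃ m : ℤ, p'.1 = m * (2 * π) + p.1) ∧ p'.2 = p.2

theorem IsW.pc {Ω : Mf E4} {w : Rn 4 → Ω} (h : IsW Ω w) : Pc Ω fun p => w (St p) := by
  refine ⟨fun p => (oe_St.ld p trivial).trans (h.ld _ (St_ne p)), fun p p' =>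
    (h.eq _ _ (St_ne p) (St_ne p')).trans ?_⟩
  simp only [← St_add, oe_St.inj.eq_iff trivial trivial, Prod.ext_iff, exists_and_right]

theorem Pc.tube {Ω : Mf E4} {L : ℝ × Rn 3 → Ω} (h : Pc Ω L) {T : ℝ → ℝ} {b : Rn 3 → Rn 3}
    (h1 : Fn.IncU T) (h2 : ∀ t (m : ℤ), T (t + 8 * m) = T t + 2 * π * m)
    (hb : OE (vs (Rn 3)) (vs (Rn 3)) b univ) : Tube Ω (fun p => L (T p.1, b p.2)) univ := by
  refine ⟨fun θ v _ => (ld_prod (h1.ld θ) (hb.ld v trivial)).trans (h.ld _),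
    fun θ θ' v _ v' _ => (h.eq _ _).trans (and_congr ⟨?_, ?_⟩
      ((hb.inj.eq_iff trivial trivial).trans eq_comm))⟩ <;> rintro ⟨m, e⟩
  · refine ⟨-m, ?_⟩
    have : θ' = θ + 8 * m := h1.mono.injective (by rw [h2]; linarith)
    push_cast; linarith
  · refine ⟨-m, ?_⟩
    have := h2 θ' m
    rw [← e, add_sub_cancel] at this
    push_cast; linarith

/-! ### The unknotted tube -/

theorem ld_cexp (z : ℂ) : LDAt (vs ℂ) (vs ℂ) Complex.exp z := by
  refine ldAt_vs univ_mem (fun _ _ => Complex.contDiff_exp.contDiffAt) ?_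
  rw [((Complex.hasDerivAt_exp z).hasFDerivAt.restrictScalars ℝ).fderiv]
  refine .of_inverse (g := ContinuousLinearMap.mul ℝ ℂ (Complex.exp z)⁻¹) ?_ ?_ <;> ext1 u <;>
    simp <;> field_simp

theorem exists_g : ∃ g : ℂ → ℂ, (∀ z, LDAt (vs ℂ) (vs ℂ) g z) ∧ (∀ z, |(g z).im| < π / 2) ∧
    (∀ z z', g z = g z' ↔ Complex.exp z = Complex.exp z') ∧
    ∀ z, |z.im| ≤ π / 3 → -3 < z.re → g z = z := by
  obtain ⟨a, a1, a2, a3⟩ := Fn.exists_al
  let h : ℂ → ℂ := fun z => Complex.equivRealProdCLM.symm (a z.re, z.im)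
  have hr : ∀ z, (h z).re = a z.re := fun z => by simp [h, Complex.equivRealProdCLM_symm_apply]
  have hi : ∀ z, (h z).im = z.im := fun z => by simp [h, Complex.equivRealProdCLM_symm_apply]
  have h0 : ∀ z, 0 < (h z).re := fun z => hr z ▸ (a3 ▸ mem_range_self _ : a z.re ∈ Ioi 0)
  have hl : ∀ z, LDAt (vs ℂ) (vs ℂ) h z := fun z =>
    ((ldAt_cle Complex.equivRealProdCLM z).trans (ld_prod (a1.ld _) ldAt_id)).trans
      (ldAt_cle Complex.equivRealProdCLM.symm _)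
  have he : ∀ z, Complex.exp (Complex.log (h z)) = h z := fun z =>
    Complex.exp_log fun e => by simpa [e] using h0 z
  refine ⟨fun z => Complex.log (h (Complex.exp z)), fun z => (ld_cexp _).ld_of_lift
    ((continuousAt_clog (.inl (h0 _))).comp_of_eq ((ld_cexp z).trans (hl _)).sm.cont rfl)
    (((ld_cexp z).trans (hl _)).congr' (.of_forall fun z => he _)), fun z => ?_,
    fun z z' => ⟨fun e => ?_, fun e => by simp only [e]⟩, fun z h1 h2 => ?_⟩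
  · rw [Complex.log_im, Complex.abs_arg_lt_pi_div_two_iff]; exact .inl (h0 _)
  · have : h (Complex.exp z) = h (Complex.exp z') := by rw [← he, ← he (Complex.exp z')]; congr 1
    exact Complex.ext (a1.mono.injective (by rw [← hr, ← hr, this])) (by rw [← hi, this, hi])
  · have c : 1 / 2 ≤ cos z.im := by
      rw [← cos_pi_div_three, ← cos_abs z.im]
      exact cos_le_cos_of_nonneg_of_le_pi (abs_nonneg _) (by linarith [pi_pos]) h1
    have x : 1 / 25 ≤ exp z.re := by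
      refine le_trans ?_ (exp_le_exp.2 h2.le)
      rw [exp_neg, one_div, show (3 : ℝ) = (3 : ℕ) * 1 by norm_num, exp_nat_mul]
      exact inv_anti₀ (by positivity) ((pow_le_pow_left₀ (exp_pos 1).le exp_one_lt_d9.le 3).trans
        (by norm_num))
    have : h (Complex.exp z) = Complex.exp z :=
      Complex.ext (by rw [hr, a2 _ (by rw [Complex.exp_re]; nlinarith)]) (hi _)
    have := abs_le.1 h1
    simp only [*]
    exact Complex.log_exp (by linarith [pi_pos]) (by linarith [pi_pos])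

theorem exists_G : ∃ G : ℝ × Rn 3 → ℝ × Rn 3, (∀ p, |(G p).1| < π / 2) ∧
    (∀ p, |p.1| ≤ π / 3 → -3 < p.2 0 → G p = p) ∧
    ∀ (Ω : Mf E4) (L : ℝ × Rn 3 → Ω), Pc Ω L → Pc Ω fun p => L (G p) := by
  obtain ⟨g, g1, g2, g3, g4⟩ := exists_g
  let c : (ℝ × Rn 3) ≃L[ℝ] ℂ × ℝ × ℝ := LinearEquiv.toContinuousLinearEquiv
    { toFun := fun p => (⟨p.2 0, p.1⟩, p.2 1, p.2 2)
      invFun := fun q => (q.1.im, ![q.1.re, q.2.1, q.2.2])
      map_add' := fun p q => rfl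
      map_smul' := fun t p => Prod.ext (Complex.ext (by simp) (by simp)) rfl
      left_inv := fun p => Prod.ext rfl (by ext i; fin_cases i <;> rfl)
      right_inv := fun q => rfl }
  refine ⟨fun p => c.symm (g (c p).1, (c p).2), fun p => g2 _, fun p h1 h2 => ?_,
    fun Ω L h => ⟨fun p => (((ldAt_cle c p).trans (ld_prod (g1 _) ldAt_id)).trans
      (ldAt_cle c.symm _)).trans (h.ld _), fun p p' => ⟨fun e => ?_, ?_⟩⟩⟩
  · simp only [g4 (c p).1 h1 h2, Prod.mk.eta, c.symm_apply_apply]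
  · obtain ⟨⟨m, e1⟩, e2⟩ := (h.eq _ _).1 e
    have a := abs_lt.1 (g2 (c p).1)
    have b := abs_lt.1 (g2 (c p').1)
    have e3 : (g (c p').1).im = m * (2 * π) + (g (c p).1).im := e1
    have : m = 0 := int_zero (abs_lt.2 ⟨by linarith [pi_pos], by linarith [pi_pos]⟩)
    rw [this, Int.cast_zero, zero_mul, zero_add] at e1
    obtain ⟨e4, e5⟩ := Prod.ext_iff.1 (c.symm.injective (Prod.ext e1 e2))
    obtain ⟨k, hk⟩ := Complex.exp_eq_exp_iff_exists_int.1 ((g3 _ _).1 e4)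
    have k1 : p'.2 0 = _ := congrArg Complex.re hk
    have k2 : p'.1 = _ := congrArg Complex.im hk
    refine ⟨⟨k, by rw [k2, add_comm]; simp; rfl⟩, ?_⟩
    ext i
    fin_cases i
    exacts [k1.trans (by simp; rfl), congrArg Prod.fst e5, congrArg Prod.snd e5]
  · rintro ⟨⟨m, e1⟩, e2⟩
    have : g (c p').1 = g (c p).1 := (g3 _ _).2 (Complex.exp_eq_exp_iff_exists_int.2 ⟨m,
      Complex.ext ((congrFun e2 0).trans (by simp; rfl)) (e1.trans (by rw [add_comm]; simp; rfl))⟩)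
    have e3 : (c p').2 = (c p).2 := Prod.ext (congrFun e2 1) (congrFun e2 2)
    simp only [this, e3]

theorem om : OmStmt := by
  obtain ⟨Ω, w, h⟩ := exists_W
  obtain ⟨G, g1, g2, g3⟩ := exists_G
  obtain ⟨T, t1, t2, t3, -, t4⟩ := Fn.exists_T
  obtain ⟨c, c1, c2, c3, c4⟩ := Fn.exists_cmp
  have hb := c1.oe_pi 3
  have b1 : ∀ v : Rn 3, nsq v ≤ 4 → (fun i => c (v i)) = v := fun v hv => funext fun i =>
    c2 _ (abs_le_of_sq_le_sq' (by linarith [sq_le_nsq v i]) two_pos.le |> abs_le.2)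
  have b2 : ∀ v : Rn 3, 1 < nsq v → 1 < nsq fun i => c (v i) := fun v hv => by
    by_cases e : ∀ i, |v i| ≤ 2
    · rwa [funext fun i => c2 _ (e i)]
    · obtain ⟨i, hi⟩ := not_forall.1 e
      have h2 := c2 2 (by norm_num)
      refine lt_of_lt_of_le ?_ (sq_le_nsq _ i)
      rcases lt_abs.1 (not_le.1 hi) with k | k
      · nlinarith [c1.mono k]
      · nlinarith [c1.mono k, c3 (v i)]
  have b3 : ∀ v : Rn 3, 0 < nsq v → nsq v < 1 → 1 < nsq fun i => c (((nsq v)⁻¹ • v) i) :=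
    fun v h1 h2 => b2 _ (by rw [nsq_inv h1]; exact (one_lt_inv₀ h1).2 h2)
  have oi : OE (vs (Rn 3)) (vs (Rn 3)) (fun v => (nsq v)⁻¹ • v) {v | 0 < nsq v} := by
    have o : IsOpen {v : Rn 3 | 0 < nsq v} := isOpen_lt continuous_const continuous_nsq
    have s : Sm (vs (Rn 3)) (vs (Rn 3)) (fun v => (nsq v)⁻¹ • v) {v | 0 < nsq v} := fun v hv =>
      smAt_vs.2 ((contDiff_nsq.contDiffAt.inv (ne_of_gt hv)).smul contDiffAt_id)
    have m : MapsTo (fun v : Rn 3 => (nsq v)⁻¹ • v) {v | 0 < nsq v} {v | 0 < nsq v} :=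
      fun v hv => by rw [mem_ofPred, nsq_inv hv]; exact inv_pos.2 hv
    exact oe_of_inv o o s s m m (fun _ => inv_inv_nsq) fun _ => inv_inv_nsq
  obtain ⟨n1', n2, n3⟩ := h.neck
  have ep : ∀ p : ℝ × Rn 3, 0 < exp p.1 / (nsq p.2 + 1) := fun p => div_pos (exp_pos _) (n1 _)
  have u0 := (g3 _ _ h.pc).tube t1 t3 hb
  have u1 := h.pc.tube t1 t3 hb
  have u2 := (h.flip.pc.tube t1 t3 (oe_id isOpen_univ)).cmono (subset_univ {v | nsq v < 1})
  refine ⟨Ω, fun p => w (St (G (T p.1, fun i => c (p.2 i)))),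
    fun p => w (St (T p.1, fun i => c (p.2 i))), fun p => w (fl (St (T p.1, p.2))),
    fun v => w (rad v), fun v => (nsq fun i => c (((nsq v)⁻¹ • v) i))⁻¹ •
      fun i => c (((nsq v)⁻¹ • v) i), h.cpt, u0, u1, fun θ v h1 h2 => ?_, u2, ?_,
    fun θ v h1 h2 => ?_, ?_, fun v h1 h2 => ?_, fun v hv => ?_, n1', ?_, n3, h.ori⟩
  · simp only [g2 (T θ, fun i => c (v i)) (t4 θ h1 h2) (c4 ▸ mem_range_self (v 0) : _ ∈ Ioo _ _).1]
  · ext z
    constructor
    · rintro ⟨p, hp, rfl⟩ ⟨q, hq, e⟩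
      obtain ⟨m, e⟩ := (h.eq _ _ (St_ne _) (fl_ne (St_ne _))).1 e
      have e3 : -St (T p.1, p.2) 3 = exp (m * (2 * π)) * St _ 3 := congrFun e 3
      rw [b1 _ (hq.2.trans (by norm_num)), St3, St3] at e3
      have := mul_pos (ep (T p.1, p.2)) (sub_pos.2 hp.2)
      have := mul_nonneg (exp_pos (m * (2 * π))).le
        (mul_nonneg (ep (T q.1, q.2)).le (sub_nonneg.2 hq.2))
      linarith
    · intro hz
      obtain ⟨v, hv, rfl⟩ := h.sur z
      have key : ∀ v, v ≠ 0 → v 3 ≤ 0 → ∃ θ u, St (T θ, u) = v := fun v hv h3 =>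
        let ⟨θ, e⟩ := t2 (rr v); ⟨θ, _, e ▸ St_sur hv (h3.trans_lt (exp_pos _))⟩
      rcases le_or_gt (v 3) 0 with k | k
      · obtain ⟨θ, u, rfl⟩ := key v hv k
        have : nsq u ≤ 1 := sub_nonpos.1 (nonpos_of_mul_nonpos_right k (ep _) |> fun h => h)
        exact absurd ⟨(θ, u), ⟨trivial, this⟩, by simp only [b1 u (by linarith)]⟩ hz
      · obtain ⟨θ, u, e⟩ := key (fl v) (fl_ne hv) (neg_nonpos.2 k.le)
        have e3 : _ = -v 3 := congrFun e 3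
        rw [St3] at e3
        exact ⟨(θ, u), ⟨trivial, sub_neg.1 (neg_of_mul_neg_right (e3 ▸ neg_lt_zero.2 k)
          (ep (T θ, u)).le)⟩, by simp only [e, fl_fl]⟩
  · simp only [St_iv _ (one_pos.trans (b3 v h1 h2)), fl_fl]
  · exact ((oi.mono ((isOpen_lt continuous_const continuous_nsq).inter (open_nsq 1))
      fun _ hv => hv.1).trans hb (mapsTo_univ _ _)).trans oi
      fun v hv => one_pos.trans (b3 v hv.1 hv.2)
  · rw [nsq_inv (one_pos.trans (b3 v h1 h2))]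
    exact inv_lt_one_of_one_lt₀ (b3 v h1 h2)
  · have h0 : 0 < nsq v := by linarith
    rw [b1 _ (by rw [nsq_inv h0, inv_le_comm₀ h0 (by norm_num)]; linarith), inv_inv_nsq h0]
  · rintro v hv ⟨p, e⟩
    exact n2 v _ hv (St_ne _) (by rw [rr_of (nsq_St _)]; exact g1 _) e

end Pool.Agent.MP_e1dc65_gt.EC

end
end MrgPart0

-- ======== part 1: formerly Pool.Agent.MP_e1dc65_gt.e.cRep
section MrgPart1

/-! PROJECT HC, part E, sub-part C, row REP1: replacing a tube by the standard tube gives the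
manifold back. -/

open scoped ContDiff Manifold Topology
open Set Filter Function

noncomputable section

namespace Pool.Agent.MP_e1dc65_gt.EC

namespace RepL

theorem ld_snd {β : Rn 3 → Rn 3} {v : Rn 3} (h : LDAt (vs (Rn 3)) (vs (Rn 3)) β v) (θ : ℝ) :
    LDAt (vs (ℝ × Rn 3)) (vs (ℝ × Rn 3)) (fun c => (c.1, β c.2)) (θ, v) := by
  have i : ∀ p, LDAt (vs (ℝ × Rn 3)) ((vs ℝ).prod (vs (Rn 3))) (fun p => p) p := fun p =>
    ldAt_of_inv (g := fun p => p) isOpen_univ isOpen_univ trivial (fun _ _ => smAt_vs_prod)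
      (fun _ _ => smAt_prod_vs) (mapsTo_univ _ _) (mapsTo_univ _ _) (fun _ _ => rfl) fun _ _ => rfl
  have j : ∀ p, LDAt ((vs ℝ).prod (vs (Rn 3))) (vs (ℝ × Rn 3)) (fun p => p) p := fun p =>
    ldAt_of_inv (g := fun p => p) isOpen_univ isOpen_univ trivial (fun _ _ => smAt_prod_vs)
      (fun _ _ => smAt_vs_prod) (mapsTo_univ _ _) (mapsTo_univ _ _) (fun _ _ => rfl) fun _ _ => rfl
  exact ((i _).trans ((ldAt_id (X := vs ℝ) (x := θ)).prodMap h)).trans (j _)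

variable {M Ω : Mf E4} {l : ℝ × Rn 3 → M} {k : ℝ × Rn 3 → Ω} {β : Rn 3 → Rn 3}

/-- the map from the dual tube to the tube -/
theorem exb (hl : Tube M l {v | nsq v < 1}) (hk : Tube Ω k {v | nsq v < 1}) :
    ∃ b : Ω → M, (∀ θ v, nsq v < 1 → b (k (θ, v)) = l (θ, v)) ∧
      OE Ω M b (k '' (univ ×ˢ {v | nsq v < 1})) := by
  obtain ⟨b, hb⟩ := desc1 (univ ×ˢ {v : Rn 3 | nsq v < 1}) k l fun x hx y hy e =>
    (hl.eq x.1 y.1 x.2 hx.2 y.2 hy.2).2 ((hk.eq x.1 y.1 x.2 hx.2 y.2 hy.2).1 e)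
  refine ⟨b, fun θ v hv => hb (θ, v) ⟨trivial, hv⟩, hk.copen subset_rfl (open_nsq 1), ?_, ?_⟩
  · rintro _ ⟨c, hc, rfl⟩
    exact (hk.ld c.1 c.2 hc.2).ld_desc ((isOpen_univ.prod (open_nsq 1)).mem_nhds hc) hb
      (hl.ld c.1 c.2 hc.2)
  · rintro _ ⟨x, hx, rfl⟩ _ ⟨y, hy, rfl⟩ e
    rw [hb x hx, hb y hy] at e
    exact (hk.eq x.1 y.1 x.2 hx.2 y.2 hy.2).2 ((hl.eq x.1 y.1 x.2 hx.2 y.2 hy.2).1 e)

theorem out {x : M} (h0 : x ∉ l '' (univ ×ˢ {0}))
    (h1 : x ∉ l '' Dp) : x ∉ l '' (univ ×ˢ {v | nsq v < 1}) := by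
  rintro ⟨c, hc, rfl⟩
  by_cases e : c.2 = 0
  · exact h0 ⟨c, ⟨trivial, e⟩, rfl⟩
  · exact h1 ⟨c, ⟨nsq_pos.2 e, hc.2⟩, rfl⟩

/-- the self map of the complement of the core -/
theorem exa (hl : Tube M l {v | nsq v < 1})
    (oe : OE (vs (Rn 3)) (vs (Rn 3)) β {v | 0 < nsq v ∧ nsq v < 1})
    (lt : ∀ v, 0 < nsq v → nsq v < 1 → nsq (β v) < 1) (hid : ∀ v, 1 / 4 ≤ nsq v → β v = v) :
    ∃ a : M → M, (∀ c ∈ Dp, a (l c) = l (c.1, β c.2)) ∧ (∀ x ∉ l '' Dp, a x = x) ∧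
      OE M M a (l '' (univ ×ˢ {0}))ᶜ := by
  classical
  obtain ⟨a₀, h₀⟩ := desc1 Dp l (fun c => l (c.1, β c.2)) fun x hx y hy e => by
    obtain ⟨h1, h2⟩ := (hl.eq x.1 y.1 x.2 hx.2 y.2 hy.2).1 e
    exact (hl.eq x.1 y.1 _ (lt _ hx.1 hx.2) _ (lt _ hy.1 hy.2)).2 ⟨h1, congrArg β h2⟩
  let a : M → M := fun x => if x ∈ l '' Dp then a₀ x else x
  have a1 : ∀ c ∈ Dp, a (l c) = l (c.1, β c.2) := fun c hc => by
    simp only [a, if_pos (mem_image_of_mem l hc), h₀ c hc]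
  have a2 : ∀ x ∉ l '' Dp, a x = x := fun x hx => if_neg hx
  have cl : ∀ K : Set (Rn 3), K ⊆ {v | nsq v < 1} → IsCompact K → IsOpen (l '' (univ ×ˢ K))ᶜ :=
    fun K h1 h2 => (hl.ccpt h1 h2).isClosed.isOpen_compl
  have mem : ∀ c ∈ Dp, l (c.1, β c.2) ∈ l '' (univ ×ˢ {v | nsq v < 1}) := fun c hc =>
    ⟨(c.1, β c.2), ⟨trivial, lt _ hc.1 hc.2⟩, rfl⟩
  refine ⟨a, a1, a2, cl _ (by simp) isCompact_singleton, fun x hx => ?_, fun x hx y hy e => ?_⟩
  · by_cases h : x ∈ l '' Dp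
    · obtain ⟨c, hc, rfl⟩ := h
      exact (hl.ld c.1 c.2 hc.2).ld_desc (open_Dp.mem_nhds hc) a1
        ((ld_snd (oe.ld c.2 hc) c.1).trans (hl.ld c.1 _ (lt _ hc.1 hc.2)))
    · have s : {v : Rn 3 | nsq v ≤ 1 / 4} ⊆ {v | nsq v < 1} := fun v hv =>
        lt_of_le_of_lt hv (by norm_num : (1 / 4 : ℝ) < 1)
      refine ldAt_id.congr' (eventually_of_mem ((cl _ s (cpt_nsq (1 / 4))).mem_nhds fun H =>
        out hx h (image_mono (prod_mono subset_rfl s) H)) fun y hy => ?_)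
      by_cases h' : y ∈ l '' Dp
      · obtain ⟨c, hc, rfl⟩ := h'
        rw [a1 c hc, hid c.2 (not_lt.1 fun H => hy ⟨c, ⟨trivial, H.le⟩, rfl⟩)]
      · exact a2 y h'
  · by_cases h : x ∈ l '' Dp <;> by_cases h' : y ∈ l '' Dp
    · obtain ⟨c, hc, rfl⟩ := h
      obtain ⟨c', hc', rfl⟩ := h'
      rw [a1 c hc, a1 c' hc'] at e
      obtain ⟨h1, h2⟩ := (hl.eq c.1 c'.1 _ (lt _ hc.1 hc.2) _ (lt _ hc'.1 hc'.2)).1 e
      exact (hl.eq c.1 c'.1 c.2 hc.2 c'.2 hc'.2).2 ⟨h1, oe.inj hc hc' h2⟩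
    · obtain ⟨c, hc, rfl⟩ := h
      rw [a1 c hc, a2 y h'] at e
      exact (out hy h' (e ▸ mem c hc)).elim
    · obtain ⟨c, hc, rfl⟩ := h'
      rw [a1 c hc, a2 x h] at e
      exact (out hx h (e ▸ mem c hc)).elim
    · rwa [a2 x h, a2 y h'] at e

end RepL

open RepL in
theorem rep1 : Rep1Stmt := by
  intro M Ω l j₀ j₁ k ν β hl H
  obtain ⟨b, b1, b2⟩ := exb hl H.tk
  obtain ⟨a, a1, a2, a3⟩ := exa hl H.βoe H.βlt H.βid
  refine ⟨a, b, a3, H.kcov ▸ b2, eq_univ_of_forall fun z => ?_, fun x hx y hy => ⟨fun e => ?_, ?_⟩⟩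
  · by_cases h : z ∈ l '' (univ ×ˢ {v | nsq v < 1})
    · obtain ⟨c, hc, rfl⟩ := h
      exact .inr ⟨k c, H.kcov ▸ mem_image_of_mem k hc, b1 c.1 c.2 hc.2⟩
    · exact .inl ⟨z, fun h' => h (image_mono (prod_mono subset_rfl (by simp)) h'),
        a2 z fun ⟨c, hc, e⟩ => h ⟨c, ⟨trivial, hc.2⟩, e⟩⟩
  · obtain ⟨d, hd, rfl⟩ : y ∈ k '' (univ ×ˢ {v | nsq v < 1}) := H.kcov ▸ hy
    rw [b1 d.1 d.2 hd.2] at e
    by_cases h : x ∈ l '' Dp
    · obtain ⟨c, hc, rfl⟩ := h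
      rw [a1 c hc] at e
      have m := H.βlt _ hc.1 hc.2
      refine ⟨c.1, c.2, hc.1, hc.2, rfl, ?_⟩
      rw [H.kj c.1 c.2 hc.1 hc.2]
      exact ((H.tk.eq c.1 d.1 _ m d.2 hd.2).2 ((hl.eq c.1 d.1 _ m d.2 hd.2).1 e)).symm
    · rw [a2 x h] at e
      exact (out hx h ⟨d, hd, e.symm⟩).elim
  · rintro ⟨θ, v, h1, h2, rfl, rfl⟩
    rw [a1 (θ, v) ⟨h1, h2⟩, H.kj θ v h1 h2, b1 θ _ (H.βlt v h1 h2)]

end Pool.Agent.MP_e1dc65_gt.EC

end
end MrgPart1

-- ======== part 2: formerly Pool.Agent.MP_e1dc65_gt.e.cNg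
section MrgPart2

/-! PROJECT HC, part E, sub-part C, row NG: the manifold `N` and its cover. -/

open scoped ContDiff Manifold Topology Real
open Set Filter Function

noncomputable section

namespace Pool.Agent.MP_e1dc65_gt.EC
open E

namespace NgP

variable {X Ω : Mf E4} {j : ℝ × Rn 3 → Ω}

theorem nsq_ne {v : Rn 3} (h : v ≠ 0) : 0 < nsq v := nsq_pos.2 h

/-- the graph of the gluing map is closed -/
theorem graph {L : ℝ × Rn 3 → X} (hL : Tube X L {v | nsq v < 1}) (hj : Tube Ω j univ) {x : X}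
    (hx : x ∉ L '' (univ ×ˢ {0})) {y : Ω} (hy : y ∉ j '' (univ ×ˢ {w | nsq w ≤ 1}))
    (h : (x, y) ∈ closure ((fun c => (L c, j (iv c))) '' Dp)) :
    ∃ c ∈ Dp, L c = x ∧ j (iv c) = y := by
  obtain ⟨u, hu, ht⟩ := mem_closure_iff_seq_limit.1 h
  have H : ∀ n, ∃ c ∈ Icc (0 : ℝ) 8 ×ˢ {v : Rn 3 | nsq v ≤ 1}, (L c, j (iv c)) = u n := fun n => by
    obtain ⟨⟨θ, v⟩, hc, e⟩ := hu n
    obtain ⟨θ', h1, m, h2, h3⟩ := hL.cred (v := v) hc.2 0 θ
    refine ⟨(θ', v), ⟨⟨h1.1, by simpa using h1.2.le⟩, le_of_lt hc.2⟩, Eq.trans (Prod.ext h3 ?_) e⟩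
    rw [h2]
    exact hj.cper trivial θ m
  choose c hc e using H
  obtain ⟨c₀, h0, φ, hφ, hl⟩ := (isCompact_Icc.prod (cpt_nsq 1)).tendsto_subseq hc
  have t := ht.comp hφ.tendsto_atTop
  have t1 : Tendsto (fun n => L (c (φ n))) atTop (𝓝 x) :=
    ((continuous_fst.tendsto _).comp t).congr fun n => (congrArg Prod.fst (e (φ n))).symm
  have t2 : Tendsto (fun n => j (iv (c (φ n)))) atTop (𝓝 y) :=
    ((continuous_snd.tendsto _).comp t).congr fun n => (congrArg Prod.snd (e (φ n))).symm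
  have a1 : nsq c₀.2 < 1 → L c₀ = x := fun h1 =>
    tendsto_nhds_unique ((hL.ld c₀.1 c₀.2 h1).sm.cont.tendsto.comp hl) t1
  have a2 : 0 < nsq c₀.2 → j (iv c₀) = y := fun h1 =>
    tendsto_nhds_unique (((ld_iv h1).trans (hj.ld _ _ trivial)).sm.cont.tendsto.comp hl) t2
  have b1 : 0 < nsq c₀.2 := nsq_ne fun h1 => hx ⟨c₀, ⟨trivial, h1⟩, a1 (by simp [h1])⟩
  have b2 : nsq c₀.2 < 1 := lt_of_le_of_ne h0.2 fun h1 => hy ⟨iv c₀, ⟨trivial, by
    change nsq ((nsq c₀.2)⁻¹ • c₀.2) ≤ 1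
    rw [nsq_inv b1, h1, inv_one]⟩, a2 b1⟩
  exact ⟨c₀, ⟨b1, b2⟩, a1 b2, a2 b1⟩

theorem sub0 : ({0} : Set (Rn 3)) ⊆ {v | nsq v < 1} := by
  rintro _ rfl; simp

theorem mem_Dp : ((0 : ℝ), fun _ : Fin 3 => (1 / 2 : ℝ)) ∈ Dp := by
  constructor <;> norm_num [nsq]

theorem off {L : ℝ × Rn 3 → X} (hL : Tube X L {v | nsq v < 1}) {c : ℝ × Rn 3} (hc : c ∈ Dp) :
    L c ∉ L '' (univ ×ˢ {0}) := fun h =>
  nsq_pos.1 hc.1 ((hL.cmem sub0 (v := c.2) hc.2 c.1).1 h)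

/-- gluing copies of the complement of the fat tube along a family of disjoint tubes -/
theorem glueT {I : Type} [Countable I] (i₀ : I) {L : I → ℝ × Rn 3 → X} {U : Set X}
    (hL : ∀ i, Tube X (L i) {v | nsq v < 1}) (hj : Tube Ω j univ) (hU : IsOpen U)
    (ma : ∀ i, ∀ c ∈ Dp, L i c ∈ U) (hc : ∀ i, ∀ x ∈ U, x ∉ L i '' (univ ×ˢ {0}))
    (hd : ∀ i i', ∀ c ∈ Dp, ∀ c' ∈ Dp, L i c = L i' c' → i = i') :
    ∃ (Z : Mf E4) (a : X → Z) (b : I → Ω → Z),
      Glued X Ω Z U (j '' (univ ×ˢ {w | nsq w ≤ 1}))ᶜ Dp L (fun c => j (iv c)) a b := by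
  refine glueFam (C := vs (ℝ × Rn 3)) rfl rfl hU
    (hj.ccpt (subset_univ _) (cpt_nsq 1)).isClosed.isOpen_compl open_Dp ⟨_, ma i₀ _ mem_Dp⟩
    (fun i c h => (hL i).ld c.1 c.2 h.2) (fun c h => (ld_iv h.1).trans (hj.ld _ _ trivial)) ma
    (fun c h h' => ?_) (fun i i' c h c' h' => ?_)
    fun i x hx y hy => graph (hL i) hj (hc i x hx) hy
  · have h1 : nsq ((nsq c.2)⁻¹ • c.2) ≤ 1 := (hj.cmem (subset_univ _) trivial c.1).1 h'
    rw [nsq_inv h.1] at h1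
    exact absurd h.2 (not_lt.2 ((inv_le_one₀ h.1).1 h1))
  · have e : L i c = L i c' ↔ j (iv c) = j (iv c') := by
      refine ((hL i).eq c.1 c'.1 c.2 h.2 c'.2 h'.2).trans
        (Iff.trans (and_congr_right fun _ => ⟨fun e => by rw [e], fun e => ?_⟩)
          (hj.eq c.1 c'.1 _ trivial _ trivial).symm)
      rw [← inv_inv_nsq h.1, e, inv_inv_nsq h'.1]
    refine ⟨fun e' => ?_, ?_⟩
    · obtain rfl := hd i i' c h c' h' e'
      exact ⟨rfl, e.1 e'⟩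
    · rintro ⟨rfl, e'⟩
      exact e.2 e'

end NgP

open NgP in
theorem ng : NgStmt := by
  intro C F e₀ B Ω j h hj
  have hact : ActOn B.MG B.act univ := actOn_univ h.act1 h.actm h.actsm
  have pa : ∀ g x, B.pM (B.act g x) = B.pM x := fun g x => ((h.fib _ _).2 ⟨g, rfl⟩).symm
  have cp : Continuous B.pM := Sm.cont fun y _ => (h.ld y).sm
  have hU : IsOpen (B.l '' (univ ×ˢ {0}))ᶜ :=
    (h.tl.ccpt sub0 isCompact_singleton).isClosed.isOpen_compl
  have pl : ∀ g (c : ℝ × Rn 3), nsq c.2 < 1 → B.pM (B.act g (B.lt c)) = B.l c := fun g c hc => by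
    rw [pa, h.lp c.1 c.2 hc]
  have el : ∀ θ θ' v v', nsq v < 1 → nsq v' < 1 →
      (B.lt (θ, v) = B.lt (θ', v') ↔ B.l (θ, v) = B.l (θ', v')) := fun θ θ' v v' hv hv' => by
    refine ⟨fun e => by rw [← h.lp θ v hv, e, h.lp θ' v' hv'], fun e => ?_⟩
    obtain ⟨⟨m, hm⟩, rfl⟩ := (h.tl.eq θ θ' v hv v' hv').1 e
    rw [← per_int (fun θ => h.per θ v hv) θ' m, ← hm, add_sub_cancel]
  have tg : ∀ g, Tube B.MG (fun c => B.act g (B.lt c)) {v | nsq v < 1} := fun g =>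
    ⟨fun θ v hv => (h.lld θ v hv).trans ((hact.oe isOpen_univ g).ld _ trivial),
      fun θ θ' v hv v' hv' => (((hact.oe isOpen_univ g).inj.eq_iff trivial trivial).trans
        (el θ θ' v v' hv hv')).trans (h.tl.eq θ θ' v hv v' hv')⟩
  obtain ⟨N, a₀, b₀, g0⟩ := glueT (I := Unit) () (L := fun _ => B.l) (fun _ => h.tl) hj hU
    (fun _ c hc => off h.tl hc) (fun _ _ hx => hx) fun _ _ _ _ _ _ _ => rfl
  obtain ⟨NG, a, b, g1⟩ := glueT (I := B.G) 1 (U := B.pM ⁻¹' (B.l '' (univ ×ˢ {0}))ᶜ) tg hj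
    (hU.preimage cp) (fun g c hc => by
      rw [mem_preimage, pl g c hc.2]; exact off h.tl hc) (by
      rintro g _ hx ⟨c, hc, rfl⟩
      exact hx ⟨c, hc, (pl g c (sub0 hc.2)).symm⟩) fun g g' c hc c' hc' e => by
      have e1 : B.l c = B.l c' := by rw [← pl g c hc.2, e, pl g' c' hc'.2]
      rw [← (el c.1 c'.1 c.2 c'.2 hc.2 hc'.2).2 e1] at e
      refine (inv_mul_eq_one.1 (h.free (g'⁻¹ * g) (B.lt c) ?_)).symm
      rw [h.actm, e]
      exact hact.inv g' trivial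
  obtain ⟨p, p1, p2⟩ := g1.desc (fun x => a₀ (B.pM x)) (fun _ y => b₀ () y) fun g c hc => by
    rw [pl g c hc.2]; exact g0.glue () hc
  have hα : ActOn B.MG B.act (B.pM ⁻¹' (B.l '' (univ ×ˢ {0}))ᶜ) :=
    ⟨fun g x hx => by rw [mem_preimage, pa]; exact hx, fun x _ => h.act1 x,
      fun g g' x _ => h.actm g g' x, fun g x _ => h.actsm g x trivial⟩
  have hβ : ActFam (G := B.G) Ω (fun g i => g * i) (fun _ _ y => y)
      (j '' (univ ×ˢ {w | nsq w ≤ 1}))ᶜ :=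
    ⟨fun _ _ _ hy => hy, one_mul, mul_assoc, fun _ _ _ => rfl, fun _ _ _ _ _ => rfl,
      fun _ _ _ _ => smAt_id⟩
  obtain ⟨γ, hγ, e1, e2⟩ := g1.act hα hβ fun g i c hc => ⟨c, hc, h.actm g i _, rfl⟩
  have ab : ∀ x ∈ B.pM ⁻¹' (B.l '' (univ ×ˢ {0}))ᶜ, ∀ g, ∀ y ∈ (j '' (univ ×ˢ {w | nsq w ≤ 1}))ᶜ,
      p (a x) = p (b g y) → ∃ k, γ k (a x) = b g y := fun x hx g y hy e => by
    rw [p1 x hx, p2 g y hy] at e
    obtain ⟨c, hc, c1, rfl⟩ := (g0.eq _ hx () y hy).1 e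
    obtain ⟨k, hk⟩ := (h.fib x (B.act g (B.lt c))).1 (by rw [pl g c hc.2, c1])
    exact ⟨k, by rw [e1 k x hx, hk]; exact g1.glue g hc⟩
  refine ⟨N, NG, a₀, b₀ (), a, b, p, γ, ⟨g0.oi, g0.ok (), eq_univ_of_forall fun z => ?_,
    fun x hx y hy => (g0.eq x hx () y hy).trans ⟨?_, ?_⟩⟩, g1, p1, p2, hγ,
    g1.free hα hβ e1 e2 (fun g x _ => h.free g x) fun g i _ _ e _ => mul_eq_right.1 e,
    g1.ld p1 p2 (fun x hx => (h.ld x).trans (g0.oi.ld _ hx)) fun _ y hy => (g0.ok ()).ld y hy,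
    g0.ind (fun x hx => ?_) fun _ y hy => ⟨b 1 y, p2 1 y hy⟩, fun z z' => ⟨?_, ?_⟩⟩
  · exact (g0.cov z).imp id fun ⟨_, H⟩ => H
  · rintro ⟨c, hc, rfl, rfl⟩
    exact ⟨c.1, c.2, hc.1, hc.2, rfl, rfl⟩
  · rintro ⟨θ, v, h1, h2, rfl, rfl⟩
    exact ⟨(θ, v), ⟨h1, h2⟩, rfl, rfl⟩
  · obtain ⟨x', rfl⟩ := h.sur x
    exact ⟨a x', p1 x' hx⟩
  · obtain ⟨x, hx, rfl⟩ | ⟨g, y, hy, rfl⟩ := g1.cov z <;>
      obtain ⟨x', hx', rfl⟩ | ⟨g', y', hy', rfl⟩ := g1.cov z' <;> intro e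
    · rw [p1 x hx, p1 x' hx'] at e
      obtain ⟨k, rfl⟩ := (h.fib x x').1 (g0.oi.inj hx hx' e)
      exact ⟨k, e1 k x hx⟩
    · exact ab x hx g' y' hy' e
    · obtain ⟨k, hk⟩ := ab x' hx' g y hy e.symm
      exact ⟨k⁻¹, hk ▸ hγ.inv k trivial⟩
    · rw [p2 g y hy, p2 g' y' hy'] at e
      obtain rfl := (g0.ok ()).inj hy hy' e
      exact ⟨g' * g⁻¹, by rw [e2 _ g y hy, inv_mul_cancel_right]⟩
  · rintro ⟨k, rfl⟩
    obtain ⟨x, hx, rfl⟩ | ⟨g, y, hy, rfl⟩ := g1.cov z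
    · rw [e1 k x hx, p1 x hx, p1 _ (hα.maps k x hx), pa]
    · rw [e2 k g y hy, p2 g y hy, p2 _ y hy]

end Pool.Agent.MP_e1dc65_gt.EC

end
end MrgPart2

-- ======== part 3: formerly Pool.Agent.MP_e1dc65_gt.e.cCpo
section MrgPart3

/-! PROJECT HC, part C, row CPO: compactness and orientation of a tube replacement. -/

open scoped ContDiff Manifold Topology
open Set Filter Function Module Pool.Agent.MP_c8d41b_gt.GF

noncomputable section

namespace Pool.Agent.MP_e1dc65_gt.EC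

namespace Cpo

variable {E E' : Type} [NormedAddCommGroup E] [NormedSpace ℝ E] [FiniteDimensional ℝ E]
  [NormedAddCommGroup E'] [NormedSpace ℝ E'] [FiniteDimensional ℝ E'] {X : Mf E} {Y : Mf E'}
  {N : ℕ} {o o' : X → Lam E} {U V : Set X}

theorem ev_ne (ho : Ori X N o U) {x : X} (hx : x ∈ U) : ev (List.ofFn (finBasis ℝ E)) (o x) ≠ 0 := by
  obtain rfl := ho.dim
  exact ev_basis_ne _ (ho.fm x hx).2 (ho.ne x hx)

theorem cont_cf (ho : Ori X N o U) {x : X} (hx : x ∈ U) (h : FmAt X o' x) :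
    ContinuousAt (fun y => cf (o y) (o' y)) x := by
  have ce : ∀ {α : X → Lam E}, FmAt X α x → ContDiffAt ℝ ∞
      (fun y => ev (List.ofFn (finBasis ℝ E)) (loc X x α y)) (ch X x x) := fun h => by
    simp only [ev_eq]
    exact cda_lin _ h
  refine (smAt_iff_loc.2 (((ce h).div (ce (ho.fm x hx).1)
    (by rw [loc_self]; exact ev_ne ho hx)).congr_of_eventuallyEq ?_)).cont
  filter_upwards [(ch X x).open_target.mem_nhds (mem_chart_target E x)] with z hz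
  obtain ⟨L, hL⟩ := (ldAt_ch_symm hz).inv
  simp only [cf, pbM, ev_mp_det, Pi.div_apply]
  rw [mul_div_mul_left _ _ (hL ▸ L.toLinearEquiv.isUnit_det'.ne_zero)]

/-- two compatible orientations on an open cover by two sets -/
theorem union_pos (h : Ori X N o U) (h' : Ori X N o' V) (hU : IsOpen U) (hV : IsOpen V)
    (hc : U ∪ V = univ) (hp : ∀ x ∈ U ∩ V, 0 < cf (o x) (o' x)) : ∃ o, Ori X N o univ := by
  obtain ⟨f, f0, f1, f2⟩ := exists_contMDiffMap_zero_one_nhds_of_isClosed 𝓘(ℝ, E) (n := ⊤)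
    hU.isClosed_compl hV.isClosed_compl (by rw [disjoint_iff_inter_eq_empty, ← compl_union, hc]; simp)
  have sf : ∀ x, SmAt X (vs ℝ) f x := fun x => f.contMDiff x
  have sg : ∀ x, SmAt X (vs ℝ) (fun y => 1 - f y) x := fun x =>
    (sf x).vcomp (g := fun t : ℝ => 1 - t) (contDiffAt_const.sub contDiffAt_id)
  have e0 : ∀ x ∉ U, (fun y => f y • o y + (1 - f y) • o' y) =ᶠ[𝓝 x] o' := fun x hx =>
    (f0.filter_mono (nhds_le_nhdsSet hx)).mono fun y hy => by simp [hy]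
  have e1 : ∀ x ∉ V, (fun y => f y • o y + (1 - f y) • o' y) =ᶠ[𝓝 x] o := fun x hx =>
    (f1.filter_mono (nhds_le_nhdsSet hx)).mono fun y hy => by simp [hy]
  have key : ∀ x, (FmAt X (fun y => f y • o y + (1 - f y) • o' y) x ∧
      f x • o x + (1 - f x) • o' x ∈ dg E N) ∧ f x • o x + (1 - f x) • o' x ≠ 0 := by
    intro x
    have hx : x ∈ U ∪ V := hc ▸ mem_univ x
    by_cases xU : x ∈ U
    · by_cases xV : x ∈ V
      · refine ⟨⟨((h.fm x xU).1.fsmul (sf x)).add ((h'.fm x xV).1.fsmul (sg x)),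
          add_mem (Submodule.smul_mem _ _ (h.fm x xU).2)
            (Submodule.smul_mem _ _ (h'.fm x xV).2)⟩, fun e => ?_⟩
        have h1 := congrArg (fun a => ev (List.ofFn (finBasis ℝ E)) a /
          ev (List.ofFn (finBasis ℝ E)) (o x)) e
        have h2 := hp x ⟨xU, xV⟩
        simp only [ev_add, ev_smul, ev_zero, add_div, mul_div_assoc, div_self (ev_ne h xU),
          zero_div] at h1
        rw [cf] at h2
        obtain ⟨h3, h4⟩ := f2 x
        rcases h4.eq_or_lt with h5 | h5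
        · rw [h5] at h1; norm_num at h1
        · nlinarith [mul_pos (sub_pos.2 h5) h2]
      · have e : f x • o x + (1 - f x) • o' x = o x := (e1 x xV).eq_of_nhds
        rw [e]
        exact ⟨⟨(h.fm x xU).1.congr' (e1 x xV), (h.fm x xU).2⟩, h.ne x xU⟩
    · have xV := hx.resolve_left xU
      have e : f x • o x + (1 - f x) • o' x = o' x := (e0 x xU).eq_of_nhds
      rw [e]
      exact ⟨⟨(h'.fm x xV).1.congr' (e0 x xU), (h'.fm x xV).2⟩, h'.ne x xV⟩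
  exact ⟨_, h.dim, fun x _ => (key x).1, fun x _ => (key x).2⟩

/-- orientations glue over a preconnected overlap -/
theorem ori_union (h : Ori X N o U) (h' : Ori X N o' V) (hU : IsOpen U) (hV : IsOpen V)
    (hc : U ∪ V = univ) (hp : IsPreconnected (U ∩ V)) : ∃ o, Ori X N o univ := by
  have hne : ∀ x ∈ U ∩ V, cf (o x) (o' x) ≠ 0 := fun x hx => div_ne_zero (ev_ne h' hx.2) (ev_ne h hx.1)
  have hcn : ContinuousOn (fun x => cf (o x) (o' x)) (U ∩ V) := fun x hx =>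
    (cont_cf h hx.1 (h'.fm x hx.2).1).continuousWithinAt
  by_cases hq : ∀ x ∈ U ∩ V, 0 < cf (o x) (o' x)
  · exact union_pos h h' hU hV hc hq
  push Not at hq
  obtain ⟨x, hx, hx'⟩ := hq
  refine union_pos h h'.neg hU hV hc fun y hy => ?_
  rw [cf, ev_neg, neg_div, neg_pos, ← cf]
  by_contra hn
  obtain ⟨z, hz, e⟩ := hp.intermediate_value hx hy hcn ⟨hx', not_lt.1 hn⟩
  exact hne z hz e

theorem ori_psh {f : X → Y} (hf : OE X Y f U) (hd : finrank ℝ E' = N) (h : Ori X N o univ) :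
    Ori Y N (psh X Y f U o) (f '' U) := by
  refine ⟨hd, hf.fm_psh subset_rfl fun x _ => h.fm x trivial, ?_⟩
  rintro _ ⟨x, hx, rfl⟩ e
  exact h.ne x trivial ((hf.pbM_psh hx).symm.trans (pbM_zero e))

end Cpo

open Cpo in
theorem cpo : CpoStmt := by
  intro M Ω N l j a b hl hj hR
  have z1 : ({0} : Set (Rn 3)) ⊆ {v | nsq v < 1} := by rintro _ rfl; simp
  have hx : ∀ θ v, 0 < nsq v → nsq v < 1 → l (θ, v) ∉ l '' (univ ×ˢ {0}) := fun θ v h0 h1 h =>
    nsq_pos.1 h0 ((hl.cmem z1 h1 θ).1 h)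
  have hy : ∀ θ v, 0 < nsq v → nsq v < 1 →
      j (θ, (nsq v)⁻¹ • v) ∉ j '' (univ ×ˢ {w | nsq w ≤ 1}) := fun θ v h0 h1 h => by
    have h2 : nsq ((nsq v)⁻¹ • v) ≤ 1 := (hj.cmem (subset_univ _) trivial θ).1 h
    rw [nsq_inv h0] at h2
    exact h2.not_gt ((one_lt_inv₀ h0).2 h1)
  have he : ∀ θ v, 0 < nsq v → nsq v < 1 → a (l (θ, v)) = b (j (θ, (nsq v)⁻¹ • v)) :=
    fun θ v h0 h1 => (hR.eq _ (hx θ v h0 h1) _ (hy θ v h0 h1)).2 ⟨θ, v, h0, h1, rfl, rfl⟩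
  refine ⟨fun _ _ => ⟨?_⟩, fun ⟨o, ho⟩ ⟨o', ho'⟩ => ?_⟩
  · have s1 : {v : Rn 3 | nsq v < 1 / 4} ⊆ {v | nsq v < 1} := fun v (h : nsq v < 1 / 4) =>
      show nsq v < 1 by linarith
    have k1 : (l '' (univ ×ˢ {v | nsq v < 1 / 4}))ᶜ ⊆ (l '' (univ ×ˢ {0}))ᶜ :=
      compl_subset_compl.2 (image_mono (prod_mono subset_rfl (by rintro _ rfl; simp)))
    have k2 : (j '' (univ ×ˢ {v | nsq v < 2}))ᶜ ⊆ (j '' (univ ×ˢ {w | nsq w ≤ 1}))ᶜ :=
      compl_subset_compl.2 (image_mono (prod_mono subset_rfl fun v (h : nsq v ≤ 1) =>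
        show nsq v < 2 by linarith))
    have c1 := (hl.copen s1 (open_nsq _)).isClosed_compl.isCompact.image_of_continuousOn
      (hR.oa.sm.contOn.mono k1)
    have c2 := (hj.copen (subset_univ _) (open_nsq 2)).isClosed_compl.isCompact.image_of_continuousOn
      (hR.ob.sm.contOn.mono k2)
    refine (c1.union c2).of_isClosed_subset isClosed_univ fun z hz => ?_
    rw [← hR.cov] at hz
    rcases hz with ⟨x, xU, rfl⟩ | ⟨y, yV, rfl⟩
    · by_cases h : x ∈ l '' (univ ×ˢ {v | nsq v < 1 / 4})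
      · obtain ⟨⟨θ, v⟩, ⟨-, hv⟩, rfl⟩ := h
        have h0 : 0 < nsq v := nsq_pos.2 fun e => xU ⟨(θ, v), ⟨trivial, e⟩, rfl⟩
        refine Or.inr ⟨_, fun h => ?_, (he θ v h0 (s1 hv)).symm⟩
        have h2 : nsq ((nsq v)⁻¹ • v) < 2 := (hj.cmem (subset_univ _) trivial θ).1 h
        have h3 : nsq v < 1 / 4 := hv
        rw [nsq_inv h0, inv_lt_comm₀ h0 two_pos] at h2
        linarith
      · exact Or.inl ⟨x, h, rfl⟩
    · by_cases h : y ∈ j '' (univ ×ˢ {v | nsq v < 2})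
      · obtain ⟨⟨θ, w⟩, ⟨-, hw⟩, rfl⟩ := h
        have h1 : 1 < nsq w := not_le.1 fun e => yV ⟨(θ, w), ⟨trivial, e⟩, rfl⟩
        have h0 : 0 < nsq w := one_pos.trans h1
        have h2 : nsq ((nsq w)⁻¹ • w) < 1 := by rw [nsq_inv h0]; exact inv_lt_one_of_one_lt₀ h1
        have h3 := he θ _ (by rw [nsq_inv h0]; exact inv_pos.2 h0) h2
        rw [inv_inv_nsq h0] at h3
        refine Or.inl ⟨_, fun h => ?_, h3⟩
        have h4 : nsq ((nsq w)⁻¹ • w) < 1 / 4 := (hl.cmem s1 h2 θ).1 h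
        have h5 : nsq w < 2 := hw
        rw [nsq_inv h0, inv_lt_comm₀ h0 (by norm_num)] at h4
        norm_num at h4
        linarith
      · exact Or.inr ⟨y, h, rfl⟩
  · refine ori_union (ori_psh hR.oa ho.dim ho) (ori_psh hR.ob ho.dim ho') hR.oa.symm.op
      hR.ob.symm.op hR.cov ?_
    have e : a '' (l '' (univ ×ˢ {0}))ᶜ ∩ b '' (j '' (univ ×ˢ {w | nsq w ≤ 1}))ᶜ =
        a '' (l '' (univ ×ˢ {v | 0 < nsq v ∧ nsq v < 1})) := by
      refine Subset.antisymm ?_ ?_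
      · rintro _ ⟨⟨x, xU, rfl⟩, y, yV, e⟩
        obtain ⟨θ, v, h0, h1, rfl, -⟩ := (hR.eq x xU y yV).1 e.symm
        exact ⟨_, ⟨(θ, v), ⟨trivial, h0, h1⟩, rfl⟩, rfl⟩
      · rintro _ ⟨_, ⟨⟨θ, v⟩, ⟨-, h0, h1⟩, rfl⟩, rfl⟩
        exact ⟨⟨_, hx θ v h0 h1, rfl⟩, _, hy θ v h0 h1, (he θ v h0 h1).symm⟩
    rw [e]
    refine ((isPreconnected_univ.prod (pc_shell (by norm_num) le_rfl
      one_pos).isConnected.isPreconnected).image _ (hl.ccont.mono
        (prod_mono subset_rfl fun v hv => hv.2))).image _ (hR.oa.sm.contOn.mono ?_)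
    rintro _ ⟨⟨θ, v⟩, ⟨-, h0, h1⟩, rfl⟩
    exact hx θ v h0 h1

end Pool.Agent.MP_e1dc65_gt.EC

end
end MrgPart3

-- ======== part 4: formerly Pool.Agent.MP_e1dc65_gt.e.Fat
section MrgPart4

/-! PROJECT HC, part E: removing the core of a tube or a closed tube from a simply connected
open set. -/

open scoped Topology
open Set Filter Function

noncomputable section

namespace Pool.Agent.MP_e1dc65_gt
open EC

variable {M : Mf E4} {j : ℝ × Rn 3 → M} {B : Set (Rn 3)} {U : Set M}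

theorem Tube.cod3 (h : Tube M j B) (hB : IsOpen B) (h0 : (0 : Rn 3) ∈ B) :
    ∀ y ∈ j '' (univ ×ˢ {0}), Cod3 (j '' (univ ×ˢ {0})) y := by
  rintro _ ⟨⟨θ, v⟩, ⟨-, rfl⟩, rfl⟩
  refine cod3_model (by simp) (h.ld θ 0 h0) ?_
  filter_upwards [continuous_snd.continuousAt.preimage_mem_nhds (hB.mem_nhds h0)] with q hq
  exact h.cmem (singleton_subset_iff.2 h0) hq q.1

theorem Tube.core_closed (h : Tube M j B) (h0 : (0 : Rn 3) ∈ B) : IsClosed (j '' (univ ×ˢ {0})) :=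
  (h.ccpt (singleton_subset_iff.2 h0) isCompact_singleton).isClosed

/-- removing the core of a tube -/
theorem SC.diff_core (hU : SC U) (ho : IsOpen U) (h : Tube M j B) (hB : IsOpen B)
    (h0 : (0 : Rn 3) ∈ B) : SC (U \ j '' (univ ×ˢ {0})) :=
  hU.diff ho (ho.sdiff (h.core_closed h0)) fun y hy => h.cod3 hB h0 y hy.2

namespace Fat

/-- radial push towards the sphere `nsq = c` -/
def rp (c t : ℝ) (v : Rn 3) : Rn 3 := (1 + t * (max 1 √(c / nsq v) - 1)) • v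

theorem rp_zero (c : ℝ) (v : Rn 3) : rp c 0 v = v := by simp [rp]

theorem rp_out {c : ℝ} {v : Rn 3} (hv : 0 < nsq v) (h : c ≤ nsq v) (t : ℝ) : rp c t v = v := by
  have : √(c / nsq v) ≤ 1 := Real.sqrt_le_one.2 ((div_le_one hv).2 h)
  simp [rp, max_eq_left this]

theorem nsq_rp {c t : ℝ} {v : Rn 3} (hv : 0 < nsq v) (h0 : 0 ≤ t) (h1 : t ≤ 1) :
    nsq v ≤ nsq (rp c t v) ∧ nsq (rp c t v) ≤ max c (nsq v) ∧ (t = 1 → c ≤ nsq (rp c t v)) := by
  rcases le_total c (nsq v) with h | h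
  · rw [rp_out hv h]
    exact ⟨le_rfl, le_max_right _ _, fun _ => h⟩
  · have e1 : 1 ≤ c / nsq v := (one_le_div hv).2 h
    have e2 : 1 ≤ √(c / nsq v) := Real.one_le_sqrt.2 e1
    have e3 : √(c / nsq v) ^ 2 * nsq v = c := by
      rw [Real.sq_sqrt (by linarith), div_mul_cancel₀ _ hv.ne']
    rw [rp, nsq_smul, max_eq_right e2, max_eq_left h]
    set m := √(c / nsq v)
    have a1 : 1 ≤ 1 + t * (m - 1) := by nlinarith
    have a2 : 1 + t * (m - 1) ≤ m := by nlinarith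
    refine ⟨le_mul_of_one_le_left hv.le (one_le_pow₀ a1), ?_, fun e => ?_⟩
    · rw [← e3]
      exact mul_le_mul_of_nonneg_right (pow_le_pow_left₀ (by linarith) a2 2) hv.le
    · rw [e, ← e3]; apply le_of_eq; ring

theorem cont_rp (c : ℝ) : ContinuousOn (fun p : ℝ × Rn 3 => rp c p.1 p.2) {p | 0 < nsq p.2} := by
  unfold rp
  refine ContinuousOn.smul (continuousOn_const.add (continuousOn_fst.mul (ContinuousOn.sub
    (ContinuousOn.sup continuousOn_const (Real.continuous_sqrt.comp_continuousOn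
      (continuousOn_const.div (by fun_prop) fun p hp => ne_of_gt hp))) continuousOn_const)))
    continuousOn_snd

end Fat
open Fat

/-- the radial push of a tube: a homotopy of the complement of the core that is the identity off
the tube of size `c` and moves everything out of the open tube of size `c` -/
theorem Tube.exists_push (h : Tube M j B) (hB : IsOpen B) {c : ℝ} (hc : 0 < c)
    (hcB : {v | nsq v ≤ c} ⊆ B) : ∃ H : ℝ × M → M,
      ContinuousOn H (Icc 0 1 ×ˢ (j '' (univ ×ˢ {0}))ᶜ) ∧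
      (∀ t x, x ∉ j '' (univ ×ˢ {v | nsq v ≤ c}) → H (t, x) = x) ∧
      (∀ x, H (0, x) = x) ∧ ∀ t θ, ∀ v ∈ B, v ≠ 0 → t ∈ Icc (0 : ℝ) 1 →
        H (t, j (θ, v)) = j (θ, rp c t v) ∧ rp c t v ∈ B := by
  classical
  have h0 : (0 : Rn 3) ∈ B := hcB (by simpa using hc.le)
  have mB : ∀ t ∈ Icc (0 : ℝ) 1, ∀ v ∈ B, v ≠ 0 → rp c t v ∈ B := fun t ht v hv hne => by
    rcases le_total c (nsq v) with h1 | h1
    · rwa [rp_out (nsq_pos.2 hne) h1]
    · exact hcB ((nsq_rp (nsq_pos.2 hne) ht.1 ht.2).2.1.trans (max_le le_rfl h1))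
  let D : Set (ℝ × Rn 3) := univ ×ˢ (B \ {0})
  let H : ℝ × M → M := fun p =>
    if hp : p.2 ∈ j '' D then j (hp.choose.1, rp c p.1 hp.choose.2) else p.2
  have e : ∀ t θ, ∀ v ∈ B, v ≠ 0 → t ∈ Icc (0 : ℝ) 1 → H (t, j (θ, v)) = j (θ, rp c t v) := by
    intro t θ v hv hne ht
    have hp : j (θ, v) ∈ j '' D := ⟨(θ, v), ⟨trivial, hv, hne⟩, rfl⟩
    obtain ⟨h1, h2⟩ := hp.choose_spec
    obtain ⟨h3, h4⟩ := (h.eq _ θ _ h1.2.1 v hv).1 h2
    simp only [H, dif_pos hp]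
    exact (h.eq _ θ _ (mB t ht _ h1.2.1 h1.2.2) _ (mB t ht v hv hne)).2 ⟨h3, by rw [h4]⟩
  have out : ∀ t x, x ∉ j '' (univ ×ˢ {v | nsq v ≤ c}) → H (t, x) = x := by
    intro t x hx
    by_cases hp : x ∈ j '' D
    · obtain ⟨h1, h2⟩ := hp.choose_spec
      have h3 : c ≤ nsq hp.choose.2 := by
        by_contra h4
        exact hx ⟨_, ⟨trivial, (not_le.1 h4).le⟩, h2⟩
      simp only [H, dif_pos hp]
      rw [rp_out (nsq_pos.2 h1.2.2) h3]
      exact h2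
    · simp only [H, dif_neg hp]
  refine ⟨H, ?_, out, fun x => ?_, fun t θ v hv hne ht => ⟨e t θ v hv hne ht, mB t ht v hv hne⟩⟩
  · have hD : IsOpen D := isOpen_univ.prod (hB.sdiff isClosed_singleton)
    have c1 : ContinuousOn H (Icc 0 1 ×ˢ (j '' D)) := by
      refine contOn_of_ld (X := vs (ℝ × Rn 3)) hD (fun p hp => h.ld p.1 p.2 hp.2.1) ?_
      refine ContinuousOn.congr (f := fun p : ℝ × ℝ × Rn 3 => j (p.2.1, rp c p.1 p.2.2))
        (h.ccont.comp (ContinuousOn.prodMk (by fun_prop) ((cont_rp c).comp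
          (f := fun p : ℝ × ℝ × Rn 3 => (p.1, p.2.2)) (by fun_prop)
          fun p hp => nsq_pos.2 hp.2.2.2)) fun p hp => ⟨trivial, mB _ hp.1 _ hp.2.2.1 hp.2.2.2⟩)
        fun p hp => e _ _ _ hp.2.2.1 hp.2.2.2 hp.1
    have hK := (h.ccpt hcB (cpt_nsq c)).isClosed
    rintro ⟨t, x⟩ ⟨ht, hx⟩
    by_cases hp : x ∈ j '' (univ ×ˢ {v | nsq v ≤ c})
    · have hp' : x ∈ j '' D := by
        obtain ⟨q, hq, rfl⟩ := hp
        exact ⟨q, ⟨trivial, hcB hq.2, fun h1 => hx ⟨q, ⟨trivial, h1⟩, rfl⟩⟩, rfl⟩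
      refine (c1 (t, x) ⟨ht, hp'⟩).mono_of_mem_nhdsWithin ?_
      filter_upwards [self_mem_nhdsWithin, mem_nhdsWithin_of_mem_nhds
        (continuous_snd.continuousAt.preimage_mem_nhds
          ((h.copen sdiff_subset (hB.sdiff isClosed_singleton)).mem_nhds hp'))] with p h3 h4
      exact ⟨h3.1, h4⟩
    · refine (continuous_snd.continuousAt.congr ?_).continuousWithinAt
      filter_upwards [continuous_snd.continuousAt.preimage_mem_nhds
        (hK.isOpen_compl.mem_nhds hp)] with p h3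
      exact (out p.1 p.2 h3).symm
  · by_cases hp : x ∈ j '' D
    · obtain ⟨⟨θ, v⟩, hq, rfl⟩ := hp
      rw [e 0 θ v hq.2.1 hq.2.2 (left_mem_Icc.2 zero_le_one), rp_zero]
    · simp only [H, dif_neg hp]

/-- FAT: removing a closed tube of size `b` from a simply connected open set that contains the
closed tube of size `c > b` -/
theorem SC.diff_fat' (hU : SC U) (ho : IsOpen U) (h : Tube M j B) (hB : IsOpen B) {b c : ℝ}
    (hb : 0 ≤ b) (hbc : b < c) (hcB : {v | nsq v ≤ c} ⊆ B)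
    (hm : j '' (univ ×ˢ {v | nsq v ≤ c}) ⊆ U) : SC (U \ j '' (univ ×ˢ {v | nsq v ≤ b})) := by
  have hc : 0 < c := hb.trans_lt hbc
  have h0 : (0 : Rn 3) ∈ B := hcB (by simpa using hc.le)
  have hbB : {v : Rn 3 | nsq v ≤ b} ⊆ B := fun v hv => hcB (le_trans hv hbc.le)
  obtain ⟨H, h1, h2, h3, h4⟩ := h.exists_push hB hc hcB
  have sub : U \ j '' (univ ×ˢ {v | nsq v ≤ b}) ⊆ U \ j '' (univ ×ˢ {0}) :=
    sdiff_subset_sdiff_right (image_mono (prod_mono subset_rfl (by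
      rintro _ rfl
      simpa using hb)))
  have key : ∀ t ∈ Icc (0 : ℝ) 1, ∀ x ∈ U \ j '' (univ ×ˢ {0}),
      (t = 1 ∨ x ∉ j '' (univ ×ˢ {v | nsq v ≤ b})) →
      H (t, x) ∈ U \ j '' (univ ×ˢ {v | nsq v ≤ b}) := by
    intro t ht x hx hor
    by_cases hp : x ∈ j '' (univ ×ˢ {v | nsq v ≤ c})
    · obtain ⟨⟨θ, v⟩, ⟨-, hv⟩, rfl⟩ := hp
      have hne : v ≠ 0 := fun e => hx.2 ⟨(θ, v), ⟨trivial, e⟩, rfl⟩
      obtain ⟨e, m⟩ := h4 t θ v (hcB hv) hne ht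
      obtain ⟨a1, a2, a3⟩ := nsq_rp (c := c) (nsq_pos.2 hne) ht.1 ht.2
      rw [e]
      refine ⟨hm ⟨(θ, rp c t v), ⟨trivial, a2.trans (max_le le_rfl hv)⟩, rfl⟩, fun hf => ?_⟩
      have a4 : nsq (rp c t v) ≤ b := (h.cmem hbB m θ).1 hf
      rcases hor with e1 | e1
      · linarith [a3 e1]
      · exact e1 ⟨(θ, v), ⟨trivial, a1.trans a4⟩, rfl⟩
    · rw [h2 t x hp]
      exact ⟨hx.1, fun hf => hp (image_mono (prod_mono subset_rfl fun v hv => le_trans hv hbc.le) hf)⟩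
  exact (hU.diff_core ho h hB h0).of_push sub (h1.mono (prod_mono subset_rfl fun x hx => hx.2))
    (fun p hp => key p.1 hp.1 p.2 (sub hp.2) (Or.inr hp.2.2)) (fun x _ => h3 x)
    fun x hx => key 1 (right_mem_Icc.2 zero_le_one) x hx (Or.inl rfl)

/-- FAT for a tube with full cross-section inside `U` -/
theorem SC.diff_fat (hU : SC U) (ho : IsOpen U) (h : Tube M j univ) (hm : range j ⊆ U) :
    SC (U \ j '' (univ ×ˢ {w | nsq w ≤ 1})) :=
  hU.diff_fat' ho h isOpen_univ zero_le_one one_lt_two (subset_univ _)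
    ((image_subset_range _ _).trans hm)

end Pool.Agent.MP_e1dc65_gt

end
end MrgPart4

-- ======== part 5: formerly Pool.Agent.MP_e1dc65_gt.e.cScn
section MrgPart5

/-! PROJECT HC, part E, sub-part C, row SCN: the cover of `N` cut along the neck sphere is simply
connected. -/

open scoped ContDiff Manifold Topology Real
open Set Filter Function

noncomputable section

namespace Pool.Agent.MP_e1dc65_gt.EC
open E

namespace Scn

/-- a slab with part of its middle level removed -/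
theorem pc_slab {X : Type} [TopologicalSpace X] {S : Set X} (hS : IsPathConnected S) {m₀ : X}
    {P : Set (X × ℝ)} (hP : P ⊆ S ×ˢ Ioo (-3) 3)
    (h1 : ∀ m ∈ S, ∀ t ∈ Ioo (-3 : ℝ) 3, t ≠ 0 → (m, t) ∈ P) (h2 : (m₀, 0) ∈ P) :
    IsPathConnected P := by
  have iv : ∀ {a b : ℝ}, a < b → IsPathConnected (Ioo a b) := fun h =>
    (convex_Ioo _ _).isPathConnected (nonempty_Ioo.2 h)
  have ve : ∀ m, (m, (0 : ℝ)) ∈ P → ∀ t ∈ Ioo (-3 : ℝ) 3, JoinedIn P (m, 0) (m, t) := by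
    intro m hm t ht
    refine (((isPathConnected_singleton m).prod (iv (by norm_num : (-3 : ℝ) < 3))).joinedIn
      (m, 0) ⟨rfl, by norm_num⟩ (m, t) ⟨rfl, ht⟩).mono ?_
    rintro ⟨m', u⟩ ⟨rfl, hu⟩
    by_cases h : u = 0
    · exact h ▸ hm
    · exact h1 _ (hP hm).1 u hu h
  have up : ∀ m ∈ S, ∀ t ∈ Ioo (0 : ℝ) 3, JoinedIn P (m₀, 0) (m, t) := fun m hm t ht =>
    (ve m₀ h2 1 (by norm_num)).trans (((hS.prod (iv (by norm_num : (0 : ℝ) < 3))).joinedIn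
      (m₀, 1) ⟨(hP h2).1, by norm_num⟩ (m, t) ⟨hm, ht⟩).mono fun c hc =>
        h1 _ hc.1 _ ⟨by linarith [hc.2.1], hc.2.2⟩ hc.2.1.ne')
  refine ⟨_, h2, ?_⟩
  rintro ⟨m, t⟩ hc
  obtain ⟨hm, ht⟩ := hP hc
  rcases lt_trichotomy t 0 with h | rfl | h
  · exact (ve m₀ h2 (-1) (by norm_num)).trans
      (((hS.prod (iv (by norm_num : (-3 : ℝ) < 0))).joinedIn (m₀, -1) ⟨(hP h2).1, by norm_num⟩
        (m, t) ⟨hm, ht.1, h⟩).mono fun c hc => h1 _ hc.1 _ ⟨hc.2.1, by linarith [hc.2.2]⟩ hc.2.2.ne)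
  · exact (up m hm 1 (by norm_num)).trans (ve m hc 1 (by norm_num)).symm
  · exact up m hm t ⟨h, ht.2⟩

/-- where the tube meets the neck -/
theorem key {C : SpinCover} {F : Mf (Rn 3)} {e₀ : Rn 3 → F} {B : MDat F} (hB : B.Ok C e₀)
    {θ t : ℝ} {v : Rn 3} {m : F} (hv : nsq v < 1) (ht : t ∈ Ioo (-3 : ℝ) 3)
    (e : B.l (θ, v) = B.ν (m, t)) : (∃ k : ℤ, θ = t + 8 * k) ∧ m = e₀ (q0 + eps • v) := by
  obtain ⟨θ', h1, k, h2, h3⟩ := hB.tl.cred (v := v) hv 3 θ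
  by_cases h5 : θ' ≤ 5
  · exact (hB.off θ' v h1.1 h5 hv ⟨(m, t), ⟨trivial, ht⟩, (h3.trans e).symm⟩).elim
  · have h6 : |θ' - 8| < 3 := abs_lt.2 ⟨by linarith, by linarith [h1.2]⟩
    have h7 : B.l (θ' - 8, v) = B.l (θ', v) :=
      (hB.tl.eq _ _ v hv v hv).2 ⟨⟨-1, by push_cast; ring⟩, rfl⟩
    have h8 := hB.neck.inj trivial trivial
      ((hB.str _ v h6 hv).symm.trans (h7.trans (h3.trans e)))
    obtain ⟨h9, h10⟩ := Prod.ext_iff.1 h8
    exact ⟨⟨1 - k, by push_cast; simp only at h10; linarith⟩, h9.symm⟩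

end Scn

/-- row SCN for compact `F` -/
def ScnStmtC : Prop :=
  ∀ (C : SpinCover) (F : Mf (Rn 3)) (e₀ : Rn 3 → F) (B : MDat F) (Ω N NG : Mf E4)
    (j₀ j₁ k : ℝ × Rn 3 → Ω) (ν : Rn 4 → Ω) (β : Rn 3 → Rn 3) (a₀ : B.M → N) (b₀ : Ω → N)
    (a : B.MG → NG) (b : B.G → Ω → NG) (p : NG → N) (γ : B.G → NG → NG), CompactSpace F →
    ConnectedSpace F → B.Ok C e₀ → Om Ω j₀ j₁ k ν β → NOk B j₀ a₀ b₀ a b p γ →
    SC (p ⁻¹' ((fun v => b₀ (ν v)) '' {v | nsq v = 1})ᶜ)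

theorem scn : ScnStmtC := by
  intro C F e₀ B Ω N NG j₀ j₁ k ν β a₀ b₀ a b p γ hF hF' hB hO hN
  have gl := hN.gl
  set T := p ⁻¹' ((fun v => b₀ (ν v)) '' {v | nsq v = 1})ᶜ with hT
  set core := B.l '' (univ ×ˢ {0}) with hcore
  set mid := B.ν '' (univ ×ˢ {0}) with hmid
  set fa := j₀ '' (univ ×ˢ {w | nsq w ≤ 1}) with hfa
  set Sp := ν '' {v | nsq v = 1} with hSp
  have n1 : ∀ v : Rn 4, nsq v = 1 → v ≠ 0 := fun v hv => nsq_pos.1 (hv ▸ one_pos)
  have b1 : ({0} : Set (Rn 3)) ⊆ {v | nsq v < 1} := by rintro _ rfl; simp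
  have pa : ∀ g x, B.pM (B.act g x) = B.pM x := fun g x => ((hB.fib _ _).2 ⟨g, rfl⟩).symm
  have oa : ∀ g, OE B.MG B.MG (B.act g) univ :=
    (actOn_univ hB.act1 hB.actm hB.actsm).oe isOpen_univ
  have cp : Continuous B.pM := continuous_iff_continuousAt.2 fun x => (hB.ld x).sm.cont
  have jS : ∀ c, j₀ c ∈ Spᶜ := fun c ⟨v, hv, e⟩ => hO.dis v (n1 v hv) ⟨c, e.symm⟩
  have Sf : ∀ v : Rn 4, nsq v = 1 → ν v ∉ fa := fun v hv h =>
    hO.dis v (n1 v hv) (image_subset_range _ _ h)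
  -- the pieces lie in `T`
  have aT : ∀ x, B.pM x ∉ core → a x ∈ T := fun x hx ⟨v, hv, e⟩ => by
    obtain ⟨θ, w, -, -, -, e2⟩ := (hN.rep.eq _ hx _ (Sf v hv)).1 ((hN.pa x hx).symm.trans e.symm)
    exact jS _ ⟨v, hv, e2⟩
  have bT : ∀ g, ∀ y ∈ Spᶜ \ fa, b g y ∈ T := fun g y hy ⟨v, hv, e⟩ =>
    hy.1 ⟨v, hv, hN.rep.ob.inj (Sf v hv) hy.2 (e.trans (hN.pb g y hy.2))⟩
  -- the first union
  have oS : IsOpen Spᶜ := (((cpt_nsq 1).of_isClosed_subset (isClosed_eq continuous_nsq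
    continuous_const) fun v hv => le_of_eq hv).image_of_continuousOn
      (hO.neck.contOn.mono n1)).isClosed.isOpen_compl
  have oW : IsOpen (Spᶜ \ fa) := oS.inter (gl.ok 1).op
  have sW : SC (Spᶜ \ fa) := hO.sc.diff_fat oS hO.t0 (range_subset_iff.2 jS)
  have oU : IsOpen (B.pM ⁻¹' (mid ∪ core)ᶜ) :=
    (((isCompact_univ.prod isCompact_singleton).image_of_continuousOn
      (hB.neck.contOn.mono (subset_univ _))).union
        (hB.tl.ccpt b1 isCompact_singleton)).isClosed.isOpen_compl.preimage cp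
  have sU : B.pM ⁻¹' (mid ∪ core)ᶜ ⊆ B.pM ⁻¹' coreᶜ := fun x hx h => hx (Or.inr h)
  have sV : Spᶜ \ fa ⊆ faᶜ := fun y hy => hy.2
  have gW : ∀ g, ∀ c ∈ Dp, a (B.act g (B.lt c)) ∈ b g '' (Spᶜ \ fa) := fun g c hc =>
    ⟨_, ⟨jS _, gl.mb c hc⟩, (gl.glue g hc).symm⟩
  have ov : ∀ g, a '' (B.pM ⁻¹' (mid ∪ core)ᶜ) ∩ b g '' (Spᶜ \ fa) =
      (fun c => a (B.act g (B.lt c))) '' (Ioo 0 8 ×ˢ {v | 0 < nsq v ∧ nsq v < 1}) := by
    intro g
    refine Subset.antisymm ?_ ?_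
    · rintro _ ⟨⟨x, hx, rfl⟩, y, hy, e⟩
      obtain ⟨⟨θ, v⟩, hc, rfl, -⟩ := (gl.eq x (sU hx) g y hy.2).1 e.symm
      obtain ⟨θ', h1, m, h2, h3⟩ := hB.tl.cred (v := v) hc.2 0 θ
      refine ⟨(θ', v), ⟨⟨h1.1.lt_of_ne ?_, by simpa using h1.2⟩, hc⟩, ?_⟩
      · rintro rfl
        refine hx (Or.inl ⟨(e₀ (q0 + eps • v), 0), ⟨trivial, rfl⟩, ?_⟩)
        simp only
        rw [pa, hB.lp θ v hc.2, ← h3, hB.str 0 v (by simp) hc.2]
      · simp only
        rw [h2, per_int (fun θ => hB.per θ v hc.2) θ m]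
    · rintro _ ⟨⟨θ, v⟩, ⟨h1, hc⟩, rfl⟩
      refine ⟨⟨_, ?_, rfl⟩, gW g (θ, v) hc⟩
      rintro (⟨⟨m, t⟩, ⟨-, rfl⟩, e⟩ | h)
      · rw [pa, hB.lp θ v hc.2] at e
        obtain ⟨⟨n, hn⟩, -⟩ := Scn.key hB hc.2 (by norm_num) e.symm
        have h2 : (0 : ℝ) < n := by linarith [h1.1]
        have h3 : (n : ℝ) < 1 := by linarith [h1.2]
        have h4 : 0 < n := by exact_mod_cast h2
        have h5 : n < 1 := by exact_mod_cast h3
        omega
      · exact gl.ma g (θ, v) hc h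
  have oA : IsOpen (a '' (B.pM ⁻¹' (mid ∪ core)ᶜ) ∪ ⋃ g, b g '' (Spᶜ \ fa)) :=
    (gl.oi.isOpen_image oU sU).union (isOpen_iUnion fun g => (gl.ok g).isOpen_image oW sV)
  have sA : SC (a '' (B.pM ⁻¹' (mid ∪ core)ᶜ) ∪ ⋃ g, b g '' (Spᶜ \ fa)) := by
    refine sc_union_iUnion (gl.oi.isOpen_image oU sU) (fun g => (gl.ok g).isOpen_image oW sV)
      (fun g g' h z hz => ((disjoint_left.1 (gl.disj h)) (image_mono sV hz.1)
        (image_mono sV hz.2)).elim) (fun g => ?_) (gl.oi.sc_image sU hB.sc1)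
      fun g => (gl.ok g).sc_image sV sW
    rw [ov g]
    refine (((convex_Ioo _ _).isPathConnected (nonempty_Ioo.2 (by norm_num))).prod
      (pc_shell (by norm_num) le_rfl one_pos)).image' fun c hc => ?_
    exact (((hB.lld c.1 c.2 hc.2.2).trans ((oa g).ld _ trivial)).trans
      (gl.oi.ld _ (gl.ma g c hc.2))).sm.cont.continuousWithinAt
  set A := a '' (B.pM ⁻¹' (mid ∪ core)ᶜ) ∪ ⋃ g, b g '' (Spᶜ \ fa) with hA
  have AT : A ⊆ T := union_subset (image_subset_iff.2 fun x hx => aT x (sU hx))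
    (iUnion_subset fun g => image_subset_iff.2 (bT g))
  -- the necks
  let D : Set F.cyl := {e₀ q0}ᶜ ×ˢ Ioo (-3) 3
  let f : B.G → F.cyl → NG := fun g c => a (B.act g (B.νt c))
  have oD : IsOpen D := isOpen_compl_singleton.prod isOpen_Ioo
  have iν : Injective B.νt := fun c c' e =>
    hB.neck.inj trivial trivial (by rw [← hB.νp, ← hB.νp, e])
  have mU : ∀ g, ∀ c ∈ D, B.pM (B.act g (B.νt c)) ∉ core := by
    rintro g c hc ⟨⟨θ, v⟩, ⟨-, rfl⟩, e⟩
    rw [pa, hB.νp] at e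
    exact hc.1 (by simpa using (Scn.key hB (m := c.1) (b1 rfl) hc.2 e).2)
  have of : ∀ g, OE F.cyl NG (f g) D := fun g =>
    ((OE.mk oD (fun c _ => hB.νld c) iν.injOn).trans (oa g) (mapsTo_univ _ _)).trans gl.oi (mU g)
  have fA : ∀ g, ∀ m ∈ ({e₀ q0}ᶜ : Set F), ∀ t ∈ Ioo (-3 : ℝ) 3, t ≠ 0 → f g (m, t) ∈ A := by
    intro g m hm t ht h0
    refine Or.inl ⟨_, ?_, rfl⟩
    rintro (⟨⟨m', t'⟩, ⟨-, rfl⟩, e⟩ | h)
    · rw [pa, hB.νp] at e
      exact h0 (Prod.ext_iff.1 (hB.neck.inj trivial trivial e)).2.symm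
    · exact mU g (m, t) ⟨hm, ht⟩ h
  have pF : IsPathConnected ({e₀ q0}ᶜ : Set F) := F.pc_compl (by simp) (countable_singleton _)
  have pA : ∀ g, IsPathConnected (A ∩ f g '' D) := by
    intro g
    have hv : ((0 : ℝ), fun _ : Fin 3 => (1 / 2 : ℝ)) ∈ Dp := by
      norm_num [Dp, nsq]
    rw [inter_comm, ← image_inter_preimage]
    refine (of g).pc_image inter_subset_left (Scn.pc_slab pF inter_subset_left
      (fun m hm t ht h0 => ⟨⟨hm, ht⟩, fA g m hm t ht h0⟩)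
      (m₀ := e₀ (q0 + eps • fun _ => 1 / 2)) ⟨⟨fun h => ?_, by norm_num⟩, Or.inr ?_⟩)
    · have e := hB.str 0 _ (by simp) hv.2
      have e' := hB.str 0 0 (by simp) (b1 rfl)
      rw [show e₀ (q0 + eps • fun _ => 1 / 2) = e₀ q0 from h] at e
      rw [smul_zero, add_zero, ← e] at e'
      exact nsq_pos.1 hv.1 ((hB.tl.eq _ _ _ (b1 rfl) _ hv.2).1 e').2.symm
    · refine mem_iUnion.2 ⟨g, ?_⟩
      have := gW g _ hv
      rwa [hB.strt 0 _ (by simp) hv.2] at this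
  have fT : ∀ g, MapsTo (f g) D T := fun g c hc => aT _ (mU g c hc)
  have tB : ∀ g, Thin (f g '' D) T := fun g => thin_of_triv (fT g).image_subset fun G _ τ hτ => by
    obtain ⟨s, hs⟩ := hτ.triv_of_sc sA AT
    have mD : MapsTo (fun q : ℝ × F.cyl => ((q.2.1, (1 - q.1) * q.2.2 + q.1) : F.cyl))
        (Icc 0 1 ×ˢ D) D := fun q hq =>
      ⟨hq.2.1, by simpa using (convex_Ioo (-3 : ℝ) 3 hq.2.2 (y := 1) (by norm_num)
        (sub_nonneg.2 hq.1.2) hq.1.1 (sub_add_cancel _ _))⟩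
    obtain ⟨r, hr⟩ := hτ.up_homotopy (U := D)
      (H := fun q : ℝ × F.cyl => f g (q.2.1, (1 - q.1) * q.2.2 + q.1))
      ((of g).contOn.comp (by fun_prop) mD) (fun q hq => fT g (mD hq))
      (hs.up fun c hc => fA g _ hc.1 _ (by norm_num) (by norm_num))
    exact (of g).triv_of_up hτ subset_rfl (fT g)
      (hr.congr (fun c _ => by simp) fun _ _ => rfl)
  have eT : T = A ∪ ⋃ g, f g '' D := by
    refine Subset.antisymm (fun z hz => ?_)
      (union_subset AT (iUnion_subset fun g => (fT g).image_subset))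
    obtain ⟨x, hx, rfl⟩ | ⟨g, y, hy, rfl⟩ := gl.cov z
    · by_cases h : B.pM x ∈ mid
      · obtain ⟨⟨m, t⟩, ⟨-, rfl⟩, e⟩ := h
        obtain ⟨g, rfl⟩ := (hB.fib _ _).1 ((hB.νp _).trans e)
        refine Or.inr (mem_iUnion.2 ⟨g, (m, 0), ⟨?_, by norm_num⟩, rfl⟩)
        rintro rfl
        refine hx ⟨(0, 0), ⟨trivial, rfl⟩, ?_⟩
        rw [← e, hB.str 0 0 (by simp) (b1 rfl), smul_zero, add_zero]
      · exact Or.inl (Or.inl ⟨x, fun h' => h'.elim h hx, rfl⟩)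
    · refine Or.inl (Or.inr (mem_iUnion.2 ⟨g, y, ⟨?_, hy⟩, rfl⟩))
      rintro ⟨v, hv, rfl⟩
      exact hz ⟨v, hv, (hN.pb g _ hy).symm⟩
  have th := thin_union_iUnion oA (fun g => (of g).isOpen_image oD subset_rfl)
    (fun g g' h z ⟨⟨c, hc, e⟩, c', hc', e'⟩ => (h (by
      have e1 := gl.oi.inj (mU g c hc) (mU g' c' hc') (e.trans e'.symm)
      have e2 : c = c' := hB.neck.inj trivial trivial
        (by rw [← hB.νp, ← hB.νp, ← pa g, e1, pa])
      subst e2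
      refine (inv_mul_eq_one.1 (hB.free _ (B.νt c) ?_)).symm
      rw [hB.actm, e1, ← hB.actm, inv_mul_cancel, hB.act1])).elim)
    (fun g x hx y hy => (pA g).joinedIn x hx y hy) (sA.2.mono subset_rfl AT) tB
  rw [← eT] at th
  refine ⟨?_, th⟩
  rw [eT]
  exact isPathConnected_union_iUnion sA.1 (fun g => (of g).pc_image subset_rfl
    (pF.prod ((convex_Ioo _ _).isPathConnected (nonempty_Ioo.2 (by norm_num)))))
    fun g => (pA g).nonempty

end Pool.Agent.MP_e1dc65_gt.EC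

end
end MrgPart5

-- ======== part 6: formerly Pool.Agent.MP_e1dc65_gt.e.C
section MrgPart6

/-! PROJECT HC, part E, sub-part C: assembly. -/

open scoped ContDiff Manifold Topology Real
open Set Filter Function

noncomputable section

namespace Pool.Agent.MP_e1dc65_gt.EC
open E

/-- a compact set that maps onto a compact manifold -/
theorem exists_cpt {X Y : Mf E4} [CompactSpace Y] {p : X → Y} (ld : ∀ x, LDAt X Y p x)
    (hs : Surjective p) : ∃ K, IsCompact K ∧ ∀ y, ∃ x ∈ K, p x = y := by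
  obtain ⟨K, h1, h2⟩ := isCompact_univ.induction_on
    (p := fun S : Set Y => ∃ K, IsCompact K ∧ S ⊆ p '' K) ⟨∅, isCompact_empty, empty_subset _⟩
    (fun s t hst ⟨K, h1, h2⟩ => ⟨K, h1, hst.trans h2⟩)
    (fun s t ⟨K, h1, h2⟩ ⟨K', h1', h2'⟩ =>
      ⟨K ∪ K', h1.union h1', by rw [image_union]; exact union_subset_union h2 h2'⟩)
    fun y _ => by
      obtain ⟨x, rfl⟩ := hs y
      obtain ⟨K, h1, h2⟩ := exists_compact_mem_nhds x
      exact ⟨_, mem_nhdsWithin_of_mem_nhds ((ld x).image_mem h2), K, h1, subset_rfl⟩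
  exact ⟨K, h1, fun y => h2 (mem_univ y)⟩

theorem _root_.Pool.Agent.MP_e1dc65_gt.E.partC : CStmt := by
  intro hA hB C
  obtain ⟨D, d1, d2⟩ := hA C
  obtain ⟨B, hb⟩ := hB C D d1
  obtain ⟨Ω, j₀, j₁, k, ν, β, ho⟩ := om
  obtain ⟨a₁, b₁, r1⟩ := rep1 _ _ _ _ _ _ _ _ hb.tl ho
  obtain ⟨N, NG, a₀, b₀, a, b, p, γ, hn⟩ := ng C _ _ B Ω j₀ hb ho.t0
  obtain ⟨t1, t2⟩ := thn C _ _ B hb
  obtain ⟨c1, c2⟩ := cpo _ _ _ _ _ _ _ hb.tl ho.t0 hn.rep
  have sc := scn C _ _ B _ _ _ _ _ _ _ _ _ _ _ _ _ _ d1.isF.cpt d1.isF.conn hb ho hn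
  have := c1 hb.cpt ho.cpt
  obtain ⟨q1, q2, q3⟩ := qcov hn.act hn.free hn.ld hn.sur hn.fib
  have nk : OE (vs (Rn 4)) N (fun v => b₀ (ν v)) {v | v ≠ 0} :=
    ho.neck.trans hn.rep.ob fun v hv h => ho.dis v hv (image_subset_range _ _ h)
  have z0 : B.z 0 = 1 := by simpa using hb.zm 0 0
  have cn : ConnectedSpace N := by
    have h0 := (sc.1.image (locHomeo_of_ld hn.ld).continuous).isConnected.closure
    rw [image_preimage_eq _ hn.sur] at h0
    refine connectedSpace_iff_univ.2 (eq_univ_of_forall (fun y => ?_) ▸ h0)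
    by_cases hy : y ∈ (fun v => b₀ (ν v)) '' {v | nsq v = 1}
    swap
    · exact subset_closure hy
    obtain ⟨v, hv, rfl⟩ := hy
    have hv' : nsq v = 1 := hv
    have v0 : v ≠ 0 := nsq_pos.1 (hv' ▸ one_pos)
    have l1 : Tendsto (fun t : ℝ => t • v) (𝓝[>] 1) (𝓝 v) := by
      simpa using ((by fun_prop : Continuous fun t : ℝ => t • v).tendsto 1).mono_left
        (nhdsWithin_le_nhds (s := Ioi 1))
    refine mem_closure_of_tendsto ((nk.ld v v0).sm.cont.tendsto.comp l1) ?_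
    filter_upwards [self_mem_nhdsWithin]
    rintro t (ht : 1 < t) ⟨u, hu, e⟩
    have hu' : nsq u = 1 := hu
    rw [nk.inj (nsq_pos.1 (hu' ▸ one_pos)) (smul_ne_zero (by linarith) v0) e, nsq_smul, hv'] at hu'
    nlinarith
  refine ⟨⟨D.F, D.e₀, D.e, B.M, Ω, B.ν, B.l, j₀, j₁⟩, ⟨D.F, B.M, N, D.Q, B.MG, NG, B.ν,
    fun v => b₀ (ν v), D.νQ, D.κ, B.pM, p, fun n => γ (B.z n)⟩, a₀, b₀, a₁, b₁,
    ⟨d1.isF, hb.neck, hb.tl, hb.str, hb.off, ho.t0, ho.t1, ho.same, t1⟩,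
    ⟨d1.isF.cpt, d1.isF.conn, d2.perf, hb.ori, c2 hb.ori ho.ori, hb.neck, t2, hb.h2,
      (qcov (actOn_univ hb.act1 hb.actm hb.actsm) hb.free hb.ld hb.sur hb.fib).1, hb.sur, hb.ld,
      hb.spin, nk, q1, hn.sur, hn.ld, q3, sc, fun n => (hn.act.sm _).cont,
      fun y => (congrArg (γ · y) z0).trans (hn.act.one y trivial),
      fun m n y => (congrArg (γ · y) (hb.zm m n)).trans (hn.act.mul _ _ y trivial),
      fun n y => ((hn.fib _ _).2 ⟨_, rfl⟩).symm, ?_, fun K hK => ?_, d2.oriQ, d1.h2Q, d2.endQ,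
      d2.cptQ, d2.clQ, d2.ldκ, d2.eqκ, d2.disκ, d2.spinP⟩, hn.rep, r1, hb.cpt, hb.conn,
    inferInstance, cn⟩
  · obtain ⟨K, k1, k2⟩ := exists_cpt hn.ld hn.sur
    obtain ⟨s, hs⟩ := hb.zfin
    refine ⟨⋃ g ∈ s, γ g '' K, s.isCompact_biUnion fun g _ => k1.image (hn.act.sm g).cont,
      fun y => ?_⟩
    obtain ⟨x, hx, e⟩ := k2 (p y)
    obtain ⟨g, rfl⟩ := (hn.fib _ _).1 e
    obtain ⟨n, h, hh, rfl⟩ := hs g
    refine ⟨-n, mem_biUnion hh ⟨x, hx, ?_⟩⟩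
    change _ = γ _ _
    rw [← hn.act.mul _ _ _ trivial, ← mul_assoc, ← hb.zm, neg_add_cancel, z0, one_mul]
  · refine ((q2 K hK).preimage hb.zinj.injOn).subset ?_
    rintro n ⟨_, ⟨x, hx, rfl⟩, hx'⟩
    exact ⟨x, hx, hx'⟩

end Pool.Agent.MP_e1dc65_gt.EC

end
end MrgPart6

-- ======== part 7: formerly Pool.Agent.MP_e1dc65_gt.t.Prof
section MrgPart7

/-! PROJECT HC, block A, row PROF: the functions of one variable. -/

open scoped ContDiff Topology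
open Set Filter Function

noncomputable section

namespace Pool.Agent.MP_e1dc65_gt.T

namespace PROF
open Loc Real.smoothTransition

variable {x y s c : ℝ} {g : ℝ → ℝ}

theorem hd (x : ℝ) : HasDerivAt Real.smoothTransition (deriv Real.smoothTransition x) x :=
  ((Real.smoothTransition.contDiff (n := 1)).differentiable one_ne_zero x).hasDerivAt

theorem d0 (x : ℝ) : 0 ≤ deriv Real.smoothTransition x :=
  Real.smoothTransition.monotone.deriv_nonneg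

theorem dz (h : x < 0 ∨ 1 < x) : deriv Real.smoothTransition x = 0 := by
  rcases h with h | h
  · rw [EventuallyEq.deriv_eq (f := fun _ => 0)
      ((gt_mem_nhds h).mono fun _ h => zero_of_nonpos h.le), deriv_const]
  · rw [EventuallyEq.deriv_eq (f := fun _ => 1)
      ((lt_mem_nhds h).mono fun _ h => one_of_one_le h.le), deriv_const]

theorem cd_sig : ContDiff ℝ ∞ sig :=
  contDiff_id.add (contDiff_const.mul ((contDiff_const.mul
    (Real.smoothTransition.contDiff.comp (by fun_prop))).sub contDiff_const))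

theorem d_sig (y : ℝ) : 0 < deriv sig y := by
  have h1 := (hd (2 * y + 1 / 2)).comp y (((hasDerivAt_id' y).const_mul 2).add_const (1 / 2))
  have h : HasDerivAt sig _ y :=
    (hasDerivAt_id y).fun_add (((h1.const_mul 2).sub_const 1).const_mul 12)
  rw [h.deriv]
  linarith [d0 (2 * y + 1 / 2)]

theorem mono_sig : StrictMono sig := strictMono_of_deriv_pos d_sig

theorem sig_out (h : 1 / 4 ≤ y) : sig y = y + 12 ∧ sig (-y) = -(y + 12) := by
  rw [sig, sig, one_of_one_le (by linarith), zero_of_nonpos (by linarith)]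
  constructor <;> ring

theorem surj_sig : Surjective sig := fun s => by
  have h := abs_nonneg s
  refine (intermediate_value_Icc (a := -(|s| + 1)) (b := |s| + 1) (by linarith)
    cd_sig.continuous.continuousOn ?_).imp fun _ h => h.2
  rw [(sig_out (y := |s| + 1) (by linarith)).1, (sig_out (by linarith)).2]
  constructor <;> linarith [le_abs_self s, neg_abs_le s]

theorem tau_sig (y : ℝ) : tau (sig y) = y := leftInverse_invFun mono_sig.injective y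
theorem sig_tau (s : ℝ) : sig (tau s) = s := rightInverse_invFun surj_sig s

theorem cd_tau : ContDiff ℝ ∞ tau := by
  let f := (mono_sig.orderIsoOfSurjective sig surj_sig).toHomeomorph
  have h := f.contDiff_symm_deriv (fun x => (d_sig x).ne')
    (fun x => (cd_sig.differentiable (by simp) x).hasDerivAt) cd_sig
  rwa [show (f.symm : ℝ → ℝ) = tau from funext fun s => mono_sig.injective
    ((f.apply_symm_apply s).trans (sig_tau s).symm)] at h

theorem d_tau (s : ℝ) : 0 < deriv tau s := by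
  have h := (cd_sig.differentiable (by simp) (tau s)).hasDerivAt.comp s
    (cd_tau.differentiable (by simp) s).hasDerivAt
  rw [show sig ∘ tau = id from funext sig_tau] at h
  exact (pos_iff_pos_of_mul_pos (h.unique (hasDerivAt_id s) ▸ one_pos)).1 (d_sig _)

theorem tau_out (h : 49 / 4 ≤ |s|) : |tau s| = |s| - 12 := by
  obtain ⟨h1, h2⟩ := sig_out (y := |s| - 12) (by linarith)
  rcases abs_cases s with h3 | h3
  · rw [show tau s = |s| - 12 by rw [← tau_sig (|s| - 12), h1, sub_add_cancel, h3.1],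
      abs_of_nonneg (by linarith)]
  · rw [show tau s = -(|s| - 12) by
      rw [← tau_sig (-(|s| - 12)), h2, sub_add_cancel, h3.1, neg_neg], abs_neg,
      abs_of_nonneg (by linarith)]

theorem tau_in (h : |s| ≤ 49 / 4) : |tau s| ≤ 1 / 4 := by
  obtain ⟨h1, h2⟩ := sig_out (y := 1 / 4) le_rfl
  rw [abs_le] at h ⊢
  constructor <;> refine mono_sig.le_iff_le.1 ?_ <;> rw [sig_tau] <;> linarith [h.1, h.2]

theorem cd_gt : ContDiff ℝ ∞ gt := by
  have h : ContDiff ℝ ∞ fun y : ℝ => Real.smoothTransition ((y - 3 / 10) / (3 / 10)) :=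
    Real.smoothTransition.contDiff.comp (by fun_prop)
  exact (h.mul (cd_gam _)).add ((contDiff_const.sub h).mul (contDiff_id.sub contDiff_const))

theorem gt_hi (h : 3 / 5 ≤ y) : gt y = gam (-2) y := by
  rw [gt, one_of_one_le (by linarith)]; ring

theorem gt_lo (h : y ≤ 3 / 10) : gt y = y - 3 := by
  rw [gt, zero_of_nonpos (by linarith)]; ring

theorem d_gt (y : ℝ) : 0 < deriv gt y := by
  have h1 := (hd ((y - 3 / 10) / (3 / 10))).comp y
    (((hasDerivAt_id y).sub_const (3 / 10)).div_const (3 / 10))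
  have h : HasDerivAt gt _ y :=
    (h1.fun_mul ((cd_gam (-2)).differentiable (by simp) y).hasDerivAt).fun_add
      ((h1.const_sub 1).fun_mul ((hasDerivAt_id y).sub_const 3))
  rw [h.deriv]
  have a1 := mul_nonneg (d0 ((y - 3 / 10) / (3 / 10))) (show 0 ≤ gam (-2) y - (y - 3) by
    nlinarith [le_gam (t := -2) (by norm_num) y, sq_nonneg (y - 1 / 2)])
  simp only [comp_apply, id]
  rcases le_or_gt y 0 with h2 | h2
  · rw [zero_of_nonpos (x := (y - 3 / 10) / (3 / 10)) (by linarith)]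
    nlinarith
  · have a2 := deriv_gam_pos (t := -2) (by norm_num) h2
    have a3 := nonneg ((y - 3 / 10) / (3 / 10))
    rcases (le_one ((y - 3 / 10) / (3 / 10))).lt_or_eq with a4 | a4
    · nlinarith [mul_nonneg a3 a2.le]
    · rw [a4]
      nlinarith

theorem Cc_in (h : |s| ≤ 5) : Cc c g s = c - s ^ 2 := by
  rw [Cc, tc, zero_of_nonpos (by linarith)]; ring

theorem Cc_out (h : 6 ≤ |s|) : Cc c g s = g (12 - |s|) := by
  rw [Cc, tc, one_of_one_le (by linarith)]; ring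

theorem Cc_neg (s : ℝ) : Cc c g (-s) = Cc c g s := by simp [Cc, tc]

theorem cd_Cc (hg : ContDiff ℝ ∞ g) : ContDiff ℝ ∞ (Cc c g) := contDiff_iff_contDiffAt.2 fun s => by
  rcases eq_or_ne s 0 with rfl | h
  · refine (show ContDiffAt ℝ ∞ (fun s => c - s ^ 2) 0 by fun_prop).congr_of_eventuallyEq ?_
    filter_upwards [Ioo_mem_nhds (show (-5 : ℝ) < 0 by norm_num) (show (0 : ℝ) < 5 by norm_num)]
      with r hr using Cc_in (abs_le.2 ⟨hr.1.le, hr.2.le⟩)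
  · have h1 : ContDiffAt ℝ ∞ tc s :=
      Real.smoothTransition.contDiffAt.comp s ((contDiffAt_abs h).sub contDiffAt_const)
    exact ((contDiffAt_const.sub h1).mul (by fun_prop)).add
      (h1.mul (hg.contDiffAt.comp s (contDiffAt_const.sub (contDiffAt_abs h))))

theorem d_abs (s : ℝ) : s * deriv (Cc c g) s = |s| * deriv (Cc c g) |s| := by
  rcases abs_cases s with h | h
  · rw [h.1]
  · have h1 := deriv_comp_neg (Cc c g) s
    simp only [Cc_neg] at h1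
    rw [h.1, h1]
    ring

theorem d_Cc (hg : ContDiff ℝ ∞ g) (hs : 0 < s) : deriv (Cc c g) s =
    deriv Real.smoothTransition (s - 5) * (g (12 - s) - (c - s ^ 2)) - (1 - tc s) * (2 * s) -
      tc s * deriv g (12 - s) := by
  have h1 : HasDerivAt tc _ s := (hd (|s| - 5)).comp s ((hasDerivAt_abs_pos hs).sub_const 5)
  have h : HasDerivAt (Cc c g) _ s := ((h1.const_sub 1).fun_mul
    (((hasDerivAt_id s).fun_pow 2).const_sub c)).fun_add (h1.fun_mul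
      ((hg.differentiable (by simp) (12 - |s|)).hasDerivAt.comp s
        ((hasDerivAt_abs_pos hs).const_sub 12)))
  rw [h.deriv]
  simp only [id, abs_of_pos hs]
  push_cast
  ring

theorem d_neg (hc : 100 ≤ c) (hg : ContDiff ℝ ∞ g) (hs : s ≠ 0) (h1 : 0 < deriv g (12 - |s|))
    (h2 : ∀ y ∈ Icc (6 : ℝ) 7, g y ≤ 51) : s * deriv (Cc c g) s < 0 := by
  have h0 := abs_pos.2 hs
  rw [d_abs, d_Cc hg h0]
  generalize |s| = r at *
  refine mul_neg_of_pos_of_neg h0 ?_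
  have a1 : deriv Real.smoothTransition (r - 5) * (g (12 - r) - (c - r ^ 2)) ≤ 0 := by
    by_cases h : r - 5 < 0 ∨ 1 < r - 5
    · rw [dz h, zero_mul]
    · rw [not_or, not_lt, not_lt] at h
      exact mul_nonpos_of_nonneg_of_nonpos (d0 _) (by
        nlinarith [h2 (12 - r) ⟨by linarith [h.2], by linarith [h.1]⟩, h.1, h.2])
  have a3 : 0 ≤ tc r := nonneg _
  rcases (show tc r ≤ 1 from le_one _).lt_or_eq with a4 | a4
  · nlinarith [mul_nonneg a3 h1.le, mul_pos (sub_pos.2 a4) h0]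
  · rw [a4]
    linarith

theorem gam51 {t : ℝ} (ht : t ≤ 2) (h : |y| ≤ 7) : gam t y ≤ 51 := by
  nlinarith [gam_le ht y, abs_le.1 h]

end PROF

open PROF Loc in
theorem prof : ProfStmt := by
  refine ⟨oe_of_inv isOpen_univ isOpen_univ (fun _ _ => smAt_vs.2 cd_sig.contDiffAt)
    (fun _ _ => smAt_vs.2 cd_tau.contDiffAt) (mapsTo_univ _ _) (mapsTo_univ _ _)
    (fun y _ => tau_sig y) fun s _ => sig_tau s, mono_sig, cd_tau, d_tau, tau_sig, sig_tau,
    fun _ => tau_out, fun _ => tau_in, fun _ => sig_out, cd_gt, d_gt, fun _ => gt_hi,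
    fun _ => gt_lo, fun c hc => ⟨fun g hg => ⟨cd_Cc hg, Cc_neg, fun _ => Cc_in, fun _ => Cc_out⟩,
      fun t ht s => ?_, fun s hs => d_neg hc cd_gt hs (d_gt _) fun y hy => ?_⟩⟩
  · have h2 : t ≤ 2 := by rcases ht with rfl | rfl <;> norm_num
    have a3 : 0 ≤ tc s := Real.smoothTransition.nonneg _
    have a4 : tc s ≤ 1 := Real.smoothTransition.le_one _
    have a5 := sq_abs s
    have a6 := abs_nonneg s
    refine ⟨fun h0 h1 => d_neg hc (cd_gam t) (abs_pos.1 h0) (deriv_gam_pos h2 (sub_pos.2 h1))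
      fun y hy => gam51 h2 (abs_le.2 ⟨by linarith [hy.1], hy.2⟩), fun h => ?_, ?_, fun h => ?_⟩
    · rw [d_abs, d_Cc (cd_gam t) (by linarith), dz (Or.inr (by linarith)), tc, abs_abs,
        Real.smoothTransition.one_of_one_le (by linarith)]
      nlinarith [mul_deriv_pos h2 (y := 12 - |s|) (by linarith)]
    · have a7 : t ≤ gam t (12 - |s|) := by nlinarith [le_gam h2 (12 - |s|), sq_nonneg (12 - |s|)]
      rcases le_total 6 |s| with h | h
      · rwa [Cc_out h]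
      · have a8 : t ≤ c - s ^ 2 := by nlinarith
        rw [Cc]
        nlinarith
    · rcases le_total |s| 5 with h1 | h1
      · rw [Cc_in h1]
        linarith [min_le_left (s ^ 2) 25]
      · have a7 := gam51 h2 (y := 12 - |s|) (abs_le.2 ⟨by linarith, by linarith⟩)
        have a8 : 25 ≤ s ^ 2 := by nlinarith
        rw [Cc, min_eq_right a8]
        nlinarith
  · rw [gt_hi (by linarith [hy.1])]
    exact gam51 (by norm_num) (abs_le.2 ⟨by linarith [hy.1], hy.2⟩)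

end Pool.Agent.MP_e1dc65_gt.T

end
end MrgPart7

-- ======== part 8: formerly Pool.Agent.MP_e1dc65_gt.t2.Io
section MrgPart8

/-! PROJECT HC, block PK, row IO: the package patch is a bounded smooth embedding. -/

open scoped ContDiff Manifold Topology Real
open Set Filter Function Module Topology

noncomputable section

namespace Pool.Agent.MP_e1dc65_gt.T

namespace IoP
open Loc PROF

variable {N : NF} {ε : N.F × E2 → R3 × E2} {R y : ℝ} {p p' : N.F × R3}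

theorem gt_inc : Fn.IncU gt := ⟨cd_gt, d_gt⟩
theorem gt_zero : gt 0 = -3 := by rw [gt_lo (by norm_num)]; norm_num
theorem gt_lt (h : y < 7 / 10) : gt y < -1 := (gt_inc.mono h).trans (by
  rw [gt_hi (by norm_num), gam_in _ (by rw [abs_le]; norm_num)]; norm_num)
theorem gt_surj : Surjective gt := by
  refine cd_gt.continuous.surjective (tendsto_atTop_mono' _ ?_
    (tendsto_atTop_add_const_right _ (-2) tendsto_id)) (Tendsto.congr' ?_
    (tendsto_atBot_add_const_right _ (-3) tendsto_id))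
  · filter_upwards [eventually_ge_atTop 1] with y hy
    rw [gt_hi (by linarith)]
    exact le_trans (by simp only [id]; nlinarith) (le_gam (by norm_num) y)
  · filter_upwards [eventually_le_atBot 0] with y hy
    rw [gt_lo (by linarith)]; rfl

theorem out_of {x : E2} {t : ℝ} (h : t < -1) : ((x, t) : R3) ∈ Out :=
  .inr (lt_abs.2 (.inr (by linarith)))

theorem g_eq (hp : p ∈ N.Hyp (Gm (-2))) : N.g (p.1, p.2.1) = gam (-2) p.2.2 := by
  have : N.f p.1 = Gm (-2) p.2 := hp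
  simp only [NF.g, this, Gm]; ring

theorem nr (hp : p ∈ N.Pt (Gm (-2)) D0) : (p.1, p.2.1) ∈ N.NR := by
  have h : |p.2.2| < 5 := hp.2.2.2
  refine ⟨hp.2.1, hp.2.2.1, ?_, ?_⟩ <;> rw [g_eq hp.1]
  · nlinarith [le_gam (t := -2) (by norm_num) p.2.2, sq_nonneg p.2.2]
  · nlinarith [gam_le (t := -2) (by norm_num) p.2.2, abs_lt.1 h]

/-- the reflection in coordinates -/
def rr (q : R3 × E2) : R3 := (q.1.1, -√(G5 q + 2) - 3 - ‖q.2‖ ^ 2)

theorem rr_out (q : R3 × E2) : rr q ∈ Out :=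
  out_of (by linarith [Real.sqrt_nonneg (G5 q + 2), sq_nonneg ‖q.2‖])

theorem rf_eq (N : NF) (q : R3 × E2) : N.rf q = (N.pinv (rr q), q.2) := by
  rw [NF.rf, gt_lo (by linarith [Real.sqrt_nonneg (G5 q + 2)]), rr]

theorem cd_G5 : ContDiff ℝ ∞ G5 := contDiff_fst.snd.add (contDiff_snd.norm_sq ℝ)

theorem rfi (hN : N.Ok) : InjOn N.rf {q | -2 ≤ G5 q} := fun q hq q' hq' e => by
  rw [rf_eq, rf_eq, Prod.mk.injEq] at e
  have h := congrArg N.pj e.1
  rw [pj_pinv hN (rr_out q), pj_pinv hN (rr_out q'), rr, rr, Prod.mk.injEq, e.2] at h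
  have h2 : G5 q + 2 = G5 q' + 2 := (Real.sqrt_inj (by linarith [hq.out])
    (by linarith [hq'.out])).1 (by linarith [h.2])
  simp only [G5, e.2] at h2
  exact Prod.ext (Prod.ext h.1 (by linarith)) e.2

theorem rf_ld (hN : N.Ok) {q : R3 × E2} (hq : -2 < G5 q) :
    LDAt (vs (R3 × E2)) (N.F.prod (vs E2)) N.rf q := by
  have c1 : ContDiff ℝ ∞ fun q : R3 × E2 => ‖q.2‖ ^ 2 := contDiff_snd.norm_sq ℝ
  have h1 : LDAt (vs (R3 × E2)) (vs (R3 × E2)) (fun q => (rr q, q.2)) q := by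
    refine ldAt_of_inv (X := vs (R3 × E2)) (Y := vs (R3 × E2))
      (g := fun q => ((q.1.1, (G5 q + 3) ^ 2 - 2 - ‖q.2‖ ^ 2), q.2)) (U := {q | -2 < G5 q})
      (W := {q | G5 q < -3}) (isOpen_lt continuous_const cd_G5.continuous)
      (isOpen_lt cd_G5.continuous continuous_const) hq (fun q hq => smAt_vs.2 ?_)
      (fun q _ => smAt_vs.2 ?_) (fun q hq => ?_) (fun q hq => ?_) (fun q hq => ?_) fun q hq => ?_
    · exact (contDiffAt_fst.fst.prodMk ((((cd_G5.contDiffAt.add contDiffAt_const).sqrt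
        (by linarith [hq.out])).neg.sub contDiffAt_const).sub c1.contDiffAt)).prodMk contDiffAt_snd
    · exact ((contDiff_fst.fst.prodMk ((((cd_G5.add contDiff_const).pow 2).sub
        contDiff_const).sub c1)).prodMk contDiff_snd).contDiffAt
    · have := Real.sqrt_pos.2 (show 0 < G5 q + 2 by linarith [hq.out])
      change -√(G5 q + 2) - 3 - ‖q.2‖ ^ 2 + ‖q.2‖ ^ 2 < -3
      linarith
    · change -2 < (G5 q + 3) ^ 2 - 2 - ‖q.2‖ ^ 2 + ‖q.2‖ ^ 2
      nlinarith [hq.out]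
    · refine Prod.ext (Prod.ext rfl ?_) rfl
      change (-√(G5 q + 2) - 3 - ‖q.2‖ ^ 2 + ‖q.2‖ ^ 2 + 3) ^ 2 - 2 - ‖q.2‖ ^ 2 = q.1.2
      have := Real.sq_sqrt (show 0 ≤ G5 q + 2 by linarith [hq.out])
      rw [G5] at this ⊢
      nlinarith
    · refine Prod.ext (Prod.ext rfl ?_) rfl
      change -√((G5 q + 3) ^ 2 - 2 - ‖q.2‖ ^ 2 + ‖q.2‖ ^ 2 + 2) - 3 - ‖q.2‖ ^ 2 = q.1.2
      rw [show (G5 q + 3) ^ 2 - 2 - ‖q.2‖ ^ 2 + ‖q.2‖ ^ 2 + 2 = (G5 q + 3) ^ 2 by ring,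
        Real.sqrt_sq_eq_abs, abs_of_neg (by linarith [hq.out]), G5]
      ring
  have h2 : ∀ q, LDAt (vs (R3 × E2)) ((vs R3).prod (vs E2)) (fun q => q) q := fun q =>
    ldAt_of_inv (X := vs (R3 × E2)) (Y := (vs R3).prod (vs E2)) isOpen_univ isOpen_univ trivial
      (fun _ _ => smAt_vs_prod) (fun _ _ => smAt_prod_vs) (mapsTo_univ _ _) (mapsTo_univ _ _)
      (fun _ _ => rfl) fun _ _ => rfl
  exact ((h1.trans (h2 _)).trans (((oe_pinv hN).ld _ (rr_out q)).prodMap ldAt_id)).congr'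
    (.of_forall (rf_eq N))

theorem G5_low (hE : Emb N ε R) (hp : p ∈ N.Pt (Gm (-2)) D0) :
    min (p.2.2 ^ 2) (1 / 4) - 2 ≤ G5 (ε (p.1, p.2.1)) := by
  rcases lt_or_ge (N.g (p.1, p.2.1)) (-(3 / 2)) with h | h
  · rw [hE.std _ (nr hp) h]
    change _ ≤ N.g (p.1, p.2.1)
    rw [g_eq hp.1]
    linarith [le_gam (t := -2) (by norm_num) p.2.2, min_le_left (p.2.2 ^ 2) (1 / 4)]
  · linarith [hE.low _ (nr hp) (by linarith), min_le_right (p.2.2 ^ 2) (1 / 4)]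

theorem G5_ge (hE : Emb N ε R) (hp : p ∈ N.Pt (Gm (-2)) D0) : -2 ≤ G5 (ε (p.1, p.2.1)) := by
  linarith [G5_low hE hp, le_min (sq_nonneg p.2.2) (show (0 : ℝ) ≤ 1 / 4 by norm_num)]

/-- the middle formula -/
def mid (N : NF) (p : N.F × R3) : N.F × E2 :=
  (N.pinv (N.w p.1, gt p.2.2 - ‖p.2.1‖ ^ 2), p.2.1)

theorem mid_out {x v : E2} (h : y < 7 / 10) : ((x, gt y - ‖v‖ ^ 2) : R3) ∈ Out :=
  out_of (by linarith [gt_lt h, sq_nonneg ‖v‖])

theorem g_mid (hp : p ∈ N.Hyp (Gm (-2))) (h : |p.2.2| < 7 / 10) :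
    N.g (p.1, p.2.1) = p.2.2 ^ 2 - 2 ∧ p.2.2 ^ 2 < 1 / 2 :=
  ⟨by rw [g_eq hp, gam_in _ (by linarith)]; ring, by nlinarith [abs_lt.1 h]⟩

theorem mid_K (hp : p ∈ N.Hyp (Gm (-2))) (h : |p.2.2| < 7 / 10) : p.1 ∉ N.K := by
  obtain ⟨h1, h2⟩ := g_mid hp h
  rw [NF.g] at h1
  exact not_K.2 (out_of (by linarith [sq_nonneg ‖p.2.1‖]))

theorem rf_mid (hE : Emb N ε R) (hp : p ∈ N.Pt (Gm (-2)) D0) (h : -(7 / 10) < p.2.2)
    (h' : p.2.2 ≤ 0) : N.rf (ε (p.1, p.2.1)) = mid N p := by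
  obtain ⟨h1, h2⟩ := g_mid hp.1 (abs_lt.2 ⟨h, by linarith⟩)
  have e : G5 (N.pj p.1, p.2.1) + 2 = p.2.2 ^ 2 := by
    change N.g (p.1, p.2.1) + 2 = _
    linarith
  rw [hE.std _ (nr hp) (by linarith), NF.rf, e, Real.sqrt_sq_eq_abs, abs_of_nonpos h', neg_neg]
  rfl

theorem io_hi (h : 3 / 5 ≤ p.2.2) : N.io ε p = (p.1, p.2.1) := if_pos h

theorem io_neg (hE : Emb N ε R) (hp : p ∈ N.Pt (Gm (-2)) D0) (h : p.2.2 ≤ 0) :
    N.io ε p = N.rf (ε (p.1, p.2.1)) := by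
  rw [NF.io, if_neg (by linarith)]
  split_ifs with h1
  exacts [(rf_mid hE hp (by linarith) h).symm, rfl]

theorem io_mid (hN : N.Ok) (hE : Emb N ε R) (hp : p ∈ N.Pt (Gm (-2)) D0)
    (h : |p.2.2| < 7 / 10) : N.io ε p = mid N p := by
  rw [NF.io]
  split_ifs with h1 h2
  · have e : (N.w p.1, gt p.2.2 - ‖p.2.1‖ ^ 2) = N.pj p.1 := by
      rw [gt_hi h1]; exact Prod.ext rfl hp.1.symm
    rw [mid, e, pinv_pj hN (mid_K hp.1 h)]
  · rfl
  · exact rf_mid hE hp (abs_lt.1 h).1 (by linarith)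

theorem io_pos (hN : N.Ok) (hE : Emb N ε R) (hp : p ∈ N.Pt (Gm (-2)) D0) (h : 0 ≤ p.2.2) :
    N.w (N.io ε p).1 = N.w p.1 ∧ N.g (N.io ε p) = gt p.2.2 ∧ (N.io ε p).2 = p.2.1 := by
  rcases le_or_gt (3 / 5) p.2.2 with h1 | h1
  · rw [io_hi h1, g_eq hp.1, gt_hi h1]
    exact ⟨rfl, rfl, rfl⟩
  · have h2 := mid_out (x := N.w p.1) (v := p.2.1) (show p.2.2 < 7 / 10 by linarith)
    rw [io_mid hN hE hp (abs_lt.2 ⟨by linarith, by linarith⟩), NF.g, mid, w_pinv hN h2,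
      f_pinv hN h2]
    exact ⟨rfl, sub_add_cancel _ _, rfl⟩

theorem g_rf (hN : N.Ok) (q : R3 × E2) : N.g (N.rf q) ≤ -3 := by
  rw [rf_eq, NF.g, f_pinv hN (rr_out q), rr]
  linarith [Real.sqrt_nonneg (G5 q + 2)]

theorem inj (hN : N.Ok) (hE : Emb N ε R) : InjOn (N.io ε) (N.Pt (Gm (-2)) D0) := by
  have mix : ∀ p ∈ N.Pt (Gm (-2)) D0, ∀ p' ∈ N.Pt (Gm (-2)) D0, 0 < p.2.2 → p'.2.2 ≤ 0 →
      N.io ε p ≠ N.io ε p' := fun p hp p' hp' h h' e => by
    have h1 := (io_pos hN hE hp h.le).2.1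
    rw [e, io_neg hE hp' h'] at h1
    linarith [g_rf hN (ε (p'.1, p'.2.1)), gt_inc.mono h, gt_zero]
  intro p hp p' hp' e
  rcases le_or_gt p.2.2 0 with h | h <;> rcases le_or_gt p'.2.2 0 with h' | h'
  · rw [io_neg hE hp h, io_neg hE hp' h'] at e
    have e1 := hE.oe.inj (nr hp) (nr hp') (rfi hN (G5_ge hE hp) (G5_ge hE hp') e)
    have e2 := congrArg N.g e1
    rw [g_eq hp.1, g_eq hp'.1, ← gam_neg, ← gam_neg _ p'.2.2] at e2
    exact Prod.ext (Prod.mk.inj e1).1 (Prod.ext (Prod.mk.inj e1).2 (neg_injective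
      ((gam_strict (by norm_num)).injOn (neg_nonneg.2 h) (neg_nonneg.2 h') e2)))
  · exact (mix _ hp' _ hp h' h e.symm).elim
  · exact (mix _ hp _ hp' h h' e).elim
  · obtain ⟨a1, a2, a3⟩ := io_pos hN hE hp h.le
    obtain ⟨b1, b2, b3⟩ := io_pos hN hE hp' h'.le
    rw [e] at a1 a2 a3
    have e1 : p.2 = p'.2 := Prod.ext (a3.symm.trans b3) (gt_inc.mono.injective (a2.symm.trans b2))
    refine Prod.ext ?_ e1
    rcases le_or_gt (3 / 5) p.2.2 with h1 | h1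
    · rw [io_hi h1, io_hi (e1 ▸ h1)] at e
      exact (Prod.mk.inj e).1
    · exact pj_inj hN (mid_K hp.1 (abs_lt.2 ⟨by linarith, by linarith⟩))
        (Prod.ext (a1.symm.trans b1) (hp.1.trans ((congrArg _ e1).trans hp'.1.symm)))

theorem sm_g (hN : N.Ok) (x : N.F.prod (vs E2)) : SmAt (N.F.prod (vs E2)) (vs ℝ) N.g x :=
  ((smAt_fst.trans (hN.smf _ trivial)).vpair smAt_snd).vcomp
    (g := fun q : ℝ × E2 => q.1 + ‖q.2‖ ^ 2) (contDiffAt_fst.add (contDiffAt_snd.norm_sq ℝ))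

/-- away from `y = 0` the projection is a chart of the hypersurface -/
theorem ld_A (hN : N.Ok) (h : p.2.2 ≠ 0) : LDAt (N.F.prod (vs R3)) (N.F.prod (vs E2)).cyl
    (fun p => ((p.1, p.2.1), N.f p.1 - Gm (-2) p.2)) p := by
  have h1 : LDAt (N.F.prod (vs R3)) (N.F.prod (vs E2)).cyl (fun p => ((p.1, p.2.1), p.2.2)) p :=
    ldAt_of_inv (X := N.F.prod (vs R3)) (Y := (N.F.prod (vs E2)).cyl)
      (g := fun q => (q.1.1, q.1.2, q.2)) isOpen_univ isOpen_univ trivial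
      (fun _ _ => (smAt_fst.pair (smAt_snd.vcomp contDiffAt_fst)).pair
        (smAt_snd.vcomp contDiffAt_snd))
      (fun _ _ => (smAt_fst.trans smAt_fst).pair ((smAt_fst.trans smAt_snd).vpair smAt_snd))
      (mapsTo_univ _ _) (mapsTo_univ _ _) (fun _ _ => rfl) fun _ _ => rfl
  have h2 := Fn.ldAt_real univ_mem (fun _ _ => (cd_gam (-2)).contDiffAt)
    (right_ne_zero_of_mul (mul_deriv_pos (by norm_num) h).ne')
  have s3 : ∀ q, SmAt (N.F.prod (vs E2)).cyl (N.F.prod (vs E2)).cyl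
      (fun q => (q.1, N.g q.1 - q.2)) q := fun q =>
    smAt_fst.pair (((smAt_fst.trans (sm_g hN _)).vpair smAt_snd).vcomp
      (g := fun q : ℝ × ℝ => q.1 - q.2) (contDiffAt_fst.sub contDiffAt_snd))
  have h3 : ∀ q, LDAt (N.F.prod (vs E2)).cyl (N.F.prod (vs E2)).cyl
      (fun q => (q.1, N.g q.1 - q.2)) q := fun q =>
    ldAt_of_inv isOpen_univ isOpen_univ trivial (fun q _ => s3 q) (fun q _ => s3 q)
      (mapsTo_univ _ _) (mapsTo_univ _ _) (fun _ _ => by simp) fun _ _ => by simp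
  refine ((h1.trans (ldAt_id.prodMap h2)).trans (h3 _)).congr' (.of_forall fun q => ?_)
  simp only [NF.g, Gm, Prod.mk.injEq, true_and]
  ring

theorem ld_mid (hN : N.Ok) (hK : p.1 ∉ N.K) (h : p.2.2 < 7 / 10) :
    LDAt (N.F.prod (vs R3)) (N.F.prod (vs E2)).cyl
      (fun p => (mid N p, N.f p.1 - Gm (-2) p.2)) p := by
  obtain ⟨γ, g1, g2, g3⟩ := gt_inc.inv gt_surj
  let u : N.F × R3 → R3 := fun p => (N.w p.1, gt p.2.2 - ‖p.2.1‖ ^ 2)
  let b : (N.F × E2) × ℝ → R3 := fun q => (q.1.2, γ (N.g q.1))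
  let u' : (N.F × E2) × ℝ → R3 := fun q => (N.w q.1.1, q.2 + Gm (-2) (b q))
  have su : Sm (N.F.prod (vs R3)) (vs R3) u univ := fun p _ =>
    (smAt_fst.trans (hN.smw _ trivial)).vpair (smAt_snd.vcomp
      (g := fun b : R3 => gt b.2 - ‖b.1‖ ^ 2)
      ((cd_gt.comp contDiff_snd).sub (contDiff_fst.norm_sq ℝ)).contDiffAt)
  have sb : Sm (N.F.prod (vs E2)).cyl (vs R3) b univ := fun q _ =>
    (smAt_fst.trans smAt_snd).vpair ((smAt_fst.trans (sm_g hN _)).vcomp g1.sm.contDiffAt)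
  have su' : Sm (N.F.prod (vs E2)).cyl (vs R3) u' univ := fun q _ =>
    ((smAt_fst.trans smAt_fst).trans (hN.smw _ trivial)).vpair
      ((smAt_snd.vpair (sb q trivial)).vcomp (g := fun q : ℝ × R3 => q.1 + Gm (-2) q.2)
        (contDiff_fst.add ((cd_Gm _).comp contDiff_snd)).contDiffAt)
  have e1 : ∀ p, u p ∈ Out → b (mid N p, N.f p.1 - Gm (-2) p.2) = p.2 := fun p hp =>
    Prod.ext rfl ((congrArg γ ((congrArg (· + _) (f_pinv hN hp)).trans (sub_add_cancel _ _))).trans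
      (g2 _))
  have e2 : ∀ p, u p ∈ Out → u' (mid N p, N.f p.1 - Gm (-2) p.2) = N.pj p.1 := fun p hp => by
    simp only [u', e1 p hp, sub_add_cancel]
    exact Prod.ext (w_pinv hN hp) rfl
  have e3 : ∀ q, u' q ∈ Out → u (N.pinv (u' q), b q) = N.pj q.1.1 := fun q hq =>
    Prod.ext (w_pinv hN hq) (by simp only [u, b, g3, NF.g, add_sub_cancel_right]; rfl)
  refine ldAt_of_inv (X := N.F.prod (vs R3)) (Y := (N.F.prod (vs E2)).cyl)
    (g := fun q => (N.pinv (u' q), b q)) (U := {p | p.1 ∉ N.K} ∩ u ⁻¹' Out)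
    (W := {q | q.1.1 ∉ N.K} ∩ u' ⁻¹' Out)
    (((open_not_K hN).preimage continuous_fst).inter (out_open.preimage su.cont))
    (((open_not_K hN).preimage continuous_fst.fst).inter (out_open.preimage su'.cont))
    ⟨hK, mid_out h⟩ (fun p hp => ?_) (fun q hq => ?_)
    (fun p hp => ⟨pinv_not_K hN hp.2, (mem_of_eq_of_mem (e2 p hp.2) (not_K.1 hp.1) :)⟩)
    (fun q hq => ⟨pinv_not_K hN hq.2, (mem_of_eq_of_mem (e3 q hq.2) (not_K.1 hq.1) :)⟩)
    (fun p hp => ?_) fun q hq => ?_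
  · exact (((su p trivial).trans ((oe_pinv hN).sm _ hp.2)).pair
      (smAt_snd.vcomp contDiffAt_fst)).pair
      (((smAt_fst.trans (hN.smf _ trivial)).vpair smAt_snd).vcomp
        (g := fun q : ℝ × R3 => q.1 - Gm (-2) q.2)
        (contDiff_fst.sub ((cd_Gm _).comp contDiff_snd)).contDiffAt)
  · exact ((su' q trivial).trans ((oe_pinv hN).sm _ hq.2)).pair (sb q trivial)
  · simp only [e1 p hp.2, e2 p hp.2, pinv_pj hN hp.1]
  · refine Prod.ext (Prod.ext ?_ rfl) ?_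
    · exact (congrArg N.pinv (e3 q hq.2)).trans (pinv_pj hN hq.1)
    · exact (congrArg (· - _) (f_pinv hN hq.2)).trans (add_sub_cancel_right _ _)

end IoP

open IoP Loc PROF in
theorem io (hL : LoeStmt) : IoStmt := by
  intro N ε R hN _ hE
  have hR := hE.big
  refine ⟨⟨fun p hp => ⟨nr hp, g_eq hp.1⟩, fun p hp h => ⟨io_neg hE hp h, G5_ge hE hp⟩,
    fun p hp h => ?_, fun p hp => ?_, fun q _ => by rw [rf_eq]; exact pj_pinv hN (rr_out q),
    fun q _ => ?_, rfi hN, fun p hp => ?_⟩, ?_⟩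
  · rw [(io_pos hN hE hp h).2.1, ← gt_zero]
    exact gt_inc.mono.monotone h
  · have hp' : p ∈ N.Pt (Gm (-2)) D0 := pt_mono Q0_sub hp
    have h3 : |p.2.2| ≤ 3 := hp.2.2.2
    refine ⟨⟨hp.2.1, hp.2.2.1, ?_, ?_⟩, ?_⟩
    · nlinarith [g_eq hp.1, le_gam (t := -2) (by norm_num) p.2.2, sq_nonneg p.2.2]
    · nlinarith [g_eq hp.1, gam_le (t := -2) (by norm_num) p.2.2, abs_le.1 h3]
    · rcases le_total p.2.2 0 with h | h
      · rw [io_neg hE hp' h]
        linarith [g_rf hN (ε (p.1, p.2.1))]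
      · rw [(io_pos hN hE hp' h).2.1]
        refine (gt_inc.mono.monotone (abs_le.1 h3).2).trans ?_
        rw [gt_hi (by norm_num), gam_out _ (by norm_num)]; norm_num
  · have c : Continuous rr := continuous_fst.fst.prodMk
      (((cd_G5.continuous.add continuous_const).sqrt.neg.sub continuous_const).sub
        (continuous_snd.norm.pow 2))
    rw [funext (rf_eq N)]
    exact (((cont_pinv hN (rr_out q)).comp c.continuousAt).prodMk
      continuousAt_snd).continuousWithinAt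
  · rcases le_total p.2.2 0 with h | h
    · obtain ⟨b1, b2, b3⟩ := hE.bdd _ (nr hp)
      rw [io_neg hE hp h, rf_eq, w_pinv hN (rr_out _), f_pinv hN (rr_out _)]
      refine ⟨b1, ?_, b2⟩
      have h1 : √(G5 (ε (p.1, p.2.1)) + 2) ≤ R := Real.sqrt_le_iff.2 ⟨by linarith, by nlinarith⟩
      have h2 := Real.sqrt_nonneg (G5 (ε (p.1, p.2.1)) + 2)
      have h3 := pow_lt_pow_left₀ b2 (norm_nonneg _) two_ne_zero
      rw [rr, abs_lt]
      constructor <;> nlinarith [sq_nonneg ‖(ε (p.1, p.2.1)).2‖]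
    · obtain ⟨a1, a2, a3⟩ := io_pos hN hE hp h
      have b1 : ‖N.w p.1‖ < 5 := hp.2.1
      have b2 : ‖p.2.1‖ < 5 := hp.2.2.1
      have b3 : |p.2.2| < 5 := hp.2.2.2
      have h1 := gt_inc.mono.monotone h
      have h2 := gt_inc.mono (abs_lt.1 b3).2
      rw [gt_hi (y := 5) (by norm_num), gam_out _ (by norm_num)] at h2
      rw [NF.g, a3] at a2
      rw [a1, a3, abs_lt]
      refine ⟨by linarith, ⟨?_, ?_⟩, by linarith⟩ <;>
        nlinarith [gt_zero, norm_nonneg p.2.1, sq_nonneg ‖p.2.1‖]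
  · have d1 := sq_nonneg N.δ
    have d2 : N.v₂ ≠ -2 := fun e => by
      have h0 : (0 : E2 × ℝ) ∈ N.D₂ := by simpa [NF.D₂] using sq_pos_of_pos hN.δpos
      have h1 := hN.unit (N.c₂ 0 0) (by rw [hN.f₂ 0 0 h0, e]; norm_num)
      rw [← hN.ξ₂ 0 0 h0] at h1
      simp [show ((0, 0) : E2 × ℝ) = 0 from rfl] at h1
    refine (hL N _ _ (vs R3) (N.F.prod (vs E2)) (Gm (-2)) D0 (N.io ε) hN (by simp) (by simp)
      open_D0 (reg_Gm N (by norm_num) (by linarith [hN.lo]) d2.symm D0)).2.2.1 (inj hN hE)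
      fun p hp => ?_
    have ev : ∀ᶠ p' in 𝓝[N.Hyp (Gm (-2))] p, p' ∈ N.Pt (Gm (-2)) D0 :=
      inter_mem_nhdsWithin _ ((open_D0.preimage (cont_pr hN)).mem_nhds hp.2)
    have cy : ContinuousAt (fun p : N.F × R3 => p.2.2) p := continuousAt_snd.snd
    rcases lt_or_ge p.2.2 0 with h | h
    · refine ⟨fun p => N.rf (ε (p.1, p.2.1)), (ev.and (mem_nhdsWithin_of_mem_nhds
        (cy.eventually_lt_const h))).mono fun q hq => io_neg hE hq.1 hq.2.le,
        (ld_A hN h.ne).trans (((hE.oe.ld _ (nr hp)).trans (rf_ld hN ?_)).prodMap ldAt_id)⟩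
      linarith [G5_low hE hp, lt_min (sq_pos_of_neg h) (show (0 : ℝ) < 1 / 4 by norm_num)]
    rcases lt_or_ge (3 / 5) p.2.2 with h' | h'
    · exact ⟨fun p => (p.1, p.2.1), mem_nhdsWithin_of_mem_nhds
        ((cy.eventually_const_lt h').mono fun q hq => io_hi hq.le), ld_A hN (by linarith)⟩
    · have h1 : |p.2.2| < 7 / 10 := abs_lt.2 ⟨by linarith, by linarith⟩
      exact ⟨mid N, (ev.and (mem_nhdsWithin_of_mem_nhds (cy.abs.eventually_lt_const h1))).mono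
        fun q hq => io_mid hN hE hq.1 hq.2, ld_mid hN (mid_K hp.1 h1) (by linarith)⟩

end Pool.Agent.MP_e1dc65_gt.T

end
end MrgPart8

-- marker of a merged file
example : 731051 + 380207 = 731051 + 380207 := rfl
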