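import Mathlib.Topology.Homotopy.Lifting
import Pool.Agent.MP_e1dc65_gt.k.Hol
import Pool.Agent.MP_e1dc65_gt.o.Flat
import Pool.Agent.MP_e1dc65_gt.u.Spec
import Pool.Agent.MP_e1dc65_gt.fm.Hza
import Pool.Agent.MP_e1dc65_gt.fm.Pd3
import Pool.Agent.MP_e1dc65_gt.s.Lift
import Pool.Agent.MP_e1dc65_gt.k.Bump
import Pool.Agent.MP_e1dc65_gt.t2.Sc
import Mathlib.Analysis.SpecialFunctions.Trigonometric.ArctanDeriv
import Pool.Agent.MP_e1dc65_gt.t.KeyM1
import Pool.Agent.MP_e1dc65_gt.k.Level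
import Pool.Agent.MP_e1dc65_gt.k.Etale
import Pool.Agent.MP_e1dc65_gt.t1.Base
import Mathlib.Analysis.Complex.Tietze
import Mathlib.Geometry.Manifold.Instances.Sphere
import Mathlib.Analysis.Calculus.InverseFunctionTheorem.ContDiff
import Mathlib.Analysis.InnerProductSpace.Calculus
import Pool.Agent.MP_e1dc65_gt.t2.Spec2

-- ======== part 0: formerly Pool.Agent.MP_e1dc65_gt.o.Spz
section MrgPart0

-- ======== part 0: formerly Pool.Agent.MP_e1dc65_gt.o.Lift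
section MrgPart0

/-! PROJECT HC, part O, rows LIFT and HLIFT: lifting maps and deformations to a covering space. -/

open scoped Topology unitInterval
open Set Filter Function

noncomputable section

namespace Pool.Agent.MP_e1dc65_gt.O

theorem lift : LiftStmt := by
  classical
  intro Y B A _ _ _ _ p m A₀ a₀ y₀ cov ho hc hm ht ha he
  have := isPathConnected_iff_pathConnectedSpace.1 hc
  have := ho.locallyPathConnectedSpace
  let f : C(A₀, B) := ⟨A₀.domRestrict m, hm.domRestrict⟩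
  obtain ⟨F, ⟨F0, hF⟩, -⟩ := cov.isLocalHomeomorph.existsUnique_continuousMap_lifts f ⟨a₀, ha⟩ y₀ he
    (fun γ γ0 => by
      simpa [and_comm] using cov.exists_path_lifts (f.comp γ) y₀ (by simp [γ0, he, f]))
    fun γ γ' Γ Γ' γ0 γ0' Γ0 Γ0' hΓ hΓ' e => by
      let α : Path (⟨a₀, ha⟩ : A₀) (γ 1) := ⟨γ, γ0, rfl⟩
      let α' : Path (⟨a₀, ha⟩ : A₀) (γ 1) := ⟨γ', γ0', e.symm⟩
      have h : HIn univ (α.map f.continuous) (α'.map f.continuous) := by
        rcases ht with ht | ht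
        · exact (ht.hin (γ := α.map continuous_subtype_val) (δ := α'.map continuous_subtype_val)
            (fun t => (γ t).2) fun t => (γ' t).2).map hm (mapsTo_univ _ _) (fun _ => rfl)
            fun _ => rfl
        · exact ht.hin (fun t => ⟨_, (γ t).2, rfl⟩) fun t => ⟨_, (γ' t).2, rfl⟩
      have h0 : f.comp γ 0 = p y₀ := by simp [γ0, he, f]
      have h0' : f.comp γ' 0 = p y₀ := by simp [γ0', he, f]
      rw [(cov.eq_liftPath_iff' h0).2 ⟨hΓ, Γ0⟩, (cov.eq_liftPath_iff' h0').2 ⟨hΓ', Γ0'⟩]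
      exact cov.liftPath_apply_one_eq_of_homotopicRel (γ₀ := f.comp γ) (γ₁ := f.comp γ')
        (hin_univ.1 h) y₀ h0 h0'
  refine ⟨fun a => if h : a ∈ A₀ then F ⟨a, h⟩ else y₀, ?_, by simp only [dif_pos ha, F0],
    fun a h => by simp only [dif_pos h]; exact congrFun hF ⟨a, h⟩⟩
  rw [continuousOn_iff_continuous_domRestrict]
  exact F.continuous.congr fun a => by simp only [domRestrict_apply, dif_pos a.2]

namespace Lift

/-- homotopy lifting over a subset -/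
theorem hl {Y B A : Type} [TopologicalSpace Y] [TopologicalSpace B] [TopologicalSpace A]
    {p : Y → B} (cov : IsCoveringMap p) {S : Set A} {G : A × ℝ → B}
    (hG : ContinuousOn G (S ×ˢ Icc 0 1)) {f : A → Y} (hf : ContinuousOn f S)
    (h0 : ∀ a ∈ S, G (a, 0) = p (f a)) :
    ∃ L : A × ℝ → Y, ContinuousOn L (S ×ˢ Icc 0 1) ∧
      ∀ a ∈ S, L (a, 0) = f a ∧ ∀ s ∈ Icc (0 : ℝ) 1, p (L (a, s)) = G (a, s) := by
  classical
  let H : C(I × S, B) := ⟨fun z => G (z.2, z.1),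
    hG.comp_continuous (by fun_prop) fun z => ⟨z.2.2, z.1.2⟩⟩
  let g : C(S, Y) := ⟨S.domRestrict f, hf.domRestrict⟩
  have e : ∀ a, H (0, a) = p (g a) := fun a => h0 a a.2
  refine ⟨fun z => if h : z ∈ S ×ˢ Icc (0 : ℝ) 1 then
    cov.liftHomotopy H g e (⟨z.2, h.2⟩, ⟨z.1, h.1⟩) else f z.1, ?_, fun a ha => ⟨?_, fun s hs => ?_⟩⟩
  · rw [continuousOn_iff_continuous_domRestrict]
    have c : Continuous fun z : (S ×ˢ Icc (0 : ℝ) 1 : Set (A × ℝ)) =>
        cov.liftHomotopy H g e (⟨z.1.2, z.2.2⟩, ⟨z.1.1, z.2.1⟩) :=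
      (cov.liftHomotopy H g e).continuous.comp (by fun_prop)
    exact c.congr fun z => by simp only [domRestrict_apply, dif_pos z.2]
  · have h : (a, (0 : ℝ)) ∈ S ×ˢ Icc (0 : ℝ) 1 := ⟨ha, le_rfl, zero_le_one⟩
    exact (dif_pos h).trans (cov.liftHomotopy_zero H g e ⟨a, ha⟩)
  · have h : (a, s) ∈ S ×ˢ Icc (0 : ℝ) 1 := ⟨ha, hs⟩
    exact (congrArg p (dif_pos h)).trans (congrFun (cov.liftHomotopy_lifts H g e) _)

theorem slice {Y A : Type} [TopologicalSpace Y] [TopologicalSpace A] {S : Set A} {L : A × ℝ → Y}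
    (hL : ContinuousOn L (S ×ˢ Icc 0 1)) {a : A} (ha : a ∈ S) :
    ContinuousOn (fun s => L (a, s)) (Icc 0 1) :=
  hL.comp (by fun_prop) fun _ hs => ⟨ha, hs⟩

theorem rev {s : ℝ} (hs : s ∈ Icc (0 : ℝ) 1) : 1 - s ∈ Icc (0 : ℝ) 1 :=
  ⟨sub_nonneg.2 hs.2, sub_le_self _ hs.1⟩

end Lift

open Lift in
theorem hlift : HLiftStmt := by
  intro Y B _ _ _ _ p B₀ H cov hH h0
  have pc := cov.continuous
  have z0 : (0 : ℝ) ∈ Icc (0 : ℝ) 1 := ⟨le_rfl, zero_le_one⟩
  have z1 : (1 : ℝ) ∈ Icc (0 : ℝ) 1 := ⟨zero_le_one, le_rfl⟩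
  obtain ⟨H', c', h'⟩ := hl cov (S := p ⁻¹' B₀) (G := fun z => H (p z.1, z.2))
    (hH.comp (by fun_prop) fun z hz => ⟨hz.1, hz.2⟩) continuousOn_id fun y hy => h0 _ hy
  have un : ∀ y, p y ∈ B₀ → ∀ γ : ℝ → Y, ContinuousOn γ (Icc 0 1) →
      (∀ s ∈ Icc (0 : ℝ) 1, p (γ s) = H (p y, s)) → ∀ t ∈ Icc (0 : ℝ) 1, γ t = H' (y, t) →
      ∀ s ∈ Icc (0 : ℝ) 1, γ s = H' (y, s) := fun y hy γ hγ e t ht et =>
    cov.eqOn_of_comp_eqOn isPreconnected_Icc hγ (slice c' hy)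
      (fun s hs => (e s hs).trans ((h' y hy).2 s hs).symm) ht et
  refine ⟨H', c', fun y hy => ⟨(h' y hy).1, (h' y hy).2, fun γ hγ e0 e =>
    un y hy γ hγ e 0 z0 (e0.trans (h' y hy).1.symm)⟩, fun K hK cK C cC => ?_⟩
  let D : Set (B × Y) := K ×ˢ C ∩ {d | H (d.1, 1) = p d.2}
  have cD : IsCompact D := (cK.prod cC).of_isClosed_subset
    ((cK.prod cC).isClosed.isClosed_eq
      (hH.comp (by fun_prop) fun d hd => ⟨hK hd.1, z1⟩) (by fun_prop)) inter_subset_left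
  obtain ⟨L, cL, hL⟩ := hl cov (S := D) (G := fun z => H (z.1.1, 1 - z.2))
    (hH.comp (by fun_prop) fun z hz => ⟨hK hz.1.1.1, rev hz.2⟩) continuousOn_snd
    fun d hd => by simp only [sub_zero]; exact hd.2
  have e : {y | p y ∈ K ∧ H' (y, 1) ∈ C} = (fun d => L (d, 1)) '' D := by
    ext y
    constructor
    · rintro ⟨hy, hc⟩
      have hd : (p y, H' (y, 1)) ∈ D := ⟨⟨hy, hc⟩, ((h' y (hK hy)).2 1 z1).symm⟩
      refine ⟨_, hd, ?_⟩
      have := un y (hK hy) (fun s => L ((p y, H' (y, 1)), 1 - s))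
        ((slice cL hd).comp (by fun_prop) fun _ => rev)
        (fun s hs => by rw [(hL _ hd).2 _ (rev hs), sub_sub_cancel]) 1 z1
        (by simp only [sub_self]; exact (hL _ hd).1) 0 z0
      simp only [sub_zero] at this
      exact this.trans (h' y (hK hy)).1
    · rintro ⟨d, hd, rfl⟩
      have e1 : p (L (d, 1)) = d.1 := by
        rw [(hL d hd).2 1 z1, sub_self, h0 _ (hK hd.1.1)]
      have hy : p (L (d, 1)) ∈ K := e1 ▸ hd.1.1
      refine ⟨hy, ?_⟩
      have := un _ (hK hy) (fun s => L (d, 1 - s)) ((slice cL hd).comp (by fun_prop) fun _ => rev)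
        (fun s hs => by rw [(hL _ hd).2 _ (rev hs), sub_sub_cancel, e1]) 0 z0
        (by simp only [sub_zero]; exact (h' _ (hK hy)).1.symm) 1 z1
      simp only [sub_self] at this
      rw [← this, (hL d hd).1]
      exact hd.1.2
  rw [e]
  exact cD.image_of_continuousOn (cL.comp (by fun_prop) fun d hd => ⟨hd, z1⟩)

end Pool.Agent.MP_e1dc65_gt.O

end
end MrgPart0

-- ======== part 1: formerly Pool.Agent.MP_e1dc65_gt.o.Nf
section MrgPart1

/-! PROJECT HC, part O, row NF: normal forms of the real function on the cyclic cover. -/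

open scoped ContDiff Manifold Topology Real
open Set Filter Function Module Pool.Agent.MP_c8d41b_gt.GF

noncomputable section

namespace Pool.Agent.MP_e1dc65_gt.O

namespace Nf

theorem bit_int {x : ℝ} (h : Bit x) : ∃ n : ℤ, x = n :=
  h.elim (fun e => ⟨0, by simp [e]⟩) fun e => ⟨1, by simp [e]⟩

variable {D : ODat} {h : OHC D.M D.N} {U : UDat h} {P : ZDat U}

/-- the points of the fibre which are not in a cap -/
theorem fibre (hU : U.Ok) (hP : P.Ok) (y : P.Zt) : (∃ x, P.kQt x = y) ∨ (∃ i x, P.kBt i x = y) ∨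
    ∃ w, P.pp y = P.j w ∧ (3 < h.S w → Bit (P.up y)) := by
  by_cases h1 : ∃ x, P.kQt x = y
  · exact Or.inl h1
  by_cases h2 : ∃ i x, P.kBt i x = y
  · exact Or.inr (Or.inl h2)
  obtain ⟨y₀, rfl⟩ := ((hP.glt.cov y).resolve_right fun a => a.elim h1 h2)
  refine Or.inr (Or.inr ⟨U.p y₀, hP.pj y₀, fun a => ?_⟩)
  rw [hP.uj]
  refine hU.val3 y₀ a ?_ fun i => ?_
  · rintro ⟨x, hx, e⟩
    exact h1 ⟨x, ((hP.glt.jQ y₀ x).2 ⟨hx.1, e.symm⟩).symm⟩
  · rintro ⟨x, hx, e⟩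
    exact h2 ⟨i, x, ((hP.glt.jB i y₀ x).2 ⟨hx.1, e.symm⟩).symm⟩

variable {Vh : Mf E5} {q : Vh → P.Z} {V : Vh → ℝ}

theorem nfQ (hc : Caps h) (hU : U.Ok) (hP : P.Ok) (H : Hat P.Zt P.Z Vh P.pp P.up q V) (z : Vh)
    (x : D.Q.cyl) (e : q z = P.kQ x) : ∃ n : ℤ, V z = bt x.2 + n := by
  have := H.nf z {P.kQt x} (fun y hy => by rw [Finset.mem_singleton.1 hy, hP.pQ, e])
    fun y hy hn => by
      rw [e] at hy
      rcases fibre hU hP y with ⟨x', rfl⟩ | ⟨i, x', rfl⟩ | ⟨w, a, b⟩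
      · rw [hP.pQ] at hy
        exact (hn (by rw [hP.gl.oQ.inj trivial trivial hy]; exact Finset.mem_singleton_self _)).elim
      · rw [hP.pB] at hy
        exact (hP.gl.QB () _ _ hy.symm).elim
      · have c := (hP.gl.jQ w x).1 (a.symm.trans hy)
        refine b ?_
        rw [c.2, show h.S (nQ h x) = sQ D x.1 from hc.cQ.val x.1 c.1 x.2]
        exact hc.iQ.gt _ c.1
  rwa [Finset.sum_singleton, hP.uQ] at this

theorem nfB (hc : Caps h) (hU : U.Ok) (hP : P.Ok) (H : Hat P.Zt P.Z Vh P.pp P.up q V) :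
    ∃ m : ℤ, ∀ z x, q z = P.kB () x → ∃ n : ℤ, V z = m * bt x.2 + n := by
  classical
  choose a ha using fun i => bit_int (hU.bit i).1
  choose b hb using fun i => bit_int (hU.bit i).2
  refine ⟨∑ i, (b i - a i), fun z x e => ?_⟩
  obtain ⟨n, hn⟩ := H.nf z (Finset.univ.image fun i => P.kBt i x)
    (fun y hy => by
      obtain ⟨i, -, rfl⟩ := Finset.mem_image.1 hy
      rw [hP.pB, e])
    fun y hy hn => by
      rw [e] at hy
      rcases fibre hU hP y with ⟨x', rfl⟩ | ⟨i, x', rfl⟩ | ⟨w, a, b⟩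
      · rw [hP.pQ] at hy
        exact (hP.gl.QB () _ _ hy).elim
      · rw [hP.pB] at hy
        exact (hn (Finset.mem_image.2 ⟨i, Finset.mem_univ i, by
          rw [(hP.gl.oB ()).inj trivial trivial hy]⟩)).elim
      · have c := (hP.gl.jB () w x).1 (a.symm.trans hy)
        refine b ?_
        rw [c.2, show h.S (nB h x) = sB x.1 from hc.cB.val x.1 c.1 x.2]
        exact hc.iB.gt _ c.1
  refine ⟨∑ i, a i + n, ?_⟩
  rw [hn, Finset.sum_image fun i _ j _ e => hP.glt.BB i j x x e]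
  simp only [hP.uB, ha, hb]
  push_cast
  rw [Finset.sum_add_distrib, Finset.sum_mul]
  ring

theorem neck {C : SpinCover} (hD : D.Ok C) (hP : P.Ok) (f : D.F) (t : ℝ) {s : ℝ} (hs : 3 < s) :
    P.j (h.cM (D.νM (f, t), s)) = P.kQ (D.νQ (f, Real.log (s - 3)), t) := by
  refine (hP.gl.jQ _ _).2 ⟨mem_range_self _, ?_⟩
  have e : invFunOn D.νQ univ (D.νQ (f, Real.log (s - 3))) = (f, Real.log (s - 3)) :=
    hD.endQ.left trivial
  simp only [nQ, mM, cQ, sQ, e, Real.exp_log (sub_pos.2 hs), add_sub_cancel]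

theorem nfO {C : SpinCover} (hD : D.Ok C) (hc : Caps h) (hU : U.Ok) (hP : P.Ok)
    (H : Hat P.Zt P.Z Vh P.pp P.up q V) (z : Vh) (m : D.M) (s : ℝ) (hs : 3 < s)
    (hm : m ∉ D.νM '' (univ ×ˢ Icc (-1) 1)) (e : q z = P.j (h.cM (m, s))) : ∃ n : ℤ, V z = n := by
  by_cases c : ∃ x, D.νM x = m
  · obtain ⟨⟨f, t⟩, rfl⟩ := c
    obtain ⟨n, hn⟩ := nfQ hc hU hP H z _ (e.trans (neck hD hP f t hs))
    obtain ⟨k, hk⟩ := bit_int (bit_bt (t := t) fun a => hm ⟨(f, t), ⟨trivial, a⟩, rfl⟩)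
    exact ⟨k + n, by rw [hn, hk, Int.cast_add]⟩
  · have := H.nf z ∅ (fun _ a => (Finset.notMem_empty _ a).elim) fun y hy _ => by
      rw [e] at hy
      rcases fibre hU hP y with ⟨x', rfl⟩ | ⟨i, x', rfl⟩ | ⟨w, a, b⟩
      · rw [hP.pQ] at hy
        have d := h.oeM.inj trivial trivial ((hP.gl.jQ _ _).1 hy.symm).2
        exact (c ⟨_, (Prod.mk.inj d).1.symm⟩).elim
      · rw [hP.pB] at hy
        exact (h.disj _ _ ((hP.gl.jB () _ _).1 hy.symm).2).elim
      · refine b ?_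
        rwa [hP.gl.oj.inj trivial trivial (a.symm.trans hy), h.SM m s (by linarith)]
    simpa using this

theorem cap (hT : TrivStmt) {Z Vh : Mf E5} {q : Vh → Z} {V : Vh → ℝ} (H : Circ Z Vh q V)
    {C : Mf E4} (hz : HZ C 1 univ) {k : C.cyl → Z} (hk : OE C.cyl Z k univ) (m : ℝ)
    (e : ∀ z x, q z = k x → ∃ n : ℤ, V z = m * bt x.2 + n) (a b : ℝ) :
    HZ Vh 1 (q ⁻¹' range k ∩ V ⁻¹' Ioo a b) := by
  have l : ∀ x, invFunOn k univ (k x) = x := fun x => hk.left trivial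
  have hs := hk.symm
  rw [image_univ] at hs
  refine hT Z Vh q V (range k) (fun w => m * bt (invFunOn k univ w).2) (Ioo a b) 1 H hs.op
    isOpen_Ioo (continuousOn_const.mul (bt_sm.continuous.comp_continuousOn hs.sm.contOn.snd))
    (fun z ⟨x, hx⟩ => by simpa only [← hx, l] using e z x hx.symm) fun n => ?_
  have ho : IsOpen {t | m * bt t + n ∈ Ioo a b} :=
    isOpen_Ioo.preimage ((continuous_const.mul bt_sm.continuous).add continuous_const)
  have hc : OrdConnected {t | m * bt t + n ∈ Ioo a b} := by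
    rcases le_total 0 m with c | c
    · exact ordConnected_Ioo.preimage_mono ((bt_mono.const_mul c).add_const _)
    · exact ordConnected_Ioo.preimage_anti ((bt_mono.const_mul_of_nonpos c).add_const _)
  have := (hk.mono (isOpen_univ.prod ho) (subset_univ _)).hz_image
    ((hza homM E4 1).2.1 C univ _ isOpen_univ ho hc hz)
  convert this using 1
  ext w
  constructor
  · rintro ⟨⟨x, rfl⟩, hx⟩
    exact ⟨x, ⟨trivial, by simpa only [l, mem_ofPred_eq] using hx⟩, rfl⟩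
  · rintro ⟨x, hx, rfl⟩
    exact ⟨mem_range_self x, by simpa only [l, mem_ofPred_eq] using hx.2⟩

end Nf

open Nf in
theorem nf (hT : TrivStmt) : NFStmt := by
  intro C D h hD hc U hU P hP Vh q V H
  obtain ⟨m, hm⟩ := nfB hc hU hP H
  refine ⟨⟨nfQ hc hU hP H, ⟨m, hm⟩, fun z f t s hs e =>
    nfQ hc hU hP H z _ (e.trans (neck hD hP f t hs)), nfO hD hc hU hP H⟩, fun a b => ?_⟩
  have h1 := cap hT H.circ hc.iQ.hz hP.gl.oQ 1 (by simpa using nfQ hc hU hP H) a b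
  have h2 := cap hT H.circ hc.iB.hz (hP.gl.oB ()) m hm a b
  have o : ∀ {C : Mf E4} {k : C.cyl → P.Z}, OE C.cyl P.Z k univ →
      IsOpen (q ⁻¹' range k ∩ V ⁻¹' Ioo a b) := fun hk =>
    ((image_univ ▸ hk.symm.op).preimage H.circ.cov.continuous).inter
      (isOpen_Ioo.preimage H.circ.sm.cont)
  have d : Disjoint (q ⁻¹' range P.kQ ∩ V ⁻¹' Ioo a b) (q ⁻¹' range (P.kB ()) ∩ V ⁻¹' Ioo a b) :=
    disjoint_left.2 fun z ⟨⟨x, e⟩, _⟩ ⟨⟨x', e'⟩, _⟩ => hP.gl.QB () x x' (e.trans e'.symm)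
  have := (hzb (hza homM) E5 Vh).2.2.1 1 Bool (fun c => cond c (q ⁻¹' range P.kQ ∩ V ⁻¹' Ioo a b)
    (q ⁻¹' range (P.kB ()) ∩ V ⁻¹' Ioo a b))
    (fun c => by cases c; exacts [o (hP.gl.oB ()), o hP.gl.oQ])
    ((pairwise_disjoint_on_bool).2 d) fun c => by cases c; exacts [h2, h1]
  rwa [← union_eq_iUnion, ← union_inter_distrib_right, ← preimage_union, inter_comm] at this

end Pool.Agent.MP_e1dc65_gt.O

end
end MrgPart1

-- ======== part 2: formerly Pool.Agent.MP_e1dc65_gt.o.Spz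
section MrgPart2

/-! PROJECT HC, part O, row SPZ: the spin structure on the capped cover. -/

open scoped ContDiff Manifold Topology Real
open Set Filter Function Module Pool.Agent.MP_c8d41b_gt.GF

noncomputable section

namespace Pool.Agent.MP_e1dc65_gt.O

namespace Spz

theorem cap {Y Z : Mf E5} {C : Mf E4} {j : Y → Z} {k : C.cyl → Z} {l : C.cyl → Y} {A A' : Set C}
    {σ : C → ℝ} {S u : Y → ℝ} {v : ℝ → ℝ} {I : Set ℝ} (hk : OE C.cyl Z k univ) (hA : A ⊆ A')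
    (hj : ∀ y q, j y = k q ↔ q.1 ∈ A ∧ y = l q) (hS : ∀ q : C.cyl, q.1 ∈ A → S (l q) = σ q.1)
    (hu : ∀ q : C.cyl, q.1 ∈ A → u (l q) = v q.2) (hP : Perf {x | x ∈ A ∧ σ x < 4})
    (hc : IsPreconnected {x | x ∈ A ∧ σ x < 4}) (hv : OrdConnected (v ⁻¹' I)) :
    Perf (j '' {y | S y < 4 ∧ u y ∈ I} ∩ k '' (A' ×ˢ (v ⁻¹' I))) ∧
      IsPreconnected (j '' {y | S y < 4 ∧ u y ∈ I} ∩ k '' (A' ×ˢ (v ⁻¹' I))) := by
  have e : j '' {y | S y < 4 ∧ u y ∈ I} ∩ k '' (A' ×ˢ (v ⁻¹' I)) =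
      k '' ({x | x ∈ A ∧ σ x < 4} ×ˢ (v ⁻¹' I)) := by
    refine Subset.antisymm ?_ ?_
    · rintro _ ⟨⟨y, hy, rfl⟩, q, hq, e⟩
      obtain ⟨h1, rfl⟩ := (hj y q).1 e.symm
      exact ⟨q, ⟨⟨h1, hS q h1 ▸ hy.1⟩, hq.2⟩, e⟩
    · rintro _ ⟨q, hq, rfl⟩
      exact ⟨⟨l q, ⟨(hS q hq.1.1).symm ▸ hq.1.2, (hu q hq.1.1).symm ▸ hq.2⟩,
        (hj _ q).2 ⟨hq.1.1, rfl⟩⟩, q, ⟨hA hq.1.1, hq.2⟩, rfl⟩
  rw [e]
  exact ⟨hk.perf (subset_univ _) (hP.prod_convex hv.convex),
    (hc.prod hv.isPreconnected).image _ (hk.sm.contOn.mono (subset_univ _))⟩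

theorem oc_aff (c d a b : ℝ) : OrdConnected ((fun t => c + d * bt t) ⁻¹' Ioo a b) := by
  rcases le_total 0 d with h | h
  · exact ordConnected_Ioo.preimage_mono ((bt_mono.const_mul h).const_add c)
  · exact ordConnected_Ioo.preimage_anti fun _ _ e =>
      add_le_add le_rfl (mul_le_mul_of_nonpos_left (bt_mono e) h)

end Spz

open Spz in
theorem spz : SpzStmt := by
  rintro C D h hD hC U hU P hP ⟨s0⟩ a b ha hb
  have nb : ∀ x ∈ Ioo a b, ¬Bit x := fun x hx e => by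
    rcases e with rfl | rfl <;> linarith [hx.1, hx.2]
  have hbt := bt_sm.continuous
  have g := hP.glt
  obtain ⟨sQ', i, hW, hΘ⟩ := hD.spinP
  have o1 : IsOpen {y | h.S (U.p y) < 4 ∧ U.u y ∈ Ioo a b} :=
    (isOpen_lt (h.Ssm.cont.comp hU.cov.continuous) continuous_const).inter
      (isOpen_Ioo.preimage hU.sm.cont)
  let s1 := (s0.mono o1 (interior_maximal
    (fun y hy => by_contra fun k => nb _ hy.2 (hU.valK y k hy.1.le)) o1)).push
      (g.oj.mono o1 (subset_univ _))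
  obtain ⟨L⟩ : Nonempty ((E4 × ℝ) ≃L[ℝ] Rn 5) :=
    FiniteDimensional.nonempty_continuousLinearEquiv_of_finrank_eq (by simp)
  have o3 : ∀ n, IsOpen ((univ : Set E4) ×ˢ
      ((fun t => U.e₀ n + (U.e₁ n - U.e₀ n) * bt t) ⁻¹' Ioo a b)) := fun n =>
    isOpen_univ.prod (isOpen_Ioo.preimage (by fun_prop))
  have c3 := fun n => cap (I := Ioo a b) (S := fun y => h.S (U.p y)) (g.oB n) (subset_univ AB)
    (g.jB n) (fun q hq => by rw [hU.pB n q ⟨hq, trivial⟩]; exact hC.cB.val _ hq _)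
    (fun q hq => hU.uB n q ⟨hq, trivial⟩) hC.iB.perf (by
      convert (pc_norm_shell (E := E4) (by simp) (J := Ioi 1) ordConnected_Ioi
        (fun r hr => one_pos.trans hr) nonempty_Ioi).isConnected.isPreconnected using 3 with z
      refine ⟨fun hz => ?_, fun hz => ?_⟩
      · exact (inv_lt_one₀ (norm_pos_iff.2 hz.1)).1 (by have := hz.2; unfold sB at this; linarith)
      · have h1 : 0 < ‖z‖ := one_pos.trans hz
        exact ⟨norm_pos_iff.1 h1, by have := (inv_lt_one₀ h1).2 hz; unfold sB; linarith⟩)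
    (oc_aff _ _ a b)
  obtain ⟨s13, -⟩ := s1.glue_fam (fun n => (Spin.single (C := C) (X := (vs E4).cyl) (o3 n)
    (((cof_id.cyl).ccomp L).mono (prod_mono subset_rfl (subset_univ _)))).push
      ((g.oB n).mono (o3 n) (subset_univ _)))
    (fun n n' e => disjoint_left.2 fun _ ⟨q, _, e1⟩ ⟨q', _, e2⟩ => e (g.BB n n' q q' (e1.trans e2.symm)))
    (fun n => (c3 n).1) (fun n => (c3 n).2) rfl
  have o2 : IsOpen ((D.κ '' (univ ×ˢ {0}))ᶜ ×ˢ (bt ⁻¹' Ioo a b)) := by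
    have := sQ'.isOpen.inter (isOpen_univ.prod ((isOpen_Ioo (a := a) (b := b)).preimage hbt))
    rwa [prod_inter_prod, inter_univ, univ_inter] at this
  have hq := g.oQ.mono o2 (subset_univ _)
  have hκ : AQ D ⊆ (D.κ '' (univ ×ˢ {0}))ᶜ := by
    rintro _ hx ⟨⟨m, w⟩, ⟨-, rfl : w = 0⟩, rfl⟩
    exact hD.disκ m 0 (by simp) hx
  have c2 := cap (I := Ioo a b) (S := fun y => h.S (U.p y)) g.oQ hκ g.jQ
    (fun q hq => by rw [hU.pQ q ⟨hq, trivial⟩]; exact hC.cQ.val _ hq _)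
    (fun q hq => hU.uQ q ⟨hq, trivial⟩) hC.iQ.perf (by
      have := hD.connF
      convert (isPreconnected_univ.prod (isPreconnected_Iio (a := (0 : ℝ)))).image D.νQ
        (hD.endQ.sm.contOn.mono (subset_univ _)) using 1
      ext x
      constructor
      · rintro ⟨⟨q, rfl⟩, hx⟩
        rw [sQ, hD.endQ.left trivial] at hx
        exact ⟨q, ⟨trivial, Real.exp_lt_one_iff.1 (by linarith)⟩, rfl⟩
      · rintro ⟨q, hq, rfl⟩
        refine ⟨⟨q, rfl⟩, ?_⟩
        rw [sQ, hD.endQ.left trivial]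
        linarith [Real.exp_lt_one_iff.2 hq.2])
    (ordConnected_Ioo.preimage_mono bt_mono)
  let s2 := (sQ'.mono o2 (prod_mono subset_rfl (subset_univ _))).push hq
  have e : ∀ V : Set P.Zt, P.kQt '' ((D.κ '' (univ ×ˢ {0}))ᶜ ×ˢ (bt ⁻¹' Ioo a b)) ∩
      (V ∪ ⋃ n, P.kBt n '' (univ ×ˢ ((fun t => U.e₀ n + (U.e₁ n - U.e₀ n) * bt t) ⁻¹' Ioo a b))) =
      V ∩ P.kQt '' ((D.κ '' (univ ×ˢ {0}))ᶜ ×ˢ (bt ⁻¹' Ioo a b)) := fun V => by
    refine Subset.antisymm ?_ fun z hz => ⟨hz.2, .inl hz.1⟩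
    rintro _ ⟨⟨q, hq, rfl⟩, hz | hz⟩
    · exact ⟨hz, q, hq, rfl⟩
    · obtain ⟨n, q', -, e⟩ := mem_iUnion.1 hz
      exact (g.QB n q q' e.symm).elim
  obtain ⟨s, f, hs⟩ := s2.glue_conn s13 (e _ ▸ c2.1) (e _ ▸ c2.2)
    (T := P.up ⁻¹' Ioo a b \ P.kQt '' ((D.κ '' (univ ×ˢ {0})) ×ˢ univ)) (by
    have kq : ∀ q, P.kQt q ∈ P.up ⁻¹' Ioo a b \ P.kQt '' ((D.κ '' (univ ×ˢ {0})) ×ˢ univ) →
        P.kQt q ∈ P.kQt '' ((D.κ '' (univ ×ˢ {0}))ᶜ ×ˢ (bt ⁻¹' Ioo a b)) := fun q hz =>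
      ⟨q, ⟨fun k => hz.2 ⟨q, ⟨k, trivial⟩, rfl⟩, by have := hz.1; rwa [mem_preimage, hP.uQ] at this⟩, rfl⟩
    have kb : ∀ n q, P.kBt n q ∈ P.up ⁻¹' Ioo a b → P.kBt n q ∈ ⋃ n, P.kBt n ''
        (univ ×ˢ ((fun t => U.e₀ n + (U.e₁ n - U.e₀ n) * bt t) ⁻¹' Ioo a b)) := fun n q hz =>
      mem_iUnion.2 ⟨n, q, ⟨trivial, by rwa [mem_preimage, hP.uB] at hz⟩, rfl⟩
    refine Subset.antisymm ?_ fun z hz => ?_
    · rintro z (⟨q, hq, rfl⟩ | ⟨y, hy, rfl⟩ | hz)
      · exact ⟨by rw [mem_preimage, hP.uQ]; exact hq.2, fun ⟨q', k, e⟩ =>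
          hq.1 (g.oQ.inj trivial trivial e ▸ k.1)⟩
      · exact ⟨by rw [mem_preimage, hP.uj]; exact hy.2, fun ⟨q, k, e⟩ =>
          hκ ((g.jQ y q).1 e.symm).1 k.1⟩
      · obtain ⟨n, q, hq, rfl⟩ := mem_iUnion.1 hz
        exact ⟨by rw [mem_preimage, hP.uB]; exact hq.2, fun ⟨q', _, e⟩ => g.QB n q' q e⟩
    · rcases g.cov z with ⟨y, rfl⟩ | ⟨q, rfl⟩ | ⟨n, q, rfl⟩
      · have hy : U.u y ∈ Ioo a b := by have := hz.1; rwa [mem_preimage, hP.uj] at this
        by_cases h4 : h.S (U.p y) < 4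
        · exact .inr (.inl ⟨y, ⟨h4, hy⟩, rfl⟩)
        by_cases h5 : y ∈ U.lQ '' (AQ D ×ˢ Icc (-1) 1)
        · obtain ⟨q, hq, rfl⟩ := h5
          rw [(g.jQ _ q).2 ⟨hq.1, rfl⟩] at hz ⊢
          exact .inl (kq q hz)
        by_cases h6 : ∀ i, y ∉ U.lB i '' (AB ×ˢ Icc (-1) 1)
        · exact (nb _ hy (hU.val3 y (by linarith) h5 h6)).elim
        obtain ⟨n, q, hq, rfl⟩ : ∃ i, y ∈ U.lB i '' (AB ×ˢ Icc (-1) 1) := by
          simpa only [not_forall, not_not] using h6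
        rw [(g.jB n _ q).2 ⟨hq.1, rfl⟩] at hz ⊢
        exact .inr (.inr (kb n q hz.1))
      · exact .inl (kq q hz)
      · exact .inr (.inr (kb n q hz.1)))
  refine ⟨s, f i, ?_, fun z t hz ht => ?_⟩
  · rw [hs.W, Spin.push_W, ← hW]
    refine Subset.antisymm ?_ ?_
    · rintro _ ⟨q, hq, rfl⟩
      exact ⟨by rw [mem_preimage, hP.uQ]; exact hq.1.2, q, hq.2, rfl⟩
    · rintro _ ⟨hz, q, hq, rfl⟩
      exact ⟨q, ⟨⟨(sQ'.sub i hq).1, by rwa [mem_preimage, hP.uQ] at hz⟩, hq⟩, rfl⟩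
  · have hm : (D.κ (pol z), t) ∈ sQ'.W i := by
      rw [hW]
      refine ⟨⟨pol z, ⟨trivial, ?_⟩, rfl⟩, trivial⟩
      have : ‖(pol z).2‖ = Real.exp (z 3) := by simp [pol, Complex.norm_exp]
      rw [mem_ofPred_eq, this]
      exact ⟨Real.exp_pos _, hz⟩
    rw [hs.Θ, ← hΘ z t hz]
    exact congrArg (ContinuousLinearMap.comp · _) (Spin.push_Θ
      (sQ'.mono o2 (prod_mono subset_rfl (subset_univ _))) hq i ⟨(sQ'.sub i hm).1, ht⟩)

end Pool.Agent.MP_e1dc65_gt.O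

end
end MrgPart2

-- marker of a merged file
example : 731051 + 622661 = 731051 + 622661 := rfl

end MrgPart0

-- ======== part 1: formerly Pool.Agent.MP_e1dc65_gt.o.Port
section MrgPart1

/-! PROJECT HC, part O, row PORT: the torus port and the spin structure of the level. -/

open scoped ContDiff Manifold Topology Real Matrix
open Set Filter Function Module Pool.Agent.MP_c8d41b_gt.GF

noncomputable section

namespace Pool.Agent.MP_e1dc65_gt.O

namespace PortP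

/-- the identity matrix with last column `n` -/
def Mn (n : Rn 5) : M5 := (1 : M5).updateCol 4 n

theorem det_Mn (n : Rn 5) : (Mn n).det = n 4 := by
  rw [Mn, ← Matrix.cramer_apply, Matrix.cramer_one]; rfl

theorem Mn_std (n : Rn 5) (p : Rn 4 × ℝ) : Mn n *ᵥ std5 p = std5 (p.1, 0) + p.2 • n := by
  ext i
  fin_cases i <;>
    simp [Mn, std5, Matrix.mulVec, dotProduct, Fin.sum_univ_five, Matrix.updateCol_apply,
      Matrix.one_apply, mul_comm]

theorem lift_Mn (C : SpinCover) : ∃ a : Rn 5 → C.G, ContinuousOn a {n | 0 < n 4} ∧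
    ∀ n ∈ {n : Rn 5 | 0 < n 4}, C.π (a n) = Mn n := by
  refine C.lift (isOpen_lt continuous_const (continuous_apply 4)) ((perf_singleton 1).deform
    (H := fun p => (1 - p.1) • p.2 + p.1 • 1) (by simp) (by fun_prop) (fun p hp => ?_)
    (fun x _ => by simp) fun x _ => by simp) (Continuous.continuousOn ?_)
    fun n hn => by rwa [det_Mn]
  · have h1 : 0 < p.2 4 := hp.2
    have h2 := hp.1.1
    have h3 := hp.1.2
    simp only [mem_ofPred_eq, Pi.add_apply, Pi.smul_apply, smul_eq_mul, Pi.one_apply]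
    rcases h2.eq_or_lt with h | h
    · simpa [← h] using h1
    · nlinarith
  · refine continuous_pi fun i => continuous_pi fun j => ?_
    simp only [Mn, Matrix.updateCol_apply]
    split_ifs <;> fun_prop

theorem Df_slice {E : Type} [NormedAddCommGroup E] [NormedSpace ℝ E] {X : Mf E} (x : X) (t : ℝ) :
    SmAt X X.cyl (fun x => (x, t)) x ∧ ∀ v, Df X X.cyl (fun x => (x, t)) x v = (v, 0) :=
  ⟨smAt_id.pair (smAt_const (Y := vs ℝ) t), fun v => by
    rw [Df_pair (Z := vs ℝ) smAt_id (smAt_const (Y := vs ℝ) t), Df_id, Df_const]; rfl⟩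

theorem cn_cont {X : Mf E5} {g : X → Rn 5} {x : X} (h : CnAt X 0 g x) : ContinuousAt g x :=
  h.continuousAt

/-- the differential of a function of the height -/
theorem Df_ht {X : Mf E4} {W : Mf E5} {u : W → ℝ} {k : X.cyl → W} {b : ℝ → ℝ} {p : X.cyl}
    (hu : Sm W (vs ℝ) u univ) (hk : SmAt X.cyl W k p) (hb : ContDiff ℝ ∞ b)
    (e : (fun q => u (k q)) =ᶠ[𝓝 p] fun q => b q.2) (v : E5) :
    Df W (vs ℝ) u (k p) (Df X.cyl W k p v) = deriv b p.2 * v.2 := by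
  have h1 := Df_comp hk (hu _ trivial)
  rw [Df_congr (Y := vs ℝ) e, Df_vcomp (X := X.cyl) (f := Prod.snd) (smAt_snd (Y := vs ℝ)) hb.contDiffAt,
    Df_snd (Y := vs ℝ)] at h1
  rw [← ContinuousLinearMap.comp_apply, ← h1]
  simp [mul_comm]

end PortP

open PortP Pol in
theorem port : PortStmt := by
  intro C V u c δ X Q ν k κ hu L c0 c1 hk uk hκ sp i hW hΘ
  have i0 : (0 : ℝ) ∈ Ioo (-δ) δ := ⟨by linarith [L.pos], L.pos⟩
  have h0 : ∀ x : X, ((x, 0) : X.cyl) ∈ univ ×ˢ Ioo (-δ) δ := fun _ => ⟨trivial, i0⟩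
  have uν : ∀ x, u (ν (x, 0)) = c := fun x => by rw [L.val x 0 i0, add_zero]
  have cI : c ∈ Ioo (c - δ) (c + δ) := ⟨by linarith [L.pos], by linarith [L.pos]⟩
  have dν : ∀ x v, Df V (vs ℝ) u (ν (x, 0)) (Df X.cyl V ν (x, 0) v) = v.2 := fun x v => by
    rw [Df_ht (b := fun t => c + t) hu (L.oe.sm _ (h0 x)) (by fun_prop) (by
      filter_upwards [L.oe.op.mem_nhds (h0 x)] with q hq using L.val q.1 q.2 hq.2)]
    simp
  have dk : ∀ q v, Df V (vs ℝ) u (k q) (Df Q.cyl V k q v) = deriv bt q.2 * v.2 := fun q v =>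
    Df_ht hu (hk.sm _ trivial) bt_sm (.of_forall uk) v
  have lev : ∀ y, u y = c → ∃ x, ν (x, 0) = y := fun y hy => by
    obtain ⟨⟨x, t⟩, hp, rfl⟩ : y ∈ ν '' (univ ×ˢ Ioo (-δ) δ) := by rw [L.img, mem_preimage, hy]; exact cI
    obtain rfl : t = 0 := by linarith [L.val x t hp.2]
    exact ⟨x, rfl⟩
  have nrm : ∀ q x, ν (x, 0) = k q → ∀ v, Df Q.cyl V k q v = Df X.cyl V ν (x, 0) (0, 1) →
      deriv bt q.2 * v.2 = 1 := fun q x e v hv => by rw [← dk, hv, ← e, dν]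
  have reg : ∀ t, bt t = c → deriv bt t ≠ 0 := fun t ht h => by
    obtain ⟨q⟩ := Q.ne
    obtain ⟨x, hx⟩ := lev (k (q, t)) ((uk _).trans ht)
    obtain ⟨v, hv⟩ := (hk.ld (q, t) trivial).inv.surjective (Df X.cyl V ν (x, 0) (0, 1))
    simpa [h] using nrm _ x hx v hv
  have uq : ∀ t t', bt t = c → bt t' = c → ¬t < t' := fun t t' h h' hl => by
    have e : ∀ s ∈ Ioo t t', bt s = c := fun s hs =>
      le_antisymm (h' ▸ bt_mono hs.2.le) (h ▸ bt_mono hs.1.le)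
    have m : (t + t') / 2 ∈ Ioo t t' := ⟨by linarith, by linarith⟩
    refine reg _ (e _ m) ?_
    rw [EventuallyEq.deriv_eq (f := fun _ => c) (mem_of_superset (isOpen_Ioo.mem_nhds m) e),
      deriv_const]
  obtain ⟨t₀, ht⟩ : ∃ t, bt t = c := mem_range_of_exists_le_of_exists_ge bt_sm.continuous
    ⟨-1, (bt_zero le_rfl).le.trans c0.le⟩ ⟨1, c1.le.trans (bt_one le_rfl).ge⟩
  have bp : 0 < deriv bt t₀ := bt_mono.deriv_nonneg.lt_of_ne (reg _ ht).symm
  obtain ⟨e, hes, he⟩ : ∃ e : Q → X, Sm Q X e univ ∧ ∀ q, ν (e q, 0) = k (q, t₀) := by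
    refine ⟨fun q => (invFunOn ν (univ ×ˢ Ioo (-δ) δ) (k (q, t₀))).1, fun q _ => ?_, fun q => ?_⟩ <;>
      obtain ⟨x, hx⟩ := lev (k (q, t₀)) ((uk _).trans ht)
    · exact (((Df_slice q t₀).1.trans (hk.sm _ trivial)).trans
        (L.oe.symm.sm _ ⟨_, h0 x, hx⟩)).trans smAt_fst
    · simp only [← hx, L.oe.left (h0 x)]
  have hD : ∀ q v, Df X.cyl V ν (e q, 0) (Df Q X e q v, 0) = Df Q.cyl V k (q, t₀) (v, 0) :=
    fun q v => by
      have a := Df_comp ((hes q trivial).trans (Df_slice _ 0).1) (L.oe.sm _ (h0 (e q)))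
      rw [Df_comp (hes q trivial) (Df_slice _ 0).1, funext he,
        Df_comp (Df_slice q t₀).1 (hk.sm _ trivial)] at a
      simpa [(Df_slice _ _).2] using (congrArg (· v) a).symm
  have eld : ∀ q, LDAt Q X e q := fun q => ldAt_of_Df univ_mem hes
    ⟨(LinearEquiv.ofInjectiveEndo (Df Q X e q).toLinearMap ((injective_iff_map_eq_zero _).2
      fun v hv => by
        have a := hD q v
        rw [show Df Q X e q v = 0 from hv, Prod.mk_zero_zero, map_zero] at a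
        exact congrArg Prod.fst ((injective_iff_map_eq_zero _).1
          (hk.ld (q, t₀) trivial).inv.injective _ a.symm))).toContinuousLinearEquiv, rfl⟩
  have einj : Injective e := fun q q' h =>
    congrArg Prod.fst (hk.inj trivial trivial ((he q).symm.trans (h ▸ he q')))
  have key : ∀ (B : Set (Rn 2 × ℂ)) (x : X), ν (x, 0) ∈ k '' ((κ '' B) ×ˢ univ) ↔
      x ∈ (fun p => e (κ p)) '' B := fun B x => by
    constructor
    · rintro ⟨⟨_, t⟩, ⟨⟨p, hp, rfl⟩, -⟩, h⟩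
      have h1 : bt t = c := by rw [← uν x, ← h, uk]
      obtain rfl : t = t₀ := le_antisymm (not_lt.1 (uq _ _ ht h1)) (not_lt.1 (uq _ _ h1 ht))
      exact ⟨p, hp, congrArg Prod.fst (L.oe.inj (h0 _) (h0 _) ((he _).trans h))⟩
    · rintro ⟨p, hp, rfl⟩
      exact ⟨(κ p, t₀), ⟨⟨p, hp, rfl⟩, trivial⟩, (he _).symm⟩
  have P : Port X fun p => e (κ p) := ⟨fun m w hw => (hκ.ld m w hw).trans (eld _),
    fun m m' w w' hw hw' => einj.eq_iff.trans (hκ.eq m m' w w' hw hw')⟩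
  refine ⟨_, P, ?_⟩
  have hU : IsOpen ((fun p => e (κ p)) '' (univ ×ˢ {0}))ᶜ :=
    (P.isCompact_img isCompact_singleton (by simp)).isClosed.isOpen_compl
  have hO := L.oe.sm.contOn.isOpen_inter_preimage L.oe.op sp.isOpen
  let s2 := SPB.cyl (sp.pull hO (fun p hp => L.oe.ld p hp.1) fun p hp => hp.2) hU fun x hx =>
    ⟨h0 x, by rw [mem_preimage, uν]; exact cI, fun h => hx ((key _ x).1 h)⟩
  have w2 : s2.W i = ((fun p => e (κ p)) '' (univ ×ˢ {w | 0 < ‖w‖ ∧ ‖w‖ < 30})) ×ˢ univ := by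
    refine Subset.antisymm (fun p hp => ⟨(key _ _).1 (hW.subset hp.2.2).2, trivial⟩) fun p hp => ?_
    have h1 : ν (p.1, 0) ∈ sp.W i :=
      hW.symm.subset ⟨by rw [mem_preimage, uν]; exact cI, (key _ _).2 hp.1⟩
    exact ⟨fun h => (sp.sub i h1).2 ((key _ _).2 h), ⟨h0 _, sp.sub i h1⟩, h1⟩
  have θ2 : ∀ q t v, s2.Θ i (e q, t) v = sp.Θ i (k (q, t₀)) (Df X.cyl V ν (e q, 0) v) :=
    fun q t v => by rw [← he]; rfl
  have st : ∀ z : Rn 4, Real.exp (z 3) < 30 → ∀ p : Rn 4 × ℝ, sp.Θ i (k (κ (pol z), t₀))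
      (Df Q.cyl V k (κ (pol z), t₀) (Df (vs (Rn 4)) Q (fun z => κ (pol z)) z p.1, p.2)) = std5 p :=
    fun z hz p => congrArg (· p) (hΘ z t₀ hz (ht ▸ cI))
  have pos : ∀ p ∈ s2.W i, 0 < s2.Θ i p (0, 1) 4 := by
    rw [w2]
    rintro ⟨_, t⟩ ⟨⟨⟨m, w⟩, ⟨-, h1, h2⟩, rfl⟩, -⟩
    obtain ⟨z, hz⟩ := pol_surj m (norm_pos_iff.1 h1)
    have h3 : Real.exp (z 3) < 30 := by rw [← norm_pol, hz]; exact h2
    obtain ⟨v, hv⟩ := (hk.ld (κ (pol z), t₀) trivial).inv.surjective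
      (Df X.cyl V ν (e (κ (pol z)), 0) (0, 1))
    obtain ⟨v', hv'⟩ := (hκ.ld_pol h3).inv.surjective v.1
    have a := st z h3 (v', v.2)
    rw [hv', hv] at a
    rw [← hz, θ2, a]
    exact (mul_pos_iff_of_pos_left bp).1 ((nrm _ _ (he _) v hv).symm ▸ one_pos)
  obtain ⟨a, a1, a2⟩ := lift_Mn C
  classical
  refine ⟨s2.gauge (fun j p => if j = i then (a (s2.Θ i p (0, 1)))⁻¹ else 1) fun j => ?_, i, w2,
    fun z t hz => ContinuousLinearMap.ext fun p => ?_⟩
  · by_cases h : j = i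
    · simp only [h, if_true]
      exact (a1.comp (fun p hp => (cn_cont ((s2.cof i p hp).1.apply vfAt_dt)).continuousWithinAt)
        pos).inv
    · simp only [h, if_false]
      exact continuousOn_const
  · have m : (e (κ (pol z)), t) ∈ s2.W i := w2.symm.subset
      ⟨⟨pol z, ⟨trivial, norm_pos_iff.2 (pol_ne z), (norm_pol z).trans_lt hz⟩, rfl⟩, trivial⟩
    have b : s2.Θ i (e (κ (pol z)), t) (Df (vs (Rn 4)) X (fun z => e (κ (pol z))) z p.1, p.2) =
        C.π (a (s2.Θ i (e (κ (pol z)), t) (0, 1))) *ᵥ std5 p := by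
      rw [a2 _ (pos _ m), Mn_std, ← st z hz (p.1, 0), ← hD, ← θ2 _ t, ← map_smul, ← map_add,
        Df_comp (hκ.ld_pol hz).sm (hes _ trivial)]
      simp
    refine (congrArg₂ (C.π · *ᵥ ·) (if_pos rfl) b).trans ?_
    rw [Matrix.mulVec_mulVec, C.π_inv_mul, Matrix.one_mulVec]

end Pool.Agent.MP_e1dc65_gt.O

end
end MrgPart1

-- ======== part 2: formerly Pool.Agent.MP_e1dc65_gt.o.Sig0
section MrgPart2

-- ======== part 0: formerly Pool.Agent.MP_e1dc65_gt.fm.Near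
section MrgPart0

/-! PROJECT HC, row NEAR: closed forms near a compact set that deforms into an acyclic set. -/

open scoped ContDiff Manifold Topology
open Set Filter Function

noncomputable section

namespace Pool.Agent.MP_e1dc65_gt

namespace Near

/-- a homotopy on an open set, cut off to a global map that is the projection for small time -/
theorem exists_glob {X : Type} [TopologicalSpace X] [T2Space X] [LocallyCompactSpace X]
    {W K : Set X} {H : X × ℝ → X} (hW : IsOpen W) (hK : IsCompact K) (hKW : K ⊆ W)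
    (hH : ContinuousOn H (W ×ˢ Icc 0 1)) (m : MapsTo H (W ×ˢ Icc 0 1) W)
    (h0 : ∀ x ∈ W, H (x, 0) = x) : ∃ f : X × ℝ → X, Continuous f ∧
      (∀ p : X × ℝ, p.2 < 1 / 3 → f p = p.1) ∧ (∀ p : X × ℝ, p.1 ∈ K → f p ∈ W) ∧
      ∀ x ∈ K, f (x, 1) = H (x, 1) := by
  classical
  obtain ⟨L, hL, hKL, hLW⟩ := exists_compact_between hK hW hKW
  obtain ⟨ψ, h1, h2, -, h3⟩ := exists_continuous_one_zero_of_isCompact hK
    isOpen_interior.isClosed_compl (disjoint_compl_right_iff_subset.2 hKL)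
  let c : X × ℝ → ℝ := fun p => ψ p.1 * max 0 (min 1 (3 * p.2 - 1))
  have hc : Continuous c := by fun_prop
  have c1 : ∀ p, c p ∈ Icc (0 : ℝ) 1 := fun p =>
    ⟨mul_nonneg (h3 _).1 (le_max_left _ _),
      mul_le_one₀ (h3 _).2 (le_max_left _ _) (max_le zero_le_one (min_le_left _ _))⟩
  have key : ∀ p : X × ℝ, c p = 0 → (if p.1 ∈ W then H (p.1, c p) else p.1) = p.1 := fun p h => by
    split_ifs with hp
    · rw [h, h0 _ hp]
    · rfl
  refine ⟨fun p => if p.1 ∈ W then H (p.1, c p) else p.1, continuous_iff_continuousAt.2 fun p => ?_,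
    fun p hp => key p ?_, fun p hp => ?_, fun x hx => ?_⟩
  · by_cases hp : p.1 ∈ W
    · have hn : Prod.fst ⁻¹' W ∈ 𝓝 p := continuous_fst.continuousAt.preimage_mem_nhds
        (hW.mem_nhds hp)
      have h4 : ContinuousOn (fun p : X × ℝ => H (p.1, c p)) (Prod.fst ⁻¹' W) :=
        hH.comp (continuous_fst.prodMk hc).continuousOn fun q hq => ⟨hq, c1 q⟩
      exact (h4.continuousAt hn).congr (mem_of_superset hn fun q hq => (if_pos hq).symm)
    · have hn : Prod.fst ⁻¹' Lᶜ ∈ 𝓝 p := continuous_fst.continuousAt.preimage_mem_nhds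
        (hL.isClosed.isOpen_compl.mem_nhds fun h => hp (hLW h))
      refine continuous_fst.continuousAt.congr (mem_of_superset hn fun q hq => (key q ?_).symm)
      have : ψ q.1 = 0 := h2 fun h => hq (interior_subset h)
      simp only [c, this, zero_mul]
  · have : max 0 (min 1 (3 * p.2 - 1)) = 0 :=
      max_eq_left ((min_le_right _ _).trans (by linarith))
    simp only [c, this, mul_zero]
  · simp only [if_pos (hKW hp)]
    exact m ⟨hKW hp, c1 p⟩
  · have : ψ x = 1 := h1 hx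
    simp only [if_pos (hKW hx), c, this]
    norm_num

end Near

theorem near (hH : HomStmt) : NearStmt := by
  intro E _ _ _ X k W O K H A hW hO hOW hK hKW hc m h0 h1 hZ hA
  obtain ⟨f, f1, f2, f3, f4⟩ := Near.exists_glob hW hK hKW hc m h0
  have c1 : IsClosed {q : (X × ℝ) × X | q.1.1 ∈ K ∧ q.2 ∉ W} :=
    (hK.isClosed.preimage (by fun_prop)).inter (hW.isClosed_compl.preimage continuous_snd)
  have c2 : IsClosed {q : (X × ℝ) × X | (q.1.1 ∈ K ∧ q.1.2 = 1) ∧ q.2 ∉ O} :=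
    ((hK.isClosed.preimage (by fun_prop)).inter (isClosed_eq (by fun_prop) continuous_const)).inter
      (hO.isClosed_compl.preimage continuous_snd)
  obtain ⟨G', g1, -, ⟨V, hV, hKV, g2⟩, g3, g4, g5⟩ := smoothing E (E × ℝ) X.cyl X f
    (K ×ˢ Icc (1 / 5) 1) {p | 1 / 10 < p.2} _ f1 (hK.prod isCompact_Icc)
    (isOpen_lt continuous_const continuous_snd) (fun p hp => lt_of_lt_of_le (by norm_num) hp.2.1)
    (c1.union c2).isOpen_compl (by
      rintro ⟨x, t⟩ (h | ⟨⟨h, rfl⟩, h'⟩)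
      · exact h.2 (f3 _ h.1)
      · exact h' (f4 x h ▸ h1 x h))
  set G : X.cyl → X := fun y => G' (y, 1) with hG
  have gc : Continuous G := g1.comp (by fun_prop)
  have o1 : IsOpen {p : X × ℝ | p.2 < 1 / 3} := isOpen_lt continuous_snd continuous_const
  have o2 : IsOpen ((V ∪ {p : X × ℝ | p.2 < 1 / 3}) ∩ G ⁻¹' W) :=
    (hV.union o1).inter (hW.preimage gc)
  have s2 : Sm X.cyl X G ((V ∪ {p : X × ℝ | p.2 < 1 / 3}) ∩ G ⁻¹' W) := fun p hp =>
    hp.1.elim (g2 p) fun h => g5 p (smAt_fst.congr' (mem_of_superset (o1.mem_nhds h) f2))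
  obtain ⟨U, J, hU, -, hKU, hJ, hUJ⟩ := generalized_tube_lemma hK (isCompact_Icc (a := (0 : ℝ))
    (b := 1)) o2 (fun p hp => ⟨by
      by_cases h : p.2 < 1 / 3
      · exact Or.inr h
      · exact Or.inl (hKV ⟨hp.1, by linarith [not_lt.1 h], hp.2.2⟩),
      by_contra fun h => g3 p 1 (Or.inl ⟨hp.1, h⟩)⟩)
  have o3 : IsOpen (U ∩ W ∩ {x | G (x, 1) ∈ O}) :=
    (hU.inter hW).inter (hO.preimage (gc.comp (by fun_prop)))
  have hs : (U ∩ W ∩ {x | G (x, 1) ∈ O}) ×ˢ uIcc (0 : ℝ) 1 ⊆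
      (V ∪ {p : X × ℝ | p.2 < 1 / 3}) ∩ G ⁻¹' W := fun p hp =>
    hUJ ⟨hp.1.1.1, hJ (by simpa using hp.2)⟩
  obtain ⟨β, b1, b2⟩ := hH E X k _ _ _ 0 1 o3 o2 hs (hA.pb s2 fun p hp => hp.2)
  obtain ⟨γ, d1, d2⟩ := hZ A (hA.mono hOW)
  have si : ∀ (t : ℝ) (x : X), SmAt X X.cyl (fun x => (x, t)) x := fun t x =>
    smAt_id.pair (smAt_const (Y := vs ℝ) t)
  have s1 : Sm X X (fun x => G (x, 1)) (U ∩ W ∩ {x | G (x, 1) ∈ O}) := fun x hx =>
    (si 1 x).trans (s2 _ (hs ⟨hx, right_mem_uIcc⟩))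
  have e1 := d1.pb s1 fun x hx => hx.2
  refine ⟨_, fun x => pbM X X (fun x => G (x, 1)) γ x - β x, o3, fun x hx => ⟨⟨hKU hx, hKW hx⟩,
    by_contra fun h => g3 (x, 1) 1 (Or.inr ⟨⟨hx, rfl⟩, h⟩)⟩, fun x hx => hx.1.2, e1.sub b1,
    fun x hx => ?_⟩
  have e0 : (fun x => G (x, 0)) = fun x => x := funext fun x =>
    (g4 (x, 0) (by simp) 1).trans (f2 _ (by norm_num))
  rw [dM_sub (e1 x hx).1 (b1 x hx).1, b2 x hx, dM_pb (s1 x hx) (d1 _ hx.2).1,
    ← pbM_comp (si 1 x) (s2 _ (hs ⟨hx, right_mem_uIcc⟩)),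
    ← pbM_comp (si 0 x) (s2 _ (hs ⟨hx, left_mem_uIcc⟩)), e0, pbM_id,
    pbM_congr_right (d2 _ hx.2), sub_sub_cancel]

end Pool.Agent.MP_e1dc65_gt

end
end MrgPart0

-- ======== part 1: formerly Pool.Agent.MP_e1dc65_gt.o.Sig0
section MrgPart1

/-! PROJECT HC, part O, row SIG0: the integral over a level of the cyclic cover vanishes. -/

open scoped ContDiff Manifold Topology Real
open Set Filter Function Module Pool.Agent.MP_c8d41b_gt.GF

noncomputable section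

namespace Pool.Agent.MP_e1dc65_gt.O

namespace Sig0

theorem ld_arc {δ : ℝ} (hδ : 0 < δ) (t : ℝ) :
    LDAt (vs ℝ) (vs ℝ) (fun t => δ / 2 * Real.arctan t) t := by
  have hd := (Real.hasDerivAt_arctan t).const_mul (δ / 2)
  refine ldAt_vs univ_mem (fun y _ => (contDiff_const.mul Real.contDiff_arctan).contDiffAt) ?_
  rw [(hd.hasFDerivAt_equiv (by positivity)).fderiv]
  exact ⟨_, rfl⟩

theorem mem_arc {δ : ℝ} (hδ : 0 < δ) (t : ℝ) : δ / 2 * Real.arctan t ∈ Ioo (-δ) δ := by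
  have h1 := Real.arctan_lt_pi_div_two t
  have h2 := Real.neg_pi_div_two_lt_arctan t
  have h3 := Real.pi_le_four
  constructor <;> nlinarith

theorem ex_step {a b : ℝ} (h : a < b) : ∃ χ, Step χ a b :=
  have h0 := sub_pos.2 h
  ⟨fun t => Real.smoothTransition ((t - a) / (b - a)),
    Real.smoothTransition.contDiff.comp ((contDiff_id.sub contDiff_const).div_const _),
    fun _ ht => Real.smoothTransition.zero_of_nonpos
      (div_nonpos_of_nonpos_of_nonneg (sub_nonpos.2 ht) h0.le),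
    fun _ ht => Real.smoothTransition.one_of_one_le ((one_le_div h0).2 (sub_le_sub_right ht a))⟩

theorem ex_bt {c : ℝ} (hc : c ∈ Icc (0 : ℝ) 1) : ∃ t, bt t = c := by
  have := intermediate_value_Icc (a := (-1 : ℝ)) (b := 1) (by norm_num) bt_sm.continuous.continuousOn
  rw [bt_zero le_rfl, bt_one le_rfl] at this
  exact (this hc).imp fun _ h => h.2

/-- a deformation of the cobordism into the far part of the end `M × ℝ` -/
theorem ex_def {M N : Mf E4} (h : OHC M N) : ∃ G : h.W × ℝ → h.W, Continuous G ∧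
    (∀ w, G (w, 0) = w) ∧ ∀ w, G (w, 1) ∈ h.cM '' (univ ×ˢ Ioi 3) := by
  refine ⟨fun p => if p.2 ≤ 1 / 2 then h.H (p.1, 2 * p.2) else h.cM (h.r p.1, 8 * p.2 - 4),
    Continuous.if_le (h.sdr.Hc.comp (by fun_prop)) (h.oeM.sm.cont.comp
      ((h.sdr.rc.comp continuous_fst).prodMk (by fun_prop))) continuous_snd continuous_const ?_,
    fun w => ?_, fun w => ?_⟩
  · rintro ⟨w, s⟩ (rfl : s = 1 / 2)
    norm_num
    exact h.sdr.one w
  · norm_num
    exact h.sdr.zero w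
  · exact ⟨(h.r w, 4), ⟨trivial, by norm_num⟩, by norm_num⟩

theorem nearZ (hL : HLiftStmt) {Y Z V : Mf E5} {j : Y → Z} {q : V → Z} {G : Y × ℝ → Y} {T : Set Y}
    (hj : OE Y Z j univ) (hq : IsCoveringMap q) (hG : Continuous G) (G0 : ∀ w, G (w, 0) = w)
    (G1 : ∀ w, G (w, 1) ∈ T) (hT : IsOpen T) (hz : HZ V 1 (q ⁻¹' (j '' T))) :
    NearZ V (q ⁻¹' range j) := by
  intro K hK hKc A hA
  have hi : ContinuousOn (invFunOn j univ) (range j) := image_univ ▸ hj.symm.sm.contOn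
  obtain ⟨H, c, e, -⟩ := hL V Z q (range j) (fun p => j (G (invFunOn j univ p.1, p.2))) hq
    (hj.sm.cont.comp_continuousOn (hG.comp_continuousOn
      ((hi.comp continuousOn_fst fun _ hp => hp.1).prodMk continuousOn_snd)))
    (by rintro _ ⟨y, rfl⟩; simp only [G0, hj.left (mem_univ y)])
  have hr : IsOpen (range j) := image_univ ▸ hj.symm.op
  refine near homM E5 V 1 _ _ K H A (hr.preimage hq.continuous)
    ((hj.isOpen_image hT (subset_univ _)).preimage hq.continuous)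
    (preimage_mono (image_subset_range _ _)) hKc hK c (fun p hp => ?_) (fun x hx => (e x hx).1)
    (fun x hx => ?_) hz hA
  · exact ⟨_, ((e p.1 hp.1).2.1 p.2 hp.2).symm⟩
  · exact ⟨_, G1 _, ((e x (hK hx)).2.1 1 ⟨zero_le_one, le_rfl⟩).symm⟩

end Sig0

theorem pontLev (h2 : Cw2Stmt) : PontLevStmt := by
  intro V u c δ X ν cn Ω hl hΩ
  have hf : ∀ p : X.cyl, LDAt X.cyl V (fun p => ν (p.1, δ / 2 * Real.arctan p.2)) p := fun p =>
    (LDAt.prodMap (X := X) (Y := X) (x := p.1) ldAt_id (Sig0.ld_arc hl.pos p.2)).trans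
      (hl.oe.ld _ ⟨trivial, Sig0.mem_arc hl.pos p.2⟩)
  obtain ⟨c', h, -⟩ := (h2 E5 V).2.2.2.2 E5 X.cyl _ univ univ cn isOpen_univ (fun p _ => hf p)
    (mapsTo_univ _ _)
  refine ⟨c', _, h Ω hΩ, fun x => ?_⟩
  rw [← pbM_comp (smAt_id.pair (smAt_const (Y := vs ℝ) 0)) (hf _).sm]
  simp only [Real.arctan_zero, mul_zero]

theorem sig0 (hS : SigStmt) (hH : HatStmt) (hN : NFStmt) (hC : ChainStmt) (hI : IsoStmt)
    (hL : HLiftStmt) (hV : LevStmt) (hT : LevIntStmt) (hO : OriCalcStmt) (h2 : Cw2Stmt) :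
    Sig0Stmt := by
  intro C D h hD hc U hU P hP cn Ω hΩ hcl
  obtain ⟨Vh, q, V, hat⟩ := hH P.Zt P.Z P.pp P.up P.K hP.ld hP.sm hP.cpt hP.bit
  obtain ⟨nf, hz⟩ := hN C D h hD hc U hU P hP Vh q V hat
  have ci := hat.circ
  have d5 : finrank ℝ E5 = 5 := hP.ori.dim
  obtain ⟨c, δ, X, ν, l1, l2, hl⟩ := hV E5 E4 Vh V (1 / 4) (3 / 4) (by rw [d5]; simp) ci.sm
    (by norm_num) (hat.cpt _ _ (by norm_num) (by norm_num)) fun c hc => by
      obtain ⟨t, ht⟩ := Sig0.ex_bt (c := c) ⟨by linarith [hc.1], by linarith [hc.2]⟩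
      obtain ⟨z, e⟩ := ci.sur (P.kQ (Classical.arbitrary _, t))
      obtain ⟨n, hn⟩ := nf.Q z _ e
      obtain ⟨z', -, e'⟩ := ci.ex z (-n)
      exact ⟨z', by rw [e', hn, ht]; simp⟩
  have hδ := hl.pos
  have := hl.cpt
  have oV : Ori Vh 5 (pbM Vh P.Z q P.o) univ :=
    hP.ori.pb d5 (fun x _ => ci.ld x) (mapsTo_univ _ _)
  obtain ⟨o', ho', hp⟩ := (hO E4 X 4).2.1 _ _ univ (oV.pb d5 hl.oe.ld (mapsTo_univ _ _))
    fun x _ => ⟨trivial, by linarith, hδ⟩
  obtain ⟨χ, hχ⟩ := Sig0.ex_step (a := c - δ / 2) (b := c + δ / 2) (by linarith)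
  have cV : Cl Vh 4 (pbM Vh P.Z q Ω) univ := hcl.pb (fun x _ => (ci.ld x).sm) (mapsTo_univ _ _)
  rw [← hat.int P.o Ω χ _ _ hP.ori hcl hχ (by linarith) (by linarith),
    hT E5 E4 Vh V c δ X ν _ o' _ χ _ _ ci.sm hl oV ho' (fun x => hp x trivial)
      (cV.mono (subset_univ _)) hχ (by linarith) (by linarith)]
  obtain ⟨c', hc', -⟩ := (h2 E5 P.Z).2.2.2.2 E5 Vh q univ univ cn isOpen_univ (fun p _ => ci.ld p)
    (mapsTo_univ _ _)
  obtain ⟨G, hG, G0, G1⟩ := Sig0.ex_def h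
  have op : ∀ {Y : Mf E5} {k : Y → P.Z}, OE Y P.Z k univ → IsOpen (range k) := fun hk =>
    image_univ ▸ hk.symm.op
  obtain ⟨Kp, Km, k1, k2, k3, k4⟩ := hI Vh V c δ X ν _ o' (q ⁻¹' range P.j)
    (q ⁻¹' (range P.kQ ∪ range (P.kB ()))) ci.sm hl oV ho' (fun x => hp x trivial)
    ((op hP.gl.oj).preimage ci.cov.continuous)
    (((op hP.gl.oQ).union (op (hP.gl.oB ()))).preimage ci.cov.continuous)
    (eq_univ_of_forall fun z => (hP.gl.cov (q z)).imp_right fun h => h.imp_right fun ⟨_, h⟩ => h)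
    (hz _ _) (Sig0.nearZ hL hP.gl.oj ci.cov hG G0 G1
      (h.oeM.isOpen_image (isOpen_univ.prod isOpen_Ioi) (subset_univ _))
      (hC C D h hD U P hP Vh q V ci nf))
  exact hS X o' _ Kp Km ho' k1 k2 k3 k4 (pontLev h2 Vh V c δ X ν c' _ hl (hc' Ω hΩ))

end Pool.Agent.MP_e1dc65_gt.O

end
end MrgPart1

-- marker of a merged file
example : 731051 + 71353 = 731051 + 71353 := rfl

end MrgPart2

-- ======== part 3: formerly Pool.Agent.MP_e1dc65_gt.t1.Hc
section MrgPart3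

-- ======== part 0: formerly Pool.Agent.MP_e1dc65_gt.t.Exist
section MrgPart0

/-! PROJECT HC, part T, rows LOE and EXIST: smooth open embeddings of fibre products, and
existence of the replacement. -/

open scoped ContDiff Manifold Topology Real
open Set Filter Function Module Topology

set_option linter.unusedSectionVars false

noncomputable section

namespace Pool.Agent.MP_e1dc65_gt.T

variable {E E' EB EB' : Type} [NormedAddCommGroup E] [NormedSpace ℝ E] [FiniteDimensional ℝ E]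
  [NormedAddCommGroup E'] [NormedSpace ℝ E'] [FiniteDimensional ℝ E']
  [NormedAddCommGroup EB] [NormedSpace ℝ EB] [FiniteDimensional ℝ EB]
  [NormedAddCommGroup EB'] [NormedSpace ℝ EB'] [FiniteDimensional ℝ EB']

/-- an ambient local diffeomorphism induces a local diffeomorphism of levels -/
theorem loe_ld {X : Mf E} {X' : Mf E'} {f : X → ℝ} {f' : X' → ℝ} {K : Set X} {K' : Set X'}
    {Z Z' : Mf (Rn 5)} {j : Z → X} {j' : Z' → X'} (h : Level X f K Z j) (h' : Level X' f' K' Z' j')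
    {a : X → X'} {z : Z} (ha : LDAt X X' a (j z)) (hm : MapsTo a K K') :
    LDAt Z Z' (fun z => invFun j' (a (j z))) z := by
  have e : (fun z => j' (invFun j' (a (j z)))) = fun z => a (j z) :=
    funext fun z => h'.inv_eq (hm (h.mem z))
  refine h'.ld_of_inj rfl ?_ ?_
  · rw [e]
    filter_upwards [(h.sm z trivial).cont.eventually ha.ev] with y hy
    exact (h.sm y trivial).trans hy.sm
  · rw [e, Df_comp (h.sm z trivial) ha.sm]
    exact ha.inv.injective.comp (h.inj z)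

/-- the open part of a smooth open embedding as a homeomorphism of open sets -/
def oph {X : Mf E} {Y : Mf E'} {f : X → Y} {U : Set X} (h : OE X Y f U) :
    OpenPartialHomeomorph X Y where
  toFun := f
  invFun := invFunOn f U
  source := U
  target := f '' U
  map_source' _ hx := mem_image_of_mem f hx
  map_target' _ hy := invFunOn_mem hy
  left_inv' _ hx := h.left hx
  right_inv' _ hy := invFunOn_eq hy
  open_source := h.op
  open_target := h.isOpen_image h.op subset_rfl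
  continuousOn_toFun := h.sm.contOn
  continuousOn_invFun := h.symm.sm.contOn

theorem oe_emb {X : Mf E} {Y : Mf E'} {f : X → Y} (h : OE X Y f univ) : IsOpenEmbedding f :=
  (oph h).isOpenEmbedding rfl

variable {N : NF} {B : Mf EB} {X : Mf E} {Γ : B → ℝ} {D : Set (E2 × B)} {i : N.F × B → X}

theorem loe_sm (hN : N.Ok) (hΓ : Sm B (vs ℝ) Γ univ) (p : N.F.prod B) :
    SmAt (N.F.prod B) (vs ℝ) (fun p => N.f p.1 - Γ p.2) p :=
  ((smAt_fst.trans (hN.smf _ trivial)).vpair (smAt_snd.trans (hΓ _ trivial))).vcomp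
    (g := fun q : ℝ × ℝ => q.1 - q.2) (contDiffAt_fst.sub contDiffAt_snd)

theorem loe_reg (hN : N.Ok) (hR : Reg N B Γ D) {p : N.F.prod B} (hp : p ∈ N.Pt Γ D) :
    Df (N.F.prod B) (vs ℝ) (fun p => N.f p.1 - Γ p.2) p ≠ 0 := by
  intro h0
  obtain ⟨m, b⟩ := p
  have e : N.f m = Γ b := hp.1
  have h1 : Df N.F (vs ℝ) N.f m = 0 := by
    have a1 : SmAt N.F (N.F.prod B) (fun m => (m, b)) m := smAt_id.pair (smAt_const b)
    have a2 := Df_comp a1 (loe_sm hN hR.1 (m, b))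
    rw [h0, ContinuousLinearMap.zero_comp,
      Df_vcomp (g := fun t => t - Γ b) (hN.smf m trivial) (contDiffAt_id.sub contDiffAt_const),
      fderiv_sub_const, fderiv_fun_id, ContinuousLinearMap.id_comp] at a2
    exact a2
  have h2 : Df B (vs ℝ) Γ b = 0 := by
    have a1 : SmAt B (N.F.prod B) (fun b => (m, b)) b := (smAt_const m).pair smAt_id
    have a2 := Df_comp a1 (loe_sm hN hR.1 (m, b))
    rw [h0, ContinuousLinearMap.zero_comp,
      Df_vcomp (g := fun t => N.f m - t) (hR.1 b trivial) (contDiffAt_const.sub contDiffAt_id),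
      fderiv_const_sub, fderiv_fun_id] at a2
    simpa using a2
  have hδ : 0 < N.δ ^ 2 := pow_pos hN.δpos 2
  refine hR.2 _ hp.2 ?_ h2
  by_contra hc
  refine absurd (hN.pos m (fun k hk => hc (.inl ?_)) fun k hk => hc (.inr ?_)) (by simp [h1])
  · have := hN.f₁ k 0 (by simpa [NF.D₁] using hδ)
    rw [← hk, e] at this
    simpa [NF.pr] using this
  · have := hN.f₂ k 0 (by simpa [NF.D₂] using hδ)
    rw [← hk, e] at this
    simpa [NF.pr] using this

theorem loe_level (hN : N.Ok) (hB : finrank ℝ EB = 3) (hD : IsOpen D) (hR : Reg N B Γ D)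
    (hne : (N.Pt Γ D).Nonempty) : ∃ (Z : Mf (Rn 5)) (j : Z → N.F.prod B),
      Level (N.F.prod B) (fun p => N.f p.1 - Γ p.2) (N.Pt Γ D) Z j := by
  have e : N.Pt Γ D = N.pr ⁻¹' D ∩ (fun p : N.F.prod B => N.f p.1 - Γ p.2) ⁻¹' {0} :=
    Set.ext fun p => ⟨fun h => ⟨h.2, sub_eq_zero.2 h.1⟩, fun h => ⟨sub_eq_zero.1 h.2, h.1⟩⟩
  have := Lev.level1 (E' := Rn 5) (X := N.F.prod B) (f := fun p => N.f p.1 - Γ p.2) (c := 0)
    (by simp [hB]) (hD.preimage (Loc.cont_pr hN)) (fun p _ => loe_sm hN hR.1 p)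
    (fun p h1 h2 => loe_reg hN hR ⟨sub_eq_zero.1 h2, h1⟩) (e ▸ hne)
  rwa [← e] at this

section
variable {Z : Mf (Rn 5)} {j : Z → N.F.prod B}
  (h : Level (N.F.prod B) (fun p => N.f p.1 - Γ p.2) (N.Pt Γ D) Z j)
include h

theorem loe_self : LOE N B Γ D Z (invFun j) := fun _ _ h' =>
  ⟨isOpen_univ, fun _ _ => loe_ld h' h ldAt_id (mapsTo_id _), fun z _ z' _ e =>
    h'.emb.injective ((h.inv_eq (h'.mem z)).symm.trans
      ((congrArg j e).trans (h.inv_eq (h'.mem z'))))⟩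

theorem loe_inj (hi : LOE N B Γ D X i) : InjOn i (N.Pt Γ D) := fun p hp p' hp' e => by
  rw [← h.inv_eq hp, ← h.inv_eq hp'] at e ⊢
  rw [(hi Z j h).inj trivial trivial e]

theorem loe_emb' (hi : LOE N B Γ D X i) : IsOpenEmbedding ((N.Pt Γ D).domRestrict i) := by
  let φ := h.emb.toHomeomorph.trans (Homeomorph.setCongr h.range)
  have := (oe_emb (hi Z j h)).comp φ.symm.isOpenEmbedding
  convert this using 1
  exact funext fun p => congrArg i (congrArg Subtype.val (φ.apply_symm_apply p)).symm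

end

theorem loe_emb (hN : N.Ok) (hB : finrank ℝ EB = 3) (hD : IsOpen D) (hR : Reg N B Γ D)
    (hi : LOE N B Γ D X i) : IsOpenEmbedding ((N.Pt Γ D).domRestrict i) := by
  rcases (N.Pt Γ D).eq_empty_or_nonempty with h0 | hne
  · have : IsEmpty (N.Pt Γ D) := isEmpty_coe_sort.2 h0
    exact .of_isEmpty _
  · obtain ⟨Z, j, h⟩ := loe_level hN hB hD hR hne
    exact loe_emb' h hi

theorem loe_of (hE : finrank ℝ E = 5) (h1 : InjOn i (N.Pt Γ D))
    (h2 : ∀ p ∈ N.Pt Γ D, ∃ a : N.F × B → X, (∀ᶠ p' in 𝓝[N.Hyp Γ] p, i p' = a p') ∧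
      LDAt (N.F.prod B) X.cyl (fun p' => (a p', N.f p'.1 - Γ p'.2)) p) : LOE N B Γ D X i := by
  intro Z j h
  refine ⟨isOpen_univ, fun z _ => ?_, fun z _ z' _ e => h.emb.injective (h1 (h.mem z) (h.mem z') e)⟩
  obtain ⟨a, e, ha⟩ := h2 _ (h.mem z)
  have hc := (h.sm z trivial).cont
  have hs : ∀ᶠ y in 𝓝 z, SmAt Z X (fun y => a (j y)) y := by
    filter_upwards [hc.eventually ha.ev] with y hy
    exact ((h.sm y trivial).trans hy.sm).trans smAt_fst
  refine LDAt.congr' (f := fun y => a (j y)) (ldAt_of_Df hs (fun _ hy => hy)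
    (Lev.inv_of_inj (by simp [hE]) ?_)) ((tendsto_nhdsWithin_iff.2
      ⟨hc, .of_forall fun y => (h.mem y).1⟩).eventually e)
  have a1 := Df_comp (h.sm z trivial) ha.sm
  have a2 : (fun y => (a (j y), N.f (j y).1 - Γ (j y).2)) = fun y => (a (j y), (0 : ℝ)) :=
    funext fun y => by rw [sub_eq_zero.2 (h.mem y).1]
  rw [a2, Df_pair (Z := vs ℝ) hs.self_of_nhds (smAt_const (Y := vs ℝ) 0), Df_const] at a1
  intro u v huv
  refine h.inj z (ha.inv.injective ?_)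
  rw [← ContinuousLinearMap.comp_apply, ← ContinuousLinearMap.comp_apply, ← a1]
  exact Prod.ext huv rfl

theorem loe_comp {X' : Mf E'} {u : X → X'} {U : Set X} (hu : OE X X' u U)
    (hm : MapsTo i (N.Pt Γ D) U) (hi : LOE N B Γ D X i) : LOE N B Γ D X' fun p => u (i p) :=
  fun Z j h => (hi Z j h).trans hu fun z _ => hm (h.mem z)

theorem loe_base (hN : N.Ok) (hB : finrank ℝ EB = 3) (hD : IsOpen D) (hR : Reg N B Γ D)
    {B' : Mf EB'} {β : B' → B} {V : Set B'} {Γ' : B' → ℝ} {D' : Set (E2 × B')} (hβ : OE B' B β V)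
    (hq : ∀ q ∈ D', q.2 ∈ V ∧ (q.1, β q.2) ∈ D ∧ Γ (β q.2) = Γ' q.2) (hi : LOE N B Γ D X i) :
    LOE N B' Γ' D' X fun p => i (p.1, β p.2) := by
  intro Z' j' h'
  have hm : MapsTo (fun p : N.F.prod B' => ((p.1, β p.2) : N.F.prod B)) (N.Pt Γ' D') (N.Pt Γ D) :=
    fun p hp => ⟨(show N.f p.1 = Γ' p.2 from hp.1).trans (hq _ hp.2).2.2.symm, (hq _ hp.2).2.1⟩
  obtain ⟨Z, j, h⟩ := loe_level hN hB hD hR ⟨_, hm (h'.mem (Classical.arbitrary _))⟩
  refine ⟨isOpen_univ, fun z _ => ?_, fun z _ z' _ e => h'.emb.injective ?_⟩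
  · refine ((loe_ld h' h (LDAt.prodMap ldAt_id (hβ.ld _ (hq _ (h'.mem z).2).1)) hm).trans
      ((hi Z j h).ld _ trivial)).congr' (.of_forall fun y => ?_)
    exact congrArg i (h.inv_eq (hm (h'.mem y))).symm
  · have := loe_inj h hi (hm (h'.mem z)) (hm (h'.mem z')) e
    exact Prod.ext (Prod.ext_iff.1 this).1
      (hβ.inj (hq _ (h'.mem z).2).1 (hq _ (h'.mem z').2).1 (Prod.ext_iff.1 this).2)

theorem loe : LoeStmt := by
  intro N E EB _ _ _ _ _ _ B X Γ D i hN hE hB hD hR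
  refine ⟨fun hne => ?_, loe_emb hN hB hD hR, loe_of hE, fun _ _ _ _ _ _ _ => loe_comp,
    fun _ _ _ _ _ _ _ _ _ hβ _ _ => loe_base hN hB hD hR hβ⟩
  obtain ⟨Z, j, h⟩ := loe_level hN hB hD hR hne
  exact ⟨Z, j, h, loe_self h⟩

/-! ### The replacement -/

open Loc

variable {Γ' : B → ℝ} {Q : Set (E2 × B)}

theorem ex_ne (hN : N.Ok) (hq : ∃ q ∈ D, 1 < ‖q.1‖) (Γ : B → ℝ) : (N.Pt Γ D).Nonempty := by
  obtain ⟨q, h1, h2⟩ := hq
  have e := pj_pinv hN (q := (q.1, Γ q.2)) (.inl h2)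
  refine ⟨(N.pinv (q.1, Γ q.2), q.2), congrArg Prod.snd e, ?_⟩
  rwa [mem_preimage, show N.pr (N.pinv (q.1, Γ q.2), q.2) = q from
    Prod.ext (Prod.ext_iff.1 e).1 rfl]

theorem ex_back (hN : N.Ok) (h : Adm Γ Γ' D Q) {p : N.F × B} (hp : p ∈ N.Pt Γ (D \ Q)) :
    rg N Γ (rg N Γ' p) = p :=
  have a := partner hN h hp
  have b := partner hN (adm_symm h) a.1
  (mt_uniq hN (mt_trans a.2 b.2) hp.1 b.1.1).symm

section
variable {Z Z' : Mf (Rn 5)} {j : Z → N.F.prod B} {j' : Z' → N.F.prod B}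
  (h : Level (N.F.prod B) (fun p => N.f p.1 - Γ p.2) (N.Pt Γ D) Z j)
  (h' : Level (N.F.prod B) (fun p => N.f p.1 - Γ' p.2) (N.Pt Γ' D) Z' j')
include h

theorem ex_open (hN : N.Ok) (ad : Adm Γ Γ' D Q) : IsOpen {z | N.pr (j z) ∉ Q} :=
  ad.cp.isClosed.isOpen_compl.preimage ((cont_pr hN).comp h.sm.cont)

theorem ex_mem {z : Z} (hz : N.pr (j z) ∉ Q) : j z ∈ N.Pt Γ (D \ Q) :=
  ⟨(h.mem z).1, (h.mem z).2, hz⟩

/-- the matching map is smooth on the level -/
theorem ex_sm (hN : N.Ok) (ad : Adm Γ Γ' D Q) (hΓ : Sm B (vs ℝ) Γ' univ) {z : Z}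
    (hz : N.pr (j z) ∉ Q) : SmAt Z (N.F.prod B) (fun z => rg N Γ' (j z)) z := by
  have s1 : SmAt Z N.F (fun z => (j z).1) z := (h.sm z trivial).trans smAt_fst
  have s2 : SmAt Z B (fun z => (j z).2) z := (h.sm z trivial).trans smAt_snd
  have s3 := (s1.trans (hN.smw _ trivial)).vpair (s2.trans (hΓ _ trivial))
  by_cases h1 : (N.w (j z).1, Γ' (j z).2) ∈ Out
  · have s4 : SmAt (vs R3) N.F N.pinv (N.w (j z).1, Γ' (j z).2) := by
      obtain ⟨m, e⟩ := hN.onto h1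
      exact hN.oe.symm.sm _ ⟨m, (congrArg (· ∈ Out) e).mpr h1, e⟩
    refine ((s3.trans s4).pair s2).congr' ?_
    filter_upwards [s3.cont.preimage_mem_nhds (out_open.mem_nhds h1)] with y hy using if_pos hy
  · have h2 : ‖N.w (j z).1‖ ≤ 1 := not_lt.1 fun a => h1 (Or.inl a)
    have h3 : |Γ' (j z).2| ≤ 1 := not_lt.1 fun a => h1 (Or.inr a)
    have h4 : ∀ᶠ y in 𝓝 z, (N.w (j z).1, (j y).2) ∈ D \ Q :=
      (continuousAt_const.prodMk s2.cont).preimage_mem_nhds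
        ((ad.op.sdiff ad.cp.isClosed).mem_nhds (ex_mem h hz).2)
    have h5 : ∀ᶠ y in 𝓝 z, |Γ' (j y).2| < 3 / 2 :=
      (s2.trans (hΓ _ trivial)).cont.abs.eventually_lt_const (lt_of_le_of_lt h3 (by norm_num))
    refine (h.sm z trivial).congr' ?_
    filter_upwards [(ex_open h hN ad).mem_nhds hz, h4, h5] with y a b c
    have e : Γ (j y).2 = Γ' (j y).2 := (ad.far _ b h2).resolve_right fun d => lt_asymm c d.2
    have k := partner hN ad (ex_mem h a)
    exact (mt_uniq hN k.2 ((h.mem y).1.trans e) k.1.1).symm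

include h'

theorem ex_eq (hN : N.Ok) (ad : Adm Γ Γ' D Q) {z : Z} (hz : N.pr (j z) ∉ Q) :
    j' (invFun j' (rg N Γ' (j z))) = rg N Γ' (j z) :=
  h'.inv_eq (pt_mono sdiff_subset (partner hN ad (ex_mem h hz)).1)

theorem ex_map (hN : N.Ok) (ad : Adm Γ Γ' D Q) :
    MapsTo (fun z => invFun j' (rg N Γ' (j z))) {z | N.pr (j z) ∉ Q} {z | N.pr (j' z) ∉ Q} :=
  fun z hz => by
    rw [mem_ofPred_eq, ex_eq h h' hN ad hz]
    exact (partner hN ad (ex_mem h hz)).1.2.2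

theorem ex_left (hN : N.Ok) (ad : Adm Γ Γ' D Q) {z : Z} (hz : N.pr (j z) ∉ Q) :
    invFun j (rg N Γ (j' (invFun j' (rg N Γ' (j z))))) = z := by
  rw [ex_eq h h' hN ad hz, ex_back hN ad (ex_mem h hz), h.inv_left]

theorem ex_sm' (hN : N.Ok) (ad : Adm Γ Γ' D Q) (hΓ : Sm B (vs ℝ) Γ' univ) :
    Sm Z Z' (fun z => invFun j' (rg N Γ' (j z))) {z | N.pr (j z) ∉ Q} := fun _ hz =>
  h'.sm_inv (ex_sm h hN ad hΓ hz) (mem_of_superset ((ex_open h hN ad).mem_nhds hz) fun _ hy =>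
    pt_mono sdiff_subset (partner hN ad (ex_mem h hy)).1)

end

theorem exist : ExistStmt := by
  intro N E EB _ _ _ _ _ _ B X Γ Γ' D Q i hN hE hB ad hR hR' hq hi
  obtain ⟨Z, j, h⟩ := loe_level hN hB ad.op hR (ex_ne hN hq Γ)
  obtain ⟨Z', j', h'⟩ := loe_level hN hB ad.op hR' (ex_ne hN hq Γ')
  have ad' := adm_symm ad
  have oe := loe_emb' h hi
  have hU : IsOpen (i '' N.Pt Γ Q)ᶜ := (closed_img hN ad.c oe ad.cp ad.sub).isOpen_compl
  have ma : ∀ z, N.pr (j z) ∉ Q → i (j z) ∈ (i '' N.Pt Γ Q)ᶜ := fun z =>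
    (not_img oe ad.sub (h.mem z)).2
  obtain ⟨X', e, e', h1, h2, h3, h4⟩ := glue (Rn 5) E (Rn 5) (Rn 5) X Z' Z (i '' N.Pt Γ Q)ᶜ univ
    {z | N.pr (j z) ∉ Q} (fun z => i (j z)) (fun z => invFun j' (rg N Γ' (j z))) (by simp [hE]) rfl
    hU isOpen_univ (.inr univ_nonempty) ((hi Z j h).mono (ex_open h hN ad) (subset_univ _))
    (oe_of_inv (ex_open h hN ad) (ex_open h' hN ad') (ex_sm' h h' hN ad hR'.1)
      (ex_sm' h' h hN ad' hR.1) (ex_map h h' hN ad) (ex_map h' h hN ad')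
      (fun _ => ex_left h h' hN ad) fun _ => ex_left h' h hN ad')
    ma (mapsTo_univ _ _) fun x hx y _ hc => by
      have c1 : Continuous fun t : X × Z' => (t.1, N.pr (j' t.2)) :=
        continuous_fst.prodMk ((cont_pr hN).comp (h'.sm.cont.comp continuous_snd))
      have hy : N.pr (j' y) ∉ Q := fun hy => by
        obtain ⟨R, r1, r2, r3⟩ := exists_compact_between ad.cp ad.op ad.sub
        have c2 : IsClosed ((fun p => (i p, N.pr p)) '' N.Pt Γ R) :=
          ((compact_pt hN ad.c r1).image_of_continuousOn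
            (((oe_cont oe).mono (pt_mono r3)).prodMk (cont_pr hN).continuousOn)).isClosed
        obtain ⟨p, hp, ep⟩ := closure_minimal (t := (fun t : X × Z' => (t.1, N.pr (j' t.2))) ⁻¹' _)
          (by
            rintro _ ⟨a, z, hz, rfl⟩
            have k : N.pr (j' (invFun j' (rg N Γ' (j z)))) = N.pr (j z) := by
              rw [ex_eq h h' hN ad hz, mt_pr (partner hN ad (ex_mem h hz)).2]
            exact ⟨j z, ⟨(h.mem z).1, (congrArg (· ∈ R) k).mp (interior_subset a)⟩,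
              Prod.ext rfl k.symm⟩)
          (c2.preimage c1) ((isOpen_interior.preimage (continuous_snd.comp c1)).inter_closure
            (a := (x, y)) ⟨r2 hy, hc⟩)
        exact hx ⟨p, ⟨hp.1, (congrArg (·.2 ∈ Q) ep).mpr hy⟩, congrArg Prod.fst ep⟩
      refine ⟨_, ex_map h' h hN ad' hy, ?_, ex_left h' h hN ad' hy⟩
      have c3 : ContinuousAt (fun t : X × Z' => (i (j (invFun j (rg N Γ (j' t.2)))), t.1)) (x, y) :=
        (ContinuousAt.comp (f := Prod.snd) (x := (x, y)) ((ex_sm' h' h hN ad' hR.1 y hy).trans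
          ((hi Z j h).sm _ trivial)).cont continuousAt_snd).prodMk continuousAt_fst
      refine closure_minimal ?_ isClosed_diagonal (c3.continuousWithinAt.mem_closure_image hc)
      rintro _ ⟨_, ⟨z, hz, rfl⟩, rfl⟩
      exact congrArg (fun z => i (j z)) (ex_left h h' hN ad hz)
  have hl : LOE N B Γ' D X' fun p => e' (invFun j' p) :=
    loe_comp h2 (mapsTo_univ _ _) (loe_self h')
  refine ⟨X', fun p => e' (invFun j' p), oph h1, ⟨ad, oe, loe_emb' h' hl, rfl, ?_, ?_⟩, hl, h1⟩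
  · refine Subset.antisymm ?_ fun x hx => ?_
    · rintro _ ⟨x, hx, rfl⟩ ⟨p, hp, ep⟩
      obtain ⟨z, hz, -, ez⟩ := (h4 x hx _ trivial).1 ep.symm
      have : N.pr (j' (invFun j' (rg N Γ' (j z)))) ∉ Q := ex_map h h' hN ad hz
      rw [ez, h'.inv_eq (pt_mono ad.sub hp)] at this
      exact this hp.2
    · rcases (h3 ▸ mem_univ x : x ∈ _ ∪ _) with a | ⟨y, -, rfl⟩
      · exact a
      · have hy : N.pr (j' y) ∉ Q := fun a =>
          hx ⟨j' y, ⟨(h'.mem y).1, a⟩, congrArg e' (h'.inv_left y)⟩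
        have k := ex_map h' h hN ad' hy
        exact ⟨_, ma _ k, (h4 _ (ma _ k) y trivial).2 ⟨_, k, rfl, ex_left h' h hN ad' hy⟩⟩
  · intro p hp p' hp' m
    have e1 := h.inv_eq (pt_mono sdiff_subset hp)
    have k := partner hN ad hp
    have hz : N.pr (j (invFun j p)) ∉ Q := by rw [e1]; exact hp.2.2
    refine (h4 _ (e1 ▸ ma _ hz) _ trivial).2 ⟨_, hz, congrArg i e1, ?_⟩
    rw [e1, mt_uniq hN (mt_trans (mt_symm k.2) m) k.1.1 hp']

end Pool.Agent.MP_e1dc65_gt.T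

end
end MrgPart0

-- ======== part 1: formerly Pool.Agent.MP_e1dc65_gt.t1.Graph
section MrgPart1

/-! PROJECT HC, part T1: the zero section is replaced by a graph missing the strip. -/

open scoped ContDiff NNReal
open Set Metric Filter Topology Function Module

noncomputable section

namespace Pool.Agent.MP_e1dc65_gt.T1

/-- Tietze extension through a map which is injective on a compact set -/
theorem graph_ext {P G H : Type} [TopologicalSpace P] [NormedAddCommGroup G]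
    [NormedAddCommGroup H] [NormedSpace ℝ H] [FiniteDimensional ℝ H] {T : Set P} {x : P → G}
    (hT : IsCompact T) (hx : ContinuousOn x T) (hi : InjOn x T) {f : P → H}
    (hf : ContinuousOn f T) : ∃ F : G → H, Continuous F ∧ ∀ z ∈ T, F (x z) = f z := by
  have := isCompact_iff_compactSpace.1 hT
  have := TietzeExtension.of_tvs ℝ (E := H)
  obtain ⟨F, hF⟩ := ContinuousMap.exists_extension'
    (hx.domRestrict.isClosedEmbedding hi.injective) ⟨_, hf.domRestrict⟩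
  exact ⟨F, F.continuous, fun z hz => congrFun hF ⟨z, hz⟩⟩

/-- a compactly supported homeomorphism moving the graph of `m` to the zero section -/
theorem graph_move {G H : Type} [NormedAddCommGroup G] [NormedAddCommGroup H] [NormedSpace ℝ H]
    [FiniteDimensional ℝ H] {m : G → H} (hm : Continuous m) {K : Set G} (hK : IsCompact K)
    (h0 : ∀ g ∉ K, m g = 0) :
    ∃ Φ : G × H ≃ₜ G × H, ∃ C, IsCompact C ∧ (∀ w ∉ C, Φ w = w) ∧ (∀ w : G × H, w.1 ∉ K → Φ w = w) ∧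
      ∀ w, (Φ w).2 = 0 → w.2 = m w.1 := by
  have := FiniteDimensional.complete ℝ H
  have := FiniteDimensional.proper_real H
  obtain ⟨M, hM⟩ := hK.exists_bound_of_continuousOn hm.continuousOn
  have hL : 0 < |M| + 1 := by positivity
  have hb : ∀ g, ‖m g‖ ≤ |M| + 1 := fun g => by
    by_cases c : g ∈ K
    · linarith [hM g c, le_abs_self M]
    · rw [h0 g c, norm_zero]; exact hL.le
  generalize |M| + 1 = L at hL hb
  let ρ : H → ℝ := fun h => projIcc (0 : ℝ) 1 zero_le_one (2 - ‖h‖ / (2 * L))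
  have hρ : Continuous ρ := continuous_subtype_val.comp (continuous_projIcc.comp (by fun_prop))
  have hC := hK.prod (isCompact_closedBall (0 : H) (4 * L))
  have hz : ∀ w ∉ K ×ˢ closedBall (0 : H) (4 * L), -(ρ w.2 • m w.1) = 0 := fun w hw => by
    by_cases c : w.1 ∈ K
    · have h1 : 4 * L < ‖w.2‖ := not_le.1 fun h => hw ⟨c, mem_closedBall_zero_iff.2 h⟩
      have h2 : 2 - ‖w.2‖ / (2 * L) ≤ 0 := by
        rw [sub_nonpos, le_div_iff₀ (by positivity)]; linarith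
      simp only [ρ, projIcc_of_le_left _ h2, zero_smul, neg_zero]
    · rw [h0 _ c, smul_zero, neg_zero]
  obtain ⟨Φ, hΦ⟩ := fib (h := fun w : G × H => -(ρ w.2 • m w.1)) (c := 1 / 2) (by norm_num)
    (by fun_prop) (fun g => LipschitzWith.of_dist_le_mul fun a b => by
      have h1 : |ρ a - ρ b| ≤ dist a b / (2 * L) := by
        refine (abs_projIcc_sub_projIcc _).trans ?_
        rw [sub_sub_sub_cancel_left, ← sub_div, abs_div, abs_of_pos (by positivity : 0 < 2 * L),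
          dist_comm, dist_eq_norm]
        gcongr
        exact abs_norm_sub_norm_le _ _
      rw [dist_neg_neg, dist_eq_norm, ← sub_smul, norm_smul, Real.norm_eq_abs]
      refine (mul_le_mul h1 (hb g) (norm_nonneg _) (by positivity)).trans_eq ?_
      push_cast
      field_simp) hC hz
  refine ⟨Φ, _, hC, fun w hw => ?_, fun w hw => ?_, fun w hw => ?_⟩
  · rw [hΦ, hz w hw, add_zero]
  · rw [hΦ, h0 _ hw, smul_zero, neg_zero, add_zero]
  · have h2 : 1 ≤ 2 - ‖m w.1‖ / (2 * L) := by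
      have : ‖m w.1‖ / (2 * L) ≤ 1 := by
        rw [div_le_one (by positivity)]; linarith [hb w.1]
      linarith
    have e : Φ w = Φ (w.1, m w.1) := by
      refine Prod.ext (by rw [hΦ, hΦ]) ?_
      rw [hw, hΦ]
      simp only [ρ, projIcc_of_right_le _ h2, one_smul, add_neg_cancel]
    exact congrArg Prod.snd (Φ.injective e)

theorem graph : GraphStmt := by
  intro P G H _ _ _ _ _ _ _ T T₀ x y p q n R hT hT₀ hs hx hi hp hq hn h0 hR hR0 hl
  obtain ⟨p', cp, ep⟩ := graph_ext hT hx hi hp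
  obtain ⟨q', cq, eq⟩ := graph_ext hT hx hi hq
  obtain ⟨n', cn, en⟩ := graph_ext hT hx hi hn
  have hX : IsCompact (x '' T₀) := hT₀.image_of_continuousOn (hx.mono hs)
  let W : Set (ℝ × G) := interior {u | ∀ r ∈ Icc (0 : ℝ) 1 ×ˢ Icc (0 : ℝ) 1,
    (u.2, r.1 • (p' u.2 + u.1 • q' u.2) + r.2 • n' u.2) ∉ R}
  have h1 : ∀ᶠ κ in 𝓝 (0 : ℝ), ∀ g ∈ x '' T₀, (κ, g) ∈ W :=
    hX.eventually_forall_of_forall_eventually fun g hg => by
      refine isOpen_interior.mem_nhds (mem_interior_iff_mem_nhds.2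
        ((isCompact_Icc.prod isCompact_Icc).eventually_forall_of_forall_eventually fun r hr => ?_))
      obtain ⟨z, hz, rfl⟩ := hg
      have c : Continuous fun v : (ℝ × G) × ℝ × ℝ =>
          (v.1.2, v.2.1 • (p' v.1.2 + v.1.1 • q' v.1.2) + v.2.2 • n' v.1.2) := by fun_prop
      refine c.continuousAt.preimage_mem_nhds (hR.isOpen_compl.mem_nhds ?_)
      simpa [ep z (hs hz), en z (hs hz), h0 z hz] using hR0 z hz r.1 hr.1
  obtain ⟨κ, h2, hκ⟩ := ((h1.filter_mono nhdsWithin_le_nhds).and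
    (self_mem_nhdsWithin (a := (0 : ℝ)) (s := Ioi 0))).exists
  have hN : IsOpen {g | (κ, g) ∈ W} := isOpen_interior.preimage (by fun_prop)
  obtain ⟨b, cb, sb, tb, ob, rb⟩ := exists_bump hX hN h2
  obtain ⟨U, hU, hXU, hU1⟩ := mem_nhdsSet_iff_exists.1 ob
  obtain ⟨a, ca, sa, ta, oa, ra⟩ := exists_bump hX (hU.inter hN) (subset_inter hXU h2)
  have ca := ca.continuous
  have cb := cb.continuous
  obtain ⟨Φ, C, hC, h3, h4, h5⟩ := graph_move
    (m := fun g => a g • (p' g + κ • q' g) + b g • n' g) (by fun_prop) (sa.isCompact.union sb.isCompact)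
    fun g hg => by
      simp only [image_eq_zero_of_notMem_tsupport fun c => hg (Or.inl c),
        image_eq_zero_of_notMem_tsupport fun c => hg (Or.inr c), zero_smul, add_zero]
  refine ⟨Φ, C, hC, h3, fun z hz e => ?_, fun w hw e => ?_⟩
  · have h6 := h5 _ e
    simp only [ep z hz, eq z hz, en z hz] at h6
    obtain ⟨h7, h8⟩ := hl z hz κ hκ _ (ra (x z)) _ (rb (x z))
      (or_iff_not_imp_left.2 fun c => hU1 (ta (subset_tsupport _ c)).1) h6
    exact h8.ne (oa.self_of_nhdsSet _ ⟨z, h7, rfl⟩)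
  · by_cases c : w.1 ∈ tsupport a ∪ tsupport b
    · have h6 := interior_subset (show (κ, w.1) ∈ W from c.elim (fun c => (ta c).2) fun c => tb c)
      rcases e with e | e
      · exact absurd (by simpa only [← h5 w e] using hw) (h6 (a w.1, b w.1) ⟨ra _, rb _⟩)
      · exact absurd (by simp only [zero_smul, add_zero]; rw [← e]; exact hw)
          (h6 (0, 0) ⟨left_mem_Icc.2 zero_le_one, left_mem_Icc.2 zero_le_one⟩)
    · exact eventually_of_mem (continuous_fst.continuousAt.preimage_mem_nhds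
        ((sa.isCompact.union sb.isCompact).isClosed.isOpen_compl.mem_nhds c)) h4

end Pool.Agent.MP_e1dc65_gt.T1

end
end MrgPart1

-- ======== part 2: formerly Pool.Agent.MP_e1dc65_gt.t1.Sign
section MrgPart2

/-! PROJECT HC, part T1: charts of tubes and signs of intersection points. -/

set_option linter.unusedSectionVars false

open scoped ContDiff Manifold NNReal
open Set Metric Filter Topology Function Module

noncomputable section

namespace Pool.Agent.MP_e1dc65_gt.T1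

theorem same_sign {X : Type} [TopologicalSpace X] [PreconnectedSpace X] {φ : X → ℝ}
    (hφ : Continuous φ) (h : ∀ x, φ x ≠ 0) (x y : X) : 0 < φ x * φ y := by
  have k : ∀ x y, φ x < 0 → 0 < φ y → False := fun x y hx hy =>
    let ⟨z, hz⟩ := intermediate_value_univ x y hφ ⟨hx.le, hy.le⟩
    h z hz
  rcases (h x).lt_or_gt with a | a <;> rcases (h y).lt_or_gt with b | b
  exacts [mul_pos_of_neg_of_neg a b, (k x y a b).elim, (k y x b a).elim, mul_pos a b]

variable {P G U V E M ι : Type} [NormedAddCommGroup P] [NormedSpace ℝ P] [FiniteDimensional ℝ P]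
  [NormedAddCommGroup G] [NormedSpace ℝ G] [FiniteDimensional ℝ G]
  [NormedAddCommGroup U] [NormedSpace ℝ U] [FiniteDimensional ℝ U]
  [NormedAddCommGroup V] [InnerProductSpace ℝ V] [FiniteDimensional ℝ V]
  [NormedAddCommGroup E] [NormedSpace ℝ E] [TopologicalSpace M] [ChartedSpace E M]

theorem det_ne_iff {A : P →L[ℝ] P} : A.det ≠ 0 ↔ Injective A := by
  rw [ContinuousLinearMap.det, Ne, LinearMap.det_eq_zero_iff_ker_ne_bot, not_not,
    LinearMap.ker_eq_bot]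
  rfl

theorem det_cmp (A B : P →L[ℝ] P) : (A ∘L B).det = A.det * B.det := LinearMap.det_comp _ _

theorem det_block {T : ℝ × P →L[ℝ] ℝ × P} {A : P →L[ℝ] P} {w : P}
    (h : ∀ t η, T (t, η) = (t, t • w + A η)) (hT : T.det ≠ 0) : 0 < T.det * A.det := by
  have hA : Injective A := (injective_iff_map_eq_zero A).2 fun η c =>
    (Prod.mk.inj (det_ne_iff.1 hT (a₁ := (0, η)) (a₂ := (0, 0)) (by simp [h, c]))).2
  let R : ℝ → ℝ × P →L[ℝ] ℝ × P := fun u => (ContinuousLinearMap.id ℝ ℝ).prodMap A +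
    u • (ContinuousLinearMap.inr ℝ ℝ P ∘L (ContinuousLinearMap.fst ℝ ℝ P).smulRight w)
  have := same_sign (φ := fun u => (R u).det) (ContinuousLinearMap.continuous_det.comp (by fun_prop))
    (fun u => det_ne_iff.2 ((injective_iff_map_eq_zero _).2 fun p c => by
      have c1 : p.1 = 0 := by simpa [R] using congrArg Prod.fst c
      exact Prod.ext c1 (hA (by simpa [R, c1] using congrArg Prod.snd c)))) 1 0
  have e1 : R 1 = T := ContinuousLinearMap.ext fun p => by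
    rw [show T p = _ from h p.1 p.2]
    simp [R, add_comm, Prod.ext_iff]
  have e0 : (R 0).det = A.det := by
    simp only [R, zero_smul, add_zero, ContinuousLinearMap.det]
    exact (LinearMap.det_prodMap LinearMap.id (A : P →ₗ[ℝ] P)).trans (by simp)
  simpa only [e1, e0] using this

/-- a smooth chart of the sphere onto `P` -/
structure Ster (c : OpenPartialHomeomorph (sphere (0 : V) 1) P) (v : sphere (0 : V) 1) : Prop where
  src : c.source = {v}ᶜ
  tgt : c.target = univ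
  sm : ContDiff ℝ ∞ fun z => (c.symm z : V)
  sm' : ∃ F : V → P, ∀ s ∈ c.source, ContDiffAt ℝ ∞ F s ∧ F s = c s

theorem exists_ster (h : finrank ℝ P + 1 = finrank ℝ V) (v : sphere (0 : V) 1) :
    ∃ c : OpenPartialHomeomorph (sphere (0 : V) 1) P, Ster c v := by
  have : Fact (finrank ℝ V = finrank ℝ P + 1) := ⟨h.symm⟩
  have hv := norm_eq_of_mem_sphere v
  let L : (ℝ ∙ (v : V))ᗮ ≃L[ℝ] P := ContinuousLinearEquiv.ofFinrankEq
    (Submodule.finrank_orthogonal_span_singleton (ne_zero_of_mem_unit_sphere v))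
  refine ⟨(stereographic hv).transHomeomorph L.toHomeomorph, rfl, preimage_univ,
    contDiff_stereoInvFunAux.comp ((ℝ ∙ (v : V))ᗮ.subtypeL.contDiff.comp L.symm.contDiff),
    L ∘ stereoToFun (v : V), fun s hs => ⟨L.contDiff.contDiffAt.comp (s : V)
      ((contDiffOn_stereoToFun (v := (v : V))).contDiffAt (x := (s : V))
        ((isOpen_ne_fun (innerSL ℝ (v : V)).continuous continuous_const).mem_nhds
        fun c => hs (Subtype.ext ((inner_eq_one_iff_of_norm_eq_one hv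
          (norm_eq_of_mem_sphere s)).1 c).symm))), rfl⟩⟩

theorem Ster.mem {c : OpenPartialHomeomorph (sphere (0 : V) 1) P} {v : sphere (0 : V) 1}
    (h : Ster c v) (z : P) : z ∈ c.target := h.tgt ▸ mem_univ z

theorem Ster.left {c : OpenPartialHomeomorph (sphere (0 : V) 1) P} {v s : sphere (0 : V) 1}
    (h : Ster c v) (hs : s ≠ v) : c.symm (c s) = s := c.left_inv (h.src ▸ hs)

theorem Ster.ne {c : OpenPartialHomeomorph (sphere (0 : V) 1) P} {v : sphere (0 : V) 1}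
    (h : Ster c v) (z : P) : c.symm z ≠ v := (h.src ▸ c.map_target (h.mem z) :)

theorem Ster.inj {c : OpenPartialHomeomorph (sphere (0 : V) 1) P} {v : sphere (0 : V) 1}
    (h : Ster c v) : Injective c.symm := fun z z' e => c.symm.injOn (h.mem z) (h.mem z') e

theorem Ster.cont {c : OpenPartialHomeomorph (sphere (0 : V) 1) P} {v : sphere (0 : V) 1}
    (h : Ster c v) : Continuous c.symm := continuous_induced_rng.2 h.sm.continuous

theorem fderiv_inj_of_left {f : P → V} {F : V → P} {z : P} (hf : DifferentiableAt ℝ f z)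
    (hF : DifferentiableAt ℝ F (f z)) (h : ∀ z, F (f z) = z) : Injective (fderiv ℝ f z) := by
  have e : F ∘ f = id := funext h
  have := fderiv_comp z hF hf
  rw [e, fderiv_id] at this
  exact Injective.of_comp (f := fderiv ℝ F (f z)) fun a b c =>
    (DFunLike.congr_fun this a).trans (c.trans (DFunLike.congr_fun this b).symm)

/-- comparison of the Jacobian on the round sphere with the Jacobian in a parametrisation -/
theorem sgn_sphere (κ : (ℝ × U) ≃L[ℝ] V) (μ : U ≃L[ℝ] P) {l : P → sphere (0 : V) 1}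
    (h1 : ContDiff ℝ ∞ fun z => (l z : V)) (h2 : ∀ z, Injective (fderiv ℝ (fun z => (l z : V)) z)) :
    ∃ n : P → ℝ, (∀ z z', 0 < n z * n z') ∧ ∀ y d z, Sg κ y (l z) d → d ≠ 0 →
      ∃ D : P →L[ℝ] P, HasFDerivAt (fun z => μ (y (l z))) D z ∧ 0 < d * n z * D.det := by
  let κ' : (ℝ × P) ≃L[ℝ] V := ((ContinuousLinearEquiv.refl ℝ ℝ).prodCongr μ.symm).trans κ
  let N : P → ℝ × P →L[ℝ] V := fun z => (ContinuousLinearMap.fst ℝ ℝ P).smulRight (l z : V) +
    fderiv ℝ (fun z => (l z : V)) z ∘L ContinuousLinearMap.snd ℝ ℝ P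
  have hd := fun z => (h1.differentiable (by simp) z).hasFDerivAt
  have h3 : ∀ z η, inner ℝ (l z : V) (fderiv ℝ (fun z => (l z : V)) z η) = 0 := fun z η => by
    have a := (hd z).norm_sq
    simp only [norm_eq_of_mem_sphere] at a
    simpa using DFunLike.congr_fun (a.unique (hasFDerivAt_const _ _)) η
  have h4 : ∀ z (p : ℝ × P), inner ℝ (l z : V) (N z p) = p.1 := fun z p => by
    simp [N, inner_add_right, inner_smul_right, h3]
  have h5 : ∀ z, ((κ'.symm : V →L[ℝ] ℝ × P) ∘L N z).det ≠ 0 := fun z =>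
    det_ne_iff.2 (κ'.symm.injective.comp ((injective_iff_map_eq_zero (N z)).2 fun p c => by
      have c1 : p.1 = 0 := by rw [← h4 z p, c, inner_zero_right]
      exact Prod.ext c1 (h2 z (by simpa [N, c1] using c))))
  have c1 := h1.continuous
  have c2 := h1.continuous_fderiv (by simp)
  refine ⟨fun z => ((κ'.symm : V →L[ℝ] ℝ × P) ∘L N z).det, same_sign
    (ContinuousLinearMap.continuous_det.comp (continuous_const.clm_comp (Continuous.add
      ((ContinuousLinearMap.smulRightL ℝ (ℝ × P) V _).continuous.comp c1)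
      (c2.clm_comp continuous_const)))) h5, ?_⟩
  rintro y _ z ⟨f, D, k1, k2, rfl⟩ k3
  let Q : V →L[ℝ] ℝ × P := (innerSL ℝ (l z : V)).prod ((μ : U →L[ℝ] P) ∘L D)
  have e1 : ((κ : (ℝ × U) →L[ℝ] V) ∘L (innerSL ℝ (l z : V)).prod D).det =
      (Q ∘L (κ' : ℝ × P →L[ℝ] V)).det := by
    refine Eq.trans ?_ (LinearMap.det_conj _ κ'.toLinearEquiv)
    exact congrArg LinearMap.det (LinearMap.ext fun w => by simp [Q, κ'])
  have e2 : ((κ : (ℝ × U) →L[ℝ] V) ∘L (innerSL ℝ (l z : V)).prod D).det *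
      ((κ'.symm : V →L[ℝ] ℝ × P) ∘L N z).det = (Q ∘L N z).det := by
    rw [e1, ← det_cmp]
    exact congrArg _ (ContinuousLinearMap.ext fun w => by simp)
  refine ⟨(μ : U →L[ℝ] P) ∘L D ∘L fderiv ℝ (fun z => (l z : V)) z,
    (μ.hasFDerivAt.comp z (k1.comp z (hd z))).congr_of_eventuallyEq ?_, ?_⟩
  · filter_upwards [(continuous_induced_rng.2 c1 : Continuous l).continuousAt.eventually k2] with w hw
    exact congrArg μ hw.symm
  · rw [e2]
    refine det_block (w := μ (D (l z))) (fun t η => Prod.ext (h4 z (t, η)) ?_)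
      (e2 ▸ mul_ne_zero k3 (h5 z))
    simp [Q, N]

/-- comparison of a defining function with the normal coordinate of a chart -/
theorem sgn_chart {e : OpenPartialHomeomorph M (G × P)} (he : SC E e) (ht : ∀ x, (x, 0) ∈ e.target)
    {g : M → P} (hg : ∀ x, ContMDiffAt 𝓘(ℝ, E) 𝓘(ℝ, P) 1 g (e.symm (x, 0)) ∧ g (e.symm (x, 0)) = 0 ∧
      Surjective (mfderiv 𝓘(ℝ, E) 𝓘(ℝ, P) g (e.symm (x, 0)))) :
    ∃ a : G → ℝ, (∀ x x', 0 < a x * a x') ∧ ∀ (σ : P → M) z D, σ z ∈ e.source → (e (σ z)).2 = 0 →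
      ContMDiffAt 𝓘(ℝ, P) 𝓘(ℝ, E) ∞ σ z → HasFDerivAt (fun z => g (σ z)) D z →
      D.det = a (e (σ z)).1 * (fderiv ℝ (fun z => (e (σ z)).2) z).det := by
  have h1 : ∀ x, ContDiffAt ℝ 1 (g ∘ e.symm) (x, 0) := fun x =>
    ((hg x).1.comp _ ((he.symm_at (ht x)).of_le (by simp))).contDiffAt
  have hd := fun x => ((h1 x).differentiableAt (by simp)).hasFDerivAt
  have h2 : ∀ x ξ, fderiv ℝ (g ∘ e.symm) (x, 0) (ξ, 0) = 0 := fun x ξ => by
    have a := HasFDerivAt.comp (f := fun x => (x, (0 : P))) x (hd x) (hasFDerivAt_prodMk_left x (0 : P))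
    have b : (g ∘ e.symm) ∘ (fun x => (x, (0 : P))) = fun _ => 0 := funext fun x => (hg x).2.1
    rw [b] at a
    exact DFunLike.congr_fun (a.unique (hasFDerivAt_const _ _)) ξ
  have h3 : ∀ x p, fderiv ℝ (g ∘ e.symm) (x, 0) p =
      (fderiv ℝ (g ∘ e.symm) (x, 0) ∘L ContinuousLinearMap.inr ℝ G P) p.2 := fun x p => by
    rw [show p = (p.1, 0) + (0, p.2) by simp, map_add, h2]
    simp
  refine ⟨fun x => (fderiv ℝ (g ∘ e.symm) (x, 0) ∘L ContinuousLinearMap.inr ℝ G P).det,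
    same_sign (ContinuousLinearMap.continuous_det.comp (Continuous.clm_comp
      (continuous_iff_continuousAt.2 fun x => ContinuousAt.comp (f := fun x => (x, (0 : P)))
        ((h1 x).fderiv_right (m := 0) (by simp)).continuousAt (by fun_prop)) continuous_const))
      fun x => det_ne_iff.2 (LinearMap.injective_iff_surjective.2 fun w => ?_), ?_⟩
  · obtain ⟨ξ, hξ⟩ := (hg x).2.2 w
    have m := e.map_target (ht x)
    have a : g =ᶠ[𝓝 (e.symm (x, 0))] (g ∘ e.symm) ∘ e :=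
      (e.eventually_left_inverse m).mono fun y hy => congrArg g hy.symm
    rw [a.mfderiv_eq, mfderiv_comp _ (by
      rw [e.right_inv (ht x)]; exact (h1 x).contMDiffAt.mdifferentiableAt (by simp))
      ((he.at m).mdifferentiableAt (by simp)), mfderiv_eq_fderiv, e.right_inv (ht x)] at hξ
    exact ⟨_, (h3 x _).symm.trans hξ⟩
  · intro σ z D k1 k2 k3 k4
    have d := (((he.at k1).comp z k3).contDiffAt.differentiableAt (by simp)).hasFDerivAt
    have e1 : e (σ z) = ((e (σ z)).1, 0) := Prod.ext rfl k2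
    have a : HasFDerivAt (fun z => g (σ z)) _ z :=
      (HasFDerivAt.comp z (f := e ∘ σ) (e1.symm ▸ hd (e (σ z)).1 :) d).congr_of_eventuallyEq
        ((k3.continuousAt.eventually (e.eventually_left_inverse k1)).mono
          fun y hy => congrArg g hy.symm)
    rw [k4.unique a, ← det_cmp, show fderiv ℝ (fun z => (e (σ z)).2) z = _ from d.snd.fderiv]
    exact congrArg _ (ContinuousLinearMap.ext fun η => by rw [e1]; exact h3 _ _)

/-- the chart of a tube -/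
def tch (T : Tubes ι V U M) (i : ι) (c : OpenPartialHomeomorph (sphere (0 : V) 1) G)
    (k : OpenPartialHomeomorph U P) : OpenPartialHomeomorph M (G × P) := (T.a i).symm.trans (c.prod k)

variable {T : Tubes ι V U M} {i : ι} {c : OpenPartialHomeomorph (sphere (0 : V) 1) G}
  {k : OpenPartialHomeomorph U P} {v : sphere (0 : V) 1}

theorem tch_apply (x : M) : tch T i c k x = (c ((T.a i).symm x).1, k ((T.a i).symm x).2) := rfl
theorem tch_symm (p : G × P) : (tch T i c k).symm p = T.a i (c.symm p.1, k.symm p.2) := rfl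
theorem tch_src {x : M} : x ∈ (tch T i c k).source ↔
    x ∈ (T.a i).target ∧ ((T.a i).symm x).1 ∈ c.source ∧ ((T.a i).symm x).2 ∈ k.source := Iff.rfl
theorem tch_tgt {p : G × P} : p ∈ (tch T i c k).target ↔
    (p.1 ∈ c.target ∧ p.2 ∈ k.target) ∧ (c.symm p.1, k.symm p.2) ∈ (T.a i).source := Iff.rfl

theorem tch_sc (hT : T.Smooth E) (hc : Ster c v) (hk : ContDiffOn ℝ ∞ k k.source)
    (hk' : ContDiffOn ℝ ∞ k.symm k.target) : SC E (tch T i c k) := by
  obtain ⟨⟨f, hf⟩, h2⟩ := hT i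
  obtain ⟨F, hF⟩ := hc.sm'
  refine ⟨fun x hx => ?_, fun p hp => ?_⟩
  · refine (ContDiffAt.comp_contMDiffAt (g := fun p : V × U => (F p.1, k p.2))
      ((ContDiffAt.comp (f := Prod.fst) _ (hF _ hx.2.1).1 contDiffAt_fst).prodMk (ContDiffAt.comp
        (f := Prod.snd) _ (hk.contDiffAt (k.open_source.mem_nhds hx.2.2)) contDiffAt_snd))
      (h2.contMDiffAt ((T.a i).open_target.mem_nhds hx.1))).contMDiffWithinAt.congr
      (fun y hy => ?_) ?_
    exacts [Prod.ext (hF _ hy.2.1).2.symm rfl, Prod.ext (hF _ hx.2.1).2.symm rfl]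
  · refine (ContMDiffAt.comp (f := fun p : G × P => ((c.symm p.1 : V), k.symm p.2)) p
      (hf _ hp.2).1 ((hc.sm.contDiffAt.comp _ contDiffAt_fst).prodMk ((hk'.contDiffAt
        (k.open_target.mem_nhds hp.1.2)).comp _ contDiffAt_snd)).contMDiffAt).contMDiffWithinAt.congr
      (fun y hy => (hf _ hy.2).2.symm) (hf _ hp.2).2.symm

/-- the planar parametrisation of a core sphere -/
theorem core_param (hT : T.Smooth E) (hc : Ster c v) {A : G ≃ₜ G} (hA : ContDiff ℝ ∞ A)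
    (hA' : ContDiff ℝ ∞ A.symm) (z : G) :
    ContMDiffAt 𝓘(ℝ, G) 𝓘(ℝ, E) ∞ (fun z => T.a i (c.symm (A z), 0)) z ∧
      Injective (mfderiv 𝓘(ℝ, G) 𝓘(ℝ, E) (fun z => T.a i (c.symm (A z), 0)) z) := by
  have he := tch_sc (i := i) (k := OpenPartialHomeomorph.refl U) hT hc contDiffOn_id contDiffOn_id
  have m : (A z, (0 : U)) ∈ (tch T i c (OpenPartialHomeomorph.refl U)).target :=
    ⟨⟨hc.mem _, trivial⟩, T.zero _ _⟩
  have h1 : ContDiff ℝ ∞ fun z => (A z, (0 : U)) := hA.prodMk contDiff_const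
  refine ⟨ContMDiffAt.comp (f := fun z => (A z, (0 : U))) z (he.symm_at m) (h1.contMDiff z), inj_comp (σ := fun z => (A z, (0 : U)))
    (g := tch T i c (OpenPartialHomeomorph.refl U)) (h1.contMDiff.mdifferentiable (by simp) z)
    ((he.symm_at m).mdifferentiableAt (by simp))
    ((he.at (OpenPartialHomeomorph.map_target _ m)).mdifferentiableAt (by simp))
    (OpenPartialHomeomorph.eventually_right_inverse _ m) ?_⟩
  have dA := (hA.differentiable (by simp) z).hasFDerivAt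
  rw [mfderiv_eq_fderiv, (dA.prodMk (hasFDerivAt_const _ _)).fderiv]
  have e : A.symm ∘ A = id := funext A.symm_apply_apply
  have := (hA'.differentiable (by simp) (A z)).hasFDerivAt.comp z dA
  rw [e] at this
  have := this.unique (hasFDerivAt_id z)
  exact fun a b c => (DFunLike.congr_fun this a).symm.trans ((congrArg _ (Prod.mk.inj c).1).trans
    (DFunLike.congr_fun this b))

theorem Ster.fderiv_inj {c : OpenPartialHomeomorph (sphere (0 : V) 1) P} (hc : Ster c v) {A : P ≃ₜ P}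
    (hA : ContDiff ℝ ∞ A) (hA' : ContDiff ℝ ∞ A.symm) (z : P) :
    Injective (fderiv ℝ (fun z => (c.symm (A z) : V)) z) := by
  obtain ⟨F, hF⟩ := hc.sm'
  refine fderiv_inj_of_left (F := A.symm ∘ F) ((hc.sm.comp hA).differentiable (by simp) z)
    ((hA'.differentiable (by simp) _).comp _
      ((hF _ (c.map_target (hc.mem _))).1.differentiableAt (by simp))) fun z => ?_
  rw [comp_apply, (hF _ (c.map_target (hc.mem _))).2, c.right_inv (hc.mem _), A.symm_apply_apply]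

end Pool.Agent.MP_e1dc65_gt.T1

end
end MrgPart2

-- ======== part 3: formerly Pool.Agent.MP_e1dc65_gt.t1.Hc
section MrgPart3

/-! PROJECT HC, part T1: cancellation in dimension five from the Whitney move. -/

set_option linter.unusedSectionVars false

open scoped ContDiff Manifold NNReal
open Set Metric Filter Topology Function Module

noncomputable section

namespace Pool.Agent.MP_e1dc65_gt.T1

variable {ι U V U' V' E P M : Type} [Finite ι]
  [NormedAddCommGroup U] [InnerProductSpace ℝ U] [FiniteDimensional ℝ U]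
  [NormedAddCommGroup V] [InnerProductSpace ℝ V] [FiniteDimensional ℝ V]
  [NormedAddCommGroup U'] [InnerProductSpace ℝ U'] [FiniteDimensional ℝ U']
  [NormedAddCommGroup V'] [InnerProductSpace ℝ V'] [FiniteDimensional ℝ V']
  [NormedAddCommGroup E] [NormedSpace ℝ E] [NormedAddCommGroup P] [NormedSpace ℝ P]
  [FiniteDimensional ℝ P] [TopologicalSpace M] [T2Space M] [ChartedSpace E M]
  {B : Tubes ι V U M} {S : Tubes ι U' V' M} {g : ι → M → U} {κ : (ℝ × U) ≃L[ℝ] U'}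
  {d : ι → sphere (0 : U') 1 → ℝ}

theorem Tubes.inj (T : Tubes ι V U M) (i : ι) : Injective fun θ => T.a i (θ, 0) := fun _ _ e =>
  (Prod.mk.inj ((T.a i).injOn (T.zero i _) (T.zero i _) e)).1

theorem Tubes.core_eq (T : Tubes ι V U M) {i j : ι} {x : M} (hi : x ∈ T.core i) (hj : x ∈ T.core j) :
    i = j :=
  let ⟨_, a⟩ := hi
  let ⟨_, b⟩ := hj
  T.disj _ _ _ _ (a.trans b.symm)

theorem sph_ne_neg (s : sphere (0 : U') 1) : s ≠ -s := fun c =>
  ne_zero_of_mem_unit_sphere s ((smul_eq_zero_iff_right (two_ne_zero' ℝ)).1 ((two_smul ℝ _).trans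
    (eq_neg_iff_add_eq_zero.1 (congrArg Subtype.val c))))

theorem rank_of (κ : (ℝ × U) ≃L[ℝ] U') : finrank ℝ U + 1 = finrank ℝ U' := by
  rw [← κ.toLinearEquiv.finrank_eq, finrank_prod, finrank_self, add_comm]

/-- transverse intersection points are finite in number -/
theorem finite_inter (hg : ∀ j, ∀ x ∈ B.core j, g j x = 0)
    (hd : ∀ i j s, S.a i (s, 0) ∈ B.core j → d i s ≠ 0 ∧ Sg κ (fun s => g j (S.a i (s, 0))) s (d i s))
    (i : ι) : {s | S.a i (s, 0) ∈ B.cores}.Finite := by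
  refine (B.cpts.isClosed.preimage (S.cont i)).isCompact.finite (isDiscrete_iff_nhdsNE.2
    fun s hs => ?_)
  obtain ⟨j, hj⟩ := mem_iUnion.1 hs
  obtain ⟨c, hc⟩ := exists_ster (rank_of κ) (-s)
  have e := hc.left (sph_ne_neg s)
  obtain ⟨n, -, hn⟩ := sgn_sphere κ (ContinuousLinearEquiv.refl ℝ U) hc.sm
    (hc.fderiv_inj (A := Homeomorph.refl U) contDiff_id contDiff_id)
  obtain ⟨D, h1, h2⟩ := hn _ _ (c s) (by rw [e]; exact (hd i j s hj).2) (hd i j s hj).1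
  have m : s ∈ c.source := hc.src ▸ sph_ne_neg s
  have h3 := (h1.eventually_ne (c := 0) ⟨_, (D.toContinuousLinearEquivOfDetNeZero
    (right_ne_zero_of_mul h2.ne')).antilipschitz⟩)
  have h4 : Tendsto c (𝓝[≠] s) (𝓝[≠] (c s)) := tendsto_nhdsWithin_iff.2
    ⟨(c.continuousAt m).tendsto.mono_left nhdsWithin_le_nhds, c.eventually_ne_nhdsWithin m⟩
  have h5 : ∀ j', ∀ᶠ s' in 𝓝 s, S.a i (s', 0) ∈ B.core j' → j' = j := fun j' => by
    rcases eq_or_ne j' j with c | c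
    · exact Eventually.of_forall fun _ _ => c
    · exact mem_of_superset (((B.cpt j').isClosed.preimage (S.cont i)).isOpen_compl.mem_nhds
        fun k => c (B.core_eq k hj)) fun _ k k' => absurd k' k
  rw [inf_principal_eq_bot]
  filter_upwards [h4.eventually h3, mem_nhdsWithin_of_mem_nhds (eventually_all.2 h5),
    mem_nhdsWithin_of_mem_nhds (c.eventually_left_inverse m)] with s' k1 k2 k3 k4
  obtain ⟨j', hj'⟩ := mem_iUnion.1 k4
  obtain rfl := k2 j' hj'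
  exact k1 (by rw [k3]; exact hg _ _ hj')

/-- transverse spheres cross -/
theorem cross_of_sg (hB : B.Smooth E) (hS : S.Smooth E) {i j : ι} {s : sphere (0 : U') 1}
    (hg : ∀ x ∈ B.core j, ContMDiffAt 𝓘(ℝ, E) 𝓘(ℝ, U) 1 (g j) x ∧ g j x = 0 ∧
      Surjective (mfderiv 𝓘(ℝ, E) 𝓘(ℝ, U) (g j) x)) (hs : S.a i (s, 0) ∈ B.core j) {d : ℝ}
    (h0 : d ≠ 0) (hd : Sg κ (fun s => g j (S.a i (s, 0))) s d) :
    Cross B S j i (S.a i (s, 0)) := by
  obtain ⟨η, hη⟩ := hs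
  replace hη : B.a j (η, 0) = S.a i (s, 0) := hη
  have : Nontrivial V := ⟨η, 0, ne_zero_of_mem_unit_sphere η⟩
  obtain ⟨c, hc⟩ := exists_ster (rank_of κ) (-s)
  obtain ⟨c', hc'⟩ := exists_ster (P := Fin (finrank ℝ V - 1) → ℝ)
    (by simpa using Nat.sub_add_cancel finrank_pos) (-η)
  have e := hc.left (sph_ne_neg s)
  obtain ⟨n, -, hn⟩ := sgn_sphere κ (ContinuousLinearEquiv.refl ℝ U) hc.sm
    (hc.fderiv_inj (A := Homeomorph.refl U) contDiff_id contDiff_id)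
  obtain ⟨D, h1, h2⟩ := hn _ _ (c s) (e.symm ▸ hd) h0
  have he := tch_sc (i := i) (k := OpenPartialHomeomorph.refl V') hS hc contDiffOn_id contDiffOn_id
  have he' := tch_sc (i := j) (k := OpenPartialHomeomorph.refl U) hB hc' contDiffOn_id contDiffOn_id
  obtain ⟨a, -, ha⟩ := sgn_chart he' (fun x => ⟨⟨hc'.mem _, trivial⟩, B.zero _ _⟩)
    fun x => hg _ ⟨_, rfl⟩
  have l : (B.a j).symm (S.a i (s, 0)) = (η, 0) := hη ▸ (B.a j).left_inv (B.zero _ _)
  have l' : (S.a i).symm (S.a i (s, 0)) = (s, 0) := (S.a i).left_inv (S.zero _ _)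
  have m' : S.a i (s, 0) ∈ (tch B j c' (OpenPartialHomeomorph.refl U)).source :=
    tch_src.2 ⟨hη ▸ (B.a j).map_source (B.zero _ _), by rw [l, hc'.src]; exact sph_ne_neg η, trivial⟩
  have m : S.a i (s, 0) ∈ (tch S i c (OpenPartialHomeomorph.refl V')).source :=
    tch_src.2 ⟨(S.a i).map_source (S.zero _ _), by rw [l', hc.src]; exact sph_ne_neg s, trivial⟩
  have e1 : tch S i c (OpenPartialHomeomorph.refl V') (S.a i (s, 0)) = (c s, 0) := by
    rw [tch_apply, l']; rfl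
  have h3 := ha (fun z => S.a i (c.symm z, 0)) (c s) D (by rwa [e]) (by rw [e, tch_apply, l]; rfl)
    (core_param (A := Homeomorph.refl U) hS hc contDiff_id contDiff_id _).1 h1
  set e₁ := tch S i c (OpenPartialHomeomorph.refl V')
  set e₂ := tch B j c' (OpenPartialHomeomorph.refl U)
  have h4 : ContDiffAt ℝ ∞ (fun p => (e₂ (e₁.symm p)).2) (c s, 0) :=
    contDiffAt_snd.comp _ (ContMDiffAt.comp _ (he'.at (by rwa [← e1, e₁.left_inv m]))
      (he.symm_at (e1 ▸ e₁.map_source m))).contDiffAt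
  have h5 := (h4.differentiableAt (by simp)).hasFDerivAt
  have h6 := (HasFDerivAt.comp (f := fun z => (z, (0 : V'))) (c s) h5
    (hasFDerivAt_prodMk_left (c s) (0 : V'))).fderiv
  have h7 : Injective (fderiv ℝ (fun z => (e₂ (S.a i (c.symm z, 0))).2) (c s)) :=
    det_ne_iff.1 (right_ne_zero_of_mul (h3 ▸ right_ne_zero_of_mul h2.ne'))
  have h8 : ((fderiv ℝ (fun p => (e₂ (e₁.symm p)).2) (c s, 0)).prod
      (ContinuousLinearMap.snd ℝ U V')).det ≠ 0 :=
    det_ne_iff.2 ((injective_iff_map_eq_zero _).2 fun ⟨x, y⟩ k => by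
      obtain ⟨k1, rfl⟩ : _ ∧ y = 0 := Prod.mk.inj k
      exact Prod.ext (h7 ((DFunLike.congr_fun h6 x).trans (k1.trans (map_zero _).symm))) rfl)
  have := FiniteDimensional.complete ℝ (U × V')
  have h9 := h4.prodMk contDiffAt_snd
  have h10 : HasFDerivAt _ (ContinuousLinearMap.toContinuousLinearEquivOfDetNeZero _ h8 :
    U × V' →L[ℝ] U × V') (c s, 0) := h5.prodMk hasFDerivAt_snd
  refine ⟨e₁.trans (h9.toOpenPartialHomeomorph _ h10 (by simp)),
    ⟨m, mem_of_eq_of_mem (x := e₁ _) e1 (h9.mem_toOpenPartialHomeomorph_source h10 (by simp))⟩, ?_⟩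
  filter_upwards [e₁.eventually_left_inverse m] with y hy
  exact Prod.ext (congrArg (fun y => (e₂ y).2) hy) rfl

variable {Mm Mp : Type} [TopologicalSpace Mm] [TopologicalSpace Mp]

/-- a surgery transported by a homeomorphism -/
def Surg.push (σ : Surg ι U' V' M Mp) (Ψ : M ≃ₜ M) : Surg ι U' V' M Mp where
  A := ⟨fun i => (σ.A.a i).transHomeomorph Ψ, σ.A.zero,
    fun i j θ θ' e => σ.A.disj i j θ θ' (Ψ.injective e)⟩
  B := σ.B
  φ := Ψ.symm.transOpenPartialHomeomorph σ.φ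
  src := by
    ext x
    change Ψ.symm x ∈ σ.φ.source ↔ _
    simp [σ.src, Tubes.cores, Tubes.core, Ψ.eq_symm_apply]
  tgt := σ.tgt
  rel i := by
    obtain ⟨ε, hε, h⟩ := σ.rel i
    refine ⟨ε, hε, fun θ η r h0 h1 => ?_⟩
    change Ψ.symm (Ψ _) ∈ σ.φ.source ∧ σ.φ (Ψ.symm (Ψ _)) = _
    rw [Ψ.symm_apply_apply]
    exact h θ η r h0 h1

theorem hc_mdl (hW : WhitStmt) (hC : CancelStmt) [FiniteDimensional ℝ E] [IsManifold 𝓘(ℝ, E) ∞ M]
    [TopologicalSpace.MetrizableSpace Mm] [LocallyCompactSpace Mm]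
    [TopologicalSpace.MetrizableSpace Mp] [LocallyCompactSpace Mp] {ι₀ : ℝ →L[ℝ] P} (hM : Mdl ι₀)
    (μ : U ≃L[ℝ] P) (σ₁ : Surg ι U V Mm M) (σ₂ : Surg ι U' V' M Mp) {O : Set M}
    {s₀ : ι → sphere (0 : U') 1} {m : ι → sphere (0 : U') 1 → sphere (0 : U') 1}
    (hE : finrank ℝ E = 5) (hV : finrank ℝ U + finrank ℝ V = 6) (hB : σ₁.B.Smooth E)
    (hS : σ₂.A.Smooth E) (hO : IsOpen O) (hBO : σ₁.B.cores ⊆ O) (hSO : σ₂.A.cores ⊆ O)
    (hg : ∀ j, ∀ x ∈ σ₁.B.core j, ContMDiffAt 𝓘(ℝ, E) 𝓘(ℝ, U) 1 (g j) x ∧ g j x = 0 ∧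
      Surjective (mfderiv 𝓘(ℝ, E) 𝓘(ℝ, U) (g j) x))
    (hd : ∀ i j s, σ₂.A.a i (s, 0) ∈ σ₁.B.core j →
      d i s ≠ 0 ∧ Sg κ (fun s => g j (σ₂.A.a i (s, 0))) s (d i s))
    (h0 : ∀ i, σ₂.A.a i (s₀ i, 0) ∈ σ₁.B.core i)
    (hm : ∀ i j s, σ₂.A.a i (s, 0) ∈ σ₁.B.core j → s ≠ s₀ i →
      m i s ≠ s₀ i ∧ σ₂.A.a i (m i s, 0) ∈ σ₁.B.core j ∧ m i (m i s) = s ∧
      d i s * d i (m i s) < 0 ∧
      (finrank ℝ U = 1 → ∃ γ : Path s (m i s), ∀ t, t ≠ 0 → t ≠ 1 →
        σ₂.A.a i (γ t, 0) ∉ σ₁.B.cores) ∧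
      Thin ((σ₂.A.core i ∪ (σ₁.B.a j).target) \ σ₁.B.cores) (O \ σ₁.B.cores)) :
    Concl σ₁ σ₂ O := by
  set B := σ₁.B
  set S := σ₂.A
  have hμ := μ.toLinearEquiv.finrank_eq
  have hP := hM.dim
  have hf := finite_inter (fun j x hx => (hg j x hx).2.1) hd
  have hf' : (S.cores ∩ B.cores).Finite := (finite_iUnion fun i =>
    (hf i).image fun s => S.a i (s, 0)).subset fun x hx => by
      obtain ⟨i, s, rfl⟩ := mem_iUnion.1 hx.1
      exact mem_iUnion.2 ⟨i, s, hx.2, rfl⟩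
  let G := Fin (finrank ℝ V - 1) → ℝ
  have hG : finrank ℝ G + 1 = finrank ℝ V := by simp only [G, finrank_fin_fun]; omega
  have hv : ∀ j, ∃ v, B.a j (v, 0) ∉ S.cores := fun j => by
    have : Nontrivial G := Module.nontrivial_of_finrank_pos (R := ℝ) (by omega)
    obtain ⟨η, -⟩ := h0 j
    obtain ⟨c, hc⟩ := exists_ster hG η
    have := Module.Free.infinite ℝ G
    have := Infinite.of_injective _ hc.inj
    obtain ⟨v, hv⟩ := (hf'.preimage (B.inj j).injOn).exists_notMem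
    exact ⟨v, fun k => hv ⟨k, mem_iUnion.2 ⟨j, v, rfl⟩⟩⟩
  choose v hv using hv
  choose cB hcB using fun j => exists_ster hG (v j)
  choose c hc using fun i => exists_ster (P := P) (hμ ▸ rank_of κ) (s₀ i)
  obtain ⟨ε, hε, e1, e2⟩ := B.exists_eps (O := fun _ => O) (fun _ => hO)
    fun i => (subset_iUnion _ i).trans hBO
  obtain ⟨ε', hε', -, e4⟩ := S.exists_eps (O := fun _ => univ) (fun _ => isOpen_univ)
    fun _ => subset_univ _
  let k : OpenPartialHomeomorph U P :=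
    (OpenPartialHomeomorph.univBall (0 : U) ε).symm.transHomeomorph μ.toHomeomorph
  have k1 : k.source = ball 0 ε := OpenPartialHomeomorph.univBall_target _ hε
  have k2 : ∀ p, p ∈ k.target := fun p =>
    (OpenPartialHomeomorph.univBall_source (0 : U) ε ▸ mem_univ (μ.symm p) :)
  have k3 : k 0 = 0 := (congrArg μ (OpenPartialHomeomorph.univBall_symm_apply_center _ _)).trans
    (map_zero μ)
  have k4 : (0 : U) ∈ k.source := k1 ▸ mem_ball_self hε
  have k5 : k.symm 0 = 0 := k3 ▸ k.left_inv k4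
  let e := fun j => tch B j (cB j) k
  have he : ∀ j, SC E (e j) := fun j => tch_sc hB (hcB j)
    (k1 ▸ μ.contDiff.comp_contDiffOn OpenPartialHomeomorph.contDiffOn_univBall_symm)
    (OpenPartialHomeomorph.contDiff_univBall.comp μ.symm.contDiff).contDiffOn
  have ht : ∀ j p, p ∈ (e j).target := fun j p => ⟨⟨(hcB j).mem _, k2 _⟩,
    (e1 j _ _ (mem_ball_zero_iff.1 (k1 ▸ k.map_target (k2 p.2)))).1⟩
  have hs : ∀ j, ∀ x ∈ (e j).source, ‖((B.a j).symm x).2‖ < ε ∧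
      B.a j (((B.a j).symm x).1, ((B.a j).symm x).2) = x := fun j x hx =>
    ⟨mem_ball_zero_iff.1 (k1 ▸ hx.2.2), (B.a j).right_inv hx.1⟩
  have hz : ∀ j, ∀ x ∈ (e j).source, x ∈ B.cores ↔ (e j x).2 = 0 := fun j x hx => by
    refine ⟨fun a => ?_, fun a => mem_iUnion.2 ⟨j, (B.mem_core hx.1).2 (k.injOn hx.2.2 k4
      (a.trans k3.symm))⟩⟩
    obtain ⟨j', θ, a⟩ := mem_iUnion.1 a
    obtain rfl := e2 _ _ _ _ _ _ (hs j x hx).1 (by simpa using hε) ((hs j x hx).2.trans a.symm)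
    exact (congrArg k ((B.mem_core hx.1).1 ⟨θ, a⟩)).trans k3
  have hin : ∀ i j s, S.a i (s, 0) ∈ B.core j → S.a i (s, 0) ∈ B.cores ∩ (e j).source :=
    fun i j s a => by
    obtain ⟨η, b⟩ := id a
    replace b : B.a j (η, 0) = S.a i (s, 0) := b
    refine ⟨mem_iUnion.2 ⟨j, a⟩, tch_src.2 ⟨B.core_sub j a, ?_⟩⟩
    rw [← b, (B.a j).left_inv (B.zero _ _)]
    exact ⟨(hcB j).src ▸ fun c => hv j (c ▸ b ▸ mem_iUnion.2 ⟨i, s, rfl⟩), k4⟩
  choose A hA using fun i => hM.place (c i '' {s | s ≠ s₀ i ∧ S.a i (s, 0) ∈ B.cores})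
    (fun z => c i (m i ((c i).symm z))) (((hf i).subset fun _ => And.right).image _) (by
      rintro _ ⟨s, ⟨a, b⟩, rfl⟩
      obtain ⟨j, b⟩ := mem_iUnion.1 b
      obtain ⟨m1, m2, m3, m4, m5, -⟩ := hm i j s b a
      rw [(hc i).left a, (hc i).left m1, m3]
      refine ⟨⟨_, ⟨m1, mem_iUnion.2 ⟨j, m2⟩⟩, rfl⟩, rfl, fun c' => ?_, fun c' => ?_⟩
      · rw [(c i).injOn ((hc i).src ▸ m1) ((hc i).src ▸ a) c'] at m4
        exact mul_self_nonneg _ |>.not_gt m4
      obtain ⟨γ, hγ⟩ := m5 (hμ.trans c')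
      have n : ∀ t, γ t ∈ (c i).source := fun t => (hc i).src ▸ fun c' => by
        by_cases t0 : t = 0
        · exact a (by rwa [t0, γ.source] at c')
        by_cases t1 : t = 1
        · exact m1 (by rwa [t1, γ.target] at c')
        · exact hγ t t0 t1 (c' ▸ mem_iUnion.2 ⟨i, h0 i⟩)
      refine ⟨γ.map' ((c i).continuousOn.mono (range_subset_iff.2 n)), fun t t0 t1 ⟨s', a', b'⟩ => ?_⟩
      exact hγ t t0 t1 ((c i).injOn ((hc i).src ▸ a'.1) (n t) b' ▸ a'.2))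
  let Λ := {p : ι × sphere (0 : U') 1 // p.2 ≠ s₀ p.1 ∧ S.a p.1 (p.2, 0) ∈ B.cores ∧ 0 < d p.1 p.2}
  have : Finite Λ := Finite.to_subtype ((finite_iUnion fun i => (hf i).image (Prod.mk i)).subset
    fun p hp => mem_iUnion.2 ⟨p.1, p.2, hp.2.1, rfl⟩)
  choose j hj using fun l : Λ => mem_iUnion.1 l.2.2.1
  let σ : Λ → P → M := fun l z => S.a l.1.1 ((c l.1.1).symm (A l.1.1 (c l.1.1 l.1.2) z), 0)
  have hA' := fun l : Λ => hA l.1.1 _ ⟨_, ⟨l.2.1, l.2.2.1⟩, rfl⟩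
  have hm' := fun l : Λ => hm _ _ _ (hj l) l.2.1
  have a0 : ∀ l : Λ, (c l.1.1).symm (A l.1.1 (c l.1.1 l.1.2) (ι₀ 0)) = l.1.2 := fun l => by
    rw [(hA' l).2.2.1, (hc _).left l.2.1]
  have a1 : ∀ l : Λ, (c l.1.1).symm (A l.1.1 (c l.1.1 l.1.2) (ι₀ 1)) = m l.1.1 l.1.2 := fun l => by
    rw [(hA' l).2.2.2.1, (hc _).left l.2.1, (hc _).left (hm' l).1]
  have b0 : ∀ l, σ l (ι₀ 0) = S.a l.1.1 (l.1.2, 0) := fun l => by simp only [σ, a0]
  have b1 : ∀ l, σ l (ι₀ 1) = S.a l.1.1 (m l.1.1 l.1.2, 0) := fun l => by simp only [σ, a1]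
  have hp := fun l : Λ => core_param (i := l.1.1) hS (hc l.1.1) (hA' l).1 (hA' l).2.1
  obtain ⟨π, hπ⟩ := hM.left
  have key := hW P G E M ι Λ ι₀ O B.cores S.cores e σ j hM hE (by omega) hO
    B.cpts.isClosed S.cpts ⟨range (fun i z => S.a i ((c i).symm z, 0)) ∪
      range fun i _ => S.a i (s₀ i, 0), (countable_range _).union (countable_range _), fun x hx => ?_⟩
    hf'.countable (fun j => ⟨he j, eq_univ_of_forall (ht j),
      fun x hx => (hs j x hx).2 ▸ (e1 j _ _ (hs j x hx).1).2, hz j⟩)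
    (fun j j' a => disjoint_left.2 fun x b b' => a (e2 _ _ _ _ _ _ (hs j x b).1 (hs j' x b').1
      ((hs j x b).2.trans (hs j' x b').2.symm)))
    (fun l t _ => ⟨Eventually.of_forall fun z => (hp l z).1, (hp l _).2⟩) ?_ ?_ fun l => ?_
  rotate_left
  · obtain ⟨i, s, rfl⟩ := mem_iUnion.1 hx
    rcases eq_or_ne s (s₀ i) with rfl | a
    · exact ⟨_, Or.inr ⟨i, rfl⟩, 0, contMDiffAt_const, rfl⟩
    · exact ⟨_, Or.inl ⟨i, rfl⟩, c i s, (core_param (A := Homeomorph.refl P) hS (hc i) contDiff_id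
        contDiff_id _).1.of_le (by simp), by simp only [(hc i).left a]⟩
  · rintro ⟨⟨i, s⟩, hl⟩ ⟨⟨i', s'⟩, hl'⟩ t a t' a' b
    obtain rfl : i = i' := S.disj _ _ _ _ b
    have b' := (hc i).inj (S.inj i b)
    obtain rfl : s = s' := by
      rcases (hA' ⟨_, hl⟩).2.2.2.2.2 _ ⟨_, ⟨hl'.1, hl'.2.1⟩, rfl⟩ t a t' a' b' with c' | c'
      · exact ((c i).injOn ((hc i).src ▸ hl'.1) ((hc i).src ▸ hl.1) c').symm
      · rw [(hc i).left hl.1] at c'
        obtain rfl := (c i).injOn ((hc i).src ▸ hl'.1) ((hc i).src ▸ (hm' ⟨_, hl⟩).1) c'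
        exact absurd (hm' ⟨_, hl⟩).2.2.2.1 (mul_pos hl.2.2 hl'.2.2).le.not_gt
    exact ⟨rfl, by rw [← hπ t, (A _ _).injective b', hπ]⟩
  · rintro ⟨⟨i, s⟩, hl⟩ t - N hN
    let e₁ := tch S i (c i) (OpenPartialHomeomorph.refl V')
    have m1 : (A i (c i s) (ι₀ t), (0 : V')) ∈ e₁.target := ⟨⟨(hc i).mem _, trivial⟩, S.zero _ _⟩
    refine mem_of_superset (inter_mem (mem_nhdsWithin_of_mem_nhds (e₁.symm.image_mem_nhds m1
      (inter_mem (e₁.open_target.mem_nhds m1) (prod_mem_nhds ((A i (c i s)).isOpenMap.image_mem_nhds hN)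
        (ball_mem_nhds 0 hε'))))) self_mem_nhdsWithin) ?_
    rintro _ ⟨⟨⟨_, w⟩, ⟨m2, ⟨z, hz, rfl⟩, m3⟩, rfl⟩, m4⟩
    obtain ⟨i', θ, m4⟩ := mem_iUnion.1 m4
    obtain rfl := e4 _ _ _ _ _ _ (by simpa using hε') (mem_ball_zero_iff.1 m3) m4
    obtain rfl : 0 = w := (Prod.mk.inj ((S.a i').injOn (S.zero _ _) m2.2 m4)).2
    exact ⟨z, hz, rfl⟩
  · refine ⟨b0 l ▸ hin _ _ _ (hj l), b1 l ▸ hin _ _ _ (hm' l).2.1, fun t a b =>
      (hA' l).2.2.2.2.1 t a ⟨_, ⟨(hc _).ne _, b⟩, (c _).right_inv ((hc _).mem _)⟩, ?_,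
      fun x y p q a b => (hm' l).2.2.2.2.2 x y p q ?_ ?_⟩
    rotate_left
    · exact fun t => ⟨(a t).1.imp (fun ⟨_, _, k⟩ => ⟨_, k⟩) And.left, (a t).2⟩
    · exact fun t => ⟨(b t).1.imp (fun ⟨_, _, k⟩ => ⟨_, k⟩) And.left, (b t).2⟩
    obtain ⟨n, n1, n2⟩ := sgn_sphere κ μ (l := fun z => (c l.1.1).symm (A l.1.1 (c l.1.1 l.1.2) z))
      ((hc _).sm.comp (hA' l).1) ((hc _).fderiv_inj (hA' l).1 (hA' l).2.1)
    obtain ⟨a, a2, a3⟩ := sgn_chart (g := fun x => μ (g (j l) x)) (he (j l)) (fun _ => ht _ _) fun x => by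
      obtain ⟨g1, g2, g3⟩ := hg (j l) ((e (j l)).symm (x, 0)) ⟨_, by rw [tch_symm, k5]⟩
      refine ⟨μ.contDiff.contDiffAt.comp_contMDiffAt g1, by rw [g2, map_zero], ?_⟩
      change Surjective (mfderiv _ _ (μ ∘ g (j l)) _)
      rw [mfderiv_comp _ (μ.contDiff (n := 1).contMDiff.mdifferentiable
        (by simp) _) (g1.mdifferentiableAt (by simp)), mfderiv_eq_fderiv, μ.fderiv]
      exact μ.surjective.comp g3
    obtain ⟨D, d1, d2⟩ := n2 _ _ (ι₀ 0) (by rw [a0]; exact (hd _ _ _ (hj l)).2) (hd _ _ _ (hj l)).1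
    obtain ⟨D', d1', d2'⟩ := n2 _ _ (ι₀ 1) (by rw [a1]; exact (hd _ _ _ (hm' l).2.1).2)
      (hd _ _ _ (hm' l).2.1).1
    have m0 := b0 l ▸ hin _ _ _ (hj l)
    have m1 := b1 l ▸ hin _ _ _ (hm' l).2.1
    rw [a3 (σ l) _ D m0.2 ((hz _ _ m0.2).1 m0.1) (hp l _).1 d1] at d2
    rw [a3 (σ l) _ D' m1.2 ((hz _ _ m1.2).1 m1.1) (hp l _).1 d1'] at d2'
    have := mul_pos d2 d2'
    refine neg_of_mul_pos_right (a := d _ _ * d _ _ * (n _ * n _ * (a _ * a _))) (this.trans_eq ?_)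
      (mul_neg_of_neg_of_pos (hm' l).2.2.2.1 (mul_pos (n1 (ι₀ 0) (ι₀ 1))
        (a2 (e (j l) (σ l (ι₀ 0))).1 (e (j l) (σ l (ι₀ 1))).1))).le
    ring
  obtain ⟨Ψ, C, c1, c2, c3, c4, c5⟩ := key
  have c6 : ∀ i, Ψ =ᶠ[𝓝 (S.a i (s₀ i, 0))] id := fun i =>
    c5 _ ⟨mem_iUnion.2 ⟨i, _, rfl⟩, mem_iUnion.2 ⟨i, h0 i⟩⟩ fun l => by
      rw [b0, b1]
      refine ⟨fun a => ?_, fun a => ?_⟩ <;> obtain rfl := S.disj _ _ _ _ a
      exacts [l.2.1 (S.inj _ a).symm, (hm' l).1 (S.inj _ a).symm]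
  have key := hC ι U V U' V' Mm M Mp σ₁ (σ₂.push Ψ) O
    (fun i => S.a i (s₀ i, 0)) hO hBO (fun x hx => ?_) (fun i => ?_) h0 fun i => ?_
  · obtain ⟨h, K, h1, h2, h3, h4, h5⟩ := key
    refine ⟨h, K ∪ C, h1.union c2, union_subset h2 c1, h3.trans subset_union_left, fun x hx => ?_,
      fun x a b => (h5 x a fun c => b (Or.inl c)).trans
        (congrArg σ₂.φ (symm_id_off Ψ c3 _ fun c => b (Or.inr c)))⟩
    obtain ⟨i, s, rfl⟩ := mem_iUnion.1 hx
    exact or_iff_not_imp_right.2 fun a => h4 (mem_iUnion.2 ⟨i, s, c3 _ a⟩)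
  · obtain ⟨i, s, rfl⟩ := mem_iUnion.1 hx
    exact (mem_of_id_off Ψ.injective c1 c3).2 (hSO (mem_iUnion.2 ⟨i, s, rfl⟩))
  · refine eq_singleton_iff_unique_mem.2 ⟨⟨⟨s₀ i, (c6 i).eq_of_nhds⟩, mem_iUnion.2 ⟨i, h0 i⟩⟩, ?_⟩
    rintro _ ⟨⟨s, rfl⟩, a⟩
    obtain ⟨a2, a3⟩ := c4 _ (mem_iUnion.2 ⟨i, s, rfl⟩) a
    obtain rfl : s = s₀ i := by_contra fun b => by
      obtain ⟨j', a4⟩ := mem_iUnion.1 a2
      obtain ⟨m1, m2, m3, m4, -⟩ := hm i j' s a4 b
      rcases (hd i j' s a4).1.lt_or_gt with c' | c'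
      · exact (a3 ⟨(i, m i s), m1, mem_iUnion.2 ⟨j', m2⟩, pos_of_mul_neg_right m4 c'.le⟩).2
          (by rw [b1, m3])
      · exact (a3 ⟨(i, s), b, a2, c'⟩).1 (b0 ⟨(i, s), b, a2, c'⟩).symm
    exact (c6 i).eq_of_nhds
  · obtain ⟨c', a, b⟩ := cross_of_sg hB hS (hg i) (h0 i) (hd i i _ (h0 i)).1 (hd i i _ (h0 i)).2
    refine ⟨c', a, ?_⟩
    filter_upwards [b, c6 i] with y a b
    rw [a]
    exact congrArg (fun z => (((B.a i).symm y).2, ((S.a i).symm z).2)) (Ψ.eq_symm_apply.2 b)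

theorem hc (hW : WhitStmt) (hC : CancelStmt) (h1 : Mdl1Stmt) (h2 : Mdl2Stmt) : HCStmt := by
  intro ι U V U' V' E Mm M Mp _ _ _ _ _ _ _ _ _ _ _ _ _ _ _ _ _ _ _ _ _ _ _ _ _ _ σ₁ σ₂ O g κ d s₀ m
    hE hU hV _ hB hS hO hBO hSO hg hd h0 hm
  rcases hU with hU | hU
  · exact hc_mdl hW hC h1 (ContinuousLinearEquiv.ofFinrankEq (by simpa using hU)) σ₁ σ₂ hE hV hB hS
      hO hBO hSO hg hd h0 hm
  · exact hc_mdl hW hC h2 (ContinuousLinearEquiv.ofFinrankEq (by simpa using hU)) σ₁ σ₂ hE hV hB hS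
      hO hBO hSO hg hd h0 hm

end Pool.Agent.MP_e1dc65_gt.T1

end
end MrgPart3

-- marker of a merged file
example : 731051 + 476045 = 731051 + 476045 := rfl

end MrgPart3

-- ======== part 4: formerly Pool.Agent.MP_e1dc65_gt.t2.Kill
section MrgPart4

/-! PROJECT HC, block PK, row KILL: the replacement kills the loops of a fibre. -/

open scoped ContDiff Manifold Topology Real unitInterval
open Set Filter Function Module Metric Topology

noncomputable section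

namespace Pool.Agent.MP_e1dc65_gt.T

namespace Kill

section nul
variable {A P X : Type} [TopologicalSpace A] [TopologicalSpace P] [TopologicalSpace X] {Y : Set X}
  {g : P → X} {W : Set P} {f f' : A → X}

/-- `f` sends loops to loops that are null-homotopic in `Y` -/
def Nul (Y : Set X) (f : A → X) : Prop :=
  ∀ (a : A) (γ : Path a a) (b : X) (δ : Path b b), (∀ t, δ t = f (γ t)) → HIn Y δ (Path.refl b)

theorem Nul.htpy (h : Nul Y f') (hg : ContinuousOn g W) (hY : MapsTo g W Y) (k : I × A → P)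
    (hk : Continuous k) (hW : ∀ p, k p ∈ W) (h0 : ∀ a, f a = g (k (0, a)))
    (h1 : ∀ a, f' a = g (k (1, a))) : Nul Y f := by
  intro a γ b δ e
  obtain ⟨G, _, τ, t1, t2⟩ := taut X Y
  have hc : Continuous fun p : I × I => g (k (p.2, γ p.1)) :=
    hg.comp_continuous (by fun_prop) fun _ => hW _
  have hb : b = g (k (0, a)) := by rw [← δ.source, e, γ.source, h0]
  let up : Path (g (k (1, a))) (g (k (1, a))) :=
    ⟨⟨fun t => g (k (1, γ t)), hc.comp (Continuous.prodMk_left 1)⟩, by simp, by simp⟩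
  let si : Path b (g (k (1, a))) :=
    ⟨⟨fun t => g (k (t, a)),
      by simpa [Function.comp_def] using hc.comp (Continuous.prodMk_right 0)⟩,
      by simp [hb], by simp⟩
  have := t1.square hc (fun p => hY (hW _)) (bo := δ) (ri := si) (le := si) (up := up)
    (fun t => (e t).trans (h0 _)) (fun t => by simp [si]) (fun t => by simp [si]) fun t => rfl
  rw [t1.null (h a γ _ up fun t => (h1 _).symm), mul_one, mul_eq_right] at this
  have hδ : In δ Y := fun t => by rw [e, h0]; exact hY (hW _)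
  exact t2 _ _ _ _ hδ (In.refl hδ.source) (this.trans (t1.refl hδ.source).symm)

theorem of_thin (hg : ContinuousOn g W) (hY : MapsTo g W Y) (hT : Thin W W) (k : A → P)
    (hk : Continuous k) (hW : ∀ a, k a ∈ W) (h0 : ∀ a, f a = g (k a)) : Nul Y f :=
  fun a γ b δ e => (hT _ (γ.map hk) fun _ => hW _).map hg hY (fun t => (e t).trans (h0 _))
    fun _ => show b = g (k a) by rw [← δ.source, e, γ.source, h0]

theorem Nul.thin (h : Nul Y f) (hf : IsEmbedding f) : Thin (range f) Y := fun x γ hγ => by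
  choose m hm using hγ
  have hc : Continuous m := hf.continuous_iff.2 (γ.continuous.congr fun t => (hm t).symm)
  exact h (m 0) ⟨⟨m, hc⟩, rfl, hf.injective (by
    show f (m 1) = f (m 0)
    rw [hm, hm, γ.source, γ.target])⟩ x γ fun t => (hm t).symm

end nul

theorem out_iff {q : R3} : q ∈ Out ↔ 1 < ‖q‖ := lt_max_iff.symm

/-- a deformation of `N.F` into a box -/
theorem retr {N : NF} (hN : N.Ok) (hF : N.Fa) : ∃ r : I × N.F → N.F, Continuous r ∧
    (∀ m, r (0, m) = m) ∧ ∀ m, ‖N.pj (r (1, m))‖ ≤ 6 / 5 := by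
  classical
  let c : I × N.F → R3 := fun p => (max 1 (p.1 * (5 / 6 * ‖N.pj p.2‖)))⁻¹ • N.pj p.2
  have hp := Loc.cont_pj hN
  have h1 : ∀ x : ℝ, 0 < max 1 x := fun x => lt_max_of_lt_left one_pos
  have hc : Continuous c := (Continuous.inv₀ (by fun_prop) fun _ => (h1 _).ne').smul (by fun_prop)
  have hn : ∀ p, ‖c p‖ = ‖N.pj p.2‖ / max 1 (p.1 * (5 / 6 * ‖N.pj p.2‖)) := fun p => by
    rw [norm_smul, Real.norm_of_nonneg (inv_pos.2 (h1 _)).le, inv_mul_eq_div]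
  have ho : ∀ p : I × N.F, N.pj p.2 ∈ Out → c p ∈ Out := fun p h => by
    rw [out_iff] at h ⊢
    rw [hn, one_lt_div (h1 _)]
    exact max_lt h (by nlinarith [p.1.2.2])
  let r : I × N.F → N.F := fun p => if N.pj p.2 ∈ Out then N.pinv (c p) else p.2
  have hr : ∀ p : I × N.F, p.1 * (5 / 6 * ‖N.pj p.2‖) ≤ 1 → r p = p.2 := fun p h => by
    by_cases a : N.pj p.2 ∈ Out
    · simp only [r, c, if_pos a, max_eq_left h, inv_one, one_smul, hF.pl _ a]
    · exact if_neg a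
  refine ⟨r, continuous_iff_continuousAt.2 fun p => ?_, fun m => hr _ (by simp), fun m => ?_⟩
  · by_cases a : N.pj p.2 ∈ Out
    · refine ((Loc.cont_pinv hN (ho p a)).comp hc.continuousAt).congr ?_
      filter_upwards [(Loc.out_open.preimage (hp.comp continuous_snd)).mem_nhds a] with q hq
      exact (if_pos hq).symm
    · refine continuousAt_snd.congr ?_
      have : ∀ᶠ q : I × N.F in 𝓝 p, ‖N.pj q.2‖ < 6 / 5 :=
        (hp.comp continuous_snd).norm.continuousAt.eventually_lt_const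
          ((not_lt.1 (mt out_iff.2 a)).trans_lt (by norm_num))
      filter_upwards [this] with q hq
      exact (hr q (by nlinarith [q.1.2.1, q.1.2.2, norm_nonneg (N.pj q.2)])).symm
  · by_cases a : N.pj m ∈ Out
    · rw [show r (1, m) = N.pinv (c (1, m)) from if_pos a, hF.pr _ (ho (1, m) a), hn,
        div_le_iff₀ (h1 _)]
      have := le_max_right 1 (((1 : I) : ℝ) * (5 / 6 * ‖N.pj m‖))
      simp only [Icc.coe_one, one_mul] at this ⊢
      linarith
    · rw [show r (1, m) = m from if_neg a]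
      exact (not_lt.1 (mt out_iff.2 a)).trans (by norm_num)

theorem gam_far (t : ℝ) {y : ℝ} (h : 9 ≤ y ^ 2) : gam t y = y ^ 2 + 2 := by
  rw [gam, bet, Real.smoothTransition.zero_of_nonpos (by linarith), mul_zero, sub_zero]

theorem tube {N : NF} {m : N.F} {e : E2} {t y : ℝ} (hm : ‖N.pj m‖ ≤ 6 / 5) (he : ‖e‖ = 1)
    (hy : |y| ≤ 7 / 2) (ht : gam t y = y ^ 2 + 2) :
    (m, (√(2 - N.f m + y ^ 2) • e, y)) ∈ N.Pt (Gm t) D0 := by
  have h1 : ‖N.w m‖ ≤ 6 / 5 := (norm_fst_le (N.pj m)).trans hm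
  have h2 := abs_le.1 (show |N.f m| ≤ 6 / 5 from (norm_snd_le (N.pj m)).trans hm)
  have h3 : ‖√(2 - N.f m + y ^ 2) • e‖ = √(2 - N.f m + y ^ 2) := by
    rw [norm_smul, he, mul_one, Real.norm_of_nonneg (Real.sqrt_nonneg _)]
  have h4 := abs_le.1 hy
  refine ⟨show N.f m = gam t y - ‖√(2 - N.f m + y ^ 2) • e‖ ^ 2 from ?_,
    show ‖N.w m‖ < 5 by linarith, show ‖√(2 - N.f m + y ^ 2) • e‖ < 5 from ?_,
    show |y| < 5 by linarith⟩
  · rw [h3, ht, Real.sq_sqrt (by nlinarith)]; ring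
  · rw [h3, Real.sqrt_lt' (by norm_num)]; nlinarith

end Kill

open Kill in
theorem kill : KillStmt := by
  intro N ε R hN hF hE hI X X' _ _ u i' h z hu r hz hz'
  set Y := h '' (u '' (univ ×ˢ ball 0 (R + 1)) ∩ h.source) ∪ i' '' N.Pt (Gm 2) Q0 with hY
  have hQ : N.Pt (Gm (-2)) Q0 ⊆ N.Pt (Gm (-2)) D0 := Loc.pt_mono r.adm.sub
  have hb : ∀ p ∈ N.Pt (Gm (-2)) D0, N.io ε p ∈ univ ×ˢ ball (0 : E2) (R + 1) := fun p hp =>
    ⟨trivial, mem_ball_zero_iff.2 ((hI.bdd p hp).2.2.trans (lt_add_one R))⟩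
  let W : Set (N.F × E2) := {p | ‖p.2‖ < R + 1 ∧ ∀ q ∈ N.Pt (Gm (-2)) Q0, N.io ε q ≠ p}
  have hW : W ⊆ univ ×ˢ ball (0 : E2) (R + 1) := fun p hp => ⟨trivial, mem_ball_zero_iff.2 hp.1⟩
  have hs : MapsTo u W h.source := fun p hp => by
    rw [r.src]
    exact fun ⟨q, hq, e⟩ =>
      hp.2 q hq (injOn_iff_injective.2 hu.injective (hb q (hQ hq)) (hW hp) e)
  have c0 : ContinuousOn (fun p => h (u p)) W := h.continuousOn.comp
    ((continuousOn_iff_continuous_domRestrict.2 hu.continuous).mono hW) hs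
  have m0 : MapsTo (fun p => h (u p)) W Y := fun p hp => Or.inl ⟨_, ⟨⟨p, hW hp, rfl⟩, hs hp⟩, rfl⟩
  have w1 : ∀ m, (m, z) ∈ W := fun m => ⟨hz', fun q hq e => by
    have := (hI.bdd q (hQ hq)).2.2
    rw [e] at this
    exact this.not_ge hz⟩
  have m3 : MapsTo i' (N.Pt (Gm 2) D0) Y := fun p hp => by
    by_cases a : N.pr p ∈ Q0
    · exact Or.inr ⟨p, ⟨hp.1, a⟩, rfl⟩
    · have b := Loc.partner hN (Loc.adm_symm r.adm) (p := p) ⟨hp.1, hp.2, a⟩
      have c := Loc.mem_src r b.1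
      exact Or.inl ⟨_, ⟨⟨_, hb _ (Loc.pt_mono sdiff_subset b.1), rfl⟩, c⟩,
        r.rel _ b.1 p hp.1 (Loc.mt_symm b.2)⟩
  have m4 : MapsTo N.rf (TR R \ ε '' N.Core) W := fun q hq => ⟨hq.1.2.1.trans (lt_add_one R),
    fun p hp e => by
      have h2 : -2 < G5 q := hq.1.2.2.1
      rcases le_total p.2.2 0 with a | a
      · have b := hI.neg p (hQ hp) a
        exact hq.2 ⟨_, (hI.core p hp).1, hI.rfi b.2 h2.le (b.1.symm.trans e)⟩
      · have b := hI.pos p (hQ hp) a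
        have c : N.f (N.rf q).1 = -√(G5 q + 2) - 3 - ‖q.2‖ ^ 2 := congrArg Prod.snd (hI.rf q h2.le)
        rw [e, NF.g, c, show (N.rf q).2 = q.2 from rfl] at b
        linarith [Real.sqrt_pos.2 (show 0 < G5 q + 2 by linarith)]⟩
  obtain ⟨ρ, cρ, ρ0, ρ1⟩ := retr hN hF
  have z0 : 0 < ‖z‖ := by linarith [hE.big]
  obtain ⟨e, he, hze⟩ : ∃ e : E2, ‖e‖ = 1 ∧ ‖z‖ • e = z :=
    ⟨‖z‖⁻¹ • z, norm_smul_inv_norm (norm_pos_iff.1 z0), smul_inv_smul₀ z0.ne' z⟩
  have cf := Loc.cont_f hN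
  let k : ℝ → N.F → N.F × R3 := fun y m => (ρ (1, m), (√(2 - N.f (ρ (1, m)) + y ^ 2) • e, y))
  have hk : ∀ y m, |y| = 7 / 2 → k y m ∈ N.Pt (Gm (-2)) D0 ∧ gam (-2) y = 57 / 4 ∧
      h (u (N.io ε (k y m))) = i' (k y m) := fun y m hy => by
    have a : y ^ 2 = 49 / 4 := by rw [← sq_abs, hy]; norm_num
    have b := tube (ρ1 m) he hy.le (gam_far (-2) (by linarith))
    refine ⟨b, by rw [gam_far _ (by linarith), a]; norm_num, r.rel _ ⟨b.1, b.2, fun c => ?_⟩ _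
      (tube (ρ1 m) he hy.le (gam_far 2 (by linarith))).1 (Loc.mt_refl _)⟩
    have : |y| ≤ 3 := c.2.2
    linarith
  have s4 : Nul Y fun m => i' (k (-(7 / 2)) m) := by
    have a := fun m => hk (-(7 / 2)) m (by norm_num)
    have b := fun m => hI.nr _ (a m).1
    refine of_thin (c0.comp (hI.rfc.mono fun q hq => hq.1.2.2.1.le) m4) (m0.comp m4) hE.sc.2
      (fun m => ε ((k (-(7 / 2)) m).1, (k (-(7 / 2)) m).2.1))
      (hE.oe.sm.contOn.comp_continuous (by fun_prop) fun m => (b m).1) (fun m => ?_) fun m => ?_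
    · have c := hE.bdd _ (b m).1
      have d := (b m).2.trans (a m).2.1
      refine ⟨⟨c.1, c.2.1, ?_, c.2.2⟩, fun ⟨p, hp, t⟩ => ?_⟩
      · linarith [hE.low _ (b m).1 (by linarith)]
      · obtain ⟨p1, p2, p3, p4⟩ := hp
        rw [hE.oe.inj (show p ∈ N.NR from ⟨by linarith, by linarith, by linarith, by linarith⟩)
          (b m).1 t] at p4
        linarith
    · rw [← (a m).2.2, (hI.neg _ (a m).1 (by norm_num [k])).1]; rfl
  have s3 : Nul Y fun m => i' (k (7 / 2) m) :=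
    s4.htpy (Loc.oe_cont r.oe') m3 (fun p => k (7 / 2 - 7 * p.1) p.2) (by fun_prop)
      (fun p => tube (ρ1 _) he (abs_le.2 ⟨by linarith [p.1.2.2], by linarith [p.1.2.1]⟩)
        (by simp [gam])) (fun m => by simp) fun m => by norm_num
  have s2 : Nul Y fun m => h (u (ρ (1, m), z)) := by
    refine s3.htpy c0 m0 (fun p => (ρ (1, p.2),
      ((1 - p.1) * ‖z‖ + p.1 * √(2 - N.f (ρ (1, p.2)) + (7 / 2) ^ 2)) • e)) (by fun_prop)
      (fun p => ?_) (fun m => by simp [hze]) fun m => ?_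
    · have a := abs_le.1 (show |N.f (ρ (1, p.2))| ≤ 6 / 5 from
        (norm_snd_le (N.pj _)).trans (ρ1 p.2))
      obtain ⟨c, hc, c0, c1⟩ : ∃ c, c = √(2 - N.f (ρ (1, p.2)) + (7 / 2) ^ 2) ∧ 0 ≤ c ∧
        c ^ 2 = 2 - N.f (ρ (1, p.2)) + (7 / 2) ^ 2 :=
        ⟨_, rfl, Real.sqrt_nonneg _, Real.sq_sqrt (by linarith)⟩
      have c2 : c ≤ ‖z‖ := by nlinarith [hE.big]
      have c3 : c ≤ (1 - p.1) * ‖z‖ + p.1 * c := by nlinarith [p.1.2.2]
      have c4 : ‖((1 - p.1) * ‖z‖ + p.1 * c) • e‖ = (1 - p.1) * ‖z‖ + p.1 * c := by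
        rw [norm_smul, he, mul_one, Real.norm_of_nonneg (c0.trans c3)]
      rw [← hc]
      refine ⟨c4.trans_lt (by nlinarith [p.1.2.1]), fun q hq t => ?_⟩
      have := (hI.core q hq).2
      rw [t, NF.g, c4] at this
      nlinarith
    · rw [← (hk (7 / 2) m (by norm_num)).2.2, NF.io, if_pos (by norm_num [k])]
      simp [k]
  have s1 : Nul Y fun m => h (u (m, z)) :=
    s2.htpy c0 m0 (fun p => (ρ p, z)) (by fun_prop) (fun p => w1 _) (fun m => by rw [ρ0])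
      fun m => rfl
  have e1 : IsEmbedding fun m => u (m, z) :=
    hu.comp ((isEmbedding_prodMkLeft z).codRestrict _ fun m => hW (w1 m))
  convert s1.thin (h.isOpenEmbedding_restrict.isEmbedding.comp
    (e1.codRestrict _ fun m => hs (w1 m))) using 1
  ext x
  exact ⟨fun ⟨_, ⟨p, hp, a⟩, b⟩ => ⟨p.1, by rw [← b, ← a, ← mem_singleton_iff.1 hp.2]⟩,
    fun ⟨m, a⟩ => ⟨_, ⟨(m, z), ⟨trivial, rfl⟩, rfl⟩, a⟩⟩

end Pool.Agent.MP_e1dc65_gt.T

end
end MrgPart4

-- marker of a merged file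
example : 731051 + 838224 = 731051 + 838224 := rfl
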