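import Pool.Agent.MP_e1dc65_gt.t2.Spec
import Pool.Agent.MP_e1dc65_gt.t2.Sc
import Pool.Agent.MP_e1dc65_gt.k.Bump
import Pool.Agent.MP_e1dc65_gt.t2.Disc
import Pool.Agent.MP_e1dc65_gt.t2.Spec2
import Pool.Agent.MP_e1dc65_gt.k.Flow

-- ======== part 0: formerly Pool.Agent.MP_e1dc65_gt.t2.Gen
section MrgPart0

/-! PROJECT HC, part T2, row GEN: generic perturbations along low-dimensional sets. -/

open scoped ContDiff Manifold Topology
open Set Filter Function Module Metric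

noncomputable section

namespace Pool.Agent.MP_e1dc65_gt.T2
namespace Gen

variable {E P V : Type} [NormedAddCommGroup E] [NormedSpace ℝ E] [FiniteDimensional ℝ E]
  [NormedAddCommGroup P] [NormedSpace ℝ P] [NormedAddCommGroup V] [NormedSpace ℝ V]
  {X : Mf E} {x : X} {K : Set X}

omit [FiniteDimensional ℝ E] in
theorem comp1 {f : X → V} {j : P → X} {z : P} (hf : CnAt X ∞ f (j z))
    (hj : ContMDiffAt 𝓘(ℝ, P) 𝓘(ℝ, E) 1 j z) : ContDiffAt ℝ 1 (fun w => f (j w)) z :=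
  contMDiffAt_iff_contDiffAt.1 ((hf.of_le (by simp)).comp z hj)

/-- the differential read in the chart at `c` -/
def dc [FiniteDimensional ℝ V] (f : X → V) (c y : X) : E →L[ℝ] V :=
  (Df X (vs V) f y).comp (cfr X c y)

theorem dc_sm [FiniteDimensional ℝ V] {f : X → V} {c : X} (hf : SmAt X (vs V) f x)
    (h : x ∈ (ch X c).source) : CnAt X ∞ (dc f c) x := by
  refine (((cfAt_chart h (n := ∞)).1 (cfAt_Df hf)).comp_contMDiffAt
    (smAt_ch h)).congr_of_eventuallyEq ?_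
  filter_upwards [(ch X c).open_source.mem_nhds h] with y hy
  simp only [comp_apply, (ch X c).left_inv hy, dc, cfr]

omit [FiniteDimensional ℝ E] in
theorem charts (X : Mf E) : ∃ s : Set X, s.Countable ∧ ∀ x, ∃ c ∈ s, x ∈ (ch X c).source := by
  obtain ⟨s, h1, h2⟩ := TopologicalSpace.countable_cover_nhds
    (f := fun c : X => (ch X c).source) fun c => chart_source_mem_nhds E c
  exact ⟨s, h1, fun x => by simpa using eq_univ_iff_forall.1 h2 x⟩

/-- three affine planes that meet every line through the origin -/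
def pl (b : Basis (Fin 3) ℝ E) (k : Fin 3) (q : ℝ × ℝ) : E :=
  b k + q.1 • b (k + 1) + q.2 • b (k + 2)

omit [FiniteDimensional ℝ E] in
theorem pl_surj (b : Basis (Fin 3) ℝ E) {η : E} (h : η ≠ 0) :
    ∃ (k : Fin 3) (a : ℝ) (q : ℝ × ℝ), a ≠ 0 ∧ η = a • pl b k q := by
  obtain ⟨k, hk⟩ : ∃ k, b.repr η k ≠ 0 := by
    by_contra! c
    exact h (b.repr.map_eq_zero_iff.1 (Finsupp.ext c))
  refine ⟨k, b.repr η k, (b.repr η (k + 1) / b.repr η k, b.repr η (k + 2) / b.repr η k), hk, ?_⟩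
  rw [pl, smul_add, smul_add, smul_smul, smul_smul, mul_div_cancel₀ _ hk, mul_div_cancel₀ _ hk]
  have h1 := b.sum_repr η
  rw [Fin.sum_univ_three] at h1
  refine h1.symm.trans ?_
  fin_cases k
  · rfl
  · change _ = b.repr η 1 • b 1 + b.repr η 2 • b 2 + b.repr η 0 • b 0
    abel
  · change _ = b.repr η 2 • b 2 + b.repr η 0 • b 0 + b.repr η 1 • b 1
    abel

/-- one generic step -/
theorem step (hE : finrank ℝ E = 3) {g : X → Rn 5} {u : X → ℝ} (hg : Sm X (vs (Rn 5)) g univ)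
    (hu : Sm X (vs ℝ) u univ) (hK : T1.Rect (Rn 2) E K) {ε : ℝ} (hε : 0 < ε) :
    ∃ v : Rn 5, ‖v‖ < ε ∧ (∀ x ∈ K, ∀ y ∈ K, g x + u x • v = g y + u y • v → u x = u y) ∧
      ∀ x ∈ K, ∀ η, Df X (vs (Rn 5)) g x η + Df X (vs ℝ) u x η • v = 0 →
        Df X (vs ℝ) u x η = 0 := by
  obtain ⟨J, hJ, hK⟩ := hK
  obtain ⟨s, hs, hc⟩ := charts X
  let b := finBasisOfFinrankEq ℝ E hE
  have r1 : T1.RectE (Rn 2 × Rn 2)
      {v : Rn 5 | ∃ x ∈ K, ∃ y ∈ K, g x + u x • v = g y + u y • v ∧ u x ≠ u y} := by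
    refine ⟨_, hJ.image2 hJ fun j j' (w : Rn 2 × Rn 2) =>
      (u (j' w.2) - u (j w.1))⁻¹ • (g (j w.1) - g (j' w.2)), ?_⟩
    rintro v ⟨x, hx, y, hy, e, ne⟩
    obtain ⟨j, hj, z, c1, rfl⟩ := hK x hx
    obtain ⟨j', hj', z', c2, rfl⟩ := hK y hy
    have n : u (j' z') - u (j z) ≠ 0 := sub_ne_zero.2 ne.symm
    refine ⟨_, mem_image2_of_mem hj hj', (z, z'), ?_, ?_⟩
    · exact ((((comp1 (hu _ trivial) c2).comp (z, z') contDiffAt_snd).sub
        ((comp1 (hu _ trivial) c1).comp (z, z') contDiffAt_fst)).inv n).smul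
        (((comp1 (hg _ trivial) c1).comp (z, z') contDiffAt_fst).sub
          ((comp1 (hg _ trivial) c2).comp (z, z') contDiffAt_snd))
    · rw [inv_smul_eq_iff₀ n, sub_smul, sub_eq_sub_iff_add_eq_add, e, add_comm]
  have r2 : T1.RectE (Rn 2 × ℝ × ℝ) {v : Rn 5 | ∃ x ∈ K, ∃ η,
      Df X (vs (Rn 5)) g x η + Df X (vs ℝ) u x η • v = 0 ∧ Df X (vs ℝ) u x η ≠ 0} := by
    refine ⟨_, (hJ.prod (hs.prod (countable_univ (α := Fin 3)))).image
      fun i (w : Rn 2 × ℝ × ℝ) => (dc u i.2.1 (i.1 w.1) (pl b i.2.2 w.2))⁻¹ •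
        -dc g i.2.1 (i.1 w.1) (pl b i.2.2 w.2), ?_⟩
    rintro v ⟨x, hx, η, e, ne⟩
    obtain ⟨j, hj, z, c1, rfl⟩ := hK x hx
    obtain ⟨c, hcs, hxc⟩ := hc (j z)
    have i1 := (cfr_inv hxc).self_apply_inverse η
    obtain ⟨k, a, q, ha, hq⟩ := pl_surj b (η := (cfr X c (j z)).inverse η) fun h => ne (by
      rw [← i1, h, map_zero, map_zero])
    rw [hq, map_smul] at i1
    rw [← i1, map_smul] at ne
    rw [← i1, map_smul, map_smul, smul_assoc, ← smul_add] at e
    have n : dc u c (j z) (pl b k q) ≠ 0 := right_ne_zero_of_smul ne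
    have cp : ContDiffAt ℝ 1 (fun w : Rn 2 × ℝ × ℝ => pl b k w.2) (z, q) := by
      unfold pl; fun_prop
    refine ⟨_, mem_image_of_mem _ (show (j, c, k) ∈ _ from ⟨hj, hcs, trivial⟩), (z, q), ?_, ?_⟩
    · have p1 : ContDiffAt ℝ 1 (fun w : Rn 2 × ℝ × ℝ => dc u c (j w.1)) (z, q) :=
        (comp1 (dc_sm (hu _ trivial) hxc) c1).comp (z, q) contDiffAt_fst
      have p2 : ContDiffAt ℝ 1 (fun w : Rn 2 × ℝ × ℝ => dc g c (j w.1)) (z, q) :=
        (comp1 (dc_sm (hg _ trivial) hxc) c1).comp (z, q) contDiffAt_fst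
      exact ((p1.clm_apply cp).inv n).smul (p2.clm_apply cp).neg
    · rw [inv_smul_eq_iff₀ n, neg_eq_iff_add_eq_zero]
      exact (smul_eq_zero.1 e).resolve_left ha
  obtain ⟨v, h1, h2⟩ := T1.exists_gen (x := (0 : Rn 5)) (A := _ ∪ _) (by
    rw [dimH_union]
    exact max_lt (r1.dimH_le.trans_lt (by simp; norm_cast))
      (r2.dimH_le.trans_lt (by simp; norm_cast))) (ball_mem_nhds 0 hε)
  exact ⟨v, mem_ball_zero_iff.1 h1, fun x hx y hy e => by_contra fun n =>
    h2 (.inl ⟨x, hx, y, hy, e, n⟩), fun x hx η e => by_contra fun n => h2 (.inr ⟨x, hx, η, e, n⟩)⟩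

/-- removing the auxiliary coordinates one at a time -/
theorem remove (hE : finrank ℝ E = 3) (hK : T1.Rect (Rn 2) E K) {I : Type} {u : I → X → ℝ}
    {C : Set X} (hC : IsCompact C) (hu : ∀ i, Sm X (vs ℝ) (u i) univ)
    (h0 : ∀ i, ∀ x ∉ C, u i x = 0) (s : Finset I) : ∀ (g : X → Rn 5) (δ : ℝ),
    Sm X (vs (Rn 5)) g univ → 0 < δ →
    (∀ x ∈ K, ∀ y ∈ K, g x = g y → (∀ i ∈ s, u i x = u i y) → x = y) →
    (∀ x ∈ K, ∀ η, Df X (vs (Rn 5)) g x η = 0 → (∀ i ∈ s, Df X (vs ℝ) (u i) x η = 0) → η = 0) →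
    ∃ g' : X → Rn 5, Sm X (vs (Rn 5)) g' univ ∧ (∀ x ∉ C, g' x = g x) ∧
      (∀ x, ‖g' x - g x‖ ≤ δ) ∧ InjOn g' K ∧ ∀ x ∈ K, Injective (Df X (vs (Rn 5)) g' x) := by
  classical
  induction s using Finset.induction_on with
  | empty =>
    intro g δ hg hδ h1 h2
    exact ⟨g, hg, fun _ _ => rfl, fun x => by simp [hδ.le], fun x hx y hy e => h1 x hx y hy e (by simp),
      fun x hx => (injective_iff_map_eq_zero _).2 fun η e => h2 x hx η e (by simp)⟩
  | insert a s _ ih =>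
    intro g δ hg hδ h1 h2
    obtain ⟨M, hM⟩ := hC.exists_bound_of_continuousOn (hu a).cont.continuousOn
    have hM' : ∀ x, ‖u a x‖ ≤ |M| + 1 := fun x => by
      by_cases h : x ∈ C
      · linarith [hM x h, le_abs_self M]
      · rw [h0 a x h, norm_zero]; positivity
    obtain ⟨v, hv, v1, v2⟩ := step hE hg (hu a) hK (ε := δ / 2 / (|M| + 1)) (by positivity)
    have sv : ∀ x, SmAt X (vs (Rn 5)) (fun y => u a y • v) x := fun x =>
      (hu a x trivial).vsmul (smAt_const (Y := vs (Rn 5)) v)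
    obtain ⟨g', k1, k2, k3, k4, k5⟩ := ih (fun y => g y + u a y • v) (δ / 2)
      (fun x _ => (hg x trivial).vadd (sv x)) (by positivity)
      (fun x hx y hy e h => by
        have e1 := v1 x hx y hy e
        rw [e1] at e
        exact h1 x hx y hy (add_right_cancel e) (Finset.forall_mem_insert _ _ _ |>.2 ⟨e1, h⟩))
      (fun x hx η e h => by
        rw [Df_vadd (hg x trivial) (sv x), ContinuousLinearMap.add_apply,
          Df_vsmul (hu a x trivial) (smAt_const (Y := vs (Rn 5)) v), Df_const (Y := vs (Rn 5)),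
          ContinuousLinearMap.zero_apply, smul_zero, zero_add] at e
        have e1 := v2 x hx η e
        rw [e1, zero_smul, add_zero] at e
        exact h2 x hx η e (Finset.forall_mem_insert _ _ _ |>.2 ⟨e1, h⟩))
    refine ⟨g', k1, fun x hx => by rw [k2 x hx, h0 a x hx, zero_smul, add_zero], fun x => ?_, k4, k5⟩
    have e : g' x - g x = (g' x - (g x + u a x • v)) + u a x • v := by abel
    have b1 : ‖u a x • v‖ ≤ δ / 2 := by
      rw [norm_smul]
      refine (mul_le_mul (hM' x) hv.le (norm_nonneg _) (by positivity)).trans_eq ?_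
      field_simp
    rw [e]
    linarith [norm_add_le (g' x - (g x + u a x • v)) (u a x • v), k3 x]

end Gen

open Gen

theorem gen : GenStmt := by
  intro E _ _ _ X g₀ K S W δ hE hg hK hR hS hW hKS hi hD hδ
  obtain ⟨χ, c1, -, c3, c4, c5⟩ := (bumpM E X).1 (K \ S) W (hK.diff hS).isClosed hW
    fun x hx => (hKS hx.1).resolve_left hx.2
  obtain ⟨n, ι, R, O, V, hι, -, sR, hV, hKV, mO, hr⟩ := tub X hK
  have inS : ∀ x ∈ K, χ x = 0 → x ∈ S := fun x hx h => by_contra fun h' =>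
    zero_ne_one (h.symm.trans (c3.self_of_nhdsSet x ⟨hx, h'⟩))
  have sι : ∀ i x, SmAt X (vs ℝ) (fun y => ι y i) x := fun i x =>
    (hι x trivial).vcomp (contDiffAt_apply ℝ ℝ i _)
  obtain ⟨g, k1, k2, k3, k4, k5⟩ := remove hE hR (I := Option (Fin n))
    (u := fun i => i.elim χ fun i y => χ y • ι y i) (c5 (hK.diff hS))
    (fun i => by
      cases i with
      | none => exact c1
      | some i => exact fun x _ => (c1 x trivial).vsmul (sι i x))
    (fun i x hx => by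
      have h : χ x = 0 := image_eq_zero_of_notMem_tsupport hx
      cases i with
      | none => exact h
      | some i => simp [h])
    Finset.univ g₀ δ hg hδ
    (fun x hx y hy e h => by
      have e0 : χ x = χ y := h none (Finset.mem_univ _)
      by_cases h0 : χ y = 0
      · exact hi (inS x hx (e0.trans h0)) (inS y hy h0) e
      · have e1 : ι x = ι y := funext fun i => by
          have e2 : χ x • ι x i = χ y • ι y i := h (some i) (Finset.mem_univ _)
          rw [e0] at e2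
          exact smul_right_injective ℝ h0 e2
        rw [← hr x (hKV hx), e1, hr y (hKV hy)])
    (fun x hx η e h => by
      by_cases h0 : χ x = 0
      · exact (injective_iff_map_eq_zero _).1 (hD x (inS x hx h0)) η e
      · have e0 : Df X (vs ℝ) χ x η = 0 := h none (Finset.mem_univ _)
        have e1 : Df X (vs (Rn n)) ι x η = 0 := funext fun i => by
          have e2 : Df X (vs ℝ) (fun y => χ y • ι y i) x η = 0 := h (some i) (Finset.mem_univ _)
          rw [Df_vsmul (c1 x trivial) (sι i x), e0, zero_smul, add_zero] at e2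
          have e3 := Df_clm (ContinuousLinearMap.proj (R := ℝ) (φ := fun _ : Fin n => ℝ) i)
            (hι x trivial)
          exact (congrArg (fun L => L η) e3).symm.trans ((smul_eq_zero.1 e2).resolve_left h0)
        have e4 := Df_comp (hι x trivial) (sR _ (mO (hKV hx)))
        rw [Df_congr (f' := fun x => x) (mem_of_superset (hV.mem_nhds (hKV hx)) hr), Df_id] at e4
        have e5 := congrArg (fun L => L η) e4
        simpa [e1] using e5)
  exact ⟨g, _, k1, c5 (hK.diff hS), c4, k2, k3, k4, k5⟩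

theorem gen1 : Gen1Stmt := by
  rintro E _ _ _ X g χ e K hE hg hχ ⟨J, hJ, hK⟩
  obtain ⟨s, hs, hc⟩ := charts X
  have r : T1.RectE (ℝ × E)
      {v : Rn 5 | ∃ x ∈ K, χ x ≠ 0 ∧ e + χ x • v ∈ range (Df X (vs (Rn 5)) g x)} := by
    refine ⟨_, (hJ.prod hs).image fun i (w : ℝ × E) =>
      (χ (i.1 w.1))⁻¹ • (dc g i.2 (i.1 w.1) w.2 - e), ?_⟩
    rintro v ⟨x, hx, n, η, h⟩
    obtain ⟨j, hj, z, c1, rfl⟩ := hK x hx
    obtain ⟨c, hcs, hxc⟩ := hc (j z)
    refine ⟨_, mem_image_of_mem _ (show (j, c) ∈ _ from ⟨hj, hcs⟩),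
      (z, (cfr X c (j z)).inverse η), ?_, ?_⟩
    · generalize (cfr X c (j z)).inverse η = y
      have p1 : ContDiffAt ℝ 1 (fun w : ℝ × E => χ (j w.1)) (z, y) :=
        ContDiffAt.comp (g := fun t => χ (j t)) (z, y) (comp1 (hχ _ trivial) c1) contDiffAt_fst
      have p2 : ContDiffAt ℝ 1 (fun w : ℝ × E => dc g c (j w.1)) (z, y) :=
        (comp1 (dc_sm (hg _ trivial) hxc) c1).comp (z, y) contDiffAt_fst
      exact (p1.inv n).smul ((p2.clm_apply contDiffAt_snd).sub contDiffAt_const)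
    · rw [inv_smul_eq_iff₀ n, dc, ContinuousLinearMap.comp_apply,
        (cfr_inv hxc).self_apply_inverse η, h, add_sub_cancel_left]
  obtain ⟨v, -, h2⟩ := T1.exists_gen (x := (0 : Rn 5))
    (r.dimH_le.trans_lt (by simp [hE]; norm_cast)) univ_mem
  exact ⟨v, fun x hx n h => h2 ⟨x, hx, n, h⟩⟩

end Pool.Agent.MP_e1dc65_gt.T2

end
end MrgPart0

-- ======== part 1: formerly Pool.Agent.MP_e1dc65_gt.t2.Th
section MrgPart1

/-! PROJECT HC, block EMB: an immersion along the spine with a normal frame. -/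

open scoped ContDiff Manifold Topology Real
open Set Filter Function Module Metric

noncomputable section

namespace Pool.Agent.MP_e1dc65_gt.T

namespace ThP

open T2

theorem isOpen_fr : IsOpen {p : (Rn 3 →L[ℝ] Rn 5) × (ℂ →L[ℝ] Rn 5) | Fr p.1 p.2} := by
  have : Continuous fun p : (Rn 3 →L[ℝ] Rn 5) × (ℂ →L[ℝ] Rn 5) => p.1.coprod p.2 := by
    simp only [← ContinuousLinearMap.comp_fst_add_comp_snd]
    fun_prop
  exact ContinuousLinearMap.isOpen_injective.preimage this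

theorem fr_mul {a : Rn 3 →L[ℝ] Rn 5} {N : ℂ →L[ℝ] Rn 5} (h : Fr a N) {c : ℂ} (hc : c ≠ 0) :
    Fr a (N.comp (mulC c)) := fun p q e => by
  have := h (a₁ := (p.1, c * p.2)) (a₂ := (q.1, c * q.2)) e
  exact Prod.ext (congrArg Prod.fst this :) (mul_left_cancel₀ hc (congrArg Prod.snd this :))

/-- a continuous function on the image of a compact set -/
theorem cont_inv {A B C : Type} [TopologicalSpace A] [TopologicalSpace B] [TopologicalSpace C]
    [T2Space A] [T2Space B] {D : A → B} {S : Set A} (hS : IsCompact S) (hD : ContinuousOn D S)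
    {F : B → C} (h : ContinuousOn (fun y => F (D y)) S) : ContinuousOn F (D '' S) := by
  rw [continuousOn_iff_isClosed] at h ⊢
  intro t ht
  obtain ⟨u, hu, e⟩ := h t ht
  refine ⟨D '' (u ∩ S), ((hS.inter_left hu).image_of_continuousOn
    (hD.mono inter_subset_right)).isClosed, ?_⟩
  rw [← e]
  ext b
  constructor
  · rintro ⟨h1, y, hy, rfl⟩
    exact ⟨⟨y, ⟨h1, hy⟩, rfl⟩, y, hy, rfl⟩
  · rintro ⟨⟨y, hy, rfl⟩, h2⟩
    exact ⟨hy.1, h2⟩

/-- coordinates on five-space -/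
def J : (R3 × E2) ≃L[ℝ] Rn 5 := LinearEquiv.toContinuousLinearEquiv
  { toFun := fun q => ![q.1.1 0, q.1.1 1, q.1.2, q.2 0, q.2 1]
    invFun := fun u => ((!₂[u 0, u 1], u 2), !₂[u 3, u 4])
    map_add' := fun p q => by ext k; fin_cases k <;> simp
    map_smul' := fun c p => by ext k; fin_cases k <;> simp
    left_inv := fun q => Prod.ext (Prod.ext (by ext k; fin_cases k <;> simp) rfl)
      (by ext k; fin_cases k <;> simp)
    right_inv := fun u => by ext k; fin_cases k <;> simp }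

theorem J_apply (q : R3 × E2) : J q = ![q.1.1 0, q.1.1 1, q.1.2, q.2 0, q.2 1] := rfl
theorem J_symm (u : Rn 5) : (J.symm u).1.2 = u 2 := rfl

/-- the inclusion of three-space -/
def i3 : R3 →L[ℝ] Rn 5 := (J : R3 × E2 →L[ℝ] Rn 5).comp (ContinuousLinearMap.inl ℝ R3 E2)
theorem i3_inj : Injective i3 := J.injective.comp (Prod.mk_left_injective 0)
theorem i3_apply (q : R3) : i3 q = ![q.1 0, q.1 1, q.2, 0, 0] := rfl
/-- the first three coordinates -/
def p3 : Rn 5 →L[ℝ] Rn 3 := ContinuousLinearMap.pi fun k => ContinuousLinearMap.proj (k.castAdd 2)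
/-- the standard frame -/
def n0 (s : ℝ) : ℂ →L[ℝ] Rn 5 := LinearMap.toContinuousLinearMap
  { toFun := fun z => ![0, 0, 0, z.re, s * z.im]
    map_add' := fun p q => by ext k; fin_cases k <;> simp [mul_add]
    map_smul' := fun c p => by ext k; fin_cases k <;> simp [mul_left_comm] }
theorem n0_apply (s : ℝ) (z : ℂ) : n0 s z = ![0, 0, 0, z.re, s * z.im] := rfl
/-- the plane as the complex line -/
def ka (s : ℝ) : E2 →L[ℝ] ℂ := LinearMap.toContinuousLinearMap
  { toFun := fun v => ⟨v 0, s * v 1⟩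
    map_add' := fun p q => by apply Complex.ext <;> simp [mul_add]
    map_smul' := fun c p => by apply Complex.ext <;> simp [mul_left_comm] }
theorem ka_apply (s : ℝ) (v : E2) : ka s v = ⟨v 0, s * v 1⟩ := rfl

variable {N : NF} (h : N.Ok) (fa : N.Fa)
include h

theorem smp (m : N.F) : SmAt N.F (vs R3) N.pj m := (h.smw m trivial).vpair (h.smf m trivial)
theorem smg (m : N.F) : SmAt N.F (vs (Rn 5)) (fun m => i3 (N.pj m)) m :=
  (smp h m).vcomp i3.contDiff.contDiffAt
omit h in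
theorem out {m : N.F} (hm : N.f m < -1) : N.pj m ∈ Out := .inr (lt_abs.2 (.inr (lt_neg.1 hm)))
theorem injg : InjOn (fun m => i3 (N.pj m)) {m | N.f m < -1} :=
  i3_inj.comp_injOn (h.oe.inj.mono fun _ => out)

include fa

/-- step 1: the immersion -/
theorem imm : ∃ g : N.F → Rn 5, Sm N.F (vs (Rn 5)) g univ ∧
    (∀ m, N.f m ≤ -6 / 5 → g =ᶠ[𝓝 m] fun m => i3 (N.pj m)) ∧ (∀ m, N.f m - 1 / 10 ≤ g m 2) ∧
    InjOn g (N.Sp 1) ∧ ∀ m ∈ N.Sp 1, Injective (Df N.F (vs (Rn 5)) g m) := by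
  have i0 : ∀ m, N.f m < -1 → Injective (Df N.F (vs (Rn 5)) (fun m => i3 (N.pj m)) m) :=
    fun m hm => by
      rw [Df_clm i3 (smp h m)]; exact i3_inj.comp (h.oe.ld m (out hm)).inv.injective
  obtain ⟨g, C, a1, a2, a3, a4, a5, a6, a7⟩ := gen (Rn 3) N.F (fun m => i3 (N.pj m))
    (N.Sp 1 ∩ {m | -2 ≤ N.f m}) {m | N.f m < -1} {m | -6 / 5 < N.f m} (1 / 10) (by simp)
    (fun m _ => smg h m) (fa.cpt _) (let ⟨J, h1, h2⟩ := fa.rect; ⟨J, h1, fun x hx => h2 x hx.1⟩)
    (isOpen_lt h.smf.cont continuous_const) (isOpen_lt continuous_const h.smf.cont)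
    (fun m _ => (lt_or_ge (N.f m) (-1)).imp id fun c => show -6 / 5 < N.f m by linarith) (injg h) i0
    (by norm_num)
  have e : ∀ m, N.f m ≤ -6 / 5 → g =ᶠ[𝓝 m] fun m => i3 (N.pj m) := fun m hm =>
    eventually_of_mem (a2.isClosed.isOpen_compl.mem_nhds fun c => not_lt.2 hm (a3 c)) a4
  have b : ∀ m, N.f m - 1 / 10 ≤ g m 2 := fun m => by
    have := (abs_le.1 ((norm_le_pi_norm (g m - i3 (N.pj m)) 2).trans (a5 m))).1
    change _ ≤ g m 2 - N.f m at this
    linarith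
  have key : ∀ m m', N.f m' < -2 → g m = g m' → m = m' := fun m m' h2 c => by
    have e' := (e m' (by linarith)).eq_of_nhds
    rcases le_or_gt (N.f m) (-6 / 5) with h1 | h1
    · exact injg h (show N.f m < -1 by linarith) (show N.f m' < -1 by linarith)
        (((e m h1).eq_of_nhds.symm.trans c).trans e')
    · have := b m
      rw [c, e'] at this
      change _ ≤ N.f m' at this
      linarith
  refine ⟨g, a1, e, b, fun m hm m' hm' c => ?_, fun m hm => ?_⟩
  · rcases lt_or_ge (N.f m') (-2) with h2 | h2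
    · exact key m m' h2 c
    rcases lt_or_ge (N.f m) (-2) with h1 | h1
    · exact (key m' m h1 c.symm).symm
    exact a6 ⟨hm, h1⟩ ⟨hm', h2⟩ c
  · rcases lt_or_ge (N.f m) (-2) with h1 | h1
    · rw [Df_congr (e m (by linarith))]; exact i0 m (by linarith)
    · exact a7 m ⟨hm, h1⟩

/-- step 2: a frame near the one-dimensional part, standard up to sign at the bottom -/
theorem frame1 {t : ℝ} (ht : t < N.v₂) {g : N.F → Rn 5} (hg : Sm N.F (vs (Rn 5)) g univ)
    (e : ∀ m, N.f m ≤ -6 / 5 → g =ᶠ[𝓝 m] fun m => i3 (N.pj m))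
    {a : N.F → Rn 3 →L[ℝ] Rn 5} (ha : Continuous a)
    (hr : ∀ m u, a m u ∈ range (Df N.F (vs (Rn 5)) g m))
    (hi : ∀ m, m ∈ N.Sp 1 ∨ N.f m ≤ -6 / 5 → Injective (a m)) :
    ∃ (M : N.F → ℂ →L[ℝ] Rn 5) (s T : ℝ), Continuous M ∧ s * s = 1 ∧
      (∀ m ∈ N.Sp 1, N.f (N.φ T m) ≤ t → Fr (a m) (M m)) ∧ ∀ m, N.f m < -7 / 5 →
        Fr (a m) (M m) ∧ ∃ c : ℝ, 0 < c ∧ M m 1 = n0 s 1 ∧ M m Complex.I = c • n0 s Complex.I := by
  obtain ⟨Nc, c1, c2, c3⟩ := cross
  have sχ : Sm N.F (vs ℝ) (fun m => expNegInvGlue (N.f m + 7 / 5)) univ := fun m _ =>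
    ((h.smf m trivial).vadd (smAt_const _)).vcomp expNegInvGlue.contDiff.contDiffAt
  obtain ⟨v, hv⟩ := gen1 (Rn 3) N.F g _ (Pi.single 3 1) (N.Sp t) (by simp) hg sχ (fa.rect1 t ht)
  have z : ∀ m u, N.f m ≤ -6 / 5 → ∃ q, a m u = i3 q := fun m u hm => by
    obtain ⟨u', hu⟩ := hr m u
    rw [Df_congr (e m hm), Df_clm i3 (smp h m)] at hu
    exact ⟨_, hu.symm⟩
  set M : N.F → ℂ →L[ℝ] Rn 5 := fun m =>
    Nc (a m, Pi.single 3 1 + expNegInvGlue (N.f m + 7 / 5) • v) with hM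
  have cM : Continuous M := c1.comp (ha.prodMk (continuous_const.add (sχ.cont.smul continuous_const)))
  have M0 : ∀ m, N.f m ≤ -7 / 5 → M m = Nc (a m, Pi.single 3 1) := fun m hm => by
    simp only [hM, expNegInvGlue.zero_of_nonpos (show N.f m + 7 / 5 ≤ 0 by linarith), zero_smul,
      add_zero]
  have f0 : ∀ m, N.f m ≤ -7 / 5 → Fr (a m) (M m) := fun m hm => by
    rw [M0 m hm]
    refine c2 _ _ (hi m (.inr (by linarith))) fun ⟨u, hu⟩ => ?_
    obtain ⟨q, hq⟩ := z m u (by linarith)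
    simpa [i3_apply] using congrFun (hq.symm.trans hu) 3
  have f1 : ∀ m ∈ N.Sp t, Fr (a m) (M m) := fun m hm => by
    rcases le_or_gt (N.f m) (-7 / 5) with c | c
    · exact f0 m c
    refine c2 _ _ (hi m (.inl fun τ hτ => (hm τ hτ).trans (by nlinarith [h.hi]))) fun ⟨u, hu⟩ => ?_
    exact hv m hm (expNegInvGlue.pos_of_pos (by linarith)).ne' (hu ▸ hr m u)
  have hO : IsOpen {m | Fr (a m) (M m)} := isOpen_fr.preimage (ha.prodMk cM)
  obtain ⟨T, hT⟩ := ((fa.cpt (-2)).diff hO).elim_directed_family_closed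
    (fun T : ℝ => {m | N.f (N.φ T m) ≤ t})
    (fun T => isClosed_le (h.smf.cont.comp (h.fl.cont_time T)) continuous_const)
    (eq_empty_of_forall_notMem fun m hm => hm.1.2 (f1 m fun τ _ => mem_iInter.1 hm.2 τ))
    (directed_of_isDirected_le fun S T hS m hm => (fa.mono m hS).trans hm)
  have d : ∀ m, N.f m ≤ -7 / 5 → ∀ y, M m y = ![0, 0, 0, y.re, (p3.comp (a m)).det * y.im] :=
    fun m hm => by
      rw [M0 m hm]
      refine c3 _ _ fun u => ?_
      obtain ⟨q, hq⟩ := z m u (by linarith)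
      simp only [ContinuousLinearMap.comp_apply, hq]
      rfl
  have cd : Continuous fun m => (p3.comp (a m)).det :=
    ContinuousLinearMap.continuous_det.comp (continuous_const.clm_comp ha)
  have d0 : ∀ m, N.f m < -7 / 5 → (p3.comp (a m)).det ≠ 0 := fun m hm c =>
    Complex.I_ne_zero (Disc.fr_iff.1 (f0 m hm.le) 0 _ (by
      rw [d m hm.le, c]; ext k; fin_cases k <;> simp)).2
  obtain ⟨s, s1, s2⟩ : ∃ s : ℝ, s * s = 1 ∧ ∀ m, N.f m < -7 / 5 → 0 < s * (p3.comp (a m)).det := by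
    by_cases c : ∃ m, N.f m < -7 / 5 ∧ 0 < (p3.comp (a m)).det
    · obtain ⟨m₀, h1, h2⟩ := c
      refine ⟨1, one_mul _, fun m hm => by_contra fun c => ?_⟩
      obtain ⟨x, hx, e⟩ := (fa.conn (-7 / 5) (by norm_num)).intermediate_value hm h1 cd.continuousOn
        ⟨by linarith, h2.le⟩
      exact d0 x hx e
    · exact ⟨-1, by norm_num, fun m hm => by
        linarith [lt_of_le_of_ne (not_lt.1 fun c' => c ⟨m, hm, c'⟩) (d0 m hm)]⟩
  refine ⟨M, s, T, cM, s1, fun m hm c => by_contra fun c' => ?_, fun m hm => ⟨f0 m hm.le, _, s2 m hm,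
    ?_, ?_⟩⟩
  · exact (eq_empty_iff_forall_notMem.1 hT) m
      ⟨⟨⟨hm, not_lt.1 fun c'' : N.f m < -2 => c' (f0 m (by linarith))⟩, c'⟩, c⟩
  · rw [d m hm.le, n0_apply]; simp
  · rw [d m hm.le, n0_apply]
    ext k; fin_cases k <;> simp
    rw [mul_right_comm, s1, one_mul]

/-- step 3: a smooth frame along the spine, standard at the bottom -/
theorem frame2 {t : ℝ} {d : Fin 3 → ℂ → N.F} {Km : Set N.F} (di : N.Di t d Km)
    {a : N.F → Rn 3 →L[ℝ] Rn 5} (ha : Continuous a) (hi : ∀ m ∈ N.Sp 1, Injective (a m))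
    {M : N.F → ℂ →L[ℝ] Rn 5} {s T : ℝ} (cM : Continuous M)
    (h1 : ∀ m ∈ N.Sp 1, N.f (N.φ T m) ≤ t → Fr (a m) (M m)) (h2 : ∀ m, N.f m < -7 / 5 →
      Fr (a m) (M m) ∧ ∃ c : ℝ, 0 < c ∧ M m 1 = n0 s 1 ∧ M m Complex.I = c • n0 s Complex.I) :
    ∃ (M' : N.F → ℂ →L[ℝ] Rn 5) (L : ℝ), 2 ≤ L ∧ Sm N.F (vs (ℂ →L[ℝ] Rn 5)) M' univ ∧
      (∀ m ∈ N.Sp 1, Fr (a m) (M' m)) ∧ ∀ m, N.f m ≤ -L → M' m = n0 s := by
  classical
  have cf := h.smf.cont
  set D : Fin 3 × ℂ → N.F := fun p => N.φ (-T) (d p.1 p.2) with hD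
  set S : Set (Fin 3 × ℂ) := univ ×ˢ closedBall 0 1
  have TD : ∀ p, N.φ T (D p) = d p.1 p.2 := fun p => h.fl.neg_right T _
  have cj : ∀ j, ContinuousOn (fun y => D (j, y)) (closedBall 0 1) := fun j =>
    (h.fl.cont_time _).comp_continuousOn (di.cont j)
  have cD : ContinuousOn D S := continuousOn_prod_of_discrete_left.2 fun j =>
    (cj j).mono fun _ hy => hy.2
  have kS : IsCompact S := isCompact_univ.prod (isCompact_closedBall 0 1)
  have iD : InjOn D S := fun p hp q hq e =>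
    Prod.ext_iff.2 (di.inj _ _ _ hp.2 _ hq.2 (by rw [← TD, e, TD]))
  have mD : ∀ j, ∀ y ∈ closedBall (0 : ℂ) 1, D (j, y) ∈ N.Sp 1 := fun j y hy =>
    fa.inv _ _ (di.map j hy)
  have sp : ∀ j, ∀ y ∈ sphere (0 : ℂ) 1, N.f (d j y) ≤ t := fun j y hy =>
    di.low _ ((di.bd j y (sphere_subset_closedBall hy)).2 (by simpa using hy))
  choose k hk using fun j => disc (fun y => a (D (j, y))) (fun y => M (D (j, y)))
    (ha.comp_continuousOn (cj j)) (fun y hy => hi _ (mD j y hy))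
    (cM.comp_continuousOn ((cj j).mono sphere_subset_closedBall))
    fun y hy => h1 _ (mD j y (sphere_subset_closedBall hy)) (by rw [TD]; exact sp j y hy)
  obtain ⟨μ, m1, m2, m3, m4⟩ := di.wind k
  choose P p1 p2 p3 using fun j => hk j (fun y => μ (d j y))
    (m1.comp ((di.cont j).mono sphere_subset_closedBall) (sp j)) (m4 j)
  obtain ⟨c, hc⟩ := (kS.image_of_continuousOn (cf.comp_continuousOn cD)).bddBelow
  obtain ⟨L, l1, l2, l3, l4⟩ : ∃ L, 2 ≤ L ∧ T + 2 ≤ L ∧ T - t ≤ L ∧ -L < c :=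
    ⟨|T| + |t| + |c| + 2, by linarith [abs_nonneg T, abs_nonneg t, abs_nonneg c],
      by linarith [le_abs_self T, abs_nonneg t, abs_nonneg c],
      by linarith [le_abs_self T, neg_abs_le t, abs_nonneg c],
      by linarith [abs_nonneg T, abs_nonneg t, neg_abs_le c]⟩
  have lo : ∀ m, N.f m ≤ -L → N.f (N.φ T m) = N.f m + T := fun m hm =>
    congrArg Prod.snd (fa.vert T m (by linarith) (by linarith))
  have nb : ∀ m ∈ D '' S, -L < N.f m := by
    rintro _ ⟨p, hp, rfl⟩; exact l4.trans_le (hc ⟨p, hp, rfl⟩)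
  set Z : Set N.F := N.φ T ⁻¹' Km ∪ {m | N.f m ≤ -L}
  have cZ : IsClosed Z := (di.cl.preimage (h.fl.cont_time T)).union (isClosed_le cf continuous_const)
  have zt : ∀ m ∈ Z, N.f (N.φ T m) ≤ t := fun m hm =>
    hm.elim (di.low _) fun c : N.f m ≤ -L => by rw [lo m c]; linarith
  set M2 : N.F → ℂ →L[ℝ] Rn 5 := fun m => if m ∈ D '' S then
    P (invFunOn D S m).1 (invFunOn D S m).2 else (M m).comp (mulC (μ (N.φ T m))) with hM2
  have e1 : ∀ p ∈ S, M2 (D p) = P p.1 p.2 := fun p hp => by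
    simp only [hM2, if_pos (mem_image_of_mem D hp), iD.leftInvOn_invFunOn hp]
  have e2 : ∀ m ∈ Z, M2 m = (M m).comp (mulC (μ (N.φ T m))) := fun m hm => by
    by_cases c : m ∈ D '' S
    · have c' := hm.resolve_right (not_le.2 (nb m c))
      obtain ⟨p, hp, rfl⟩ := c
      rw [mem_preimage, TD] at c'
      rw [e1 p hp, TD, p3 _ _ (by simpa using (di.bd _ _ hp.2).1 c')]
    · exact if_neg c
  have cS : IsClosed (D '' S) := (kS.image_of_continuousOn cD).isClosed
  refine (smFr (Rn 3) N.F a M2 (n0 s) (Z ∪ D '' S) {m | N.f m ≤ -(L + 1)}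
    {m | N.f m < -L} (cZ.union cS) (isClosed_le cf continuous_const)
    (isOpen_lt cf continuous_const) (fun m (hm : N.f m ≤ _) => show N.f m < _ by linarith)
    ha.continuousOn (ContinuousOn.union_of_isClosed (ContinuousOn.congr (cM.continuousOn.clm_comp
      ((ContinuousLinearMap.mul ℝ ℂ).continuous.comp_continuousOn
        (m1.comp (h.fl.cont_time T).continuousOn zt))) e2)
      (cont_inv kS cD (ContinuousOn.congr (continuousOn_prod_of_discrete_left.2 fun j =>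
        (p1 j).mono fun _ hy => hy.2) e1)) cZ cS) (fun m hm => ?_) fun m hm => ?_).imp
    fun M' ⟨a1, a2, a3⟩ => ⟨L + 1, by linarith, a1, fun m hm => a2 m ?_, a3⟩
  · rcases hm with hm | ⟨p, hp, rfl⟩
    · rw [e2 m hm]
      refine fr_mul ?_ (m2 _ (zt m hm))
      rcases hm with c | c
      · exact h1 m (h.fl.neg_left T m ▸ fa.inv 1 (-T) (di.sub c)) (di.low _ c)
      · exact (h2 m (by linarith [show N.f m ≤ -L from c])).1
    · rw [e1 p hp]; exact p2 _ _ hp.2
  · have c : N.f m < -L := hm.2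
    rw [e2 m (.inr c.le), m3 _ (by rw [lo m c.le]; linarith)]
    simpa using (h2 m (by linarith)).2
  · rcases di.cov _ (fa.inv 1 T hm) with c | ⟨j, y, hy, c⟩
    · exact .inl (.inl c)
    · exact .inr ⟨(j, y), ⟨trivial, hy⟩, by simp only [hD, c, h.fl.neg_left]⟩

end ThP

open T2 ThP in
theorem th : ThStmt := fun N t d Km Θ h fa ht di hΘ => by
  obtain ⟨g, g1, g2, g3, g4, g5⟩ := imm h fa
  set a : N.F → Rn 3 →L[ℝ] Rn 5 := fun m => (Df N.F (vs (Rn 5)) g m).comp (Θ m).inverse with ha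
  have ca : Continuous a := continuous_iff_continuousAt.2 fun m =>
    ((cfAt_Df (g1 m trivial)).trans_cn (hΘ m trivial).1 (hΘ m trivial).2).continuousAt
  have ia : ∀ m, m ∈ N.Sp 1 ∨ N.f m ≤ -6 / 5 → Injective (a m) := fun m hm => by
    refine Injective.comp (g := Df N.F (vs (Rn 5)) g m) (hm.elim (g5 m) fun c => ?_)
      (hΘ m trivial).2.inverse.injective
    rw [Df_congr (g2 m c), Df_clm i3 (smp h m)]
    exact i3_inj.comp (h.oe.ld m (out (by linarith))).inv.injective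
  obtain ⟨M, s, T, m1, s1, m2, m3⟩ := frame1 h fa ht g1 g2 ca (fun m u => ⟨_, rfl⟩) ia
  obtain ⟨M', L, l1, a1, a2, a3⟩ := frame2 h fa di ca (fun m hm => ia m (.inl hm)) m1 m2 m3
  set G : N.F × E2 → R3 × E2 := fun p => J.symm (g p.1 + M' p.1 (ka s p.2)) with hG
  have sG : Sm (N.F.prod (vs E2)) (vs (R3 × E2)) G univ := fun p _ =>
    ((smAt_fst.trans (g1 _ trivial)).vadd ((smAt_fst.trans (a1 _ trivial)).vapp
      (smAt_snd.vcomp (ka s).contDiff.contDiffAt))).vcomp J.symm.contDiff.contDiffAt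
  have G0 : ∀ m, G (m, 0) = J.symm (g m) := fun m => by simp only [hG, map_zero, add_zero]
  refine ⟨G, L, sG, l1, fun p hp => ?_, fun m hm => ldAt_of_Df univ_mem sG ?_,
    fun m hm m' hm' e => g4 hm hm' (J.symm.injective (by simpa only [G0] using e)),
    fun m => by rw [G0]; exact g3 m⟩
  · simp only [hG]
    rw [J.symm_apply_eq, (g2 _ (by linarith)).eq_of_nhds, a3 _ hp, n0_apply, ka_apply, i3_apply,
      J_apply]
    ext k; fin_cases k <;> simp [← mul_assoc, s1]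
  · have d1 := Df_comp (X := N.F) (smAt_id.pair (smAt_const (Y := vs E2) 0)) (sG (m, 0) trivial)
    have d2 := Df_comp (X := vs E2) ((smAt_const (Y := N.F) m).pair smAt_id) (sG (m, 0) trivial)
    rw [Df_pair smAt_id (smAt_const _), Df_id, Df_const, funext G0] at d1
    rw [Df_pair (smAt_const _) smAt_id, Df_id, Df_const, Df_vs] at d2
    replace d1 := (Df_clm (J.symm : Rn 5 →L[ℝ] R3 × E2) (g1 m trivial)).symm.trans d1
    replace d2 := ((J.symm.hasFDerivAt).comp 0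
      ((((M' m).comp (ka s)).hasFDerivAt).const_add (g m))).fderiv.symm.trans d2
    refine ⟨(LinearMap.linearEquivOfInjective (Df (N.F.prod (vs E2)) (vs (R3 × E2)) G
      (m, (0 : E2))).toLinearMap
      ((injective_iff_map_eq_zero _).2 fun q hq => ?_) (by simp)).toContinuousLinearEquiv,
      by ext <;> rfl⟩
    have e : J.symm (a m (Θ m q.1) + M' m (ka s q.2)) = 0 := by
      have u1 := DFunLike.congr_fun d1 q.1
      have u2 := DFunLike.congr_fun d2 q.2
      simp only [ha, map_add, ContinuousLinearMap.comp_apply, (hΘ m trivial).2.inverse_apply_self]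
      refine (congrArg₂ (· + ·) u1 u2).trans ?_
      rw [ContinuousLinearMap.comp_apply, ContinuousLinearMap.comp_apply, ← map_add]
      simpa using hq
    obtain ⟨e1, e2⟩ := Disc.fr_iff.1 (a2 m hm) _ _ (J.symm.map_eq_zero_iff.1 e)
    refine Prod.ext ((hΘ m trivial).2.injective (e1.trans (map_zero _).symm)) ?_
    have e3 : s * q.2 1 = 0 := congrArg Complex.im e2
    ext k; fin_cases k
    · exact congrArg Complex.re e2
    · exact (mul_eq_zero.1 e3).resolve_left fun c => by simp [c] at s1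

end Pool.Agent.MP_e1dc65_gt.T

end
end MrgPart1

-- marker of a merged file
example : 731051 + 335228 = 731051 + 335228 := rfl
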